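import Pool.Agent.Dess.Dede

/-!
# The Chinese remainder theorem
-/

set_option autoImplicit false

noncomputable section

namespace Pool.Agent.Dess

open Pool.Agent.ZCyc Polynomial
open scoped Classical

variable {k F : Type} [Field k] [IsAlgClosed k] [CharZero k] [Field F] [Algebra k F]

private theorem crt_inv_mem {v : Place k F} {s : F} (hs : ¬ v.Vanishes s) : s⁻¹ ∈ v.ring := by
  by_contra h
  exact hs ((v.vanishes_iff_or s).2 (Or.inr h))

private theorem crt_at {v : Place k F} (hF : IsCurve k F) {s : F} (hs : s ∈ v.ring)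
    (hs0 : ¬ v.Vanishes s) : ∃ c : k, c ≠ 0 ∧ v.Vanishes (algebraMap k F c⁻¹ * s - 1) := by
  obtain ⟨c, hc⟩ := exists_at hF v hs
  have hc0 : c ≠ 0 := by
    rintro rfl
    exact hs0 (Place.at_zero_iff.1 hc)
  refine ⟨c, hc0, ?_⟩
  have h := (Place.at_const (v := v) c⁻¹).mul hc
  rw [inv_mul_cancel₀ hc0] at h
  unfold Place.At at h
  rwa [map_one] at h

/-- the ideal of the integral closure of `k[w]` given by a place -/
private def crtIdeal {w : F} (v : Place k F) (hv : w ∈ v.ring) :
    Ideal (integralClosure (Algebra.adjoin k {w}) F) where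
  carrier := {b | v.Vanishes (b : F)}
  add_mem' := fun ha hb => Place.Vanishes.add v ha hb
  zero_mem' := v.vanishes_zero
  smul_mem' := fun c b hb => by
    have hc : (c : F) ∈ v.ring := int_mem v hv c.2
    exact Place.Vanishes.mul' v hb hc

private theorem crt_mem {w : F} {v : Place k F} {hv : w ∈ v.ring}
    {b : integralClosure (Algebra.adjoin k {w}) F} :
    b ∈ crtIdeal v hv ↔ v.Vanishes (b : F) := Iff.rfl

private theorem crt_const_mem {w : F} (c : k) :
    IsIntegral (Algebra.adjoin k {w}) (algebraMap k F c) := by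
  have h : algebraMap k F c = algebraMap (Algebra.adjoin k {w}) F
      (algebraMap k (Algebra.adjoin k {w}) c) := rfl
  rw [h]
  exact isIntegral_algebraMap

private theorem crt_exists_notMem (hF : IsCurve k F) {w : F} (hw : Transcendental k w)
    {v v' : Place k F} (hv : w ∈ v.ring) (hv' : w ∈ v'.ring) (hne : v ≠ v') :
    ∃ b : F, IsIntegral (Algebra.adjoin k {w}) b ∧ v.Vanishes b ∧ ¬ v'.Vanishes b := by
  by_contra hcon
  push Not at hcon
  apply hne
  symm
  apply place_le hF
  intro f hf
  obtain ⟨b, s, hb, hs, hs0, rfl⟩ := exists_frac hF hw v' hv' hf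
  have h1 : ¬ v.Vanishes s := fun h => hs0 (hcon s hs h)
  rw [div_eq_mul_inv]
  exact mul_mem (int_mem v hv hb) (crt_inv_mem h1)

private theorem crt_coprime (hF : IsCurve k F) {w : F} (hw : Transcendental k w)
    {v v' : Place k F} (hv : w ∈ v.ring) (hv' : w ∈ v'.ring) (hne : v ≠ v') :
    IsCoprime (crtIdeal v hv) (crtIdeal v' hv') := by
  obtain ⟨b, hb, hbv, hbv'⟩ := crt_exists_notMem hF hw hv hv' hne
  obtain ⟨c, hc0, hc⟩ := crt_at hF (int_mem v' hv' hb) hbv'
  let b' : integralClosure (Algebra.adjoin k {w}) F :=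
    ⟨algebraMap k F c⁻¹ * b, (crt_const_mem _).mul hb⟩
  rw [Ideal.isCoprime_iff_exists]
  refine ⟨b', ?_, 1 - b', ?_, by ring⟩
  · exact Place.Vanishes.mul' v hbv (v.const_mem _)
  · have h := Place.Vanishes.neg v' hc
    have e : ((1 - b' : integralClosure (Algebra.adjoin k {w}) F) : F) =
        -(algebraMap k F c⁻¹ * b - 1) := by
      rw [neg_sub]
      rfl
    show v'.Vanishes _
    rw [e]
    exact h

/-- elements of the powers of the ideal are divisible by powers of a uniformizer -/
private theorem crt_pow {w : F} {v : Place k F} (hv : w ∈ v.ring) {π : F} (hπ : IsUnif v π)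
    (n : ℕ) : ∀ x ∈ (crtIdeal v hv) ^ n, ((x : F) / π ^ n) ∈ v.ring := by
  induction n with
  | zero =>
    intro x _
    rw [pow_zero, div_one]
    exact int_mem v hv x.2
  | succ n ih =>
    intro x hx
    rw [pow_succ] at hx
    refine Submodule.mul_induction_on hx (fun a ha b hb => ?_) (fun a b ha hb => ?_)
    · have h1 := ih a ha
      have h2 := hπ.2.2 _ hb
      have e : ((a * b : integralClosure (Algebra.adjoin k {w}) F) : F) / π ^ (n + 1) =
          (a : F) / π ^ n * ((b : F) / π) := by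
        rw [pow_succ]
        push_cast
        rw [mul_div_mul_comm]
      rw [e]
      exact mul_mem h1 h2
    · have e : ((a + b : integralClosure (Algebra.adjoin k {w}) F) : F) / π ^ (n + 1) =
          (a : F) / π ^ (n + 1) + (b : F) / π ^ (n + 1) := by
        push_cast
        rw [add_div]
      rw [e]
      exact add_mem ha hb

/-- approximation by integral elements at one place -/
private theorem crt_one (hF : IsCurve k F) {w : F} (hw : Transcendental k w) {v : Place k F}
    (hv : w ∈ v.ring) (n : ℕ) {f : F} (hf : f ∈ v.ring) :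
    ∃ b : integralClosure (Algebra.adjoin k {w}) F, ∀ π, IsUnif v π →
      ((b : F) - f) / π ^ n ∈ v.ring := by
  obtain ⟨a, s, ha, hs, hs0, rfl⟩ := exists_frac hF hw v hv hf
  obtain ⟨c, hc0, hc⟩ := crt_at hF (int_mem v hv hs) hs0
  let s' : integralClosure (Algebra.adjoin k {w}) F := ⟨s, hs⟩
  let a' : integralClosure (Algebra.adjoin k {w}) F := ⟨a, ha⟩
  let e : integralClosure (Algebra.adjoin k {w}) F := ⟨algebraMap k F c⁻¹, crt_const_mem _⟩
  have hd : (1 - e * s') ∈ crtIdeal v hv := by
    have h := Place.Vanishes.neg v hc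
    have e1 : ((1 - e * s' : integralClosure (Algebra.adjoin k {w}) F) : F) =
        -(algebraMap k F c⁻¹ * s - 1) := by
      rw [neg_sub]
      rfl
    show v.Vanishes _
    rw [e1]
    exact h
  have hdvd : s' ∣ 1 - (1 - e * s') ^ n := by
    have h1 : (1 - (1 - e * s')) ∣ 1 ^ n - (1 - e * s') ^ n := sub_dvd_pow_sub_pow _ _ n
    rw [one_pow, sub_sub_cancel] at h1
    exact (Dvd.intro_left e rfl).trans h1
  obtain ⟨u, hu⟩ := hdvd
  refine ⟨a' * u, fun π hπ => ?_⟩
  have h2 := crt_pow hv hπ n _ (Ideal.pow_mem_pow hd n)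
  have hs1 : s ≠ 0 := by
    rintro rfl
    exact hs0 v.vanishes_zero
  have h3 : (((1 - e * s') ^ n : integralClosure (Algebra.adjoin k {w}) F) : F) =
      1 - s * (u : F) := by
    have h4 : (1 - e * s') ^ n = 1 - s' * u := by rw [← hu]; ring
    rw [h4]
    push_cast
    rfl
  rw [h3] at h2
  have h5 : (((a' * u : integralClosure (Algebra.adjoin k {w}) F) : F) - a / s) / π ^ n =
      -(a / s) * ((1 - s * (u : F)) / π ^ n) := by
    have h6 : ((a' * u : integralClosure (Algebra.adjoin k {w}) F) : F) = a * (u : F) := by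
      push_cast
      rfl
    rw [h6]
    field_simp
    ring
  rw [h5]
  exact mul_mem (neg_mem hf) h2

theorem crt (hF : IsCurve k F) {w : F} (hw : Transcendental k w) (S : Finset (Place k F))
    (hS : ∀ v ∈ S, w ∈ v.ring) (n : ℕ) (f : Place k F → F) (hf : ∀ v ∈ S, f v ∈ v.ring) :
    ∃ b : F, IsIntegral (Algebra.adjoin k {w}) b ∧
      ∀ v ∈ S, ∀ π, IsUnif v π → (b - f v) / π ^ n ∈ v.ring := by
  have h1 : ∀ v : Place k F, ∃ b : integralClosure (Algebra.adjoin k {w}) F, v ∈ S →
      ∀ π, IsUnif v π → ((b : F) - f v) / π ^ n ∈ v.ring := by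
    intro v
    by_cases hv : v ∈ S
    · obtain ⟨b, hb⟩ := crt_one hF hw (hS v hv) n (hf v hv)
      exact ⟨b, fun _ => hb⟩
    · exact ⟨0, fun h => absurd h hv⟩
  choose x hx using h1
  have hco : Pairwise (Function.onFun IsCoprime fun v : {v // v ∈ S} =>
      (crtIdeal v.1 (hS v.1 v.2)) ^ n) := by
    intro v v' hne
    exact (crt_coprime hF hw (hS v.1 v.2) (hS v'.1 v'.2) fun h => hne (Subtype.ext h)).pow
  obtain ⟨b, hb⟩ := Ideal.exists_forall_sub_mem_ideal hco fun v => x v.1
  refine ⟨b, b.2, fun v hv π hπ => ?_⟩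
  have h2 := hb ⟨v, hv⟩
  have h3 := crt_pow (hS v hv) hπ n _ h2
  have h4 := hx v hv π hπ
  have e : ((b : F) - f v) / π ^ n =
      ((b - x v : integralClosure (Algebra.adjoin k {w}) F) : F) / π ^ n +
        ((x v : F) - f v) / π ^ n := by
    push_cast
    rw [← add_div]
    ring
  rw [e]
  exact add_mem h3 h4

theorem exists_sep (hF : IsCurve k F) (v : Place k F) (S : Finset (Place k F)) (hv : v ∉ S) :
    ∃ f, v.Vanishes f ∧ ∀ w ∈ S, w.At f 1 := by
  obtain ⟨t, ht, hfin⟩ := id hF
  -- a constant which is not a value of `t` at the places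
  have hval : ∀ u : Place k F, ∃ c : k, ∀ d, u.At t d → d = c := by
    intro u
    by_cases h : ∃ c, u.At t c
    · obtain ⟨c, hc⟩ := h
      exact ⟨c, fun d hd => hd.unique hc⟩
    · exact ⟨0, fun d hd => absurd ⟨d, hd⟩ h⟩
  choose c₀ hc₀ using hval
  haveI : Infinite k := IsAlgClosed.instInfinite
  obtain ⟨c, hc⟩ := Infinite.exists_notMem_finset ((insert v S).image c₀)
  have hne : ∀ u ∈ insert v S, ∀ d, u.At t d → d ≠ c := by
    intro u hu d hd h
    apply hc
    rw [← h, hc₀ u d hd]
    exact Finset.mem_image_of_mem _ hu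
  set w : F := (t - algebraMap k F c)⁻¹ with hw
  have hreg : ∀ u ∈ insert v S, w ∈ u.ring := by
    intro u hu
    apply crt_inv_mem
    intro h
    exact hne u hu c h rfl
  have hwt : Transcendental k w := by
    intro hal
    apply ht
    have h1 : IsAlgebraic k (t - algebraMap k F c) := by
      have := hal.inv
      rwa [hw, inv_inv] at this
    have h2 := h1.add (isAlgebraic_algebraMap c)
    rwa [sub_add_cancel] at h2
  obtain ⟨b, -, hb⟩ := crt hF hwt (insert v S) hreg 1 (fun u => if u = v then 0 else 1)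
    (fun u _ => by
      split_ifs
      · exact zero_mem _
      · exact one_mem _)
  refine ⟨b, ?_, fun u hu => ?_⟩
  · obtain ⟨π, hπ⟩ := exists_unif hF v
    have h1 := hb v (Finset.mem_insert_self v S) π hπ
    rw [if_pos rfl, sub_zero, pow_one] at h1
    have h2 := Place.Vanishes.mul' v hπ.2.1 h1
    rwa [div_mul_cancel₀ _ hπ.1] at h2
  · obtain ⟨π, hπ⟩ := exists_unif hF u
    have h1 := hb u (Finset.mem_insert_of_mem hu) π hπ
    have hne' : u ≠ v := fun h => hv (h ▸ hu)
    rw [if_neg hne', pow_one] at h1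
    have h2 := Place.Vanishes.mul' u hπ.2.1 h1
    rw [div_mul_cancel₀ _ hπ.1] at h2
    unfold Place.At
    rwa [map_one]

end Pool.Agent.Dess
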