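import Pool.Agent.Dess.CRT

/-!
# A function with a single pole (an elementary form of the theorem of Riemann)
-/

set_option autoImplicit false

noncomputable section

namespace Pool.Agent.Dess

open Pool.Agent.ZCyc Polynomial Module
open scoped Classical IntermediateField.algebraAdjoinAdjoin

section Pole

variable {k F : Type} [Field k] [IsAlgClosed k] [CharZero k] [Field F] [Algebra k F]

/-- elements which are algebraic over the constants are constant -/
private lemma pole_transc {f : F} (hf : ∀ c : k, f ≠ algebraMap k F c) : Transcendental k f := by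
  intro h
  have h1 : IsIntegral k f := h.isIntegral
  have h2 : (minpoly k f).degree = 1 :=
    IsAlgClosed.degree_eq_one_of_irreducible k (minpoly.irreducible h1)
  rw [minpoly.degree_eq_one_iff] at h2
  obtain ⟨c, hc⟩ := h2
  exact hf c hc.symm

/-- one condition cuts the dimension down by at most one -/
private lemma pole_step (hF : IsCurve k F) {v : Place k F} {π : F} (hπ : IsUnif v π) (M : ℕ)
    (V : Submodule k F) [FiniteDimensional k V] (hV : ∀ f ∈ V, f * π ^ (M + 1) ∈ v.ring) :
    ∃ V' ≤ V, finrank k V ≤ finrank k V' + 1 ∧ ∀ f ∈ V', f * π ^ M ∈ v.ring := by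
  have hex : ∀ f : V, ∃ c, v.At ((f : F) * π ^ (M + 1)) c := fun f => exists_at hF v (hV f f.2)
  choose l hl using hex
  let L : V →ₗ[k] k :=
    { toFun := l
      map_add' := by
        intro f g
        apply (hl (f + g)).unique
        have := (hl f).add (hl g)
        rwa [← add_mul] at this
      map_smul' := by
        intro c f
        apply (hl (c • f)).unique
        have := (Place.at_const (v := v) c).mul (hl f)
        rw [← mul_assoc, ← Algebra.smul_def] at this
        simpa using this }
  refine ⟨(LinearMap.ker L).map V.subtype, Submodule.map_subtype_le V _, ?_, ?_⟩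
  · rw [Submodule.finrank_map_subtype_eq, ← LinearMap.finrank_range_add_finrank_ker L, add_comm]
    have h1 := Submodule.finrank_le (LinearMap.range L)
    rw [Module.finrank_self] at h1
    omega
  · rintro f ⟨g, hg, rfl⟩
    have h1 : l g = 0 := hg
    have h2 := hl g
    rw [h1, Place.at_zero_iff] at h2
    have h3 := hπ.2.2 _ h2
    have h4 : (g : F) * π ^ (M + 1) / π = (g : F) * π ^ M := by
      rw [pow_succ, ← mul_assoc, mul_div_assoc, div_self hπ.1, mul_one]
    rw [h4] at h3
    exact h3

/-- a bounded pole at one place is removed by finitely many conditions -/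
private lemma pole_steps (hF : IsCurve k F) {v : Place k F} {π : F} (hπ : IsUnif v π) (M : ℕ) :
    ∀ (V : Submodule k F) [FiniteDimensional k V], (∀ f ∈ V, f * π ^ M ∈ v.ring) →
      ∃ V' ≤ V, finrank k V ≤ finrank k V' + M ∧ ∀ f ∈ V', f ∈ v.ring := by
  induction M with
  | zero =>
    intro V _ hV
    refine ⟨V, le_rfl, by omega, fun f hf => ?_⟩
    simpa using hV f hf
  | succ M ih =>
    intro V _ hV
    obtain ⟨V₁, h1, h2, h3⟩ := pole_step hF hπ M V hV
    haveI : FiniteDimensional k V₁ := Submodule.finiteDimensional_of_le h1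
    obtain ⟨V', h4, h5, h6⟩ := ih V₁ h3
    exact ⟨V', h4.trans h1, by omega, h6⟩

/-- bounded poles at finitely many places are removed by finitely many conditions -/
private lemma pole_places (hF : IsCurve k F) {π : Place k F → F} (hπ : ∀ v, IsUnif v (π v))
    (M : Place k F → ℕ) (T : Finset (Place k F)) :
    ∀ (V : Submodule k F) [FiniteDimensional k V],
      (∀ v ∈ T, ∀ f ∈ V, f * π v ^ M v ∈ v.ring) →
      ∃ V' ≤ V, finrank k V ≤ finrank k V' + ∑ v ∈ T, M v ∧ ∀ f ∈ V', ∀ v ∈ T, f ∈ v.ring := by
  induction T using Finset.induction_on with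
  | empty =>
    intro V _ hV
    exact ⟨V, le_rfl, by simp, by simp⟩
  | insert a T ha ih =>
    intro V _ hV
    obtain ⟨V₁, h1, h2, h3⟩ := ih V fun v hv => hV v (Finset.mem_insert_of_mem hv)
    haveI : FiniteDimensional k V₁ := Submodule.finiteDimensional_of_le h1
    obtain ⟨V', h4, h5, h6⟩ := pole_steps hF (hπ a) (M a) V₁
      fun f hf => hV a (Finset.mem_insert_self a T) f (h1 hf)
    refine ⟨V', h4.trans h1, ?_, ?_⟩
    · rw [Finset.sum_insert ha]
      omega
    · intro f hf v hv
      rcases Finset.mem_insert.1 hv with rfl | hv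
      · exact h6 f hf
      · exact h3 f (h4 hf) v hv

/-- `w ^ d * p(1/w)` at a zero of `w` -/
private lemma pole_rev {u : Place k F} {w x : F} (hx : x = w⁻¹) (hw0 : w ≠ 0)
    (hw : u.Vanishes w) {p : k[X]} {d : ℕ} (hp : p.degree < (d + 1 : ℕ)) :
    u.At (w ^ d * aeval x p) (p.coeff d) := by
  have h1 : w ^ d * aeval x p = ∑ l ∈ Finset.range (d + 1),
      algebraMap k F (p.coeff l) * w ^ (d - l) := by
    rw [aeval_eq_sum_range' (n := d + 1), Finset.mul_sum]
    · apply Finset.sum_congr rfl
      intro l hl
      have hl' : l ≤ d := by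
        have := Finset.mem_range.1 hl
        omega
      rw [Algebra.smul_def, hx]
      have : w ^ d = w ^ (d - l) * w ^ l := by rw [← pow_add]; congr 1; omega
      rw [this, inv_pow]
      have hwl : w ^ l ≠ 0 := pow_ne_zero _ hw0
      field_simp
    · by_cases h0 : p = 0
      · rw [h0]
        simp
      · rw [Polynomial.natDegree_lt_iff_degree_lt h0]
        exact hp
  rw [h1, Finset.sum_range_succ]
  have h2 : u.At (∑ l ∈ Finset.range d, algebraMap k F (p.coeff l) * w ^ (d - l))
      (∑ l ∈ Finset.range d, p.coeff l * 0) := by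
    apply Place.At.sum
    intro l hl
    apply (Place.at_const _).mul
    rw [Place.at_zero_iff]
    apply hw.pow
    have := Finset.mem_range.1 hl
    omega
  have h3 := h2.add (Place.at_const (v := u) (p.coeff d))
  simpa using h3

private lemma pole_rev_zero {u : Place k F} {w x : F} (hx : x = w⁻¹) (hw0 : w ≠ 0)
    (hw : u.Vanishes w) {p : k[X]} {d : ℕ} (hp : p.degree < (d + 1 : ℕ)) (h0 : p.coeff d = 0) :
    w ^ d * aeval x p / w ∈ u.ring := by
  have h1 : p.degree < (d : ℕ) := by
    rw [Polynomial.degree_lt_iff_coeff_zero]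
    intro m hm
    rcases hm.eq_or_lt with rfl | hm
    · exact h0
    · exact (Polynomial.degree_lt_iff_coeff_zero p (d + 1)).1 hp m hm
  rcases d with _ | d
  · have h2 : p = 0 := by
      rw [← Polynomial.degree_eq_bot]
      exact Nat.WithBot.lt_zero_iff.1 (by simpa using h1)
    rw [h2]
    simp
  · have h2 := (pole_rev hx hw0 hw h1).mem
    convert h2 using 1
    rw [pow_succ]
    field_simp

/-- the inequality `∑ e_v ≤ n` for the poles of a function -/
lemma pole_fund (hF : IsCurve k F) {w x : F} (hxw : x = w⁻¹) (hw0 : w ≠ 0)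
    (hw : Transcendental k w) (hx : Transcendental k x) (S : Finset (Place k F))
    (hS : ∀ v ∈ S, v.Vanishes w) {π : Place k F → F} (hπ : ∀ v, IsUnif v (π v))
    (e : Place k F → ℕ) (he : ∀ v ∈ S, w / π v ^ e v ∈ v.ring) :
    ∑ v ∈ S, e v ≤ finrank (IntermediateField.adjoin k {x}) F := by
  have := fin_adjoin hF hx
  set m := S.sup e with hm
  have hem : ∀ v ∈ S, e v ≤ m := fun v hv => Finset.le_sup hv
  have hex : ∀ i : (Σ v : S, Fin (e v)), ∃ b : F, ∀ v ∈ S,
      (b - if v = i.1 then π i.1 ^ (i.2 : ℕ) else 0) / π v ^ m ∈ v.ring := by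
    intro i
    obtain ⟨b, -, hb⟩ := crt hF hw S (fun v hv => (hS v hv).mem) m
      (fun v => if v = i.1 then π i.1 ^ (i.2 : ℕ) else 0) (by
        intro v hv
        split_ifs with h
        · subst h
          exact pow_mem (hπ _).2.1.mem _
        · exact zero_mem _)
    exact ⟨b, fun v hv => hb v hv _ (hπ v)⟩
  choose b hb using hex
  have key : ∀ (d : ℕ) (p : (Σ v : S, Fin (e v)) → k[X]),
      (∀ i, (p i).degree < ((d + 1 : ℕ) : WithBot ℕ)) →
      ∑ i, aeval x (p i) * b i = 0 → ∀ (v : S) (j : ℕ) (hj : j < e v),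
        (p ⟨v, ⟨j, hj⟩⟩).coeff d = 0 := by
    intro d p hp hsum v j
    induction j using Nat.strong_induction_on with
    | _ j ih =>
    intro hj
    have hπ0 : π v ≠ 0 := (hπ v).1
    have hA : ∀ i, (v : Place k F).At (w ^ d * aeval x (p i)) ((p i).coeff d) :=
      fun i => pole_rev hxw hw0 (hS v v.2) (hp i)
    have hterm : ∀ i : (Σ v : S, Fin (e v)), (v : Place k F).At
        (w ^ d * aeval x (p i) * b i / π v ^ j)
        (if i = ⟨v, ⟨j, hj⟩⟩ then (p i).coeff d else 0) := by
      rintro ⟨u, j', hj'⟩
      have hbv := hb ⟨u, ⟨j', hj'⟩⟩ v v.2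
      have hmj : j < m := lt_of_lt_of_le hj (hem v v.2)
      have hpm : π (v : Place k F) ^ m = π v ^ (m - j) * π v ^ j := by
        rw [← pow_add]
        congr 1
        omega
      have hvan : (v : Place k F).Vanishes (π v ^ (m - j)) :=
        (hπ v).2.1.pow _ (by omega)
      by_cases huv : v = u
      · subst huv
        rw [if_pos rfl] at hbv
        set r := (b ⟨v, ⟨j', hj'⟩⟩ - π v ^ j') / π v ^ m with hr
        have hbr : b ⟨v, ⟨j', hj'⟩⟩ = π v ^ j' + r * π v ^ m := by
          rw [hr]
          field_simp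
          ring
        rcases lt_trichotomy j' j with hlt | heq | hgt
        · rw [if_neg (by
            intro h
            simp only [Sigma.mk.injEq, heq_eq_eq, true_and, Fin.mk.injEq] at h
            omega)]
          rw [Place.at_zero_iff]
          have h1 := pole_rev_zero hxw hw0 (hS v v.2) (hp ⟨v, ⟨j', hj'⟩⟩) (ih j' hlt hj')
          have h2 : w ^ d * aeval x (p ⟨v, ⟨j', hj'⟩⟩) * b ⟨v, ⟨j', hj'⟩⟩ / π v ^ j =
              π v ^ (e v - j) * ((w ^ d * aeval x (p ⟨v, ⟨j', hj'⟩⟩) / w) *
                ((w / π v ^ e v) * b ⟨v, ⟨j', hj'⟩⟩)) := by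
            have h3 : π (v : Place k F) ^ e v = π v ^ (e v - j) * π v ^ j := by
              rw [← pow_add]
              congr 1
              omega
            rw [h3]
            field_simp
          rw [h2]
          apply Place.Vanishes.mul
          · exact (hπ v).2.1.pow _ (by omega)
          · refine mul_mem h1 (mul_mem (he v v.2) ?_)
            rw [hbr]
            exact add_mem (pow_mem (hπ v).2.1.mem _) (mul_mem hbv (pow_mem (hπ v).2.1.mem _))
        · subst heq
          rw [if_pos rfl]
          have h1 : b ⟨v, ⟨j', hj'⟩⟩ / π v ^ j' = algebraMap k F 1 + π v ^ (m - j') * r := by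
            rw [hbr, hpm, map_one]
            field_simp
          have h2 : (v : Place k F).At (b ⟨v, ⟨j', hj'⟩⟩ / π v ^ j') 1 := by
            rw [h1]
            have := (Place.at_const (v := (v : Place k F)) (1 : k)).add
              (Place.at_zero_iff.2 (hvan.mul _ hbv))
            simpa using this
          have h3 := (hA ⟨v, ⟨j', hj'⟩⟩).mul h2
          rw [mul_one, ← mul_div_assoc] at h3
          exact h3
        · rw [if_neg (by
            intro h
            simp only [Sigma.mk.injEq, heq_eq_eq, true_and, Fin.mk.injEq] at h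
            omega)]
          rw [Place.at_zero_iff, mul_div_assoc]
          apply Place.Vanishes.mul' _ _ (hA _).mem
          have h1 : b ⟨v, ⟨j', hj'⟩⟩ / π v ^ j = π v ^ (j' - j) + π v ^ (m - j) * r := by
            have h3 : π (v : Place k F) ^ j' = π v ^ (j' - j) * π v ^ j := by
              rw [← pow_add]
              congr 1
              omega
            rw [hbr, hpm, h3]
            field_simp
          rw [h1]
          exact ((hπ v).2.1.pow _ (by omega)).add _ (hvan.mul _ hbv)
      · rw [if_neg (by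
          intro h
          simp only [Sigma.mk.injEq] at h
          exact huv h.1.symm)]
        rw [if_neg (by
          intro h
          exact huv (Subtype.ext h)), sub_zero] at hbv
        rw [Place.at_zero_iff, mul_div_assoc]
        apply Place.Vanishes.mul' _ _ (hA _).mem
        have h1 : b ⟨u, ⟨j', hj'⟩⟩ / π v ^ j = π v ^ (m - j) * (b ⟨u, ⟨j', hj'⟩⟩ / π v ^ m) := by
          rw [hpm]
          field_simp
        rw [h1]
        exact hvan.mul _ hbv
    have hs := Place.At.sum (s := Finset.univ) fun i _ => hterm i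
    have h0 : ∑ i : (Σ v : S, Fin (e v)), w ^ d * aeval x (p i) * b i / π v ^ j = 0 := by
      rw [← Finset.sum_div]
      have : ∑ i : (Σ v : S, Fin (e v)), w ^ d * aeval x (p i) * b i =
          w ^ d * ∑ i, aeval x (p i) * b i := by
        rw [Finset.mul_sum]
        exact Finset.sum_congr rfl fun i _ => by ring
      rw [this, hsum]
      simp
    rw [h0, Finset.sum_ite_eq'] at hs
    simp only [Finset.mem_univ, if_true] at hs
    exact hs.unique (Place.at_zero_iff.2 (Place.vanishes_zero _))
  have key2 : ∀ (d : ℕ) (p : (Σ v : S, Fin (e v)) → k[X]),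
      (∀ i, (p i).degree < ((d : ℕ) : WithBot ℕ)) →
      ∑ i, aeval x (p i) * b i = 0 → ∀ i, p i = 0 := by
    intro d
    induction d with
    | zero =>
      intro p hp _ i
      rw [← Polynomial.degree_eq_bot]
      exact Nat.WithBot.lt_zero_iff.1 (by simpa using hp i)
    | succ d ih =>
      intro p hp hsum
      apply ih p _ hsum
      intro i
      rw [Polynomial.degree_lt_iff_coeff_zero]
      intro l hl
      rcases hl.eq_or_lt with rfl | hl
      · exact key d p hp hsum i.1 i.2 i.2.2
      · exact (Polynomial.degree_lt_iff_coeff_zero (p i) (d + 1)).1 (hp i) l hl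
  have hli : LinearIndependent (IntermediateField.adjoin k {x}) b := by
    rw [← LinearIndependent.iff_fractionRing (R := Algebra.adjoin k {x}),
      Fintype.linearIndependent_iff]
    intro g hg
    have hp : ∀ i, ∃ p : k[X], aeval x p = (g i : F) := by
      intro i
      have h : ((g i : Algebra.adjoin k {x}) : F) ∈ (aeval x : k[X] →ₐ[k] F).range := by
        rw [← Algebra.adjoin_singleton_eq_range_aeval]
        exact (g i).2
      exact h
    choose p hp using hp
    have h1 : ∀ i, p i = 0 := by
      apply key2 (Finset.univ.sup fun i => (p i).natDegree + 1) p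
      · intro i
        have h2 : (p i).natDegree + 1 ≤ Finset.univ.sup fun i => (p i).natDegree + 1 :=
          Finset.le_sup (f := fun i => (p i).natDegree + 1) (Finset.mem_univ i)
        calc (p i).degree ≤ ((p i).natDegree : WithBot ℕ) := degree_le_natDegree
          _ < _ := by
            exact_mod_cast (show (p i).natDegree <
              Finset.univ.sup fun i => (p i).natDegree + 1 by omega)
      · rw [← hg]
        apply Finset.sum_congr rfl
        intro i _
        rw [hp i, Subalgebra.smul_def, smul_eq_mul]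
    intro i
    apply Subtype.ext
    rw [← hp i, h1 i]
    simp
  have h1 := hli.fintype_card_le_finrank
  rw [Fintype.card_sigma] at h1
  simp only [Fintype.card_fin] at h1
  rwa [Finset.sum_coe_sort S e] at h1

/-- the functions `f` for which `f * a` is regular at `v` -/
private def poleSub (v : Place k F) (a : F) : Submodule k F where
  carrier := {f | f * a ∈ v.ring}
  add_mem' := by
    intro f g hf hg
    rw [Set.mem_ofPred_eq, add_mul]
    exact add_mem hf hg
  zero_mem' := by
    rw [Set.mem_ofPred_eq, zero_mul]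
    exact zero_mem _
  smul_mem' := by
    intro c f hf
    rw [Set.mem_ofPred_eq, Algebra.smul_def, mul_assoc]
    exact mul_mem (v.const_mem c) hf

/-- powers of a function with a zero kill the poles -/
private lemma pole_clear (hF : IsCurve k F) {v : Place k F} {w π : F} (hπ : IsUnif v π)
    {e : ℕ} (he : 1 ≤ e) (hw : w / π ^ e ∈ v.ring) (f : F) : ∃ c : ℕ, w ^ c * f ∈ v.ring := by
  by_cases hf : f = 0
  · exact ⟨0, by rw [hf, mul_zero]; exact zero_mem _⟩
  obtain ⟨n, hn, -⟩ := exists_ord hF v hπ hf
  refine ⟨n.natAbs, ?_⟩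
  have h1 : w ^ n.natAbs * f = (w / π ^ e) ^ n.natAbs * (f / π ^ n) *
      π ^ ((e * n.natAbs : ℕ) + n : ℤ) := by
    have hπ0 := hπ.1
    rw [zpow_add₀ hπ0, zpow_natCast, div_pow, ← pow_mul]
    field_simp
  rw [h1]
  have h2 : (0 : ℤ) ≤ (e * n.natAbs : ℕ) + n := by
    have : (n.natAbs : ℤ) ≤ (e * n.natAbs : ℕ) := by
      exact_mod_cast Nat.le_mul_of_pos_left _ he
    omega
  obtain ⟨l, hl⟩ := Int.eq_ofNat_of_zero_le h2
  rw [hl, zpow_natCast]
  exact mul_mem (mul_mem (pow_mem hw _) hn) (pow_mem hπ.2.1.mem _)

private lemma pole_arith {N n₀ c E e₀ T d : ℕ} (hN : N = n₀ * c + 2) (h1 : T + e₀ = E)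
    (h2 : 1 ≤ e₀) (h3 : E ≤ n₀) (h4 : (N + 1) * n₀ ≤ d + T * (N + c)) : 2 ≤ d := by
  obtain ⟨q, rfl⟩ := Nat.exists_eq_add_of_le' (show 1 ≤ n₀ by omega)
  have h5 : T * (N + c) ≤ q * (N + c) := Nat.mul_le_mul_right _ (by omega)
  nlinarith

private lemma pole_identity {A B C : F} (hA : A ≠ 0) (hB : B ≠ 0) (hC : C ≠ 0) (b P : F) :
    A⁻¹ * b * P = B * (C * b) * (P / (B * A * C)) := by
  field_simp

theorem exists_single_pole (hF : IsCurve k F) (o : Place k F) :
    ∃ w : F, Transcendental k w ∧ ∀ v, v ≠ o → w ∈ v.ring := by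
  obtain ⟨w, hw⟩ := exists_unif hF o
  have hw0 : w ≠ 0 := hw.1
  have hconst : ∀ c : k, w ≠ algebraMap k F c := by
    intro c hc
    have hc0 : c ≠ 0 := by
      rintro rfl
      exact hw0 (by rw [hc, map_zero])
    apply o.const_unit hc0
    rw [← hc]
    exact hw.2.1
  have hwt : Transcendental k w := pole_transc hconst
  set x := w⁻¹ with hxw
  have hx0 : x ≠ 0 := inv_ne_zero hw0
  have hxt : Transcendental k x := by
    apply pole_transc
    intro c hc
    apply hconst c⁻¹
    rw [map_inv₀, ← hc, hxw, inv_inv]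
  have := fin_adjoin hF hxt
  obtain ⟨s, bb, hbb⟩ := FiniteDimensional.exists_is_basis_integral (Algebra.adjoin k {x})
    (IntermediateField.adjoin k {x}) F
  set n₀ := finrank (IntermediateField.adjoin k {x}) F with hn₀
  have hn₀' : n₀ = Fintype.card s := Module.finrank_eq_card_basis bb
  -- the places
  set S := (finite_pole hF hxt).toFinset with hSdef
  have hmemS : ∀ v, v ∈ S ↔ x ∉ v.ring := by
    intro v
    rw [hSdef, Set.Finite.mem_toFinset]
    rfl
  have hSw : ∀ v ∈ S, v.Vanishes w := by
    intro v hv
    rw [Place.vanishes_iff_or]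
    exact Or.inr ((hmemS v).1 hv)
  have hoS : o ∈ S := by
    rw [hmemS]
    have := (o.vanishes_iff_or w).1 hw.2.1
    exact this.resolve_left hw0
  choose π hπ using fun v => exists_unif hF v
  choose n hn1 hn2 using fun v => exists_ord hF v (hπ v) hw0
  have hnpos : ∀ v ∈ S, 1 ≤ n v := by
    intro v hv
    by_contra hlt
    push Not at hlt
    apply (hmemS v).1 hv
    have h1 : x = (w / π v ^ n v)⁻¹ * π v ^ (-n v) := by
      rw [hxw, zpow_neg, inv_div]
      have := zpow_ne_zero (n v) (hπ v).1
      field_simp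
    rw [h1]
    obtain ⟨l, hl⟩ := Int.eq_ofNat_of_zero_le (show (0 : ℤ) ≤ -n v by omega)
    rw [hl, zpow_natCast]
    exact mul_mem (hn2 v) (pow_mem (hπ v).2.1.mem _)
  set e : Place k F → ℕ := fun v => (n v).toNat with he
  have hepos : ∀ v ∈ S, 1 ≤ e v := by
    intro v hv
    have := hnpos v hv
    simp only [he]
    omega
  have hpe : ∀ v ∈ S, π v ^ n v = π v ^ e v := by
    intro v hv
    have := hnpos v hv
    rw [← zpow_natCast]
    congr 1
    simp only [he]
    omega
  have he1 : ∀ v ∈ S, w / π v ^ e v ∈ v.ring := by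
    intro v hv
    rw [← hpe v hv]
    exact hn1 v
  have he2 : ∀ v ∈ S, (w / π v ^ e v)⁻¹ ∈ v.ring := by
    intro v hv
    rw [← hpe v hv]
    exact hn2 v
  have hfund := pole_fund hF hxw hw0 hwt hxt S hSw hπ e he1
  -- bound for the poles of the basis
  have hc : ∃ c : ℕ, ∀ v ∈ S, ∀ i : s, w ^ c * bb i ∈ v.ring := by
    have h1 : ∀ (v : S) (i : s), ∃ c : ℕ, w ^ c * bb i ∈ (v : Place k F).ring :=
      fun v i => pole_clear hF (hπ v) (hepos v v.2) (he1 v v.2) _
    choose c hc using h1
    refine ⟨Finset.univ.sup fun p : S × s => c p.1 p.2, fun v hv i => ?_⟩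
    have h2 : c ⟨v, hv⟩ i ≤ Finset.univ.sup fun p : S × s => c p.1 p.2 :=
      Finset.le_sup (f := fun p : S × s => c p.1 p.2) (Finset.mem_univ (⟨v, hv⟩, i))
    obtain ⟨l, hl⟩ := Nat.exists_eq_add_of_le h2
    rw [hl, pow_add, mul_comm (w ^ _) (w ^ l), mul_assoc]
    exact mul_mem (pow_mem (hSw v hv).mem _) (hc ⟨v, hv⟩ i)
  obtain ⟨c, hc⟩ := hc
  -- the space of functions
  set N := n₀ * c + 2 with hN
  set V : Submodule k F := Submodule.span k
    (Set.range fun p : Fin (N + 1) × s => x ^ (p.1 : ℕ) * bb p.2) with hV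
  have hfin : finrank k V = (N + 1) * n₀ := by
    have hli : LinearIndependent k fun p : Fin (N + 1) × s => x ^ (p.1 : ℕ) * bb p.2 := by
      have h1 : LinearIndependent k fun l : Fin (N + 1) =>
          (IntermediateField.AdjoinSimple.gen k x) ^ (l : ℕ) := by
        rw [Fintype.linearIndependent_iff]
        intro g hg
        have h2 : aeval x (∑ l : Fin (N + 1), C (g l) * X ^ (l : ℕ)) = 0 := by
          have h3 := congrArg (algebraMap (IntermediateField.adjoin k {x}) F) hg
          rw [map_sum, map_zero] at h3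
          rw [map_sum, ← h3]
          apply Finset.sum_congr rfl
          intro l _
          rw [_root_.map_mul, aeval_C, map_pow, aeval_X, Algebra.smul_def, _root_.map_mul,
            map_pow]
          rfl
        have h4 := (transcendental_iff.1 hxt) _ h2
        intro l
        have h5 := congrArg (fun q => q.coeff (l : ℕ)) h4
        simp only [finsetSum_coeff, coeff_C_mul, coeff_X_pow, coeff_zero] at h5
        rw [Finset.sum_eq_single l] at h5
        · simpa using h5
        · intro l' _ hl'
          rw [if_neg (fun h => hl' (Fin.ext h).symm), mul_zero]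
        · intro h
          exact absurd (Finset.mem_univ l) h
      exact linearIndependent_smul h1 bb.linearIndependent
    rw [hV, finrank_span_eq_card hli, Fintype.card_prod, Fintype.card_fin, hn₀']
  have : FiniteDimensional k V := by
    rw [hV]
    exact FiniteDimensional.span_of_finite k (Set.finite_range _)
  set T := S.erase o with hT
  obtain ⟨V', h1, h2, h3⟩ := pole_places hF hπ (fun v => e v * (N + c)) T V (by
    intro v hvT f hf
    have hv : v ∈ S := Finset.mem_of_mem_erase hvT
    have hle : V ≤ poleSub v (π v ^ (e v * (N + c))) := by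
      rw [hV, Submodule.span_le]
      rintro _ ⟨⟨l, i⟩, rfl⟩
      change x ^ (l : ℕ) * bb i * π v ^ (e v * (N + c)) ∈ v.ring
      have hl : (l : ℕ) ≤ N := by
        have := l.2
        omega
      have h4 : x ^ (l : ℕ) * bb i * π v ^ (e v * (N + c)) =
          w ^ (N - l) * (w ^ c * bb i) * ((w / π v ^ e v)⁻¹) ^ (N + c) := by
        have hπ0 := (hπ v).1
        have h5 : w ^ N = w ^ (N - (l : ℕ)) * w ^ (l : ℕ) := by
          rw [← pow_add]
          congr 1
          omega
        have h6 : x ^ (l : ℕ) = (w ^ (l : ℕ))⁻¹ := inv_pow w _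
        rw [inv_div, div_pow, pow_mul, pow_add w N c, h5, h6]
        exact pole_identity (pow_ne_zero _ hw0) (pow_ne_zero _ hw0) (pow_ne_zero _ hw0) _ _
      rw [h4]
      exact mul_mem (mul_mem (pow_mem (hSw v hv).mem _) (hc v hv i)) (pow_mem (he2 v hv) _)
    exact hle hf)
  have hsumT : ∑ v ∈ T, e v + e o = ∑ v ∈ S, e v := Finset.sum_erase_add S e hoS
  have heo := hepos o hoS
  rw [hfin, ← Finset.sum_mul] at h2
  have hdim : 2 ≤ finrank k V' := pole_arith hN hsumT heo hfund h2
  have hne : ∃ f ∈ V', ∀ a : k, f ≠ algebraMap k F a := by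
    by_contra hcon
    push Not at hcon
    have hle : V' ≤ LinearMap.range (Algebra.linearMap k F) := by
      intro f hf
      obtain ⟨a, ha⟩ := hcon f hf
      exact ⟨a, ha.symm⟩
    have h4 := Submodule.finrank_mono hle
    have h5 := LinearMap.finrank_range_le (Algebra.linearMap k F)
    rw [Module.finrank_self] at h5
    omega
  obtain ⟨f, hf, hfc⟩ := hne
  refine ⟨f, pole_transc hfc, fun v hvo => ?_⟩
  by_cases hv : v ∈ S
  · exact h3 f hf v (Finset.mem_erase.2 ⟨hvo, hv⟩)
  · have hxv : x ∈ v.ring := by
      by_contra h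
      exact hv ((hmemS v).2 h)
    have hle : V ≤ poleSub v 1 := by
      rw [hV, Submodule.span_le]
      rintro _ ⟨⟨l, i⟩, rfl⟩
      change x ^ (l : ℕ) * bb i * 1 ∈ v.ring
      rw [mul_one]
      exact mul_mem (pow_mem hxv _) (int_mem v hxv (hbb i))
    have h4 : f * 1 ∈ v.ring := hle (h1 hf)
    rwa [mul_one] at h4

end Pole

end Pool.Agent.Dess
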