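import Pool.Agent.ZCyc.Basic

/-!
# Zero-cycles on products of curves over the algebraic numbers: definitions

A smooth projective curve over an algebraically closed field `k` of characteristic zero is given by
its function field `F` (`IsCurve k F`). Its points are the places of `F` over `k`
(`Pool.Agent.ZCyc.Place`): the valuation rings of `F` which contain `k` and are not equal to `F`.
`v.At f c` says that the function `f` has the value `c` at the point `v`.

A morphism from the curve with function field `F` to the product of the curves with function
fields `L i` is given by its components, which are constant or dominant, i.e. given by an embedding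
`L i → F` over `k` (`Pool.Agent.ZCyc.IsMorphism`).
-/

set_option autoImplicit false

noncomputable section

namespace Pool.Agent.Dess

open Pool.Agent.ZCyc

/-- The field of algebraic numbers. -/
abbrev QQ : Type := AlgebraicClosure ℚ

/-- The absolute Galois group of `ℚ`. -/
abbrev Gam : Type := QQ ≃ₐ[ℚ] QQ

section Curves

/-- `F` is the function field of a smooth projective curve over `k`: it is finite over `k(t)` for
some transcendental `t`. -/
def IsCurve (k F : Type) [Field k] [Field F] [Algebra k F] : Prop :=
  ∃ t : F, Transcendental k t ∧ FiniteDimensional (IntermediateField.adjoin k {t}) F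

variable {k : Type} {F : Type} [Field k] [Field F] [Algebra k F]

/-- `π` is a uniformizer at the point `v`: it vanishes at `v`, and every function which vanishes at
`v` is divisible by `π` in the local ring. -/
def IsUnif (v : Place k F) (π : F) : Prop :=
  π ≠ 0 ∧ v.Vanishes π ∧ ∀ g : F, v.Vanishes g → g / π ∈ v.ring

/-- The order of the function `g` at the point `v` is `n`: `g` is a unit times the `n`-th power of
a uniformizer. -/
def HasOrd (v : Place k F) (g : F) (n : ℤ) : Prop :=
  ∃ π : F, IsUnif v π ∧ g / π ^ n ∈ v.ring ∧ (g / π ^ n)⁻¹ ∈ v.ring

/-- The function `x` is unramified outside `0`, `1` and `∞`. -/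
def Unram (x : F) : Prop :=
  ∀ (v : Place k F) (c : k), v.At x c → c ≠ 0 → c ≠ 1 → IsUnif v (x - algebraMap k F c)

/-- The functions `x` and `y` satisfy the equation of the Fermat curve, and `x`, `y`, `1 / x` have
only simple zeros. If `x ^ n` is unramified outside `0`, `1`, `∞`, this means that the curve is an
étale covering of the Fermat curve. -/
def OverFermat (k : Type) {F : Type} [Field k] [Field F] [Algebra k F] (n : ℕ) (x y : F) : Prop :=
  x ^ n + y ^ n = 1 ∧ (∀ v : Place k F, v.Vanishes x → IsUnif v x) ∧
    (∀ v : Place k F, v.Vanishes y → IsUnif v y) ∧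
    ∀ v : Place k F, v.Vanishes x⁻¹ → IsUnif v x⁻¹

end Curves

section Cycles

variable {k : Type} [Field k] {ι : Type} (L : ι → Type) [∀ i, Field (L i)] [∀ i, Algebra k (L i)]

/-- `z` is the push-forward of the divisor of a rational function `g ≠ 0` on a smooth projective
curve, with function field `F`, by a morphism `φ` from this curve to the product of the curves with
function fields `L i`. -/
def DivOf (z : (∀ i, Place k (L i)) →₀ ℤ) : Prop :=
  ∃ (F : Type) (_ : Field F) (_ : Algebra k F) (φ : Place k F → ∀ i, Place k (L i)) (g : F)
    (S : Finset (Place k F)) (n : Place k F → ℤ),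
    IsCurve k F ∧ IsMorphism φ ∧ g ≠ 0 ∧ (∀ v ∈ S, HasOrd v g (n v)) ∧
      (∀ v ∉ S, HasOrd v g 0) ∧ z = ∑ v ∈ S, Finsupp.single (φ v) (n v)

/-- The zero-cycles on the product of the curves with function fields `L i` which are rationally
equivalent to zero. -/
def RatEq : AddSubgroup ((∀ i, Place k (L i)) →₀ ℤ) := AddSubgroup.closure {z | DivOf L z}

/-- The zero-cycle `z` is zero in the Chow group tensored with the rational numbers. -/
def RatTor (z : (∀ i, Place k (L i)) →₀ ℤ) : Prop := ∃ m : ℕ, 0 < m ∧ m • z ∈ RatEq L

end Cycles

/-- `Φ` is a morphism from the product of the curves with function fields `L i` to the product of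
the curves with function fields `L' j`, such that every component is constant or the composition
of a projection and a dominant morphism of curves. -/
def IsMor {k : Type} [Field k] {ι ι' : Type} {L : ι → Type} [∀ i, Field (L i)]
    [∀ i, Algebra k (L i)] {L' : ι' → Type} [∀ i, Field (L' i)] [∀ i, Algebra k (L' i)]
    (Φ : (∀ i, Place k (L i)) → ∀ j, Place k (L' j)) : Prop :=
  ∀ j, (∃ p, ∀ a, Φ a j = p) ∨
    ∃ (i : ι) (f : L' j →ₐ[k] L i), ∀ a, (Φ a j).ring = (a i).ring.comap (f : L' j →+* L i)

/-- The zero-cycle `z` on the product of the curves is in the kernel of the Albanese map: it has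
degree zero, and its push-forwards to all factors are rationally equivalent to zero. -/
def AlbKer {k : Type} [Field k] {ι : Type} (L : ι → Type) [∀ i, Field (L i)]
    [∀ i, Algebra k (L i)] (z : (∀ i, Place k (L i)) →₀ ℤ) : Prop :=
  (z.sum fun _ n => n) = 0 ∧
    ∀ i, (z.mapDomain fun p (_ : Unit) => p i) ∈ RatEq fun _ : Unit => L i

/-- A point of the product of two curves. -/
def pair {k : Type} [Field k] {L : Bool → Type} [∀ i, Field (L i)] [∀ i, Algebra k (L i)]
    (p : Place k (L false)) (q : Place k (L true)) : ∀ i, Place k (L i)
  | false => p
  | true => q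

/-- The zero-cycle `(P - P') × (Q - Q')` on a product of two curves. -/
def sym {k : Type} [Field k] {L : Bool → Type} [∀ i, Field (L i)] [∀ i, Algebra k (L i)]
    (P P' : Place k (L false)) (Q Q' : Place k (L true)) : (∀ i, Place k (L i)) →₀ ℤ :=
  Finsupp.single (pair P Q) 1 - Finsupp.single (pair P Q') 1 - Finsupp.single (pair P' Q) 1 +
    Finsupp.single (pair P' Q') 1

/-- The zero-cycle `(P - O) × (P - O)` on `D × D`. -/
def square {k F : Type} [Field k] [Field F] [Algebra k F] (P O : Place k F) :
    (Bool → Place k F) →₀ ℤ :=
  sym (L := fun _ => F) P O P O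

/-- Beilinson's prediction for zero-cycles on products of curves over number fields: the kernel of
the Albanese map is torsion for all products of smooth projective curves over the algebraic
numbers. -/
def ZeroCyclesConj : Prop :=
  ∀ (ι : Type) [Fintype ι] (L : ι → Type) [∀ i, Field (L i)] [∀ i, Algebra QQ (L i)],
    (∀ i, IsCurve QQ (L i)) → ∀ z : (∀ i, Place QQ (L i)) →₀ ℤ, AlbKer L z → RatTor L z

/-- All functions in the subfield `F₀` have rational values at the point `v` (or a pole). -/
def RationalAt {F : Type} [Field F] [Algebra QQ F] (F₀ : Subfield F) (v : Place QQ F) : Prop :=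
  ∀ f ∈ F₀, ∀ c : QQ, v.At f c → c ∈ Set.range (algebraMap ℚ QQ)

/-- `F` is the function field of a smooth projective curve `D`, which is defined over the rational
numbers: `F` is generated over the algebraic numbers by the subfield `F₀`. The points `P` and `O`
of `D` are rational. The function `β` lies in `F₀`, it vanishes at `P`, it has a pole at `O` and no
other pole, it is unramified outside `0`, `1` and `∞`, and its ramification index is two at all
points where it has the value `1`. -/
structure Dessin {F : Type} [Field F] [Algebra QQ F] (F₀ : Subfield F) (β : F)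
    (P O : Place QQ F) : Prop where
  curve : IsCurve QQ F
  gen : IntermediateField.adjoin QQ (F₀ : Set F) = ⊤
  mem : β ∈ F₀
  rat_P : RationalAt F₀ P
  rat_O : RationalAt F₀ O
  zero : P.Vanishes β
  pole : β ∉ O.ring
  reg : ∀ v, v ≠ O → β ∈ v.ring
  unram : Unram (k := QQ) β
  clean : ∀ v : Place QQ F, v.At β 1 → HasOrd v (β - 1) 2

/-- The reduced conjecture: the zero-cycle `(P - O) × (P - O)` is torsion in the Chow group of
`D × D` for all such data. -/
def DessinConj : Prop :=
  ∀ (F : Type) [Field F] [Algebra QQ F] (F₀ : Subfield F) (β : F) (P O : Place QQ F),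
    Dessin F₀ β P O → RatTor (fun _ : Bool => F) (square P O)

section Functions

/-- `Ω` is the field of all algebraic functions of the variable `t` over the algebraic numbers,
i.e. it is an algebraic closure of the field of rational functions of `t`. -/
structure IsAlgFun {Ω : Type} [Field Ω] [Algebra QQ Ω] (t : Ω) : Prop where
  transc : Transcendental QQ t
  closed : IsAlgClosed Ω
  alg : Algebra.IsAlgebraic (IntermediateField.adjoin QQ {t}) Ω

variable {Ω : Type} [Field Ω] [Algebra QQ Ω] (t : Ω)

/-- The field `F` of algebraic functions is a finite extension of the field of rational functions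
of `t`, and it is unramified outside `0`, `1` and `∞`. -/
structure Belyi (F : IntermediateField QQ Ω) : Prop where
  curve : IsCurve QQ F
  mem : t ∈ F
  unram : Unram (k := QQ) (⟨t, mem⟩ : F)

/-- The field `F` is moreover a Galois extension of the field of rational functions of `t`, and it
is unramified over the function field of a Fermat curve `x ^ n + y ^ n = 1`, where
`x ^ n = t`. -/
structure Fermat (F : IntermediateField QQ Ω) : Prop where
  belyi : Belyi t F
  galois : ∀ g : Ω ≃ₐ[QQ] Ω, g t = t → ∀ f ∈ F, g f ∈ F
  fermat : ∃ (n : ℕ) (x y : F), 0 < n ∧ (x : Ω) ^ n = t ∧ OverFermat QQ n x y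

/-- The point `p` of the curve with function field `F` lies below the place `P` of the field of
algebraic functions. -/
def Below {F : IntermediateField QQ Ω} (p : Place QQ F) (P : Place QQ Ω) : Prop :=
  p.ring = P.ring.comap (algebraMap F Ω)

/-- The zero-cycle `(p - o) × (p - o)` is torsion in the Chow group of `D × D`, where `D` is the
curve with function field `F`, and `p`, `o` are the points of `D` below `P` and `O`. -/
def CycleTor (P O : Place QQ Ω) (F : IntermediateField QQ Ω) : Prop :=
  ∀ p o : Place QQ F, Below p P → Below o O → RatTor (fun _ : Bool => F) (square p o)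

/-- The conjecture for one compatible system of zero-cycles: `P` and `O` are places of the field
of algebraic functions; the zero-cycle `(p - o) × (p - o)` is torsion for every finite
extension `F` of the field of rational functions, which is unramified outside `0`, `1`, `∞`. -/
def PairConj (P O : Place QQ Ω) : Prop :=
  ∀ F : IntermediateField QQ Ω, Belyi t F → CycleTor P O F

/-- The conjecture for one compatible system of zero-cycles, for arbitrarily large Galois étale
coverings of Fermat curves. -/
def CofinalConj (P O : Place QQ Ω) : Prop :=
  ∀ F : IntermediateField QQ Ω, Belyi t F →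
    ∃ F' : IntermediateField QQ Ω, F ≤ F' ∧ Fermat t F' ∧ CycleTor P O F'

end Functions

section Images

variable {ι : Type} (L : ι → Type) [∀ i, Field (L i)] [∀ i, Algebra QQ (L i)]

/-- The zero-cycle `w` is the image of a cycle `(P - O) × (P - O)` as in the structure `Dessin`
under a morphism. -/
def DessinCycle (w : (∀ i, Place QQ (L i)) →₀ ℤ) : Prop :=
  ∃ (F : Type) (_ : Field F) (_ : Algebra QQ F) (F₀ : Subfield F) (β : F) (P O : Place QQ F)
    (Φ : (Bool → Place QQ F) → ∀ i, Place QQ (L i)),
    Dessin F₀ β P O ∧ IsMor Φ ∧ w = (square P O).mapDomain Φ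

/-- The zero-cycle `w` is the image of the cycle `(p - o) × (p - o)`, for a Galois étale covering
of a Fermat curve, and the points `p`, `o` below the places `P`, `O`. -/
def PairCycle {Ω : Type} [Field Ω] [Algebra QQ Ω] (t : Ω) (P O : Place QQ Ω)
    (w : (∀ i, Place QQ (L i)) →₀ ℤ) : Prop :=
  ∃ (F : IntermediateField QQ Ω) (p o : Place QQ F)
    (Φ : (Bool → Place QQ F) → ∀ i, Place QQ (L i)),
    Fermat t F ∧ Below p P ∧ Below o O ∧ IsMor Φ ∧ w = (square p o).mapDomain Φ

end Images

end Pool.Agent.Dess
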