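import Pool.Agent.Dess.Defs
import Pool.Agent.ZCyc.Places

/-!
# Functoriality of rational equivalence
-/

set_option autoImplicit false

noncomputable section

namespace Pool.Agent.Dess

open Pool.Agent.ZCyc

section Func

variable {k : Type} [Field k] {ι ι' : Type} {L : ι → Type} [∀ i, Field (L i)]
  [∀ i, Algebra k (L i)] {L' : ι' → Type} [∀ i, Field (L' i)] [∀ i, Algebra k (L' i)]

theorem map_mem (Φ : (∀ i, Place k (L i)) → ∀ j, Place k (L' j)) (hΦ : IsMor Φ)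
    {z : (∀ i, Place k (L i)) →₀ ℤ} (hz : z ∈ RatEq L) : z.mapDomain Φ ∈ RatEq L' := by
  have hle : RatEq L ≤ (RatEq L').comap (Finsupp.mapDomain.addMonoidHom Φ) := by
    rw [RatEq, AddSubgroup.closure_le]
    rintro z ⟨F, _, _, φ, g, S, n, hF, hφ, hg, hS, hS', rfl⟩
    rw [SetLike.mem_coe, AddSubgroup.mem_comap]
    apply AddSubgroup.subset_closure
    refine ⟨F, _, _, Φ ∘ φ, g, S, n, hF, ?_, hg, hS, hS', ?_⟩
    · intro j
      rcases hΦ j with ⟨p, hp⟩ | ⟨i, f, hf⟩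
      · exact Or.inl ⟨p, fun v => hp (φ v)⟩
      · rcases hφ i with ⟨p, hp⟩ | ⟨f', hf'⟩
        · left
          obtain ⟨t, ht, _⟩ := hF
          obtain ⟨v₀, _⟩ := exists_place ht 0
          refine ⟨Φ (φ v₀) j, fun v => Place.ext ?_⟩
          rw [Function.comp_apply, hf, hf, hp, hp]
        · right
          refine ⟨f'.comp f, fun v => ?_⟩
          rw [Function.comp_apply, hf, hf']
          rfl
    · rw [map_sum]
      apply Finset.sum_congr rfl
      intro v _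
      exact Finsupp.mapDomain_single
  exact hle hz

theorem map_tor (Φ : (∀ i, Place k (L i)) → ∀ j, Place k (L' j)) (hΦ : IsMor Φ)
    {z : (∀ i, Place k (L i)) →₀ ℤ} (hz : RatTor L z) : RatTor L' (z.mapDomain Φ) := by
  obtain ⟨m, hm, hz⟩ := hz
  refine ⟨m, hm, ?_⟩
  have h := map_mem Φ hΦ hz
  have h1 : (m • z).mapDomain Φ = m • z.mapDomain Φ :=
    map_nsmul (Finsupp.mapDomain.addMonoidHom (M := ℤ) Φ) m z
  rwa [h1] at h

/-- the composition of two morphisms -/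
theorem IsMor.comp {ι'' : Type} {L'' : ι'' → Type} [∀ i, Field (L'' i)] [∀ i, Algebra k (L'' i)]
    [Nonempty (∀ i, Place k (L i))]
    {Φ : (∀ i, Place k (L i)) → ∀ j, Place k (L' j)} (hΦ : IsMor Φ)
    {Ψ : (∀ i, Place k (L' i)) → ∀ j, Place k (L'' j)} (hΨ : IsMor Ψ) : IsMor (Ψ ∘ Φ) := by
  intro j
  rcases hΨ j with ⟨p, hp⟩ | ⟨i, f, hf⟩
  · exact Or.inl ⟨p, fun v => hp (Φ v)⟩
  · rcases hΦ i with ⟨p, hp⟩ | ⟨i', f', hf'⟩
    · left
      obtain ⟨a₀⟩ := ‹Nonempty (∀ i, Place k (L i))›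
      refine ⟨Ψ (Φ a₀) j, fun v => Place.ext ?_⟩
      rw [Function.comp_apply, hf, hf, hp, hp]
    · right
      refine ⟨i', f'.comp f, fun v => ?_⟩
      rw [Function.comp_apply, hf, hf']
      rfl

end Func

end Pool.Agent.Dess
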