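import Pool.Agent.Dess.Chart

set_option autoImplicit false

noncomputable section

namespace Pool.Agent.Dess

open Pool.Agent.ZCyc Polynomial
open scoped Classical

/-! ## D15 Choice.lean -/

/-- an automorphism which fixes a generator of `K` fixes `K` -/
private theorem choice_fix {K : IntermediateField ℚ QQ} {α : K}
    (hα : IntermediateField.adjoin ℚ {α} = ⊤) {κ : Gam} (h : κ (α : QQ) = α) :
    ∀ c ∈ K, κ c = c := by
  intro c hc
  have h1 : ∀ y ∈ IntermediateField.adjoin ℚ {α}, κ (y : QQ) = y := by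
    intro y hy
    induction hy using IntermediateField.adjoin_induction with
    | mem z hz =>
      rw [Set.mem_singleton_iff] at hz
      rw [hz, h]
    | algebraMap q => exact κ.commutes q
    | add a b _ _ ha hb => rw [IntermediateField.coe_add, map_add, ha, hb]
    | inv a _ ha => rw [IntermediateField.coe_inv, map_inv₀, ha]
    | mul a b _ _ ha hb => rw [IntermediateField.coe_mul, map_mul, ha, hb]
  exact h1 ⟨c, hc⟩ (by rw [hα]; trivial)

/-- the conjugates of `θ` lie in the finite set of the roots of its minimal polynomial -/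
private theorem choice_root (θ : QQ) (κ : Gam) :
    κ θ ∈ ((minpoly ℚ θ).map (algebraMap ℚ QQ)).roots.toFinset := by
  have h0 : minpoly ℚ θ ≠ 0 :=
    minpoly.ne_zero ((AlgebraicClosure.isAlgebraic ℚ).isAlgebraic θ).isIntegral
  rw [Multiset.mem_toFinset, mem_roots (map_ne_zero h0), IsRoot.def, eval_map]
  have h1 := minpoly.aeval ℚ θ
  have h2 : κ.toAlgHom (aeval θ (minpoly ℚ θ)) = 0 := by rw [h1, map_zero]
  rw [← Polynomial.aeval_algHom_apply] at h2
  exact h2

/-- an automorphism does not translate by a nonzero integer -/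
private theorem choice_shift (θ : QQ) (κ : Gam) {r : ℤ} (h : κ θ = θ + r) : r = 0 := by
  by_contra hr
  have h1 : ∀ n : ℕ, (κ ^ n) θ = θ + n * r := by
    intro n
    induction n with
    | zero => simp
    | succ n ih =>
      rw [pow_succ', AlgEquiv.mul_apply, ih, map_add, h, map_mul, map_natCast, map_intCast]
      push_cast
      ring
  have h2 : (Set.range fun n : ℕ => (κ ^ n) θ).Finite := by
    refine (Finset.finite_toSet ((minpoly ℚ θ).map (algebraMap ℚ QQ)).roots.toFinset).subset ?_
    rintro _ ⟨n, rfl⟩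
    exact choice_root θ (κ ^ n)
  refine Set.infinite_range_of_injective ?_ h2
  intro a b hab
  simp only [h1] at hab
  have h3 := add_left_cancel hab
  have h4 : (r : QQ) ≠ 0 := Int.cast_ne_zero.mpr hr
  exact_mod_cast mul_right_cancel₀ h4 h3

private theorem choice_nat {P : QQ[X]} (hP : P ≠ 0) : ∃ N : ℕ, P.eval (N : QQ) ≠ 0 := by
  by_contra hcon
  push Not at hcon
  apply hP
  apply Polynomial.eq_zero_of_infinite_isRoot
  refine Set.Infinite.mono ?_ (Set.infinite_range_of_injective
    (f := fun N : ℕ => (N : QQ)) Nat.cast_injective)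
  rintro _ ⟨N, rfl⟩
  exact hcon N

theorem exists_e (K : IntermediateField ℚ QQ) [FiniteDimensional ℚ K] (B : Bool → Finset QQ) :
    ∃ e : Bool → QQ, (∀ i, e i ∈ K) ∧ (∀ i, e i ≠ 0) ∧ (∀ i, e i ≠ 1) ∧
      ∀ (i j : Bool) (κ : Gam), (i ≠ j ∨ ∃ c ∈ K, κ c ≠ c) → κ (e i) ∉ branch (B j) (e j) := by
  obtain ⟨α, hα⟩ := Field.exists_primitive_element ℚ K
  set θ : QQ := (α : QQ) with hθ
  set s : Bool → ℕ := fun i => if i then 1 else 0 with hs
  set R : Finset QQ := ((minpoly ℚ θ).map (algebraMap ℚ QQ)).roots.toFinset with hR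
  set p : QQ → Bool → Bool → QQ → QQ[X] := fun ρ i j b =>
    (X + C (ρ + s i)) * (X + C (b + θ + s j - 1)) - C b * (X + C (θ + s j)) with hp
  have hp0 : ∀ ρ i j b, p ρ i j b ≠ 0 := by
    intro ρ i j b h0
    have h1 : (p ρ i j b).coeff 2 = 1 := by
      have h2 : p ρ i j b = X ^ 2 + C (ρ + s i + (b + θ + s j - 1) - b) * X +
          C ((ρ + s i) * (b + θ + s j - 1) - b * (θ + s j)) := by
        simp only [hp, C_add, C_sub, C_mul]
        ring
      rw [h2]
      generalize (ρ + s i + (b + θ + s j - 1) - b) = c1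
      generalize ((ρ + s i) * (b + θ + s j - 1) - b * (θ + s j)) = c0
      rw [coeff_add, coeff_add, coeff_X_pow, coeff_C_mul, coeff_X, coeff_C]
      norm_num
    rw [h0, coeff_zero] at h1
    exact zero_ne_one h1
  set P : QQ[X] := (∏ ρ ∈ R, ∏ i : Bool, ∏ j : Bool, ∏ b ∈ B j, p ρ i j b) *
    ∏ i : Bool, ((X + C (θ + s i)) * (X + C (θ + s i - 1))) with hPdef
  have hP : P ≠ 0 := by
    rw [hPdef]
    refine mul_ne_zero ?_ ?_
    · refine Finset.prod_ne_zero_iff.mpr fun ρ _ => Finset.prod_ne_zero_iff.mpr fun i _ =>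
        Finset.prod_ne_zero_iff.mpr fun j _ => Finset.prod_ne_zero_iff.mpr fun b _ => hp0 ρ i j b
    · exact Finset.prod_ne_zero_iff.mpr fun i _ =>
        mul_ne_zero (X_add_C_ne_zero _) (X_add_C_ne_zero _)
  obtain ⟨N, hN⟩ := choice_nat hP
  rw [hPdef, eval_mul, eval_prod, eval_prod] at hN
  have hN1 := left_ne_zero_of_mul hN
  have hN2 := right_ne_zero_of_mul hN
  refine ⟨fun i => θ + N + s i, fun i => ?_, fun i => ?_, fun i => ?_, ?_⟩
  · exact K.add_mem (K.add_mem α.2 (natCast_mem K N)) (natCast_mem K (s i))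
  · intro h0
    apply Finset.prod_ne_zero_iff.mp hN2 i (Finset.mem_univ i)
    rw [eval_mul, eval_add, eval_X, eval_C]
    have h1 : (N : QQ) + (θ + s i) = 0 := by rw [← h0]; ring
    rw [h1, zero_mul]
  · intro h0
    apply Finset.prod_ne_zero_iff.mp hN2 i (Finset.mem_univ i)
    rw [eval_mul, eval_add, eval_add, eval_X, eval_C, eval_C]
    have h1 : (N : QQ) + (θ + s i - 1) = 0 := by
      have h3 : θ + (N : QQ) + s i = 1 := h0
      have h2 : (N : QQ) + (θ + s i - 1) = (θ + N + s i) - 1 := by ring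
      rw [h2, h3, sub_self]
    rw [h1, mul_zero]
  · intro i j κ hκ hmem
    have hκe : κ (θ + N + s i) = κ θ + N + s i := by
      rw [map_add, map_add, map_natCast, map_natCast]
    rw [hκe] at hmem
    rcases hmem with h1 | ⟨b, hb, h1⟩
    · rw [Set.mem_singleton_iff] at h1
      have h2 : κ θ = θ + (((s j : ℤ) - (s i : ℤ) : ℤ) : QQ) := by
        push_cast
        linear_combination h1
      have h3 := choice_shift θ κ h2
      rcases hκ with hij | ⟨c, hc, hcc⟩
      · apply hij
        cases i <;> cases j <;> simp [hs] at h3 ⊢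
      · apply hcc
        refine choice_fix hα ?_ c hc
        rw [h3, Int.cast_zero, add_zero] at h2
        exact h2
    · have h2 : (p (κ θ) i j b).eval (N : QQ) ≠ 0 := by
        have h3 := Finset.prod_ne_zero_iff.mp hN1 (κ θ) (choice_root θ κ)
        rw [eval_prod] at h3
        have h4 := Finset.prod_ne_zero_iff.mp h3 i (Finset.mem_univ i)
        rw [eval_prod] at h4
        have h5 := Finset.prod_ne_zero_iff.mp h4 j (Finset.mem_univ j)
        rw [eval_prod] at h5
        exact Finset.prod_ne_zero_iff.mp h5 b hb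
      apply h2
      simp only [hp, eval_sub, eval_mul, eval_add, eval_X, eval_C]
      linear_combination h1

end Pool.Agent.Dess
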