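import Pool.Agent.Dess.Dede

/-!
# Finitely many critical values (package D7)
-/

set_option autoImplicit false

noncomputable section

namespace Pool.Agent.Dess

open Pool.Agent.ZCyc Polynomial
open scoped Classical

section Places

variable {k F : Type} [Field k] [IsAlgClosed k] [CharZero k] [Field F] [Algebra k F]

open scoped IntermediateField.algebraAdjoinAdjoin
open IsDedekindDomain

omit [IsAlgClosed k] [CharZero k] in
private theorem crit_pid (w : F) : IsPrincipalIdealRing (Algebra.adjoin k {w}) := by
  let f : k[X] →ₐ[k] Algebra.adjoin k {w} :=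
    aeval (⟨w, Algebra.self_mem_adjoin_singleton k w⟩ : Algebra.adjoin k {w})
  apply IsPrincipalIdealRing.of_surjective f
  rintro ⟨g, hg⟩
  have hg' := hg
  rw [Algebra.adjoin_singleton_eq_range_aeval] at hg'
  obtain ⟨p, hp⟩ := hg'
  refine ⟨p, Subtype.ext ?_⟩
  change (Algebra.adjoin k {w}).val (aeval _ p) = g
  rw [← aeval_algHom_apply]
  exact hp

private theorem crit_dom (hF : IsCurve k F) {w : F} (hw : Transcendental k w) :
    IsDedekindDomain (integralClosure (Algebra.adjoin k {w}) F) ∧
      IsFractionRing (integralClosure (Algebra.adjoin k {w}) F) F ∧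
      Module.Finite (Algebra.adjoin k {w}) (integralClosure (Algebra.adjoin k {w}) F) := by
  have h1 := fin_adjoin hF hw
  have h2 := crit_pid (k := k) w
  have h3 : CharZero (IntermediateField.adjoin k {w}) :=
    charZero_of_injective_algebraMap (algebraMap k (IntermediateField.adjoin k {w})).injective
  exact ⟨integralClosure.isDedekindDomain (Algebra.adjoin k {w})
      (IntermediateField.adjoin k {w}) F,
    integralClosure.isFractionRing_of_finite_extension (IntermediateField.adjoin k {w}) F,
    IsIntegralClosure.finite (Algebra.adjoin k {w}) (IntermediateField.adjoin k {w}) F _⟩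

/-- The center of a place. -/
private theorem crit_center {w : F} (v : Place k F) (hv : w ∈ v.ring) :
    ∃ P : Ideal (integralClosure (Algebra.adjoin k {w}) F), P.IsPrime ∧
      ∀ b, b ∈ P ↔ v.Vanishes (b : F) := by
  let j : integralClosure (Algebra.adjoin k {w}) F →+* v.ring :=
    { toFun := fun a => ⟨a.1, int_mem v hv a.2⟩
      map_one' := rfl
      map_mul' := fun _ _ => rfl
      map_zero' := rfl
      map_add' := fun _ _ => rfl }
  refine ⟨(IsLocalRing.maximalIdeal v.ring).comap j, Ideal.IsPrime.comap j, fun b => ?_⟩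
  rw [Ideal.mem_comap, ← ValuationSubring.coe_mem_nonunits_iff]
  rfl

/-- If the square of the center does not divide `x - c`, then `x - c` is a uniformizer. -/
private theorem crit_unif (hF : IsCurve k F) {x : F} (hx : Transcendental k x) (v : Place k F)
    {c : k} (hv : v.At x c) [IsDedekindDomain (integralClosure (Algebra.adjoin k {x}) F)]
    {P : Ideal (integralClosure (Algebra.adjoin k {x}) F)}
    (hP : ∀ b, b ∈ P ↔ v.Vanishes (b : F))
    (b₀ : integralClosure (Algebra.adjoin k {x}) F) (hb₀ : (b₀ : F) = x - algebraMap k F c)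
    (h2 : ¬ P ^ 2 ∣ Ideal.span {b₀}) : IsUnif v (x - algebraMap k F c) := by
  have hne : x - algebraMap k F c ≠ 0 := by
    intro h
    apply hx
    rw [sub_eq_zero.1 h]
    exact isAlgebraic_algebraMap c
  refine ⟨hne, hv, fun g hg => ?_⟩
  have hb₀P : b₀ ∈ P := by
    rw [hP, hb₀]
    exact hv
  obtain ⟨Q, hQ⟩ := Ideal.dvd_span_singleton.2 hb₀P
  have hQP : ¬ Q ≤ P := by
    intro h
    rw [← Ideal.dvd_iff_le] at h
    apply h2
    rw [hQ, pow_two]
    exact mul_dvd_mul_left P h
  obtain ⟨q, hq, hqP⟩ := SetLike.not_le_iff_exists.1 hQP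
  obtain ⟨b, s, hb, hs, hsv, rfl⟩ := exists_frac hF hx v hv.mem (Place.Vanishes.mem v hg)
  have hs0 : s ≠ 0 := by
    rintro rfl
    exact hsv v.vanishes_zero
  have hbP : (⟨b, hb⟩ : integralClosure (Algebra.adjoin k {x}) F) ∈ P := by
    rw [hP]
    have h3 := Place.Vanishes.mul v hg (int_mem v hv.mem hs)
    rw [div_mul_cancel₀ _ hs0] at h3
    exact h3
  have h4 : (⟨b, hb⟩ : integralClosure (Algebra.adjoin k {x}) F) * q ∈ Ideal.span {b₀} := by
    rw [hQ]
    exact Ideal.mul_mem_mul hbP hq
  obtain ⟨r, hr⟩ := Ideal.mem_span_singleton.1 h4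
  have hr' : b * (q : F) = (x - algebraMap k F c) * (r : F) := by
    rw [← hb₀]
    exact congrArg Subtype.val hr
  have hqv : ¬ v.Vanishes (q : F) := fun h => hqP ((hP q).2 h)
  have hq0 : (q : F) ≠ 0 := by
    intro h
    rw [h] at hqv
    exact hqv v.vanishes_zero
  have h5 : b / s / (x - algebraMap k F c) = (r : F) * (q : F)⁻¹ * s⁻¹ := by
    field_simp
    linear_combination hr'
  rw [h5]
  rw [v.vanishes_iff_or] at hsv hqv
  push Not at hsv hqv
  exact mul_mem (mul_mem (int_mem v hv.mem r.2) hqv.2) hsv.2

theorem finite_crit (hF : IsCurve k F) {x : F} (hx : Transcendental k x) :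
    {c : k | ∃ v : Place k F, v.At x c ∧ ¬ IsUnif v (x - algebraMap k F c)}.Finite := by
  obtain ⟨hBd, hBf, hBm⟩ := crit_dom hF hx
  have hpid := crit_pid (k := k) x
  have hfin := fin_adjoin hF hx
  have hchar : CharZero (IntermediateField.adjoin k {x}) :=
    charZero_of_injective_algebraMap (algebraMap k (IntermediateField.adjoin k {x})).injective
  let A := Algebra.adjoin k {x}
  let B := integralClosure A F
  let K := IntermediateField.adjoin k {x}
  have hd : differentIdeal A B ≠ ⊥ := by
    rw [ne_eq, ← FractionalIdeal.coeIdeal_inj (K := F), coeIdeal_differentIdeal (K := K)]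
    simp
  have hfac := Ideal.finite_factors (R := B) (I := differentIdeal A B) hd
  refine (Set.Finite.biUnion hfac (t := fun P => {c : k | ∃ v : Place k F, v.At x c ∧
    ∀ b : B, b ∈ P.asIdeal ↔ v.Vanishes (b : F)}) fun P _ => ?_).subset ?_
  · refine Set.Subsingleton.finite ?_
    rintro c ⟨v, hv, hvP⟩ c' ⟨v', hv', hvP'⟩
    have hxc : IsIntegral A (x - algebraMap k F c) := by
      have h1 : x - algebraMap k F c ∈ A :=
        sub_mem (Algebra.self_mem_adjoin_singleton k x) (Subalgebra.algebraMap_mem _ c)
      exact isIntegral_algebraMap (R := A) (A := F) (x := ⟨_, h1⟩)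
    have h2 : (⟨x - algebraMap k F c, hxc⟩ : B) ∈ P.asIdeal := (hvP _).2 hv
    have h3 : v'.At x c := (hvP' _).1 h2
    exact h3.unique hv'
  · rintro c ⟨v, hv, hnu⟩
    obtain ⟨P, hPp, hP⟩ := crit_center v hv.mem
    have h1 : x - algebraMap k F c ∈ A :=
      sub_mem (Algebra.self_mem_adjoin_singleton k x) (Subalgebra.algebraMap_mem _ c)
    let a₀ : A := ⟨x - algebraMap k F c, h1⟩
    let b₀ : B := algebraMap A B a₀
    have hb₀ : (b₀ : F) = x - algebraMap k F c := rfl
    have hne : x - algebraMap k F c ≠ 0 := by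
      intro h
      apply hx
      rw [sub_eq_zero.1 h]
      exact isAlgebraic_algebraMap c
    have hb₀P : b₀ ∈ P := (hP b₀).2 hv
    have hPne : P ≠ ⊥ := by
      rintro rfl
      apply hne
      rw [Ideal.mem_bot] at hb₀P
      rw [← hb₀, hb₀P]
      rfl
    have h2 : P ^ 2 ∣ Ideal.span {b₀} := by
      by_contra h
      exact hnu (crit_unif hF hx v hv hP b₀ hb₀ h)
    have hmax : (P.comap (algebraMap A B)).IsMaximal := by
      have := Ring.DimensionLEOne.maximalOfPrime hPne hPp
      exact Ideal.isMaximal_comap_of_isIntegral_of_isMaximal P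
    have hpb : P.comap (algebraMap A B) ≠ ⊥ := by
      intro h
      have h3 : a₀ ∈ P.comap (algebraMap A B) := hb₀P
      rw [h, Ideal.mem_bot] at h3
      exact hne (congrArg Subtype.val h3)
    have hspan : P.comap (algebraMap A B) = Ideal.span {a₀} := by
      apply le_antisymm
      · intro a ha
        have h3 : v.At (a : F) 0 := Place.at_zero_iff.2 ((hP _).1 ha)
        have h4 : (a : F) ∈ Algebra.adjoin k {x} := a.2
        rw [Algebra.adjoin_singleton_eq_range_aeval] at h4
        obtain ⟨p, hp⟩ := h4
        have hp' : aeval x p = (a : F) := hp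
        have h5 : p.eval c = 0 := by
          have h6 := hv.aeval p
          rw [hp'] at h6
          exact h6.unique h3
        obtain ⟨q, hq⟩ := Polynomial.dvd_iff_isRoot.2 (show p.IsRoot c from h5)
        have h7 : aeval x q ∈ A := by
          show aeval x q ∈ Algebra.adjoin k {x}
          rw [Algebra.adjoin_singleton_eq_range_aeval]
          exact ⟨q, rfl⟩
        rw [Ideal.mem_span_singleton]
        refine ⟨⟨aeval x q, h7⟩, Subtype.ext ?_⟩
        show (a : F) = (x - algebraMap k F c) * aeval x q
        rw [← hp', hq, map_mul, map_sub, aeval_X, aeval_C]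
      · rw [Ideal.span_singleton_le_iff_mem]
        exact hb₀P
    have hdvd : P ^ 2 ∣ (P.comap (algebraMap A B)).map (algebraMap A B) := by
      rw [hspan, Ideal.map_span, Set.image_singleton]
      exact h2
    have h8 := pow_sub_one_dvd_differentIdeal_aux A K F P (e := 2) (by norm_num) hpb hdvd
    rw [show 2 - 1 = 1 from rfl, pow_one] at h8
    exact Set.mem_biUnion (x := (⟨P, hPp, hPne⟩ : HeightOneSpectrum B)) h8 ⟨v, hv, hP⟩

end Places

end Pool.Agent.Dess
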