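import Pool.Agent.Dess.Alg

/-!
# Galois action on the function field
-/

set_option autoImplicit false

noncomputable section

namespace Pool.Agent.Dess

open Pool.Agent.ZCyc

/-- every automorphism of `QQ` extends to `F`, with `F₀` pointwise fixed and `P`, `O` fixed -/
def Act {F : Type} [Field F] [Algebra QQ F] (F₀ : Subfield F) (P O : Place QQ F) : Prop :=
  ∀ τ : Gam, ∃ g : F ≃+* F, (∀ c, g (algebraMap QQ F c) = algebraMap QQ F (τ c)) ∧
    (∀ f ∈ F₀, g f = f) ∧ P.ring.comap (g : F →+* F) = P.ring ∧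
      O.ring.comap (g : F →+* F) = O.ring

theorem act_vanishes {F : Type} [Field F] [Algebra QQ F] (P : Place QQ F) (g : F ≃+* F)
    (hg : P.ring.comap (g : F →+* F) = P.ring) (f : F) : P.Vanishes (g f) ↔ P.Vanishes f := by
  have hm : ∀ x, g x ∈ P.ring ↔ x ∈ P.ring := by
    intro x
    have h1 : x ∈ P.ring.comap (g : F →+* F) ↔ g x ∈ P.ring := ValuationSubring.mem_comap
    rw [← h1, hg]
  rw [P.vanishes_iff_or, P.vanishes_iff_or, ← map_inv₀, hm, map_eq_zero_iff g g.injective]

theorem Act.rational {F : Type} [Field F] [Algebra QQ F] {F₀ : Subfield F} {P O : Place QQ F}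
    (h : Act F₀ P O) : RationalAt F₀ P ∧ RationalAt F₀ O := by
  constructor
  · intro f hf c hc
    apply alg_fixed
    intro τ
    obtain ⟨g, hg1, hg2, hg3, _⟩ := h τ
    have h1 : P.Vanishes (g (f - algebraMap QQ F c)) := (act_vanishes P g hg3 _).2 hc
    rw [map_sub, hg1, hg2 f hf] at h1
    exact Place.At.unique (v := P) (f := f) h1 hc
  · intro f hf c hc
    apply alg_fixed
    intro τ
    obtain ⟨g, hg1, hg2, _, hg3⟩ := h τ
    have h1 : O.Vanishes (g (f - algebraMap QQ F c)) := (act_vanishes O g hg3 _).2 hc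
    rw [map_sub, hg1, hg2 f hf] at h1
    exact Place.At.unique (v := O) (f := f) h1 hc

end Pool.Agent.Dess
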