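import Pool.Agent.Dess.Dede

/-!
# Restriction and extension of places
-/

set_option autoImplicit false

noncomputable section

namespace Pool.Agent.Dess

open Pool.Agent.ZCyc Polynomial
open scoped Classical

variable {k F : Type} [Field k] [IsAlgClosed k] [CharZero k] [Field F] [Algebra k F]

omit [IsAlgClosed k] [CharZero k] in
private theorem ext_transc {M : Type} [Field M] [Algebra k M] (τ : k ≃+* k) (φ : F →+* M)
    (hφ : ∀ c, φ (algebraMap k F c) = algebraMap k M (τ c)) {x : F} (hx : Transcendental k x) :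
    Transcendental k (φ x) := by
  rw [transcendental_iff] at hx ⊢
  intro p hp
  have h1 : φ (aeval x (p.map (τ.symm : k →+* k))) = aeval (φ x) p := by
    rw [aeval_def, aeval_def, hom_eval₂, eval₂_map]
    congr 1
    ext c
    show φ (algebraMap k F (τ.symm c)) = algebraMap k M c
    rw [hφ, RingEquiv.apply_symm_apply]
  have h2 : aeval x (p.map (τ.symm : k →+* k)) = 0 := by
    apply φ.injective
    rw [h1, hp, map_zero]
  have h3 := hx _ h2
  rwa [Polynomial.map_eq_zero] at h3

omit [IsAlgClosed k] [CharZero k] in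
/-- a valuation ring containing a subfield over which the field is algebraic is everything -/
private theorem ext_top {M : Type} [Field M] [Algebra k M] (V : ValuationSubring M)
    (K : IntermediateField k M) [FiniteDimensional K M] (h : ∀ x ∈ K, x ∈ V) : V = ⊤ := by
  ext m
  refine ⟨fun _ => ValuationSubring.mem_top m, fun _ => ?_⟩
  have hm : IsIntegral K m := Algebra.IsIntegral.isIntegral m
  obtain ⟨p, hp, hp0⟩ := hm
  let ι : K →+* V := (algebraMap K M).codRestrict V.toSubring fun x => h x.1 x.2
  have h1 : IsIntegral V m := by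
    refine ⟨p.map ι, hp.map ι, ?_⟩
    rw [eval₂_map]
    exact hp0
  obtain ⟨y, hy⟩ := IsIntegrallyClosed.isIntegral_iff.1 h1
  rw [← hy]
  exact y.2

theorem exists_pull {M : Type} [Field M] [Algebra k M] (hF : IsCurve k F) (hM : IsCurve k M)
    (τ : k ≃+* k) (φ : F →+* M) (hφ : ∀ c, φ (algebraMap k F c) = algebraMap k M (τ c))
    (V : Place k M) : ∃ v : Place k F, V.ring.comap φ = v.ring := by
  refine ⟨⟨V.ring.comap φ, fun c => ?_, fun htop => ?_⟩, rfl⟩
  · rw [ValuationSubring.mem_comap, hφ]
    exact V.const_mem _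
  · obtain ⟨x, hx, -⟩ := hF
    have hfin := fin_adjoin hM (ext_transc τ φ hφ hx)
    apply V.ne_top
    refine ext_top V.ring (IntermediateField.adjoin k {φ x}) fun y hy => ?_
    -- the range of `φ` is contained in the valuation ring
    have hr : ∀ z : F, φ z ∈ V.ring := by
      intro z
      have : z ∈ V.ring.comap φ := by
        rw [htop]
        exact ValuationSubring.mem_top z
      exact ValuationSubring.mem_comap.1 this
    have hle : IntermediateField.adjoin k {φ x} ≤
        φ.fieldRange.toIntermediateField (fun c => ⟨algebraMap k F (τ.symm c), by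
          rw [hφ, RingEquiv.apply_symm_apply]⟩) := by
      rw [IntermediateField.adjoin_le_iff]
      rintro _ rfl
      exact ⟨x, rfl⟩
    obtain ⟨z, rfl⟩ := hle hy
    exact hr z

theorem exists_ext {M : Type} [Field M] [Algebra k M] (hF : IsCurve k F) (hM : IsCurve k M)
    (φ : F →ₐ[k] M) (v : Place k F) : ∃ V : Place k M, V.ring.comap (φ : F →+* M) = v.ring := by
  obtain ⟨A, h, hloc⟩ := IsLocalRing.exists_factor_valuationRing
    ((φ : F →+* M).comp v.ring.subtype)
  have hc : ∀ c : k, algebraMap k M c ∈ A := by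
    intro c
    have h1 := h ⟨algebraMap k F c, v.const_mem c⟩
    have e : ((φ : F →+* M).comp v.ring.subtype) ⟨algebraMap k F c, v.const_mem c⟩ =
        algebraMap k M c := φ.commutes c
    rw [e] at h1
    exact h1
  have htop : A ≠ ⊤ := by
    intro htop
    obtain ⟨π, hπ0, hπ, -⟩ := exists_unif hF v
    have hmem : π ∈ v.ring := Place.Vanishes.mem v hπ
    have h1 : IsUnit ((((φ : F →+* M).comp v.ring.subtype).codRestrict A.toSubring h)
        ⟨π, hmem⟩) := by
      have h2 : (φ π)⁻¹ ∈ A := by
        rw [htop]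
        exact ValuationSubring.mem_top _
      have h3 : φ π ≠ 0 := fun h0 => hπ0 (φ.toRingHom.injective (by
        rw [map_zero]
        exact h0))
      refine IsUnit.of_mul_eq_one (⟨(φ π)⁻¹, h2⟩ : A.toSubring) ?_
      apply Subtype.ext
      exact mul_inv_cancel₀ h3
    have h4 : IsUnit (⟨π, hmem⟩ : v.ring) := hloc.map_nonunit _ h1
    obtain ⟨u, hu⟩ := h4
    have h5 : (((u⁻¹ : (v.ring)ˣ) : v.ring) : F) = π⁻¹ := by
      have h6 : ((u : v.ring) : F) * (((u⁻¹ : (v.ring)ˣ) : v.ring) : F) = 1 := by
        have h7 : (u : v.ring) * ((u⁻¹ : (v.ring)ˣ) : v.ring) = 1 := u.mul_inv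
        exact congrArg Subtype.val h7
      rw [hu] at h6
      exact eq_inv_of_mul_eq_one_right h6
    have h8 : π⁻¹ ∈ v.ring := by
      rw [← h5]
      exact Subtype.prop _
    rcases (v.vanishes_iff_or π).1 hπ with h9 | h9
    · exact hπ0 h9
    · exact h9 h8
  let V : Place k M := ⟨A, hc, htop⟩
  obtain ⟨w, hw⟩ := exists_pull hF hM (RingEquiv.refl k) (φ : F →+* M)
    (fun c => φ.commutes c) V
  refine ⟨V, ?_⟩
  have hle : v.ring ≤ w.ring := by
    intro f hf
    rw [← hw, ValuationSubring.mem_comap]
    exact h ⟨f, hf⟩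
  rw [hw, place_le hF hle]

end Pool.Agent.Dess
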