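import Pool.Agent.Dess.Alg
import Pool.Agent.Dess.CRT
import Pool.Agent.Dess.Ext

/-! D13. Models over number fields. -/

set_option autoImplicit false

noncomputable section

namespace Pool.Agent.Dess

open Pool.Agent.ZCyc Polynomial
open scoped Classical

section

variable {L : Type} [Field L] [Algebra QQ L]

/-- the curve with function field `L`, the function `y` and the points `a`, `o` are defined over
the number field `K`, `L₀` is the function field over `K` -/
structure Model (K : IntermediateField ℚ QQ) (y : L) (L₀ : Subfield L) (a o : Place QQ L) :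
    Prop where
  gen : IntermediateField.adjoin QQ (L₀ : Set L) = ⊤
  mem : y ∈ L₀
  const_mem : ∀ c ∈ K, algebraMap QQ L c ∈ L₀
  lift : ∀ ρ : Gam, (∀ c ∈ K, ρ c = c) → ∃ r : L ≃+* L,
    (∀ c, r (algebraMap QQ L c) = algebraMap QQ L (ρ c)) ∧ (∀ f ∈ L₀, r f = f) ∧
      a.ring.comap (r : L →+* L) = a.ring ∧ o.ring.comap (r : L →+* L) = o.ring

/-- the action on the coefficients -/
private abbrev cm {σ : Type} (ρ : Gam) : MvPolynomial σ QQ →+* MvPolynomial σ QQ :=
  MvPolynomial.map (ρ : QQ →+* QQ)

private abbrev ev (T : Finset L) : MvPolynomial T QQ →ₐ[QQ] L :=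
  MvPolynomial.aeval (fun x : T => (x : L))

/-- polynomial relations with coefficients fixed by `ρ` generate a stable ideal -/
private lemma model_stable (T : Finset L) (G : Finset (MvPolynomial T QQ))
    (hG : Ideal.span (G : Set (MvPolynomial T QQ)) = RingHom.ker (ev T))
    (ρ : Gam) (hρ : ∀ p ∈ G, ∀ m, ρ (p.coeff m) = p.coeff m) (p : MvPolynomial T QQ)
    (hp : ev T p = 0) : ev T (cm ρ p) = 0 := by
  have h1 : p ∈ Ideal.span (G : Set (MvPolynomial T QQ)) := by
    rw [hG]
    exact hp
  have h2 : Ideal.span (G : Set (MvPolynomial T QQ)) ≤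
      (RingHom.ker (ev T)).comap (cm ρ) := by
    rw [Ideal.span_le]
    intro q hq
    have h3 : cm ρ q = q := by
      ext m
      rw [MvPolynomial.coeff_map]
      exact hρ q hq m
    have h4 : q ∈ RingHom.ker (ev T) := by
      rw [← hG]
      exact Ideal.subset_span hq
    simp only [Ideal.coe_comap, Set.mem_preimage, SetLike.mem_coe]
    rw [h3]
    exact h4
  exact h2 h1

private lemma cm_symm {σ : Type} (ρ : Gam) (p : MvPolynomial σ QQ) : cm ρ.symm (cm ρ p) = p := by
  ext m
  rw [MvPolynomial.coeff_map, MvPolynomial.coeff_map]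
  exact ρ.symm_apply_apply _

/-- the semilinear endomorphism -/
private lemma model_hom (T : Finset L) (hT : IntermediateField.adjoin QQ (T : Set L) = ⊤)
    (G : Finset (MvPolynomial T QQ))
    (hG : Ideal.span (G : Set (MvPolynomial T QQ)) = RingHom.ker (ev T))
    (ρ : Gam) (hρ : ∀ p ∈ G, ∀ m, ρ (p.coeff m) = p.coeff m) :
    ∃ r : L →+* L, (∀ c, r (algebraMap QQ L c) = algebraMap QQ L (ρ c)) ∧
      ∀ x ∈ T, r x = x := by
  let f : MvPolynomial T QQ →+* L := (ev T : MvPolynomial T QQ →+* L)
  let R := MvPolynomial T QQ ⧸ (RingHom.ker f)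
  let ι : R →+* L := RingHom.kerLift f
  have hι : Function.Injective ι := RingHom.kerLift_injective f
  let _ : Algebra R L := ι.toAlgebra
  have hal : ∀ x, algebraMap R L x = ι x := fun x => rfl
  have : FaithfulSMul R L := (faithfulSMul_iff_algebraMap_injective R L).mpr hι
  have : IsFractionRing R L := by
    apply IsFractionRing.of_field
    intro z
    have hz : z ∈ IntermediateField.adjoin QQ (T : Set L) := by
      rw [hT]
      exact IntermediateField.mem_top
    obtain ⟨p, q, hpq⟩ := (IntermediateField.mem_adjoin_iff QQ (S := (T : Set L)) z).mp hz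
    exact ⟨Ideal.Quotient.mk _ p, Ideal.Quotient.mk _ q, hpq⟩
  let g : R →+* L := Ideal.Quotient.lift (RingHom.ker f) (f.comp (cm ρ)) (by
    intro p hp
    exact model_stable T G hG ρ hρ p hp)
  have hg : Function.Injective g := by
    rw [injective_iff_map_eq_zero]
    intro x hx
    obtain ⟨p, rfl⟩ := Ideal.Quotient.mk_surjective x
    rw [Ideal.Quotient.eq_zero_iff_mem]
    have h1 : ev T (cm ρ p) = 0 := hx
    have h2 := model_stable T G hG ρ.symm (by
      intro q hq m
      have := hρ q hq m
      conv_lhs => rw [← this]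
      exact ρ.symm_apply_apply _) _ h1
    rw [cm_symm] at h2
    exact h2
  refine ⟨IsFractionRing.lift hg, ?_, ?_⟩
  · intro c
    have h1 : algebraMap QQ L c = algebraMap R L (Ideal.Quotient.mk _ (MvPolynomial.C c)) := by
      have : ι (Ideal.Quotient.mk _ (MvPolynomial.C c)) = f (MvPolynomial.C c) :=
        RingHom.kerLift_mk f _
      rw [hal, this]
      exact (MvPolynomial.aeval_C _ c).symm
    rw [h1, IsFractionRing.lift_algebraMap]
    have h2 : g (Ideal.Quotient.mk _ (MvPolynomial.C c)) = f (cm ρ (MvPolynomial.C c)) := rfl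
    rw [h2, cm, MvPolynomial.map_C]
    exact MvPolynomial.aeval_C (fun x : T => (x : L)) ((ρ : QQ →+* QQ) c)
  · intro x hx
    have h1 : x = algebraMap R L (Ideal.Quotient.mk _ (MvPolynomial.X ⟨x, hx⟩)) := by
      have : ι (Ideal.Quotient.mk _ (MvPolynomial.X ⟨x, hx⟩)) = f (MvPolynomial.X ⟨x, hx⟩) :=
        RingHom.kerLift_mk f _
      rw [hal, this]
      exact (MvPolynomial.aeval_X (fun x : T => (x : L)) (⟨x, hx⟩ : T)).symm
    conv_lhs => rw [h1]
    rw [IsFractionRing.lift_algebraMap]
    have h2 : g (Ideal.Quotient.mk _ (MvPolynomial.X ⟨x, hx⟩)) =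
      f (cm ρ (MvPolynomial.X ⟨x, hx⟩)) := rfl
    rw [h2, cm, MvPolynomial.map_X]
    exact MvPolynomial.aeval_X (fun x : T => (x : L)) (⟨x, hx⟩ : T)

private lemma model_ext (T : Set L) (hT : IntermediateField.adjoin QQ T = ⊤) (f g : L →+* L)
    (h1 : ∀ c, f (algebraMap QQ L c) = g (algebraMap QQ L c)) (h2 : ∀ x ∈ T, f x = g x) :
    f = g := by
  let E : IntermediateField QQ L := (RingHom.eqLocusField f g).toIntermediateField h1
  have h3 : (⊤ : IntermediateField QQ L) ≤ E := by
    rw [← hT, IntermediateField.adjoin_le_iff]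
    intro x hx
    exact h2 x hx
  ext x
  exact h3 (IntermediateField.mem_top : x ∈ (⊤ : IntermediateField QQ L))

private lemma model_equiv (T : Finset L) (hT : IntermediateField.adjoin QQ (T : Set L) = ⊤)
    (G : Finset (MvPolynomial T QQ))
    (hG : Ideal.span (G : Set (MvPolynomial T QQ)) = RingHom.ker (ev T))
    (ρ : Gam) (hρ : ∀ p ∈ G, ∀ m, ρ (p.coeff m) = p.coeff m) :
    ∃ r : L ≃+* L, (∀ c, r (algebraMap QQ L c) = algebraMap QQ L (ρ c)) ∧
      ∀ x ∈ T, r x = x := by
  obtain ⟨r, hr1, hr2⟩ := model_hom T hT G hG ρ hρ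
  obtain ⟨s, hs1, hs2⟩ := model_hom T hT G hG ρ.symm (by
      intro q hq m
      have := hρ q hq m
      conv_lhs => rw [← this]
      exact ρ.symm_apply_apply _)
  have h1 : s.comp r = RingHom.id L := by
    apply model_ext (T : Set L) hT
    · intro c
      rw [RingHom.comp_apply, hr1, hs1, RingHom.id_apply]
      exact congrArg _ (ρ.symm_apply_apply _)
    · intro x hx
      rw [RingHom.comp_apply, hr2 x hx, hs2 x hx, RingHom.id_apply]
  have h2 : r.comp s = RingHom.id L := by
    apply model_ext (T : Set L) hT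
    · intro c
      rw [RingHom.comp_apply, hs1, hr1, RingHom.id_apply]
      exact congrArg _ (ρ.apply_symm_apply _)
    · intro x hx
      rw [RingHom.comp_apply, hs2 x hx, hr2 x hx, RingHom.id_apply]
  refine ⟨RingEquiv.ofRingHom r s h2 h1, ?_, ?_⟩
  · intro c
    exact hr1 c
  · intro x hx
    exact hr2 x hx

/-- a curve has a finitely generated function field -/
private lemma model_fg (hL : IsCurve QQ L) :
    ∃ T : Finset L, IntermediateField.adjoin QQ (T : Set L) = ⊤ := by
  obtain ⟨t, _, hfin⟩ := hL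
  obtain ⟨S, hS⟩ := hfin.fg_top
  refine ⟨insert t S, ?_⟩
  rw [eq_top_iff]
  intro x _
  have hx : x ∈ Submodule.span (IntermediateField.adjoin QQ {t}) (S : Set L) := by
    rw [hS]
    exact Submodule.mem_top
  have hle : IntermediateField.adjoin QQ {t} ≤
      IntermediateField.adjoin QQ ((insert t S : Finset L) : Set L) := by
    apply IntermediateField.adjoin.mono
    intro z hz
    rw [Set.mem_singleton_iff] at hz
    rw [hz]
    simp
  induction hx using Submodule.span_induction with
  | mem x h =>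
    apply IntermediateField.subset_adjoin
    simp [h]
  | zero => exact zero_mem _
  | add x y _ _ hx hy => exact add_mem (hx IntermediateField.mem_top) (hy IntermediateField.mem_top)
  | smul c x _ hx =>
    rw [Algebra.smul_def]
    exact mul_mem (hle c.2) (hx IntermediateField.mem_top)

/-- a function which determines the point among the points over the same value of `y` -/
private lemma model_sep (hL : IsCurve QQ L) {y : L} (hy : Transcendental QQ y) (a : Place QQ L)
    (ha : y ∈ a.ring) : ∃ (c : QQ) (s : L), a.At y c ∧ a.Vanishes s ∧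
      ∀ v : Place QQ L, v.At y c → v.Vanishes s → v = a := by
  obtain ⟨c, hc⟩ := exists_at hL a ha
  have hfin := finite_at hL hy c
  obtain ⟨s, hs1, hs2⟩ := exists_sep hL a (hfin.toFinset.erase a) (by simp)
  refine ⟨c, s, hc, hs1, ?_⟩
  intro v hv hvs
  by_contra hne
  have h1 := hs2 v (by
    rw [Finset.mem_erase, Set.Finite.mem_toFinset]
    exact ⟨hne, hv⟩)
  exact zero_ne_one ((Place.at_zero_iff.mpr hvs).unique h1)

/-- a semilinear automorphism which fixes `y`, its value and the separating function fixes the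
point -/
private lemma model_fix (hL : IsCurve QQ L) {y s : L} {c : QQ} {a : Place QQ L}
    (hc : a.At y c) (hs : a.Vanishes s)
    (hsep : ∀ v : Place QQ L, v.At y c → v.Vanishes s → v = a) (ρ : Gam) (hρ : ρ c = c)
    (r : L ≃+* L) (hr : ∀ c, r (algebraMap QQ L c) = algebraMap QQ L (ρ c)) (hry : r y = y)
    (hrs : r s = s) : a.ring.comap (r : L →+* L) = a.ring := by
  obtain ⟨v, hv⟩ := exists_pull hL hL (ρ : QQ ≃+* QQ) (r : L →+* L) hr a
  have hvan : ∀ f : L, v.Vanishes f ↔ a.Vanishes (r f) := by
    intro f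
    rw [Place.vanishes_iff_or, Place.vanishes_iff_or, ← hv, ValuationSubring.mem_comap]
    have e1 : (r : L →+* L) f⁻¹ = (r f)⁻¹ := map_inv₀ r f
    rw [e1]
    have e2 : r f = 0 ↔ f = 0 := by
      constructor
      · intro h
        exact r.injective (by rw [h, map_zero])
      · intro h
        rw [h, map_zero]
    rw [e2]
  have hva : v = a := by
    apply hsep
    · unfold Place.At
      rw [hvan, map_sub, hr, hry, hρ]
      exact hc
    · rw [hvan, hrs]
      exact hs
  rw [hv, hva]

theorem exists_model (hL : IsCurve QQ L) {y : L} (hy : Transcendental QQ y) (a o : Place QQ L)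
    (ha : y ∈ a.ring) (ho : y ∈ o.ring) :
    ∃ K : IntermediateField ℚ QQ, FiniteDimensional ℚ K ∧ ∃ L₀, Model K y L₀ a o := by
  obtain ⟨T₀, hT₀⟩ := model_fg hL
  obtain ⟨c, s, hc, hs, hsep⟩ := model_sep hL hy a ha
  obtain ⟨c', s', hc', hs', hsep'⟩ := model_sep hL hy o ho
  set T : Finset L := insert y (insert s (insert s' T₀)) with hTdef
  have hyT : y ∈ T := by simp [hTdef]
  have hsT : s ∈ T := by simp [hTdef]
  have hsT' : s' ∈ T := by simp [hTdef]
  have hT : IntermediateField.adjoin QQ (T : Set L) = ⊤ := by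
    rw [eq_top_iff, ← hT₀]
    apply IntermediateField.adjoin.mono
    intro x hx
    have : x ∈ T₀ := hx
    simp [hTdef, this]
  obtain ⟨G, hG⟩ : (RingHom.ker (ev T)).FG := IsNoetherian.noetherian _
  let C : Finset QQ := insert c (insert c' (G.biUnion fun p => p.support.image fun m => p.coeff m))
  refine ⟨IntermediateField.adjoin ℚ (C : Set QQ), ?_, ?_⟩
  · have : Finite (C : Set QQ) := C.finite_toSet
    exact IntermediateField.finiteDimensional_adjoin fun x _ =>
      ((AlgebraicClosure.isAlgebraic ℚ).isAlgebraic x).isIntegral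
  set K := IntermediateField.adjoin ℚ (C : Set QQ) with hK
  have hCK : ∀ x ∈ C, x ∈ K := fun x hx => IntermediateField.subset_adjoin ℚ _ hx
  refine ⟨Subfield.closure ((algebraMap QQ L '' (K : Set QQ)) ∪ (T : Set L)), ?_, ?_, ?_, ?_⟩
  · rw [eq_top_iff, ← hT]
    apply IntermediateField.adjoin.mono
    intro x hx
    exact Subfield.subset_closure (Or.inr hx)
  · exact Subfield.subset_closure (Or.inr hyT)
  · intro d hd
    exact Subfield.subset_closure (Or.inl ⟨d, hd, rfl⟩)
  · intro ρ hρ
    have hρ' : ∀ p ∈ G, ∀ m, ρ (p.coeff m) = p.coeff m := by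
      intro p hp m
      by_cases hm : p.coeff m = 0
      · rw [hm, map_zero]
      · apply hρ
        apply hCK
        refine Finset.mem_insert_of_mem (Finset.mem_insert_of_mem ?_)
        rw [Finset.mem_biUnion]
        refine ⟨p, hp, ?_⟩
        rw [Finset.mem_image]
        exact ⟨m, MvPolynomial.mem_support_iff.mpr hm, rfl⟩
    obtain ⟨r, hr1, hr2⟩ := model_equiv T hT G hG ρ hρ'
    refine ⟨r, hr1, ?_, ?_, ?_⟩
    · intro f hf
      have h1 : Subfield.closure ((algebraMap QQ L '' (K : Set QQ)) ∪ (T : Set L)) ≤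
          RingHom.eqLocusField (r : L →+* L) (RingHom.id L) := by
        rw [Subfield.closure_le]
        rintro x (⟨d, hd, rfl⟩ | hx)
        · show r (algebraMap QQ L d) = algebraMap QQ L d
          rw [hr1, hρ d hd]
        · exact hr2 x hx
      exact h1 hf
    · exact model_fix hL hc hs hsep ρ (hρ c (hCK c (by simp [C]))) r hr1 (hr2 y hyT) (hr2 s hsT)
    · exact model_fix hL hc' hs' hsep' ρ (hρ c' (hCK c' (by simp [C]))) r hr1 (hr2 y hyT)
        (hr2 s' hsT')

theorem Model.mono {K K' : IntermediateField ℚ QQ} {y : L} {L₀ : Subfield L} {a o : Place QQ L}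
    (h : Model K y L₀ a o) (hK : K ≤ K') : ∃ L₀', Model K' y L₀' a o := by
  refine ⟨Subfield.closure ((L₀ : Set L) ∪ (algebraMap QQ L '' (K' : Set QQ))), ?_, ?_, ?_, ?_⟩
  · rw [eq_top_iff, ← h.gen]
    apply IntermediateField.adjoin.mono
    intro x hx
    exact Subfield.subset_closure (Or.inl hx)
  · exact Subfield.subset_closure (Or.inl h.mem)
  · intro d hd
    exact Subfield.subset_closure (Or.inr ⟨d, hd, rfl⟩)
  · intro ρ hρ
    obtain ⟨r, hr1, hr2, hr3, hr4⟩ := h.lift ρ fun c hc => hρ c (hK hc)
    refine ⟨r, hr1, ?_, hr3, hr4⟩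
    intro f hf
    have h1 : Subfield.closure ((L₀ : Set L) ∪ (algebraMap QQ L '' (K' : Set QQ))) ≤
        RingHom.eqLocusField (r : L →+* L) (RingHom.id L) := by
      rw [Subfield.closure_le]
      rintro x (hx | ⟨d, hd, rfl⟩)
      · exact hr2 x hx
      · show r (algebraMap QQ L d) = algebraMap QQ L d
        rw [hr1, hρ d hd]
    exact h1 hf

end

end Pool.Agent.Dess
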