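import Pool.Agent.Dess.Tuple
import Pool.Agent.Dess.Model
import Pool.Agent.Dess.Act

/-!
# Descent: the field generated by all conjugates is defined over the rational numbers
-/

set_option autoImplicit false

noncomputable section

namespace Pool.Agent.Dess

open Pool.Agent.ZCyc Polynomial
open scoped Classical

/-- A place of the rational function field is determined by the value of the variable. -/
private theorem descent_rational {k M : Type} [Field k] [Field M] [Algebra k M] {t : M}
    (ht : Transcendental k t) {c : k} {V P : Place k M} (hV : V.At t c) (hP : P.At t c) {f : M}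
    (hf : f ∈ IntermediateField.adjoin k {t}) (h : f ∈ V.ring) : f ∈ P.ring := by
  rw [IntermediateField.mem_adjoin_simple_iff] at hf
  obtain ⟨r, s, rfl⟩ := hf
  by_cases hs : s = 0
  · rw [hs, map_zero, div_zero]
    exact zero_mem _
  have hinj : ∀ p : k[X], p ≠ 0 → aeval t p ≠ 0 := fun p hp h0 =>
    hp ((transcendental_iff.1 ht) p h0)
  set d := GCDMonoid.gcd r s with hd
  have hd0 : d ≠ 0 := fun h0 => hs ((gcd_eq_zero_iff r s).1 h0).2
  have hr' : d * (r / d) = r := EuclideanDomain.mul_div_cancel' hd0 (gcd_dvd_left r s)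
  have hs' : d * (s / d) = s := EuclideanDomain.mul_div_cancel' hd0 (gcd_dvd_right r s)
  have hco : IsCoprime (r / d) (s / d) := isCoprime_div_gcd_div_gcd hs
  set r₁ := r / d
  set s₁ := s / d
  have hs₁ : s₁ ≠ 0 := by
    intro h0
    apply hs
    rw [← hs', h0, mul_zero]
  have e1 : aeval t r / aeval t s = aeval t r₁ / aeval t s₁ := by
    rw [← hr', ← hs', map_mul, map_mul]
    exact mul_div_mul_left _ _ (hinj d hd0)
  rw [e1] at h ⊢
  by_cases h1 : s₁.eval c = 0
  · exfalso
    have h2 : r₁.eval c ≠ 0 := by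
      intro h3
      obtain ⟨u, w, huw⟩ := hco
      have := congrArg (Polynomial.eval c) huw
      simp [h1, h3] at this
    have h3 : V.At (aeval t s₁ / aeval t r₁) (s₁.eval c / r₁.eval c) :=
      (hV.aeval s₁).div (hV.aeval r₁) h2
    rw [h1, zero_div, Place.at_zero_iff] at h3
    have h4 := Place.Vanishes.mul V h3 h
    have hr₁ : r₁ ≠ 0 := by
      rintro h5
      rw [h5] at h2
      simp at h2
    have h5 : aeval t s₁ / aeval t r₁ * (aeval t r₁ / aeval t s₁) = algebraMap k M 1 := by
      rw [map_one]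
      have := hinj r₁ hr₁
      have := hinj s₁ hs₁
      field_simp
    rw [h5] at h4
    exact V.const_unit one_ne_zero h4
  · exact ((hP.aeval r₁).div (hP.aeval s₁) h1).mem

/-- a semilinear automorphism of `M` which permutes the embeddings `φ i σ` -/
private structure Good {M : Type} [Field M] [Algebra QQ M] (t : M) {L : Bool → Type}
    [∀ i, Field (L i)] (φ : ∀ i, Gam → L i →+* M) (τ : Gam) (g : M ≃+* M) : Prop where
  t : g t = t
  c : ∀ c : QQ, g (algebraMap QQ M c) = algebraMap QQ M (τ c)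
  φ : ∀ i σ l, g (φ i σ l) = φ i (τ * σ) l

section

variable {M : Type} [Field M] [Algebra QQ M] {t : M} {L : Bool → Type}
    [∀ i, Field (L i)] [∀ i, Algebra QQ (L i)] {φ : ∀ i, Gam → L i →+* M}

/-- every automorphism of `QQ` extends to a good automorphism which fixes a given point -/
private theorem descent_exists (hM : Frame t) (hL : ∀ i, IsCurve QQ (L i)) (x : ∀ i, L i)
    (a : ∀ i, Place QQ (L i)) {q : QQ} (hq : ∀ τ : Gam, τ q = q)
    (ha : ∀ i, IsUnif (a i) (x i - algebraMap QQ (L i) q)) (P : Place QQ M)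
    (hφ : ∀ i τ c, φ i τ (algebraMap QQ (L i) c) = algebraMap QQ M (τ c))
    (hφx : ∀ i τ, φ i τ (x i) = t) (hP : ∀ i τ, P.ring.comap (φ i τ) = (a i).ring) (τ : Gam) :
    ∃ g, Good t φ τ g ∧ P.ring.comap (g : M →+* M) = P.ring := by
  obtain ⟨g₀, hg₀t, hg₀c⟩ := hM.lift τ
  have hPt : P.At t q := by
    have h1 : (a false).At (x false) q := (ha false).2.1
    rw [tuple_at (hP false 1) 1 (hφ false 1), hφx] at h1
    exact h1
  obtain ⟨v, hv⟩ := exists_pull hM.isCurve hM.isCurve (τ : QQ ≃+* QQ) (g₀ : M →+* M) hg₀c P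
  have hvt : v.At t q := by
    rw [tuple_at hv τ hg₀c, hq]
    change P.At (g₀ t) q
    rw [hg₀t]
    exact hPt
  haveI := hM.fin
  haveI := hM.gal
  obtain ⟨h, hh, hPv⟩ := galois_trans hM.isCurve (IntermediateField.adjoin QQ {t}) P v
    fun f hf => ⟨fun h => descent_rational hM.transc hPt hvt hf h,
      fun h => descent_rational hM.transc hvt hPt hf h⟩
  have htt : h t = t := hh t (IntermediateField.subset_adjoin _ _ rfl)
  let g : M ≃+* M := (h : M ≃+* M).trans g₀
  have hg : ∀ m, g m = g₀ (h m) := fun m => rfl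
  have hgt : g t = t := by rw [hg, htt, hg₀t]
  have hgc : ∀ c : QQ, g (algebraMap QQ M c) = algebraMap QQ M (τ c) := by
    intro c
    rw [hg, h.commutes, hg₀c]
  have hgP : P.ring.comap (g : M →+* M) = P.ring := by
    ext m
    rw [ValuationSubring.mem_comap]
    have h1 : g₀ (h m) ∈ P.ring ↔ h m ∈ v.ring := by
      rw [← hv, ValuationSubring.mem_comap]
      rfl
    have h2 : h m ∈ v.ring ↔ m ∈ P.ring := by
      rw [← hPv, Place.mem_map, AlgEquiv.symm_apply_apply]
    exact h1.trans h2
  refine ⟨g, ⟨hgt, hgc, fun i σ l => ?_⟩, hgP⟩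
  have h1 : P.ring.comap ((g : M →+* M).comp (φ i σ)) = (a i).ring := by
    rw [← ValuationSubring.comap_comap, hgP, hP]
  have h2 := taylor (hL i) hM.isCurve ((τ * σ : Gam) : QQ ≃+* QQ)
    (φ := (g : M →+* M).comp (φ i σ)) (φ' := φ i (τ * σ))
    (fun c => by
      change g (φ i σ _) = _
      rw [hφ, hgc]
      rfl) (hφ i (τ * σ)) h1 (hP i (τ * σ)) (ha i) (by
      change g (φ i σ (x i)) = _
      rw [hφx, hφx, hgt])
  exact RingHom.congr_fun h2 l

omit [∀ i, Algebra QQ (L i)] in
private theorem Good.symm {τ : Gam} {g : M ≃+* M} (h : Good t φ τ g) :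
    Good t φ τ⁻¹ g.symm := by
  refine ⟨?_, fun c => ?_, fun i σ l => ?_⟩
  · rw [RingEquiv.symm_apply_eq, h.t]
  · rw [RingEquiv.symm_apply_eq, h.c]
    congr 1
    exact (AlgEquiv.apply_symm_apply τ c).symm
  · rw [RingEquiv.symm_apply_eq, h.φ, mul_inv_cancel_left]

/-- the field generated by all conjugates -/
private def conjField (φ : ∀ i, Gam → L i →+* M) : IntermediateField QQ M :=
  IntermediateField.adjoin QQ (⋃ i, ⋃ τ, Set.range (φ i τ))

omit [∀ i, Algebra QQ (L i)] in
private theorem mem_conjField (i : Bool) (τ : Gam) (l : L i) : φ i τ l ∈ conjField φ :=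
  IntermediateField.subset_adjoin _ _ (Set.mem_iUnion.2 ⟨i, Set.mem_iUnion.2 ⟨τ, ⟨l, rfl⟩⟩⟩)

omit [∀ i, Algebra QQ (L i)] in
private theorem conjField_induction {p : M → Prop} (h1 : ∀ i τ l, p (φ i τ l))
    (h2 : ∀ c : QQ, p (algebraMap QQ M c)) (h3 : ∀ a b, p a → p b → p (a + b))
    (h4 : ∀ a, p a → p a⁻¹) (h5 : ∀ a b, p a → p b → p (a * b)) {m : M}
    (hm : m ∈ conjField φ) : p m := by
  induction hm using IntermediateField.adjoin_induction with
  | mem x hx =>
    obtain ⟨i, hx⟩ := Set.mem_iUnion.1 hx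
    obtain ⟨τ, hx⟩ := Set.mem_iUnion.1 hx
    obtain ⟨l, rfl⟩ := hx
    exact h1 i τ l
  | algebraMap c => exact h2 c
  | add a b _ _ ha hb => exact h3 a b ha hb
  | inv a _ ha => exact h4 a ha
  | mul a b _ _ ha hb => exact h5 a b ha hb

omit [∀ i, Algebra QQ (L i)] in
private theorem Good.mem {τ : Gam} {g : M ≃+* M} (h : Good t φ τ g) {m : M}
    (hm : m ∈ conjField φ) : g m ∈ conjField φ := by
  refine conjField_induction (p := fun m => g m ∈ conjField φ) (fun i σ l => ?_) (fun c => ?_)
    (fun a b ha hb => ?_) (fun a ha => ?_) (fun a b ha hb => ?_) hm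
  · rw [h.φ]
    exact mem_conjField i _ l
  · rw [h.c]
    exact IntermediateField.algebraMap_mem _ _
  · rw [map_add]
    exact add_mem ha hb
  · rw [map_inv₀]
    exact inv_mem ha
  · rw [map_mul]
    exact mul_mem ha hb

omit [∀ i, Algebra QQ (L i)] in
private theorem Good.unique {τ : Gam} {g g' : M ≃+* M} (h : Good t φ τ g) (h' : Good t φ τ g')
    {m : M} (hm : m ∈ conjField φ) : g m = g' m := by
  refine conjField_induction (p := fun m => g m = g' m) (fun i σ l => ?_) (fun c => ?_)
    (fun a b ha hb => ?_) (fun a ha => ?_) (fun a b ha hb => ?_) hm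
  · rw [h.φ, h'.φ]
  · rw [h.c, h'.c]
  · rw [map_add, map_add, ha, hb]
  · rw [map_inv₀, map_inv₀, ha]
  · rw [map_mul, map_mul, ha, hb]

/-- the restriction of a good automorphism -/
private def Good.res {τ : Gam} {g : M ≃+* M} (h : Good t φ τ g) :
    conjField φ ≃+* conjField φ where
  toFun m := ⟨g m, h.mem m.2⟩
  invFun m := ⟨g.symm m, h.symm.mem m.2⟩
  left_inv m := Subtype.ext (g.symm_apply_apply m)
  right_inv m := Subtype.ext (g.apply_symm_apply m)
  map_mul' a b := Subtype.ext (map_mul g (a : M) b)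
  map_add' a b := Subtype.ext (map_add g (a : M) b)

/-- the functions which are fixed by the good automorphisms -/
private def fixField (t : M) (φ : ∀ i, Gam → L i →+* M) : Subfield M where
  carrier := {m | m ∈ conjField φ ∧ ∀ τ g, Good t φ τ g → g m = m}
  mul_mem' := fun ha hb => ⟨mul_mem ha.1 hb.1, fun τ g h => by
    rw [map_mul, ha.2 τ g h, hb.2 τ g h]⟩
  one_mem' := ⟨one_mem _, fun τ g _ => map_one g⟩
  add_mem' := fun ha hb => ⟨add_mem ha.1 hb.1, fun τ g h => by
    rw [map_add, ha.2 τ g h, hb.2 τ g h]⟩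
  zero_mem' := ⟨zero_mem _, fun τ g _ => map_zero g⟩
  neg_mem' := fun ha => ⟨neg_mem ha.1, fun τ g h => by rw [map_neg, ha.2 τ g h]⟩
  inv_mem' := fun _ ha => ⟨inv_mem ha.1, fun τ g h => by rw [map_inv₀, ha.2 τ g h]⟩

omit [∀ i, Algebra QQ (L i)] in
private theorem mem_fixField {m : M} :
    m ∈ fixField t φ ↔ m ∈ conjField φ ∧ ∀ τ g, Good t φ τ g → g m = m := Iff.rfl

/-- an automorphism which fixes a primitive element fixes the field -/
private theorem descent_prim {K : IntermediateField ℚ QQ} {θ : K}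
    (hθ : IntermediateField.adjoin ℚ {θ} = ⊤) {ρ : Gam} (h : ρ (θ : QQ) = θ) :
    ∀ c ∈ K, ρ c = c := by
  intro c hc
  have h1 : (⟨c, hc⟩ : K) ∈ IntermediateField.adjoin ℚ {θ} := by
    rw [hθ]
    trivial
  have h2 : ∀ y : K, y ∈ IntermediateField.adjoin ℚ {θ} → ρ (y : QQ) = y := by
    intro y hy
    induction hy using IntermediateField.adjoin_induction with
    | mem y hy =>
      rw [Set.mem_singleton_iff.1 hy]
      exact h
    | algebraMap r =>
      exact ρ.commutes r
    | add a b _ _ ha hb =>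
      have e : ((a + b : K) : QQ) = a + b := rfl
      rw [e, map_add, ha, hb]
    | inv a _ ha =>
      have e : ((a⁻¹ : K) : QQ) = (a : QQ)⁻¹ := rfl
      rw [e, map_inv₀, ha]
    | mul a b _ _ ha hb =>
      have e : ((a * b : K) : QQ) = a * b := rfl
      rw [e, map_mul, ha, hb]
  exact h2 _ h1

/-- the conjugates of a function over `K` depend only on the restriction of `τ` to `K` -/
private theorem descent_coset (hM : Frame t) (hL : ∀ i, IsCurve QQ (L i)) (x : ∀ i, L i)
    (a o : ∀ i, Place QQ (L i)) (ha : ∀ i, IsUnif (a i) (x i)) {K : IntermediateField ℚ QQ}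
    {L₀ : ∀ i, Subfield (L i)} (hmod : ∀ i, Model K (x i) (L₀ i) (a i) (o i)) (P : Place QQ M)
    (hφ : ∀ i τ c, φ i τ (algebraMap QQ (L i) c) = algebraMap QQ M (τ c))
    (hφx : ∀ i τ, φ i τ (x i) = t) (hP : ∀ i τ, P.ring.comap (φ i τ) = (a i).ring)
    {θ : K} (hθ : IntermediateField.adjoin ℚ {θ} = ⊤) {τ τ' : Gam}
    (h : τ (θ : QQ) = τ' (θ : QQ)) (i : Bool) {l : L i} (hl : l ∈ L₀ i) :
    φ i τ l = φ i τ' l := by
  have h1 : (τ⁻¹ * τ') (θ : QQ) = θ := by
    change τ.symm (τ' θ) = θ
    rw [← h, AlgEquiv.symm_apply_apply]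
  obtain ⟨r, hr1, hr2, hr3, -⟩ := (hmod i).lift (τ⁻¹ * τ') (descent_prim hθ h1)
  have h2 : P.ring.comap ((φ i τ).comp (r : L i →+* L i)) = (a i).ring := by
    rw [← ValuationSubring.comap_comap, hP, hr3]
  have h3 := taylor (hL i) hM.isCurve ((τ' : Gam) : QQ ≃+* QQ)
    (φ := (φ i τ).comp (r : L i →+* L i)) (φ' := φ i τ')
    (fun c => by
      change φ i τ (r _) = _
      rw [hr1, hφ]
      change algebraMap QQ M (τ (τ.symm (τ' c))) = _
      rw [AlgEquiv.apply_symm_apply]
      rfl) (hφ i τ') h2 (hP i τ') (x := x i) (c := 0) (by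
      rw [map_zero, sub_zero]
      exact ha i) (by
      change φ i τ (r (x i)) = _
      rw [hr2 _ (hmod i).mem, hφx, hφx])
  have h4 := RingHom.congr_fun h3 l
  rw [← h4]
  change _ = φ i τ (r l)
  rw [hr2 _ hl]

/-- the conjugates of a function over `K` are combinations of invariant functions -/
private theorem descent_span (hM : Frame t) (hL : ∀ i, IsCurve QQ (L i)) (x : ∀ i, L i)
    (a o : ∀ i, Place QQ (L i)) (ha : ∀ i, IsUnif (a i) (x i)) {K : IntermediateField ℚ QQ}
    [FiniteDimensional ℚ K] {L₀ : ∀ i, Subfield (L i)}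
    (hmod : ∀ i, Model K (x i) (L₀ i) (a i) (o i)) (P : Place QQ M)
    (hφ : ∀ i τ c, φ i τ (algebraMap QQ (L i) c) = algebraMap QQ M (τ c))
    (hφx : ∀ i τ, φ i τ (x i) = t) (hP : ∀ i τ, P.ring.comap (φ i τ) = (a i).ring)
    (i : Bool) (σ : Gam) {l : L i} (hl : l ∈ L₀ i) :
    φ i σ l ∈ IntermediateField.adjoin QQ (fixField t φ : Set M) := by
  obtain ⟨θ, hθ⟩ := Field.exists_primitive_element ℚ K
  have hco := fun {τ τ' : Gam} (h : τ (θ : QQ) = τ' (θ : QQ)) =>
    descent_coset hM hL x a o ha hmod P hφ hφx hP hθ h i hl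
  -- the conjugates of `θ`
  let R : Set QQ := Set.range fun τ : Gam => τ (θ : QQ)
  have hRfin : R.Finite := by
    have hint : IsIntegral ℚ (θ : QQ) := Algebra.IsIntegral.isIntegral _
    refine (rootSet_finite (minpoly ℚ (θ : QQ)) QQ).subset ?_
    rintro _ ⟨τ, rfl⟩
    rw [mem_rootSet]
    refine ⟨minpoly.ne_zero hint, ?_⟩
    have h1 := Polynomial.aeval_algHom_apply (τ : QQ →ₐ[ℚ] QQ) (θ : QQ) (minpoly ℚ (θ : QQ))
    rw [minpoly.aeval, map_zero] at h1
    exact h1
  let T : Finset QQ := hRfin.toFinset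
  have hT : ∀ r, r ∈ T ↔ ∃ τ : Gam, τ (θ : QQ) = r := fun r => hRfin.mem_toFinset
  let f : QQ → M := fun r => if h : ∃ τ : Gam, τ (θ : QQ) = r then φ i h.choose l else 0
  have hf : ∀ τ : Gam, f (τ (θ : QQ)) = φ i τ l := by
    intro τ
    have h1 : ∃ τ' : Gam, τ' (θ : QQ) = τ (θ : QQ) := ⟨τ, rfl⟩
    have h2 : f (τ (θ : QQ)) = φ i h1.choose l := dif_pos h1
    rw [h2]
    exact hco h1.choose_spec
  let s : ℕ → M := fun j => ∑ r ∈ T, algebraMap QQ M (r ^ j) * f r
  have hs : ∀ j, s j ∈ fixField t φ := by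
    intro j
    rw [mem_fixField]
    constructor
    · refine sum_mem fun r hr => mul_mem (IntermediateField.algebraMap_mem _ _) ?_
      obtain ⟨τ, rfl⟩ := (hT r).1 hr
      rw [hf]
      exact mem_conjField i τ l
    · intro τ g hg
      have h1 : g (s j) = ∑ r ∈ T, algebraMap QQ M ((τ r) ^ j) * f (τ r) := by
        rw [map_sum]
        refine Finset.sum_congr rfl fun r hr => ?_
        obtain ⟨σ, rfl⟩ := (hT r).1 hr
        rw [map_mul, hg.c, map_pow, hf, hg.φ]
        congr 1
        have h2 := hf (τ * σ)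
        exact h2.symm
      rw [h1]
      refine Finset.sum_nbij' (fun r => τ r) (fun r => τ.symm r) ?_ ?_ ?_ ?_ ?_
      · intro r hr
        obtain ⟨σ, rfl⟩ := (hT r).1 hr
        exact (hT _).2 ⟨τ * σ, rfl⟩
      · intro r hr
        obtain ⟨σ, rfl⟩ := (hT r).1 hr
        exact (hT _).2 ⟨τ⁻¹ * σ, rfl⟩
      · intro r _
        exact τ.symm_apply_apply r
      · intro r _
        exact τ.apply_symm_apply r
      · intro r _
        rfl
  -- interpolation
  set r₀ : QQ := σ (θ : QQ) with hr₀
  have hr₀T : r₀ ∈ T := (hT r₀).2 ⟨σ, rfl⟩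
  let p : QQ[X] := Lagrange.basis T id r₀
  have hp1 : p.eval r₀ = 1 := by
    have := Lagrange.eval_basis_self (s := T) (v := id) Function.injective_id.injOn hr₀T
    exact this
  have hp0 : ∀ r ∈ T, r ≠ r₀ → p.eval r = 0 := by
    intro r hr hne
    exact Lagrange.eval_basis_of_ne (s := T) (v := id) hne.symm hr
  have h1 : φ i σ l = ∑ r ∈ T, algebraMap QQ M (p.eval r) * f r := by
    rw [Finset.sum_eq_single r₀, hp1, map_one, one_mul, hf]
    · intro r hr hne
      rw [hp0 r hr hne, map_zero, zero_mul]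
    · intro h
      exact absurd hr₀T h
  have h2 : ∑ r ∈ T, algebraMap QQ M (p.eval r) * f r =
      ∑ j ∈ Finset.range (p.natDegree + 1), algebraMap QQ M (p.coeff j) * s j := by
    have h3 : ∀ r ∈ T, algebraMap QQ M (p.eval r) * f r =
        ∑ j ∈ Finset.range (p.natDegree + 1),
          algebraMap QQ M (p.coeff j) * (algebraMap QQ M (r ^ j) * f r) := by
      intro r _
      rw [Polynomial.eval_eq_sum_range, map_sum, Finset.sum_mul]
      refine Finset.sum_congr rfl fun j _ => ?_
      rw [map_mul, mul_assoc]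
    rw [Finset.sum_congr rfl h3, Finset.sum_comm]
    refine Finset.sum_congr rfl fun j _ => ?_
    rw [Finset.mul_sum]
  rw [h1, h2]
  exact sum_mem fun j _ => mul_mem (IntermediateField.algebraMap_mem _ _)
    (IntermediateField.subset_adjoin _ _ (hs j))

/-- a field between a curve and the rational functions is a curve -/
private theorem descent_curve (hM : Frame t) {F : IntermediateField QQ M} (ht : t ∈ F) :
    IsCurve QQ F := by
  have htr : Transcendental QQ (⟨t, ht⟩ : F) :=
    (transcendental_algebraMap_iff (algebraMap F M).injective).1 hM.transc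
  refine ⟨⟨t, ht⟩, htr, ?_⟩
  let E := IntermediateField.adjoin QQ {t}
  haveI := hM.fin
  have hle : E ≤ F := by
    rw [IntermediateField.adjoin_le_iff]
    rintro _ rfl
    exact ht
  letI : Algebra E F := (IntermediateField.inclusion hle).toAlgebra
  haveI : IsScalarTower E F M := IsScalarTower.of_algebraMap_eq fun _ => rfl
  have h1 : FiniteDimensional E F := FiniteDimensional.left E F M
  let E' := IntermediateField.adjoin QQ {(⟨t, ht⟩ : F)}
  have hE' : IntermediateField.lift (F := F) E' = E := by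
    exact IntermediateField.lift_adjoin_simple QQ F ⟨t, ht⟩
  let e : E' ≃ₐ[QQ] E :=
    (IntermediateField.liftAlgEquiv E').trans (IntermediateField.equivOfEq hE')
  exact Module.Finite.of_equiv_equiv (A₁ := E) (B₁ := F) (A₂ := E') (B₂ := F)
    (e.symm : E ≃+* E') (RingEquiv.refl F) (by
      ext y
      obtain ⟨z, rfl⟩ := e.surjective y
      simp
      rfl)

end

theorem descent {M : Type} [Field M] [Algebra QQ M] {t : M} (hM : Frame t)
    (L : Bool → Type) [∀ i, Field (L i)] [∀ i, Algebra QQ (L i)] (hL : ∀ i, IsCurve QQ (L i))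
    (x : ∀ i, L i) (a o : ∀ i, Place QQ (L i)) (ha : ∀ i, IsUnif (a i) (x i))
    (ho : ∀ i, IsUnif (o i) (x i - 1)) (K : IntermediateField ℚ QQ)
    [FiniteDimensional ℚ K] (L₀ : ∀ i, Subfield (L i))
    (hmod : ∀ i, Model K (x i) (L₀ i) (a i) (o i))
    (φ : ∀ i, Gam → L i →+* M) (P O : Place QQ M)
    (hφ : ∀ i τ c, φ i τ (algebraMap QQ (L i) c) = algebraMap QQ M (τ c))
    (hφx : ∀ i τ, φ i τ (x i) = t) (hP : ∀ i τ, P.ring.comap (φ i τ) = (a i).ring)
    (hO : ∀ i τ, O.ring.comap (φ i τ) = (o i).ring) :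
    ∃ (F : Type) (_ : Field F) (_ : Algebra QQ F) (F₀ : Subfield F) (P' O' : Place QQ F)
      (f : ∀ i, L i →ₐ[QQ] F), IsCurve QQ F ∧
      IntermediateField.adjoin QQ (F₀ : Set F) = ⊤ ∧ Act F₀ P' O' ∧
      (∀ i, P'.ring.comap (f i : L i →+* F) = (a i).ring) ∧
      ∀ i, O'.ring.comap (f i : L i →+* F) = (o i).ring := by
  have htF : t ∈ conjField φ := by
    rw [← hφx false 1]
    exact mem_conjField false 1 _
  have hF : IsCurve QQ (conjField φ) := descent_curve hM htF
  obtain ⟨P', hP'⟩ := exists_pull hF hM.isCurve (RingEquiv.refl QQ)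
    (algebraMap (conjField φ) M) (fun c => rfl) P
  obtain ⟨O', hO'⟩ := exists_pull hF hM.isCurve (RingEquiv.refl QQ)
    (algebraMap (conjField φ) M) (fun c => rfl) O
  let F₀ : Subfield (conjField φ) := (fixField t φ).comap (algebraMap (conjField φ) M)
  let f : ∀ i, L i →ₐ[QQ] conjField φ := fun i =>
    { (φ i 1).codRestrict (conjField φ).toSubring (mem_conjField i 1) with
      commutes' := fun c => Subtype.ext (hφ i 1 c) }
  have hf : ∀ i, (algebraMap (conjField φ) M).comp (f i : L i →+* conjField φ) = φ i 1 :=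
    fun i => rfl
  refine ⟨conjField φ, inferInstance, inferInstance, F₀, P', O', f, hF, ?_, ?_, ?_, ?_⟩
  · -- generation
    rw [eq_top_iff]
    rintro m -
    have h1 : (m : M) ∈ IntermediateField.adjoin QQ (fixField t φ : Set M) := by
      refine conjField_induction (φ := φ)
        (p := fun m => m ∈ IntermediateField.adjoin QQ (fixField t φ : Set M))
        (fun i σ l => ?_) (fun c => IntermediateField.algebraMap_mem _ _)
        (fun a b ha hb => add_mem ha hb) (fun a ha => inv_mem ha)
        (fun a b ha hb => mul_mem ha hb) m.2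
      have h2 : l ∈ IntermediateField.adjoin QQ (L₀ i : Set (L i)) := by
        rw [(hmod i).gen]
        trivial
      induction h2 using IntermediateField.adjoin_induction with
      | mem y hy => exact descent_span hM hL x a o ha hmod P hφ hφx hP i σ hy
      | algebraMap c =>
        rw [hφ]
        exact IntermediateField.algebraMap_mem _ _
      | add y z _ _ hy hz =>
        rw [map_add]
        exact add_mem hy hz
      | inv y _ hy =>
        rw [map_inv₀]
        exact inv_mem hy
      | mul y z _ _ hy hz =>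
        rw [map_mul]
        exact mul_mem hy hz
    have h3 : IntermediateField.adjoin QQ (fixField t φ : Set M) ≤
        (IntermediateField.adjoin QQ (F₀ : Set (conjField φ))).map (conjField φ).val := by
      rw [IntermediateField.adjoin_le_iff]
      intro y hy
      exact ⟨⟨y, hy.1⟩, IntermediateField.subset_adjoin _ _ hy, rfl⟩
    obtain ⟨m', hm', h4⟩ := h3 h1
    have h5 : m' = m := Subtype.ext h4
    rw [← h5]
    exact hm'
  · -- the action
    intro τ
    obtain ⟨g, hg, hgP⟩ := descent_exists hM hL x a (q := 0) (fun τ => map_zero τ) (fun i => by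
      rw [map_zero, sub_zero]
      exact ha i) P hφ hφx hP τ
    obtain ⟨g', hg', hgO⟩ := descent_exists hM hL x o (q := 1) (fun τ => map_one τ) (fun i => by
      rw [map_one]
      exact ho i) O hφ hφx hO τ
    refine ⟨hg.res, fun c => Subtype.ext (hg.c c), fun y hy => Subtype.ext (hy.2 τ g hg), ?_, ?_⟩
    · ext m
      have h1 : ∀ y : conjField φ, y ∈ P'.ring ↔ (y : M) ∈ P.ring := by
        intro y
        rw [← hP', ValuationSubring.mem_comap]
        rfl
      rw [ValuationSubring.mem_comap, h1, h1]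
      have h2 : (m : M) ∈ P.ring.comap (g : M →+* M) ↔ g m ∈ P.ring :=
        ValuationSubring.mem_comap
      rw [hgP] at h2
      exact h2.symm
    · ext m
      have h1 : ∀ y : conjField φ, y ∈ O'.ring ↔ (y : M) ∈ O.ring := by
        intro y
        rw [← hO', ValuationSubring.mem_comap]
        rfl
      rw [ValuationSubring.mem_comap, h1, h1]
      have h2 : (m : M) ∈ O.ring.comap (g' : M →+* M) ↔ g' m ∈ O.ring :=
        ValuationSubring.mem_comap
      rw [hgO, ← hg.unique hg' m.2] at h2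
      exact h2.symm
  · intro i
    rw [← hP', ValuationSubring.comap_comap, hf, hP]
  · intro i
    rw [← hO', ValuationSubring.comap_comap, hf, hO]

end Pool.Agent.Dess
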