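import Pool.Agent.Dess.Pole

/-!
# Functions with given first order behaviour at two points and a single pole
-/

set_option autoImplicit false

noncomputable section

namespace Pool.Agent.Dess

open Pool.Agent.ZCyc Polynomial
open scoped Classical

variable {k F : Type} [Field k] [IsAlgClosed k] [CharZero k] [Field F] [Algebra k F]

omit [IsAlgClosed k] [CharZero k] in
/-- a function which agrees with a uniformizer up to order two is a uniformizer -/
private theorem jets_unif {v : Place k F} {π y : F} (hπ : IsUnif v π)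
    (h : (y - π) / π ^ 2 ∈ v.ring) : IsUnif v y := by
  obtain ⟨hπ0, hπv, hπu⟩ := hπ
  set r := (y - π) / π ^ 2 with hr
  have hy : y = π * (1 + π * r) := by
    rw [hr]
    field_simp
    ring
  have h1 : v.Vanishes (π * r) := Place.Vanishes.mul v hπv h
  have hu : (1 + π * r)⁻¹ ∈ v.ring ∧ 1 + π * r ≠ 0 := by
    have h2 : v.At (1 + π * r) 1 := by
      unfold Place.At
      rw [map_one]
      have e : 1 + π * r - 1 = π * r := by ring
      rw [e]
      exact h1
    have h3 : ¬ v.Vanishes (1 + π * r) := by
      intro h4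
      have h5 : v.At (1 + π * r) 0 := Place.at_zero_iff.2 h4
      exact one_ne_zero (h2.unique h5)
    constructor
    · by_contra h6
      exact h3 ((v.vanishes_iff_or _).2 (Or.inr h6))
    · intro h6
      rw [h6] at h3
      exact h3 v.vanishes_zero
  have hmem : 1 + π * r ∈ v.ring := add_mem (one_mem _) (Place.Vanishes.mem v h1)
  refine ⟨?_, ?_, fun g hg => ?_⟩
  · rw [hy]
    exact mul_ne_zero hπ0 hu.2
  · rw [hy]
    exact Place.Vanishes.mul v hπv hmem
  · rw [hy, ← div_div, div_eq_mul_inv]
    exact mul_mem (hπu g hg) hu.1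

theorem exists_jets (hF : IsCurve k F) {q a o : Place k F} (hqa : q ≠ a) (hqo : q ≠ o)
    (hao : a ≠ o) : ∃ y : F, (∀ v, v ≠ q → y ∈ v.ring) ∧ IsUnif a y ∧ IsUnif o (y - 1) := by
  obtain ⟨w, hw, hreg⟩ := exists_single_pole hF q
  obtain ⟨πa, ha⟩ := exists_unif hF a
  obtain ⟨πo, ho⟩ := exists_unif hF o
  obtain ⟨y, hy, hyS⟩ := crt hF hw {a, o} (by
    intro v hv
    rcases Finset.mem_insert.1 hv with rfl | hv
    · exact hreg _ hqa.symm
    · rw [Finset.mem_singleton] at hv
      subst hv
      exact hreg _ hqo.symm) 2 (fun v => if v = a then πa else 1 + πo) (by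
    intro v hv
    rcases Finset.mem_insert.1 hv with rfl | hv
    · rw [if_pos rfl]
      exact Place.Vanishes.mem _ ha.2.1
    · rw [Finset.mem_singleton] at hv
      subst hv
      rw [if_neg hao.symm]
      exact add_mem (one_mem _) (Place.Vanishes.mem _ ho.2.1))
  refine ⟨y, fun v hv => int_mem v (hreg v hv) hy, ?_, ?_⟩
  · have h1 := hyS a (Finset.mem_insert_self _ _) πa ha
    rw [if_pos rfl] at h1
    exact jets_unif ha h1
  · have h1 := hyS o (Finset.mem_insert_of_mem (Finset.mem_singleton_self _)) πo ho
    rw [if_neg hao.symm] at h1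
    apply jets_unif ho
    have e : y - 1 - πo = y - (1 + πo) := by ring
    rw [e]
    exact h1

end Pool.Agent.Dess
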