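import Pool.Agent.Dess.Points
import Pool.Agent.Dess.Descent
import Pool.Agent.Dess.Jets
import Pool.Agent.Dess.Crit
import Pool.Agent.Dess.Choice
import Pool.Agent.ZCyc.Places

/-!
# Two curves with two points each are dominated by a curve over the rational numbers
-/

set_option autoImplicit false

noncomputable section

namespace Pool.Agent.Dess

open Pool.Agent.ZCyc Polynomial
open scoped Classical

theorem joint_transc {k F : Type} [Field k] [IsAlgClosed k] [Field F] [Algebra k F]
    {v : Place k F} {y : F} (h : IsUnif v y) : Transcendental k y := by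
  intro halg
  have h1 := minpoly.irreducible halg.isIntegral
  have h2 := IsAlgClosed.degree_eq_one_of_irreducible k h1
  obtain ⟨c, hc⟩ := minpoly.mem_range_of_degree_eq_one k y h2
  apply h.1
  rw [← hc]
  by_cases h0 : c = 0
  · rw [h0, map_zero]
  · exfalso
    apply v.const_unit h0
    rw [hc]
    exact h.2.1

theorem joint_point {L : Type} [Field L] [Algebra QQ L] (hL : IsCurve QQ L) (a o : Place QQ L) :
    ∃ q : Place QQ L, q ≠ a ∧ q ≠ o := by
  obtain ⟨t, ht, _⟩ := hL
  by_contra hcon
  push Not at hcon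
  choose v hv using fun c : QQ => exists_place ht c
  have hne : ∀ c d : QQ, c ≠ d → v c ≠ v d := by
    intro c d hcd h
    apply hcd
    have h1 := hv c
    rw [h] at h1
    exact h1.unique (hv d)
  have h1 : ∀ c : QQ, v c = a ∨ v c = o := by
    intro c
    by_cases h : v c = a
    · exact Or.inl h
    · exact Or.inr (hcon _ h)
  have h01 := hne 0 1 (by norm_num)
  have h02 := hne 0 2 (by norm_num)
  have h12 := hne 1 2 (by norm_num)
  rcases h1 0 with h | h <;> rcases h1 1 with h' | h' <;> rcases h1 2 with h'' | h'' <;>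
    simp_all

theorem joint (L : Bool → Type) [∀ i, Field (L i)] [∀ i, Algebra QQ (L i)]
    (hL : ∀ i, IsCurve QQ (L i)) (a o : ∀ i, Place QQ (L i)) (hao : ∀ i, a i ≠ o i) :
    ∃ (F : Type) (_ : Field F) (_ : Algebra QQ F) (F₀ : Subfield F) (P' O' : Place QQ F)
      (f : ∀ i, L i →ₐ[QQ] F), IsCurve QQ F ∧
      IntermediateField.adjoin QQ (F₀ : Set F) = ⊤ ∧ Act F₀ P' O' ∧
      (∀ i, P'.ring.comap (f i : L i →+* F) = (a i).ring) ∧
      ∀ i, O'.ring.comap (f i : L i →+* F) = (o i).ring := by
  choose q hqa hqo using fun i => joint_point (hL i) (a i) (o i)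
  choose y hy ha ho using fun i => exists_jets (hL i) (hqa i) (hqo i) (hao i)
  have hyt : ∀ i, Transcendental QQ (y i) := fun i => joint_transc (ha i)
  choose K' hK' L₀' hmod' using fun i => exists_model (hL i) (hyt i) (a i) (o i)
    (hy i (a i) (hqa i).symm) (hy i (o i) (hqo i).symm)
  let K : IntermediateField ℚ QQ := K' false ⊔ K' true
  have := hK' false
  have := hK' true
  have hK : FiniteDimensional ℚ K := inferInstance
  have hle : ∀ i, K' i ≤ K := by
    rintro (_ | _)
    exacts [le_sup_left, le_sup_right]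
  choose L₀ hmod using fun i => (hmod' i).mono (hle i)
  let B : Bool → Finset QQ := fun i => (finite_crit (hL i) (hyt i)).toFinset
  have hB : ∀ (i) (v : Place QQ (L i)) (c : QQ), v.At (y i) c → c ∉ B i →
      IsUnif v (y i - algebraMap QQ (L i) c) := by
    intro i v c hv hc
    by_contra hn
    apply hc
    simp only [B, Set.Finite.mem_toFinset, Set.mem_ofPred_eq]
    exact ⟨v, hv, hn⟩
  obtain ⟨e, heK, he0, he1, hsep⟩ := exists_e K B
  let x : ∀ i, L i := fun i =>
    algebraMap QQ (L i) (e i) * y i / (y i + algebraMap QQ (L i) (e i - 1))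
  have hchart : ∀ i, Chart (x i) (a i) (o i) (e i) (branch (B i) (e i)) := fun i =>
    moebius (hL i) (hy i) (ha i) (ho i) (hB i) (he0 i) (he1 i)
  have hmodx : ∀ i, Model K (x i) (L₀ i) (a i) (o i) := by
    intro i
    refine ⟨(hmod i).gen, ?_, (hmod i).const_mem, (hmod i).lift⟩
    have h1 : e i - 1 ∈ K := sub_mem (heK i) (one_mem _)
    exact div_mem (mul_mem ((hmod i).const_mem _ (heK i)) (hmod i).mem)
      (add_mem (hmod i).mem ((hmod i).const_mem _ h1))
  obtain ⟨M, _, _, t, hM, hφ⟩ := exists_frame L x (fun i => (hchart i).transc)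
    (fun i => fin_adjoin (hL i) (hchart i).transc)
  choose φ₀ hφ₀ using hφ
  obtain ⟨φ, P, O, h1, h2, h3, h4⟩ := exists_points hM L hL x a o e (fun i => branch (B i) (e i))
    hchart K L₀ hmodx hsep φ₀ hφ₀
  exact descent hM L hL x a o (fun i => (hchart i).a_unif) (fun i => (hchart i).o_unif) K L₀ hmodx
    φ P O h1 h2 h3 h4

end Pool.Agent.Dess
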