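import Pool.Agent.Dess.CRT

/-!
# The Galois group acts transitively on the places above a place (package D4)
-/

set_option autoImplicit false

noncomputable section

namespace Pool.Agent.Dess

open Pool.Agent.ZCyc Polynomial
open scoped Classical

section Places

variable {k F : Type} [Field k] [IsAlgClosed k] [CharZero k] [Field F] [Algebra k F]

omit [CharZero k] in
/-- a transcendental function which is regular at finitely many given places -/
private theorem exists_regular (hF : IsCurve k F) (S : Finset (Place k F)) :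
    ∃ w : F, Transcendental k w ∧ ∀ u ∈ S, w ∈ u.ring := by
  obtain ⟨t, ht, -⟩ := hF
  -- the finite set of values of `t`
  let val : Place k F → k := fun u => if h : ∃ c, u.At t c then h.choose else 0
  obtain ⟨c, hc⟩ := Infinite.exists_notMem_finset (S.image val)
  have hne : ∀ a : k, t - algebraMap k F a ≠ 0 := by
    intro a h
    apply ht
    rw [sub_eq_zero] at h
    rw [h]
    exact isAlgebraic_algebraMap a
  refine ⟨(t - algebraMap k F c)⁻¹, ?_, fun u hu => ?_⟩
  · intro h
    apply ht
    have h1 : IsAlgebraic k (t - algebraMap k F c) := by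
      have := h.inv
      rwa [inv_inv] at this
    have h2 := h1.add (isAlgebraic_algebraMap (A := F) c)
    rwa [sub_add_cancel] at h2
  · by_contra h
    have h1 : u.Vanishes (t - algebraMap k F c) := (u.vanishes_iff_or _).2 (Or.inr h)
    apply hc
    rw [Finset.mem_image]
    refine ⟨u, hu, ?_⟩
    have h2 : ∃ c, u.At t c := ⟨c, h1⟩
    have h3 : val u = h2.choose := dif_pos h2
    rw [h3]
    exact h2.choose_spec.unique h1

/-- the Galois group acts transitively on the places above a place -/
theorem galois_trans (hF : IsCurve k F) (E : IntermediateField k F) [FiniteDimensional E F]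
    [IsGalois E F] (v w : Place k F) (h : ∀ f ∈ E, f ∈ v.ring ↔ f ∈ w.ring) :
    ∃ g : F ≃ₐ[k] F, (∀ f ∈ E, g f = f) ∧ v.map g = w := by
  by_contra hcon
  push Not at hcon
  let R : (F ≃ₐ[E] F) → (F ≃ₐ[k] F) := fun σ => σ.restrictScalars k
  have hR : ∀ (σ : F ≃ₐ[E] F) (f : F), R σ f = σ f := fun σ f => rfl
  have hfix : ∀ (σ : F ≃ₐ[E] F) (f : F), f ∈ E → R σ f = f := fun σ f hf =>
    σ.commutes (⟨f, hf⟩ : E)
  let Sv : Finset (Place k F) := Finset.univ.image fun σ : F ≃ₐ[E] F => v.map (R σ)
  let Sw : Finset (Place k F) := Finset.univ.image fun σ : F ≃ₐ[E] F => w.map (R σ)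
  obtain ⟨x, hx, hreg⟩ := exists_regular hF (Sv ∪ Sw)
  obtain ⟨b, -, hb⟩ := crt hF hx (Sv ∪ Sw) hreg 1 (fun u => if u ∈ Sv then 1 else 0)
    (fun u _ => by
      split_ifs
      · exact u.ring.one_mem
      · exact u.ring.zero_mem)
  -- the value of `b` at these places
  have hval : ∀ u ∈ Sv ∪ Sw, u.Vanishes (b - if u ∈ Sv then 1 else 0) := by
    intro u hu
    obtain ⟨π, hπ⟩ := exists_unif hF u
    have h1 := hb u hu π hπ
    rw [pow_one] at h1
    have h2 := Place.Vanishes.mul u hπ.2.1 h1
    rwa [mul_div_cancel₀ _ hπ.1] at h2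
  have hv1 : ∀ σ : F ≃ₐ[E] F, (v.map (R σ)).At b 1 := by
    intro σ
    have h1 : v.map (R σ) ∈ Sv := Finset.mem_image_of_mem _ (Finset.mem_univ σ)
    have h2 := hval _ (Finset.mem_union_left _ h1)
    rw [if_pos h1] at h2
    unfold Place.At
    rwa [map_one]
  have hw0 : ∀ σ : F ≃ₐ[E] F, (w.map (R σ)).At b 0 := by
    intro σ
    have h1 : w.map (R σ) ∈ Sw := Finset.mem_image_of_mem _ (Finset.mem_univ σ)
    have h3 : w.map (R σ) ∉ Sv := by
      intro h4
      obtain ⟨τ, -, hτ⟩ := Finset.mem_image.1 h4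
      apply hcon ((R τ).trans (R σ).symm)
      · intro f hf
        change (R σ).symm (R τ f) = f
        rw [hfix τ f hf, AlgEquiv.symm_apply_eq, hfix σ f hf]
      · rw [← Place.map_map, hτ, Place.map_map, AlgEquiv.self_trans_symm]
        exact w.map_one
    have h2 := hval _ (Finset.mem_union_right _ h1)
    rw [if_neg h3] at h2
    rw [Place.at_zero_iff]
    rwa [sub_zero] at h2
  -- the norm
  set N : E := Algebra.norm E b with hN
  have hNeq : (N : F) = ∏ σ : F ≃ₐ[E] F, σ b := by
    have := Algebra.norm_eq_prod_automorphisms E b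
    exact this
  have hsymm : ∀ σ : F ≃ₐ[E] F, (R σ⁻¹).symm = R σ := by
    intro σ
    ext f
    rw [AlgEquiv.symm_apply_eq, hR, hR]
    exact (AlgEquiv.symm_apply_apply σ f).symm
  have hNv : v.At (N : F) 1 := by
    rw [hNeq]
    have h1 : ∀ σ ∈ (Finset.univ : Finset (F ≃ₐ[E] F)), v.At (σ b) (1 : k) := by
      intro σ _
      have h2 := (Place.at_map v (R σ⁻¹) b 1).1 (hv1 σ⁻¹)
      rw [hsymm] at h2
      exact h2
    have h3 := Place.At.prod h1
    simpa using h3
  have hNw : w.Vanishes (N : F) := by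
    rw [hNeq, ← Place.at_zero_iff]
    have h1 : ∀ σ ∈ (Finset.univ : Finset (F ≃ₐ[E] F)), w.At (σ b) (0 : k) := by
      intro σ _
      have h2 := (Place.at_map w (R σ⁻¹) b 0).1 (hw0 σ⁻¹)
      rw [hsymm] at h2
      exact h2
    have h3 := Place.At.prod h1
    simpa using h3
  have hinv := hNv.inv one_ne_zero
  have h1 : (N : F)⁻¹ ∈ v.ring := hinv.mem
  have h2 : (N : F)⁻¹ ∈ w.ring := (h _ (E.inv_mem N.2)).1 h1
  rcases (w.vanishes_iff_or _).1 hNw with h3 | h3
  · rw [h3] at hNv
    exact one_ne_zero (hNv.unique (by simpa using Place.at_const (v := v) (0 : k)))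
  · exact h3 h2

end Places

end Pool.Agent.Dess
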