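import Pool.Agent.Dess.Dede

/-!
# The identity principle (package D8)
-/

set_option autoImplicit false

noncomputable section

namespace Pool.Agent.Dess

open Pool.Agent.ZCyc Polynomial
open scoped Classical

section Places

variable {k F : Type} [Field k] [IsAlgClosed k] [CharZero k] [Field F] [Algebra k F]

theorem taylor {M : Type} [Field M] [Algebra k M] (hF : IsCurve k F) (hM : IsCurve k M)
    (τ : k ≃+* k) {φ φ' : F →+* M} (hφ : ∀ c, φ (algebraMap k F c) = algebraMap k M (τ c))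
    (hφ' : ∀ c, φ' (algebraMap k F c) = algebraMap k M (τ c)) {v : Place k F} {V : Place k M}
    (h : V.ring.comap φ = v.ring) (h' : V.ring.comap φ' = v.ring) {x : F} {c : k}
    (hu : IsUnif v (x - algebraMap k F c)) (hx : φ x = φ' x) : φ = φ' := by
  set π := x - algebraMap k F c with hπ
  have hzz : φ π = φ' π := by
    rw [hπ, map_sub, map_sub, hφ, hφ', hx]
  have hmem : ∀ f : F, f ∈ v.ring ↔ φ f ∈ V.ring := by
    intro f
    rw [← h, ValuationSubring.mem_comap]
  have hmem' : ∀ f : F, f ∈ v.ring ↔ φ' f ∈ V.ring := by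
    intro f
    rw [← h', ValuationSubring.mem_comap]
  set z := φ π with hz
  have hz0 : z ≠ 0 := (map_ne_zero φ).2 hu.1
  have hzv : V.Vanishes z := by
    rw [Place.vanishes_iff_or]
    right
    rcases (v.vanishes_iff_or _).1 hu.2.1 with h1 | h1
    · exact absurd h1 hu.1
    · intro h2
      rw [hz, ← map_inv₀, ← hmem] at h2
      exact h1 h2
  have key : ∀ (n : ℕ) (f : F), f ∈ v.ring → ∃ s ∈ V.ring, φ f - φ' f = z ^ n * s := by
    intro n
    induction n with
    | zero =>
      intro f hf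
      exact ⟨φ f - φ' f, sub_mem ((hmem f).1 hf) ((hmem' f).1 hf), by ring⟩
    | succ n ih =>
      intro f hf
      obtain ⟨a, ha⟩ := exists_at hF v hf
      have hg := hu.2.2 _ ha
      obtain ⟨s, hs, hs2⟩ := ih _ hg
      refine ⟨s, hs, ?_⟩
      have h1 : f = algebraMap k F a + π * ((f - algebraMap k F a) / π) := by
        rw [mul_div_cancel₀ _ hu.1]
        ring
      have h2 : φ f - φ' f = z * (φ ((f - algebraMap k F a) / π) -
          φ' ((f - algebraMap k F a) / π)) := by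
        conv_lhs => rw [h1]
        rw [map_add, map_mul, map_add, map_mul, hφ, hφ', ← hzz]
        ring
      rw [h2, hs2]
      ring
  have hring : ∀ f ∈ v.ring, φ f = φ' f := by
    intro f hf
    by_contra hne
    have hd : φ f - φ' f ≠ 0 := sub_ne_zero.2 hne
    obtain ⟨ϖ, hq⟩ := exists_unif hM V
    obtain ⟨m, -, hm⟩ := exists_ord hM V hq hd
    obtain ⟨n, hn⟩ : ∃ n : ℕ, m < n := ⟨(m + 1).toNat, by omega⟩
    obtain ⟨s, hs, hs2⟩ := key n f hf
    have h1 : z / ϖ ∈ V.ring := hq.2.2 _ hzv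
    obtain ⟨j, hj⟩ : ∃ j : ℕ, (n : ℤ) = m + (j + 1 : ℕ) := ⟨(n - m - 1).toNat, by omega⟩
    have h2 : (ϖ ^ (j + 1))⁻¹ ∈ V.ring := by
      have h3 : (ϖ ^ (j + 1))⁻¹ = ((φ f - φ' f) / ϖ ^ m)⁻¹ * ((z / ϖ) ^ n * s) := by
        have h4 : ((z / ϖ) ^ n * s) = (φ f - φ' f) / ϖ ^ n := by
          rw [hs2, div_pow]
          ring
        have h5 : ϖ ^ n = ϖ ^ m * ϖ ^ (j + 1) := by
          rw [← zpow_natCast ϖ n, hj, zpow_add₀ hq.1, zpow_natCast]
        rw [h4, h5]
        have h6 : ϖ ^ m ≠ 0 := zpow_ne_zero m hq.1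
        have h7 : ϖ ^ (j + 1) ≠ 0 := pow_ne_zero _ hq.1
        field_simp
      rw [h3]
      exact mul_mem hm (mul_mem (pow_mem h1 n) hs)
    have h3 : V.Vanishes (ϖ ^ (j + 1)) := Place.Vanishes.pow V hq.2.1 (Nat.succ_ne_zero j)
    rcases (V.vanishes_iff_or _).1 h3 with h4 | h4
    · exact pow_ne_zero _ hq.1 h4
    · exact h4 h2
  apply RingHom.ext
  intro f
  rcases v.ring.mem_or_inv_mem f with h1 | h1
  · exact hring f h1
  · have h2 := hring _ h1
    rw [map_inv₀, map_inv₀] at h2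
    exact inv_injective h2

end Places

end Pool.Agent.Dess
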