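import Pool.Agent.Dess.Frame
import Pool.Agent.Dess.Ext
import Pool.Agent.Dess.Galois
import Pool.Agent.Dess.Taylor
import Pool.Agent.ZCyc.Places

/-!
# Tuples of embeddings
-/

set_option autoImplicit false

noncomputable section

namespace Pool.Agent.Dess

open Pool.Agent.ZCyc Polynomial
open scoped Classical

/-- vanishing and pull-back of places -/
theorem tuple_vanishes {k k' L M : Type} [Field k] [Field k'] [Field L] [Field M] [Algebra k L]
    [Algebra k' M] {v : Place k L} {V : Place k' M} {φ : L →+* M} (h : V.ring.comap φ = v.ring)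
    (f : L) : v.Vanishes f ↔ V.Vanishes (φ f) := by
  rw [v.vanishes_iff_or, V.vanishes_iff_or, ← map_inv₀, ← h, ValuationSubring.mem_comap,
    map_eq_zero_iff φ φ.injective]

theorem tuple_at {L M : Type} [Field L] [Field M] [Algebra QQ L]
    [Algebra QQ M] {v : Place QQ L} {V : Place QQ M} {φ : L →+* M} (h : V.ring.comap φ = v.ring)
    (τ : Gam) (hφ : ∀ c, φ (algebraMap QQ L c) = algebraMap QQ M (τ c)) (f : L) (c : QQ) :
    v.At f c ↔ V.At (φ f) (τ c) := by
  unfold Place.At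
  rw [tuple_vanishes h, map_sub, hφ]

section

variable {M : Type} [Field M] [Algebra QQ M] {t : M}

theorem Frame.isCurve (hM : Frame t) : IsCurve QQ M := ⟨t, hM.transc, hM.fin⟩

/-- `M` is Galois over the intermediate fields which contain `t` -/
theorem Frame.galois (hM : Frame t) {E : IntermediateField QQ M} (ht : t ∈ E) :
    FiniteDimensional E M ∧ IsGalois E M := by
  have hle : IntermediateField.adjoin QQ {t} ≤ E := by
    rw [IntermediateField.adjoin_le_iff]
    rintro _ rfl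
    exact ht
  letI : Algebra (IntermediateField.adjoin QQ {t}) E :=
    (IntermediateField.inclusion hle).toAlgebra
  haveI : IsScalarTower (IntermediateField.adjoin QQ {t}) E M :=
    IsScalarTower.of_algebraMap_eq fun _ => rfl
  haveI := hM.fin
  haveI := hM.gal
  exact ⟨FiniteDimensional.right (IntermediateField.adjoin QQ {t}) E M,
    IsGalois.tower_top_of_isGalois (IntermediateField.adjoin QQ {t}) E M⟩

variable {L : Type} [Field L] [Algebra QQ L]

/-- the range of a semilinear embedding, as an intermediate field -/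
def tupleRange (φ : L →+* M) (τ : Gam)
    (hφ : ∀ c, φ (algebraMap QQ L c) = algebraMap QQ M (τ c)) : IntermediateField QQ M :=
  φ.fieldRange.toIntermediateField fun c => ⟨algebraMap QQ L (τ.symm c), by
    rw [hφ, AlgEquiv.apply_symm_apply]⟩

theorem mem_tupleRange {φ : L →+* M} {τ : Gam}
    {hφ : ∀ c, φ (algebraMap QQ L c) = algebraMap QQ M (τ c)} {m : M} :
    m ∈ tupleRange φ τ hφ ↔ ∃ f, φ f = m := Iff.rfl

/-- two semilinear embeddings differ by an automorphism -/
theorem tuple_conj (hM : Frame t) {x : L} (τ : Gam) {φ φ' : L →+* M}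
    (hφ : ∀ c, φ (algebraMap QQ L c) = algebraMap QQ M (τ c)) (hx : φ x = t)
    (hφ' : ∀ c, φ' (algebraMap QQ L c) = algebraMap QQ M (τ c)) (hx' : φ' x = t) :
    ∃ g : M ≃ₐ[QQ] M, g t = t ∧ ∀ f, g (φ f) = φ' f := by
  let E := IntermediateField.adjoin QQ {t}
  haveI := hM.fin
  haveI := hM.gal
  let N := tupleRange φ τ hφ
  have hle : E ≤ N := by
    rw [IntermediateField.adjoin_le_iff]
    rintro _ rfl
    exact ⟨x, hx⟩
  letI : Algebra E N := (IntermediateField.inclusion hle).toAlgebra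
  haveI : IsScalarTower E N M := IsScalarTower.of_algebraMap_eq fun _ => rfl
  let e : L ≃+* N := RingEquiv.ofBijective (φ.codRestrict N.toSubring fun f => ⟨f, rfl⟩) (by
    refine ⟨RingHom.injective _, ?_⟩
    rintro ⟨_, f, rfl⟩
    exact ⟨f, rfl⟩)
  have he : ∀ f, (e f : M) = φ f := fun f => rfl
  let ψ : N →+* M := φ'.comp (e.symm : N →+* L)
  have hψ : ∀ f, ψ (e f) = φ' f := fun f => congrArg φ' (e.symm_apply_apply f)
  -- the map `N → M` is linear over `E`
  have hE : ∀ (y : M) (hy : y ∈ E), ψ ⟨y, hle hy⟩ = y := by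
    intro y hy
    induction hy using IntermediateField.adjoin_induction with
    | mem y hy =>
      obtain rfl := Set.mem_singleton_iff.1 hy
      have h1 : (⟨y, hle (IntermediateField.subset_adjoin _ _ hy)⟩ : N) = e x :=
        Subtype.ext hx.symm
      rw [h1, hψ, hx']
    | algebraMap c =>
      have h1 : (⟨algebraMap QQ M c, hle (IntermediateField.algebraMap_mem _ c)⟩ : N) =
          e (algebraMap QQ L (τ.symm c)) := by
        apply Subtype.ext
        rw [he, hφ, AlgEquiv.apply_symm_apply]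
      rw [h1, hψ, hφ', AlgEquiv.apply_symm_apply]
    | add a b ha hb h1 h2 =>
      have h3 : (⟨a + b, hle (add_mem ha hb)⟩ : N) = ⟨a, hle ha⟩ + ⟨b, hle hb⟩ := rfl
      rw [h3, map_add, h1, h2]
    | inv a ha h =>
      have h3 : (⟨a⁻¹, hle (inv_mem ha)⟩ : N) = (⟨a, hle ha⟩ : N)⁻¹ := rfl
      rw [h3, map_inv₀, h]
    | mul a b ha hb h1 h2 =>
      have h3 : (⟨a * b, hle (mul_mem ha hb)⟩ : N) = ⟨a, hle ha⟩ * ⟨b, hle hb⟩ := rfl
      rw [h3, map_mul, h1, h2]
  let χ : N →ₐ[E] M := { ψ with commutes' := fun y => hE y y.2 }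
  let g₁ : M →ₐ[E] M := χ.liftNormal M
  have hg₁ : ∀ n : N, g₁ n = χ n := fun n => χ.liftNormal_commutes M n
  let g₂ : M ≃ₐ[E] M := AlgEquiv.ofBijective g₁ (AlgHom.normal_bijective E M M g₁)
  refine ⟨g₂.restrictScalars QQ, ?_, fun f => ?_⟩
  · exact g₂.commutes ⟨t, IntermediateField.subset_adjoin _ _ rfl⟩
  · exact (hg₁ (e f)).trans (hψ f)

/-- the automorphism which moves one embedding and is trivial at a point -/
theorem tuple_one (hM : Frame t) {x : L} {e : QQ} (hL : IsCurve QQ L)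
    (hq : ∀ v w : Place QQ L, v.At x e → w.At x e → v = w) (τ : Gam) {φ φ' : L →+* M}
    (hφ : ∀ c, φ (algebraMap QQ L c) = algebraMap QQ M (τ c)) (hx : φ x = t)
    (hφ' : ∀ c, φ' (algebraMap QQ L c) = algebraMap QQ M (τ c)) (hx' : φ' x = t) :
    ∃ (g : M ≃ₐ[QQ] M) (E : Place QQ M), g t = t ∧ (∀ f, g (φ f) = φ' f) ∧ E.At t (τ e) ∧
      E.ring.comap (g : M →+* M) = E.ring := by
  obtain ⟨E, hE⟩ := exists_place hM.transc (τ e)
  obtain ⟨h, ht, hh⟩ := tuple_conj hM τ hφ hx hφ' hx'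
  -- both pull-backs of `E` are equal
  obtain ⟨v, hv⟩ := exists_pull hL hM.isCurve (τ : QQ ≃+* QQ) φ hφ E
  obtain ⟨v', hv'⟩ := exists_pull hL hM.isCurve (τ : QQ ≃+* QQ) φ' hφ' E
  have hvv : v = v' := by
    apply hq
    · rw [tuple_at hv τ hφ, hx]
      exact hE
    · rw [tuple_at hv' τ hφ', hx']
      exact hE
  let N := tupleRange φ' τ hφ'
  have htN : t ∈ N := ⟨x, hx'⟩
  obtain ⟨hfd, hgal⟩ := hM.galois htN
  obtain ⟨g', hg', hg'E⟩ := galois_trans hM.isCurve N (E.map h) E (by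
    rintro _ ⟨f, rfl⟩
    rw [Place.mem_map]
    have h1 : h.symm (φ' f) = φ f := by rw [AlgEquiv.symm_apply_eq, hh]
    have h2 : φ f ∈ E.ring ↔ f ∈ v.ring := by rw [← hv, ValuationSubring.mem_comap]
    have h3 : φ' f ∈ E.ring ↔ f ∈ v'.ring := by rw [← hv', ValuationSubring.mem_comap]
    rw [h1, h2, hvv]
    exact h3.symm)
  refine ⟨h.trans g', E, ?_, fun f => ?_, hE, ?_⟩
  · rw [AlgEquiv.trans_apply, ht]
    exact hg' t htN
  · rw [AlgEquiv.trans_apply, hh]
    exact hg' _ ⟨f, rfl⟩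
  · rw [Place.map_map] at hg'E
    ext m
    have h1 : m ∈ E.ring.comap ((h.trans g' : M ≃ₐ[QQ] M) : M →+* M) ↔ (h.trans g') m ∈ E.ring :=
      ValuationSubring.mem_comap
    rw [h1]
    conv_lhs => rw [← hg'E]
    rw [Place.mem_map, AlgEquiv.symm_apply_apply]

/-- an automorphism which is trivial at an unramified point is trivial -/
theorem tuple_two (hM : Frame t) {x : L} {d : QQ} (hL : IsCurve QQ L) (τ : Gam)
    (hun : ∀ v : Place QQ L, v.At x (τ.symm d) → IsUnif v (x - algebraMap QQ L (τ.symm d)))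
    {ψ : L →+* M} (hψ : ∀ c, ψ (algebraMap QQ L c) = algebraMap QQ M (τ c)) (hx : ψ x = t)
    {E : Place QQ M} (hE : E.At t d) {g : M ≃ₐ[QQ] M} (hg : g t = t)
    (hgE : E.ring.comap (g : M →+* M) = E.ring) (f : L) : g (ψ f) = ψ f := by
  obtain ⟨v, hv⟩ := exists_pull hL hM.isCurve (τ : QQ ≃+* QQ) ψ hψ E
  have hvx : v.At x (τ.symm d) := by
    rw [tuple_at hv τ hψ, hx, AlgEquiv.apply_symm_apply]
    exact hE
  have h1 : E.ring.comap ((g : M →+* M).comp ψ) = v.ring := by
    rw [← ValuationSubring.comap_comap, hgE, hv]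
  have h2 := taylor hL hM.isCurve (τ : QQ ≃+* QQ) (φ := (g : M →+* M).comp ψ) (φ' := ψ)
    (fun c => by
      change g (ψ _) = _
      rw [hψ]
      exact g.commutes _) hψ h1 hv (hun v hvx) (by
      change g (ψ x) = ψ x
      rw [hx, hg])
  exact RingHom.congr_fun h2 f

end

theorem trans_tuple {M : Type} [Field M] [Algebra QQ M] {t : M} (hM : Frame t) {J : Type}
    [Finite J] (L : J → Type) [∀ j, Field (L j)] [∀ j, Algebra QQ (L j)]
    (hL : ∀ j, IsCurve QQ (L j)) (x : ∀ j, L j) (τ : J → Gam) (e : J → QQ)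
    (hx : ∀ j, Transcendental QQ (x j))
    (hq : ∀ j (v w : Place QQ (L j)), v.At (x j) (e j) → w.At (x j) (e j) → v = w)
    (hun : ∀ i j, i ≠ j → ∀ v : Place QQ (L i), v.At (x i) ((τ i).symm (τ j (e j))) →
      IsUnif v (x i - algebraMap QQ (L i) ((τ i).symm (τ j (e j)))))
    (φ φ' : ∀ j, L j →+* M) (hφ : ∀ j c, φ j (algebraMap QQ (L j) c) = algebraMap QQ M (τ j c))
    (hφx : ∀ j, φ j (x j) = t)
    (hφ' : ∀ j c, φ' j (algebraMap QQ (L j) c) = algebraMap QQ M (τ j c))
    (hφx' : ∀ j, φ' j (x j) = t) :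
    ∃ g : M ≃ₐ[QQ] M, g t = t ∧ ∀ j f, g (φ j f) = φ' j f := by
  have h1 : ∀ T : Finset J, ∃ g : M ≃ₐ[QQ] M, g t = t ∧ (∀ j ∈ T, ∀ f, g (φ j f) = φ' j f) ∧
      ∀ j ∉ T, ∀ f, g (φ j f) = φ j f := by
    intro T
    induction T using Finset.induction_on with
    | empty => exact ⟨AlgEquiv.refl, rfl, fun j hj => absurd hj (Finset.notMem_empty j),
        fun j _ f => rfl⟩
    | insert j T hj ih =>
      obtain ⟨g, hgt, hg1, hg2⟩ := ih
      obtain ⟨h, E, hht, hh, hE, hhE⟩ := tuple_one hM (hL j) (hq j) (τ j) (hφ j) (hφx j)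
        (hφ' j) (hφx' j)
      refine ⟨g.trans h, ?_, fun i hi f => ?_, fun i hi f => ?_⟩
      · rw [AlgEquiv.trans_apply, hgt, hht]
      · rw [AlgEquiv.trans_apply]
        rcases Finset.mem_insert.1 hi with rfl | hi'
        · rw [hg2 i hj, hh]
        · have hij : i ≠ j := by
            rintro rfl
            exact hj hi'
          rw [hg1 i hi']
          exact tuple_two hM (hL i) (τ i) (hun i j hij) (hφ' i) (hφx' i) hE hht hhE f
      · rw [Finset.mem_insert, not_or] at hi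
        rw [AlgEquiv.trans_apply, hg2 i hi.2]
        exact tuple_two hM (hL i) (τ i) (hun i j hi.1) (hφ i) (hφx i) hE hht hhE f
  haveI := Fintype.ofFinite J
  obtain ⟨g, hgt, hg, -⟩ := h1 Finset.univ
  exact ⟨g, hgt, fun j => hg j (Finset.mem_univ j)⟩

end Pool.Agent.Dess
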