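import Pool.Agent.Dess.Defs

/-! The theorem of Belyi for finite sets of algebraic numbers, polynomial form. -/

set_option autoImplicit false

noncomputable section

namespace Pool.Agent.Dess

open Polynomial
open scoped Classical

/-- `S` and the critical values of some nonconstant rational polynomial go to `0, 1`. -/
private def BpGood (S : Finset QQ) : Prop := ∃ g : ℚ[X], 0 < g.natDegree ∧
    (∀ s ∈ S, aeval s g = 0 ∨ aeval s g = 1) ∧
    ∀ ξ : QQ, aeval ξ (derivative g) = 0 → aeval ξ g = 0 ∨ aeval ξ g = 1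

private theorem bp_comp (f : ℚ[X]) (hf : 0 < f.natDegree) (S T : Finset QQ)
    (h1 : ∀ s ∈ S, aeval s f ∈ T) (h2 : ∀ ξ : QQ, aeval ξ (derivative f) = 0 → aeval ξ f ∈ T)
    (hT : BpGood T) : BpGood S := by
  obtain ⟨g, g0, g1, g2⟩ := hT
  refine ⟨g.comp f, ?_, ?_, ?_⟩
  · rw [natDegree_comp]; exact Nat.mul_pos g0 hf
  · intro s hs
    rw [aeval_comp]
    exact g1 _ (h1 s hs)
  · intro ξ hξ
    rw [derivative_comp, map_mul, aeval_comp] at hξ
    rw [aeval_comp]
    rcases mul_eq_zero.mp hξ with h | h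
    · exact g1 _ (h2 ξ h)
    · exact g2 _ h

/-- The polynomial `C x^m (1-x)^n`. -/
private theorem bp_special (a b c : ℚ) (hab : a < b) (hbc : b < c) :
    ∃ f : ℚ[X], 0 < f.natDegree ∧ f.eval a = 0 ∧ f.eval c = 0 ∧ f.eval b = 1 ∧
      ∀ ξ : QQ, aeval ξ (derivative f) = 0 → aeval ξ f = 0 ∨ aeval ξ f = 1 := by
  obtain ⟨l, hl⟩ : ∃ l : ℚ, l = (b - a) / (c - a) := ⟨_, rfl⟩
  have hca : 0 < c - a := by linarith
  have l0 : 0 < l := by rw [hl]; exact div_pos (by linarith) hca
  have l1 : l < 1 := by rw [hl, div_lt_one hca]; linarith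
  obtain ⟨m, n, hm, hn, hmn⟩ : ∃ m n : ℕ, 0 < m ∧ 0 < n ∧ l * (m + n) = m := by
    refine ⟨l.num.natAbs, l.den - l.num.natAbs, ?_, ?_, ?_⟩
    · exact Int.natAbs_pos.mpr (by
        have := Rat.num_pos.mpr l0
        omega)
    · have h : l.num < l.den := by
        exact Rat.num_lt_denom_iff.mpr l1
      have := Rat.num_pos.mpr l0
      omega
    · have h : l.num < l.den := Rat.num_lt_denom_iff.mpr l1
      have h0 := Rat.num_pos.mpr l0
      have e : ((l.den - l.num.natAbs : ℕ) : ℚ) = (l.den : ℚ) - (l.num.natAbs : ℚ) := by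
        rw [Nat.cast_sub (by omega)]
      rw [e]
      have e2 : ((l.num.natAbs : ℕ) : ℚ) = (l.num : ℚ) := by
        rw [Nat.cast_natAbs, abs_of_pos h0]
      rw [add_sub_cancel, e2]
      exact Rat.mul_den_eq_num l
  obtain ⟨m, rfl⟩ : ∃ m', m = m' + 1 := ⟨m - 1, by omega⟩
  obtain ⟨n, rfl⟩ : ∃ n', n = n' + 1 := ⟨n - 1, by omega⟩
  have l1' : 0 < 1 - l := by linarith
  obtain ⟨K, hK⟩ : ∃ K : ℚ, K * (l ^ (m + 1) * (1 - l) ^ (n + 1)) = 1 :=
    ⟨(l ^ (m + 1) * (1 - l) ^ (n + 1))⁻¹, inv_mul_cancel₀ (by positivity)⟩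
  have hK0 : K ≠ 0 := by
    rintro rfl; rw [zero_mul] at hK; exact zero_ne_one hK
  obtain ⟨L, hL⟩ : ∃ L : ℚ[X], L = C ((c - a)⁻¹) * (X - C a) := ⟨_, rfl⟩
  obtain ⟨f0, hf0⟩ : ∃ f0 : ℚ[X], f0 = C K * (X ^ (m + 1) * (1 - X) ^ (n + 1)) := ⟨_, rfl⟩
  have eL : ∀ x : ℚ, L.eval x = (c - a)⁻¹ * (x - a) := by
    intro x; rw [hL]; simp
  have ef : ∀ x : ℚ, (f0.comp L).eval x = K * ((L.eval x) ^ (m + 1) * (1 - L.eval x) ^ (n + 1)) := by
    intro x; rw [eval_comp, hf0]; simp
  have ha : (f0.comp L).eval a = 0 := by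
    rw [ef, eL]; simp
  have hc : (f0.comp L).eval c = 0 := by
    rw [ef, eL, inv_mul_cancel₀ hca.ne']; simp
  have hb : (f0.comp L).eval b = 1 := by
    have e : L.eval b = l := by rw [eL, hl, div_eq_inv_mul]
    rw [ef, e]
    exact hK
  have hpos : 0 < (f0.comp L).natDegree := by
    rcases Nat.eq_zero_or_pos (f0.comp L).natDegree with h | h
    · exfalso
      rw [eq_C_of_natDegree_eq_zero h, eval_C] at ha hb
      rw [ha] at hb
      exact zero_ne_one hb
    · exact h
  refine ⟨f0.comp L, hpos, ha, hc, hb, ?_⟩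
  intro ξ hξ
  rw [derivative_comp, map_mul, aeval_comp] at hξ
  rw [aeval_comp]
  generalize aeval ξ L = η at hξ ⊢
  have hdL : aeval ξ (derivative L) ≠ 0 := by
    have : derivative L = C ((c - a)⁻¹) := by
      rw [hL, derivative_C_mul, derivative_sub, derivative_X, derivative_C, sub_zero, mul_one]
    rw [this, aeval_C, _root_.map_ne_zero]
    exact inv_ne_zero hca.ne'
  have hd : aeval η (derivative f0) = 0 := (mul_eq_zero.mp hξ).resolve_left hdL
  have hfact : derivative f0 = C K * (X ^ m * (1 - X) ^ n *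
      (C ((m + 1 : ℕ) : ℚ) * (1 - X) - C ((n + 1 : ℕ) : ℚ) * X)) := by
    rw [hf0, derivative_C_mul, derivative_mul, derivative_pow_succ, derivative_pow_succ,
      derivative_X, derivative_sub, derivative_X, derivative_one]
    push_cast
    ring
  rw [hfact, map_mul, aeval_C, map_mul, map_mul, map_sub, map_mul, map_mul, map_sub, map_pow,
    map_pow, map_sub, aeval_C, aeval_C, aeval_X, map_one] at hd
  have hd1 := (mul_eq_zero.mp hd).resolve_left (fun h => hK0 ((_root_.map_eq_zero _).mp h))
  have hval : aeval η f0 = algebraMap ℚ QQ K * (η ^ (m + 1) * (1 - η) ^ (n + 1)) := by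
    rw [hf0, map_mul, aeval_C, map_mul, map_pow, map_pow, map_sub, aeval_X, map_one]
  rcases mul_eq_zero.mp hd1 with h | h
  · left
    rw [hval, pow_succ, pow_succ]
    rcases mul_eq_zero.mp h with h | h
    · rw [h]; ring
    · rw [h]; ring
  · right
    have hη : η = algebraMap ℚ QQ l := by
      have e1 : algebraMap ℚ QQ (((m + 1 : ℕ) : ℚ) + ((n + 1 : ℕ) : ℚ)) * (η - algebraMap ℚ QQ l) = 0 := by
        have e2 : algebraMap ℚ QQ l * algebraMap ℚ QQ (((m + 1 : ℕ) : ℚ) + ((n + 1 : ℕ) : ℚ)) =
            algebraMap ℚ QQ ((m + 1 : ℕ) : ℚ) := by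
          rw [← map_mul, hmn]
        rw [mul_sub, mul_comm _ (algebraMap ℚ QQ l), e2, map_add]
        linear_combination (-1) * h
      have e3 : algebraMap ℚ QQ (((m + 1 : ℕ) : ℚ) + ((n + 1 : ℕ) : ℚ)) ≠ 0 := by
        rw [_root_.map_ne_zero]; positivity
      exact sub_eq_zero.mp ((mul_eq_zero.mp e1).resolve_left e3)
    rw [hval, hη, ← map_one (algebraMap ℚ QQ), ← map_sub, ← map_pow, ← map_pow, ← map_mul,
      ← map_mul, hK]

/-- The rational case. -/
private theorem bp_rat (k : ℕ) : ∀ S : Finset ℚ, S.card ≤ k →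
    BpGood (S.image (algebraMap ℚ QQ)) := by
  induction k with
  | zero =>
    intro S hS
    have : S = ∅ := Finset.card_eq_zero.mp (Nat.le_zero.mp hS)
    subst this
    refine ⟨X, by simp, by simp, ?_⟩
    intro ξ hξ
    simp at hξ
  | succ k ih =>
    intro S hS
    by_cases h3 : S.card ≤ 2
    · -- at most two elements
      obtain ⟨a, b, hab, hSab⟩ : ∃ a b : ℚ, a ≠ b ∧ S ⊆ {a, b} := by
        have h0 : S.card = 0 ∨ S.card = 1 ∨ S.card = 2 := by omega
        rcases h0 with h | h | h
        · refine ⟨0, 1, zero_ne_one, ?_⟩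
          rw [Finset.card_eq_zero.mp h]; simp
        · obtain ⟨a, rfl⟩ := Finset.card_eq_one.mp h
          exact ⟨a, a + 1, by simp, by simp⟩
        · obtain ⟨a, b, hab, rfl⟩ := Finset.card_eq_two.mp h
          exact ⟨a, b, hab, subset_rfl⟩
      have hba : b - a ≠ 0 := sub_ne_zero.mpr (Ne.symm hab)
      obtain ⟨L, hL⟩ : ∃ L : ℚ[X], L = C ((b - a)⁻¹) * (X - C a) := ⟨_, rfl⟩
      have hLa : L.eval a = 0 := by rw [hL]; simp
      have hLb : L.eval b = 1 := by rw [hL]; simp [inv_mul_cancel₀ hba]
      refine ⟨L, ?_, ?_, ?_⟩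
      · rcases Nat.eq_zero_or_pos L.natDegree with h | h
        · exfalso
          rw [eq_C_of_natDegree_eq_zero h, eval_C] at hLa hLb
          rw [hLa] at hLb
          exact zero_ne_one hLb
        · exact h
      · intro s hs
        obtain ⟨r, hr, rfl⟩ := Finset.mem_image.mp hs
        rw [aeval_algebraMap_apply]
        have := hSab hr
        rw [Finset.mem_insert, Finset.mem_singleton] at this
        rcases this with rfl | rfl
        · left; rw [coe_aeval_eq_eval, hLa, map_zero]
        · right; rw [coe_aeval_eq_eval, hLb, map_one]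
      · intro ξ hξ
        exfalso
        have : derivative L = C ((b - a)⁻¹) := by
          rw [hL, derivative_C_mul, derivative_sub, derivative_X, derivative_C, sub_zero, mul_one]
        rw [this, aeval_C, map_eq_zero] at hξ
        exact inv_ne_zero hba hξ
    · -- at least three elements
      obtain ⟨a, b, c, ha, hb, hc, hab, hbc⟩ : ∃ a b c : ℚ, a ∈ S ∧ b ∈ S ∧ c ∈ S ∧ a < b ∧ b < c := by
        obtain ⟨x, hx, y, hy, z, hz, hxy, hxz, hyz⟩ := Finset.two_lt_card.mp
          (show 2 < S.card by omega)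
        rcases lt_or_gt_of_ne hxy with h1 | h1 <;> rcases lt_or_gt_of_ne hxz with h2 | h2 <;>
          rcases lt_or_gt_of_ne hyz with h3 | h3
        · exact ⟨x, y, z, hx, hy, hz, h1, h3⟩
        · exact ⟨x, z, y, hx, hz, hy, h2, h3⟩
        · exact absurd (h1.trans h3) (not_lt.mpr h2.le)
        · exact ⟨z, x, y, hz, hx, hy, h2, h1⟩
        · exact ⟨y, x, z, hy, hx, hz, h1, h2⟩
        · exact absurd (h3.trans h1) (not_lt.mpr h2.le)
        · exact ⟨y, z, x, hy, hz, hx, h3, h2⟩
        · exact ⟨z, y, x, hz, hy, hx, h3, h1⟩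
      obtain ⟨f, f0, fa, fc, fb, fcr⟩ := bp_special a b c hab hbc
      have himg : ((S.image (fun x => f.eval x))).card ≤ k := by
        have h1 : S.image (fun x => f.eval x) = (S.erase a).image (fun x => f.eval x) := by
          ext y
          simp only [Finset.mem_image, Finset.mem_erase]
          constructor
          · rintro ⟨x, hx, rfl⟩
            by_cases hxa : x = a
            · exact ⟨c, ⟨(hab.trans hbc).ne', hc⟩, by rw [hxa, fa, fc]⟩
            · exact ⟨x, ⟨hxa, hx⟩, rfl⟩
          · rintro ⟨x, ⟨_, hx⟩, rfl⟩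
            exact ⟨x, hx, rfl⟩
        rw [h1]
        refine le_trans Finset.card_image_le ?_
        rw [Finset.card_erase_of_mem ha]
        omega
      refine bp_comp f f0 _ _ ?_ ?_ (ih _ himg)
      · intro s hs
        obtain ⟨r, hr, rfl⟩ := Finset.mem_image.mp hs
        rw [aeval_algebraMap_apply, coe_aeval_eq_eval]
        exact Finset.mem_image_of_mem _ (Finset.mem_image_of_mem _ hr)
      · intro ξ hξ
        rcases fcr ξ hξ with h | h
        · rw [h, ← map_zero (algebraMap ℚ QQ), ← fa]
          exact Finset.mem_image_of_mem _ (Finset.mem_image_of_mem _ ha)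
        · rw [h, ← map_one (algebraMap ℚ QQ), ← fb]
          exact Finset.mem_image_of_mem _ (Finset.mem_image_of_mem _ hb)

/-- The degree of an algebraic number. -/
private def bpDeg (x : QQ) : ℕ := (minpoly ℚ x).natDegree

private theorem bp_int (x : QQ) : IsIntegral ℚ x :=
  ((AlgebraicClosure.isAlgebraic ℚ).isAlgebraic x).isIntegral

private theorem bpDeg_aeval (f : ℚ[X]) (x : QQ) : bpDeg (aeval x f) ≤ bpDeg x := by
  have hint : IsIntegral ℚ x := bp_int x
  have : FiniteDimensional ℚ (IntermediateField.adjoin ℚ {x}) :=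
    IntermediateField.adjoin.finiteDimensional hint
  have hmem : aeval x f ∈ IntermediateField.adjoin ℚ {x} :=
    IntermediateField.algebra_adjoin_le_adjoin ℚ _ (aeval_mem_adjoin_singleton ℚ x)
  unfold bpDeg
  rw [← IntermediateField.adjoin.finrank hint]
  have h := @minpoly.natDegree_le ℚ (IntermediateField.adjoin ℚ {x}) _ _
    (IntermediateField.algebra' _) this ⟨aeval x f, hmem⟩
  rw [IntermediateField.minpoly_eq] at h
  exact h

private theorem bp_main (d : ℕ) : ∀ (m : ℕ) (S : Finset QQ), (∀ s ∈ S, bpDeg s ≤ d + 1) →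
    (S.filter (fun s => bpDeg s = d + 1)).card ≤ m → BpGood S := by
  induction d with
  | zero =>
    intro m S hS _
    have hrat : ∀ s ∈ S, s ∈ (algebraMap ℚ QQ).range := by
      intro s hs
      rw [← minpoly.degree_eq_one_iff]
      have h1 : (minpoly ℚ s).natDegree = 1 :=
        le_antisymm (hS s hs) (minpoly.natDegree_pos (bp_int s))
      rw [degree_eq_natDegree (minpoly.ne_zero (bp_int s)), h1]
      rfl
    obtain ⟨T, hT⟩ : ∃ T : Finset ℚ, S = T.image (algebraMap ℚ QQ) := by
      refine ⟨S.preimage (algebraMap ℚ QQ) (Set.injOn_of_injective (algebraMap ℚ QQ).injective), ?_⟩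
      ext s
      simp only [Finset.mem_image, Finset.mem_preimage]
      constructor
      · intro hs
        obtain ⟨r, rfl⟩ := hrat s hs
        exact ⟨r, hs, rfl⟩
      · rintro ⟨r, hr, rfl⟩
        exact hr
    rw [hT]
    exact bp_rat _ T le_rfl
  | succ d ihd =>
    intro m
    induction m with
    | zero =>
      intro S hS hm
      refine ihd _ S ?_ le_rfl
      intro s hs
      have h1 := hS s hs
      have h2 : bpDeg s ≠ d + 1 + 1 := by
        intro h
        have : s ∈ S.filter (fun s => bpDeg s = d + 1 + 1) := Finset.mem_filter.mpr ⟨hs, h⟩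
        rw [Finset.card_eq_zero.mp (Nat.le_zero.mp hm)] at this
        simp at this
      omega
    | succ m ihm =>
      intro S hS hm
      by_cases hex : ∃ s ∈ S, bpDeg s = d + 1 + 1
      · obtain ⟨s, hs, hsd⟩ := hex
        obtain ⟨f, hf⟩ : ∃ f : ℚ[X], f = minpoly ℚ s := ⟨_, rfl⟩
        have hfd : f.natDegree = d + 1 + 1 := by rw [hf]; exact hsd
        have hfs : aeval s f = 0 := by rw [hf]; exact minpoly.aeval ℚ s
        have hf' : derivative f ≠ 0 := by
          intro h
          have := derivative_eq_zero.mp h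
          omega
        obtain ⟨V, hV⟩ : ∃ V : Finset QQ, V = ((derivative f).aroots QQ).toFinset.image
          (fun ξ => aeval ξ f) := ⟨_, rfl⟩
        have hVd : ∀ v ∈ V, bpDeg v ≤ d + 1 := by
          intro v hv
          rw [hV] at hv
          obtain ⟨ξ, hξ, rfl⟩ := Finset.mem_image.mp hv
          rw [Multiset.mem_toFinset, mem_aroots] at hξ
          refine (bpDeg_aeval f ξ).trans ?_
          have h1 := natDegree_le_of_dvd (minpoly.dvd ℚ ξ hξ.2) hf'
          have h2 := natDegree_derivative_le f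
          unfold bpDeg
          omega
        refine bp_comp f (by omega) S (S.image (fun x => aeval x f) ∪ V) ?_ ?_ (ihm _ ?_ ?_)
        · intro x hx
          exact Finset.mem_union_left _ (Finset.mem_image_of_mem _ hx)
        · intro ξ hξ
          refine Finset.mem_union_right _ ?_
          rw [hV]
          refine Finset.mem_image_of_mem _ ?_
          rw [Multiset.mem_toFinset, mem_aroots]
          exact ⟨hf', hξ⟩
        · intro y hy
          rcases Finset.mem_union.mp hy with h | h
          · obtain ⟨x, hx, rfl⟩ := Finset.mem_image.mp h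
            exact (bpDeg_aeval f x).trans (hS x hx)
          · exact (hVd y h).trans (Nat.le_succ _)
        · have hsub : (S.image (fun x => aeval x f) ∪ V).filter (fun x => bpDeg x = d + 1 + 1) ⊆
              ((S.filter (fun x => bpDeg x = d + 1 + 1)).erase s).image (fun x => aeval x f) := by
            intro y hy
            obtain ⟨hy1, hy2⟩ := Finset.mem_filter.mp hy
            rcases Finset.mem_union.mp hy1 with h | h
            · obtain ⟨x, hx, rfl⟩ := Finset.mem_image.mp h
              refine Finset.mem_image_of_mem _ ?_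
              rw [Finset.mem_erase, Finset.mem_filter]
              refine ⟨?_, hx, ?_⟩
              · rintro rfl
                rw [hfs] at hy2
                unfold bpDeg at hy2
                rw [minpoly.zero, natDegree_X] at hy2
                omega
              · have h1 := bpDeg_aeval f x
                have h2 := hS x hx
                omega
            · have := hVd y h
              omega
          refine (Finset.card_le_card hsub).trans (Finset.card_image_le.trans ?_)
          rw [Finset.card_erase_of_mem (Finset.mem_filter.mpr ⟨hs, hsd⟩)]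
          omega
      · refine ihm S hS ?_
        rw [Finset.filter_eq_empty_iff.mpr (fun s hs h => hex ⟨s, hs, h⟩), Finset.card_empty]
        exact Nat.zero_le _

theorem exists_belyi_poly (S : Finset QQ) : ∃ g : ℚ[X], 0 < g.natDegree ∧
    (∀ s ∈ S, aeval s g = 0 ∨ aeval s g = 1) ∧
    ∀ ξ : QQ, aeval ξ (derivative g) = 0 → aeval ξ g = 0 ∨ aeval ξ g = 1 := by
  obtain ⟨d, hd⟩ : ∃ d, ∀ s ∈ S, bpDeg s ≤ d + 1 := by
    refine ⟨S.sup bpDeg, fun s hs => (Finset.le_sup hs).trans (Nat.le_succ _)⟩
  exact bp_main d _ S hd le_rfl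

end Pool.Agent.Dess
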