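import Pool.Agent.Dess.Single
import Pool.Agent.Dess.BelyiPoly
import Pool.Agent.Dess.Crit
import Pool.Agent.ZCyc.Places

/-!
# The theorem of Belyi with a single pole
-/

set_option autoImplicit false

noncomputable section

namespace Pool.Agent.Dess

open Pool.Agent.ZCyc Polynomial
open scoped Classical

theorem belyi_unif {k F : Type} [Field k] [Field F] [Algebra k F] {v : Place k F} {π u : F}
    (h : IsUnif v π) {d : k} (hu : v.At u d) (hd : d ≠ 0) : IsUnif v (π * u) := by
  have hu0 : u ≠ 0 := by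
    rintro rfl
    exact hd (hu.unique (by simpa using Place.at_const (v := v) (0 : k)))
  refine ⟨mul_ne_zero h.1 hu0, Place.Vanishes.mul v h.2.1 hu.mem, fun g hg => ?_⟩
  rw [div_mul_eq_div_div, div_eq_mul_inv (g / π)]
  exact mul_mem (h.2.2 g hg) (hu.inv hd).mem

/-- a nonconstant polynomial in a function with a pole at `O` has a pole at `O` -/
theorem belyi_pole {k F : Type} [Field k] [Field F] [Algebra k F] {O : Place k F} {w : F}
    (hw : w ∉ O.ring) {p : k[X]} (hp : 0 < p.natDegree) : aeval w p ∉ O.ring := by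
  intro hmem
  have hw0 : w ≠ 0 := by
    rintro rfl
    exact hw (zero_mem _)
  have hinv : O.Vanishes w⁻¹ := (O.vanishes_iff_or _).2 (Or.inr (by rwa [inv_inv]))
  have hp0 : p ≠ 0 := by
    rintro rfl
    simp at hp
  have h1 : O.At (aeval w⁻¹ p.reverse) p.leadingCoeff := by
    have h2 := (Place.at_zero_iff.2 hinv).aeval p.reverse
    rwa [← coeff_zero_eq_eval_zero, coeff_zero_reverse] at h2
  have h3 : aeval w⁻¹ p.reverse * w ^ p.natDegree = aeval w p := by
    let _ : Invertible w := invertibleOfNonzero hw0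
    have h5 := eval₂_reverse_mul_pow (algebraMap k F) w p
    rwa [invOf_eq_inv] at h5
  have h4 : w ^ p.natDegree ∈ O.ring := by
    have h5 := (h1.inv (leadingCoeff_ne_zero.2 hp0)).mem
    have h6 := mul_mem h5 hmem
    rw [← h3, ← mul_assoc, inv_mul_cancel₀, one_mul] at h6
    · exact h6
    · intro h0
      rw [h0] at h1
      exact leadingCoeff_ne_zero.2 hp0 (h1.unique (by simpa using Place.at_const (v := O) (0 : k)))
  have h7 : O.Vanishes (w⁻¹ ^ p.natDegree) := Place.Vanishes.pow O hinv hp.ne'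
  have h8 := Place.Vanishes.mul O h7 h4
  rw [← mul_pow, inv_mul_cancel₀ hw0, one_pow] at h8
  apply O.const_unit (one_ne_zero (α := k))
  rwa [map_one]

theorem belyi_poly (S : Finset QQ) : ∃ g : ℚ[X], 0 < g.natDegree ∧ aeval (0 : QQ) g = 0 ∧
    (∀ s ∈ S, aeval s g = 0 ∨ aeval s g = 1) ∧
    ∀ ξ : QQ, aeval ξ (derivative g) = 0 → aeval ξ g = 0 ∨ aeval ξ g = 1 := by
  obtain ⟨g, h1, h2, h3⟩ := exists_belyi_poly (insert 0 S)
  rcases h2 0 (Finset.mem_insert_self _ _) with h0 | h0
  · exact ⟨g, h1, h0, fun s hs => h2 s (Finset.mem_insert_of_mem hs), h3⟩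
  · refine ⟨1 - g, ?_, ?_, ?_, ?_⟩
    · rw [natDegree_sub, ← C_1, natDegree_sub_C]
      exact h1
    · rw [map_sub, map_one, h0, sub_self]
    · intro s hs
      rw [map_sub, map_one]
      rcases h2 s (Finset.mem_insert_of_mem hs) with h | h
      · right
        rw [h, sub_zero]
      · left
        rw [h, sub_self]
    · intro ξ hξ
      rw [derivative_sub, derivative_one, zero_sub, map_neg, neg_eq_zero] at hξ
      rw [map_sub, map_one]
      rcases h3 ξ hξ with h | h
      · right
        rw [h, sub_zero]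
      · left
        rw [h, sub_self]

/-- `Dessin` without the last condition -/
structure BelyiPre {F : Type} [Field F] [Algebra QQ F] (F₀ : Subfield F) (β : F)
    (P O : Place QQ F) : Prop where
  curve : IsCurve QQ F
  gen : IntermediateField.adjoin QQ (F₀ : Set F) = ⊤
  mem : β ∈ F₀
  rat_P : RationalAt F₀ P
  rat_O : RationalAt F₀ O
  zero : P.Vanishes β
  pole : β ∉ O.ring
  reg : ∀ v, v ≠ O → β ∈ v.ring
  unram : ∀ (v : Place QQ F) (c : QQ), v.At β c → c ≠ 0 → c ≠ 1 →
    IsUnif v (β - algebraMap QQ F c)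

theorem belyi_pre {F : Type} [Field F] [Algebra QQ F] (hF : IsCurve QQ F)
    {F₀ : Subfield F} (gen : IntermediateField.adjoin QQ (F₀ : Set F) = ⊤) {P O : Place QQ F}
    (hPO : P ≠ O) (h : Act F₀ P O) : ∃ β, BelyiPre F₀ β P O := by
  have hch : CharZero F := charZero_of_injective_algebraMap (algebraMap QQ F).injective
  obtain ⟨w, hw0, hwt, hw⟩ := exists_single₀ hF gen h
  obtain ⟨c, hc⟩ := exists_at hF P (hw P hPO)
  obtain ⟨q, rfl⟩ := h.rational.1 w hw0 c hc
  have hq : algebraMap QQ F (algebraMap ℚ QQ q) ∈ F₀ := by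
    rw [← RingHom.comp_apply, eq_ratCast]
    exact SubfieldClass.ratCast_mem F₀ _
  let w₁ : F := w - algebraMap QQ F (algebraMap ℚ QQ q)
  have hw₁0 : w₁ ∈ F₀ := sub_mem hw0 hq
  have hw₁t : Transcendental QQ w₁ := by
    intro halg
    apply hwt
    have h1 := halg.add (isAlgebraic_algebraMap (R := QQ) (A := F) (algebraMap ℚ QQ q))
    simpa [w₁] using h1
  have hw₁ : ∀ v, v ≠ O → w₁ ∈ v.ring := fun v hv => sub_mem (hw v hv) (v.const_mem _)
  have hw₁O : w₁ ∉ O.ring := by
    have ht : Transcendental QQ w₁⁻¹ := fun h1 => hw₁t (by simpa using h1.inv)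
    obtain ⟨v, hv⟩ := exists_place ht 0
    have h1 : v.Vanishes w₁⁻¹ := Place.at_zero_iff.1 hv
    have h2 : w₁ ∉ v.ring := by
      rcases (v.vanishes_iff_or _).1 h1 with h2 | h2
      · exfalso
        apply hw₁t
        rw [inv_eq_zero.1 h2]
        exact isAlgebraic_zero
      · rwa [inv_inv] at h2
    have h3 : v = O := by
      by_contra hne
      exact h2 (hw₁ v hne)
    rwa [h3] at h2
  obtain ⟨g, hg1, hg2, hg3, hg4⟩ := belyi_poly (finite_crit hF hw₁t).toFinset
  let G : QQ[X] := g.map (algebraMap ℚ QQ)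
  have hGdeg : 0 < G.natDegree := by
    rw [natDegree_map]
    exact hg1
  have hGev : ∀ ξ : QQ, eval ξ G = aeval ξ g := fun ξ => by
    rw [eval_map, aeval_def]
  have hGder : ∀ ξ : QQ, eval ξ (derivative G) = aeval ξ (derivative g) := fun ξ => by
    rw [derivative_map, eval_map, aeval_def]
  refine ⟨aeval w₁ G, hF, gen, ?_, h.rational.1, h.rational.2, ?_, ?_, ?_, ?_⟩
  · rw [aeval_eq_sum_range]
    apply sum_mem
    intro i _
    rw [Algebra.smul_def, coeff_map, ← RingHom.comp_apply, eq_ratCast]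
    exact mul_mem (SubfieldClass.ratCast_mem F₀ _) (pow_mem hw₁0 i)
  · rw [← Place.at_zero_iff]
    have h1 := (show P.At w₁ 0 from Place.at_zero_iff.2 hc).aeval G
    rwa [hGev, hg2] at h1
  · exact belyi_pole hw₁O hGdeg
  · intro v hv
    obtain ⟨ξ, hξ⟩ := exists_at hF v (hw₁ v hv)
    exact (hξ.aeval G).mem
  · intro v c hv hc0 hc1
    have hvO : v ≠ O := by
      rintro rfl
      exact belyi_pole hw₁O hGdeg hv.mem
    obtain ⟨ξ, hξ⟩ := exists_at hF v (hw₁ v hvO)
    have hcξ : eval ξ G = c := (hξ.aeval G).unique hv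
    have hder : eval ξ (derivative G) ≠ 0 := by
      intro h0
      rw [hGder] at h0
      rw [hGev] at hcξ
      rcases hg4 ξ h0 with h1 | h1
      · exact hc0 (hcξ.symm.trans h1)
      · exact hc1 (hcξ.symm.trans h1)
    have hunif : IsUnif v (w₁ - algebraMap QQ F ξ) := by
      by_contra hn
      have h1 : ξ ∈ (finite_crit hF hw₁t).toFinset := by
        rw [Set.Finite.mem_toFinset]
        exact ⟨v, hξ, hn⟩
      rw [hGev] at hcξ
      rcases hg3 ξ h1 with h2 | h2
      · exact hc0 (hcξ.symm.trans h2)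
      · exact hc1 (hcξ.symm.trans h2)
    have hroot : (G - C c).IsRoot ξ := by
      rw [IsRoot, eval_sub, eval_C, hcξ, sub_self]
    obtain ⟨H, hH⟩ := dvd_iff_isRoot.2 hroot
    have hH' : eval ξ H = eval ξ (derivative G) := by
      have h1 : derivative (G - C c) = derivative ((X - C ξ) * H) := by rw [← hH]
      rw [derivative_sub, derivative_C, sub_zero, derivative_mul, derivative_sub, derivative_X,
        derivative_C, sub_zero, one_mul] at h1
      rw [h1, eval_add, eval_mul, eval_sub, eval_X, eval_C, sub_self, zero_mul, add_zero]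
    have h1 : aeval w₁ G - algebraMap QQ F c = (w₁ - algebraMap QQ F ξ) * aeval w₁ H := by
      have h2 := congrArg (aeval w₁) hH
      rw [map_sub, map_mul, map_sub, aeval_X, aeval_C, aeval_C] at h2
      exact h2
    rw [h1]
    exact belyi_unif hunif (hξ.aeval H) (by rwa [hH'])

theorem exists_belyi {F : Type} [Field F] [Algebra QQ F] (hF : IsCurve QQ F)
    {F₀ : Subfield F} (gen : IntermediateField.adjoin QQ (F₀ : Set F) = ⊤) {P O : Place QQ F}
    (hPO : P ≠ O) (h : Act F₀ P O) : ∃ β, Dessin F₀ β P O := by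
  obtain ⟨β, hβ⟩ := belyi_pre hF gen hPO h
  have hval : ∀ (v : Place QQ F) (c : QQ), v.At (4 * β * (1 - β)) c →
      ∃ b, v.At β b ∧ c = 4 * b * (1 - b) := by
    intro v c hc
    have hp : 4 * β * (1 - β) = aeval β (C 4 * X * (1 - X) : QQ[X]) := by
      rw [map_mul, map_mul, aeval_C, map_ofNat, aeval_X, map_sub, map_one, aeval_X]
    have hdeg : 0 < (C 4 * X * (1 - X) : QQ[X]).natDegree := by
      have h1 : (C 4 * X * (1 - X) : QQ[X]) = C (-4) * X ^ 2 + C 4 * X + C 0 := by
        simp only [map_neg, map_zero, add_zero]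
        ring
      rw [h1, natDegree_quadratic (by norm_num)]
      norm_num
    have hβv : β ∈ v.ring := by
      by_contra hn
      have h1 := belyi_pole hn hdeg
      rw [← hp] at h1
      exact h1 hc.mem
    obtain ⟨b, hb⟩ := exists_at hF v hβv
    refine ⟨b, hb, hc.unique ?_⟩
    have h1 := hb.aeval (C 4 * X * (1 - X) : QQ[X])
    rw [← hp] at h1
    simpa using h1
  have hfour : algebraMap QQ F 4 = 4 := map_ofNat _ 4
  refine ⟨4 * β * (1 - β), hF, gen, ?_, hβ.rat_P, hβ.rat_O, ?_, ?_, ?_, ?_, ?_⟩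
  · have h4 : (4 : F) ∈ F₀ := ofNat_mem F₀ 4
    exact mul_mem (mul_mem h4 hβ.mem) (sub_mem (one_mem _) hβ.mem)
  · have h1 : β ∈ P.ring := Place.Vanishes.mem P hβ.zero
    have h4 : (4 : F) ∈ P.ring := by
      rw [← hfour]
      exact P.const_mem 4
    exact Place.Vanishes.mul P (Place.Vanishes.mul' P hβ.zero h4) (sub_mem (one_mem _) h1)
  · intro hmem
    obtain ⟨c, hc⟩ := exists_at hF O hmem
    obtain ⟨b, hb, -⟩ := hval O c hc
    exact hβ.pole hb.mem
  · intro v hv
    have h1 := hβ.reg v hv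
    have h4 : (4 : F) ∈ v.ring := by
      rw [← hfour]
      exact v.const_mem 4
    exact mul_mem (mul_mem h4 h1) (sub_mem (one_mem _) h1)
  · intro v c hc hc0 hc1
    obtain ⟨b, hb, hbc⟩ := hval v c hc
    have hb0 : b ≠ 0 := by
      rintro rfl
      exact hc0 (by rw [hbc]; ring)
    have hb1 : b ≠ 1 := by
      rintro rfl
      exact hc0 (by rw [hbc]; ring)
    have hu := hβ.unram v b hb hb0 hb1
    have h1 : 4 * β * (1 - β) - algebraMap QQ F c =
        (β - algebraMap QQ F b) * (algebraMap QQ F 4 * (1 - β - algebraMap QQ F b)) := by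
      rw [hbc, map_mul, map_mul, map_sub, map_one, hfour]
      ring
    rw [h1]
    have h2 : v.At (algebraMap QQ F 4 * (1 - β - algebraMap QQ F b)) (4 * (1 - b - b)) := by
      refine (Place.at_const 4).mul (((?_ : v.At (1 : F) 1).sub hb).sub (Place.at_const b))
      simpa using Place.at_const (v := v) (1 : QQ)
    refine belyi_unif hu h2 ?_
    intro h0
    apply hc1
    have h3 : b = 1 / 2 := by
      have h4 : 1 - b - b = 0 := by
        rcases mul_eq_zero.1 h0 with h4 | h4
        · norm_num at h4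
        · exact h4
      linear_combination (-1 / 2) * h4
    rw [hbc, h3]
    norm_num
  · intro v hv
    obtain ⟨b, hb, hbc⟩ := hval v 1 hv
    have h3 : b = 1 / 2 := by
      have h4 : (2 * b - 1) ^ 2 = 0 := by linear_combination hbc
      have h5 := pow_eq_zero_iff (two_ne_zero) |>.1 h4
      linear_combination (1 / 2) * h5
    have hu := hβ.unram v b hb (by rw [h3]; norm_num) (by rw [h3]; norm_num)
    have h6 : 4 * β * (1 - β) - 1 = algebraMap QQ F (-4) * (β - algebraMap QQ F b) ^ 2 := by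
      have h7 : algebraMap QQ F b = 1 / 2 := by
        rw [h3, map_div₀, map_one, map_ofNat]
      have hch : (2 : F) ≠ 0 := by
        have := (algebraMap QQ F).injective.ne (show (2 : QQ) ≠ 0 by norm_num)
        rwa [map_ofNat, map_zero] at this
      rw [h7, map_neg, hfour]
      field_simp
      ring
    have h8 : (4 * β * (1 - β) - 1) / (β - algebraMap QQ F b) ^ (2 : ℤ) =
        algebraMap QQ F (-4) := by
      rw [h6]
      have h9 := hu.1
      rw [show ((β - algebraMap QQ F b) ^ (2 : ℤ)) = (β - algebraMap QQ F b) ^ 2 from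
        zpow_ofNat _ 2]
      exact mul_div_cancel_right₀ _ (pow_ne_zero 2 h9)
    refine ⟨_, hu, ?_, ?_⟩
    · rw [h8]
      exact v.const_mem _
    · rw [h8, ← map_inv₀]
      exact v.const_mem _

end Pool.Agent.Dess
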