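import Pool.Agent.Dess.Func

/-!
# Zero-cycles on a product of curves are generated by mixed differences
-/

set_option autoImplicit false

noncomputable section

namespace Pool.Agent.Dess

open Pool.Agent.ZCyc
open scoped Classical

section

variable {k : Type} [Field k] {ι : Type} {L : ι → Type} [∀ i, Field (L i)]
  [∀ i, Algebra k (L i)]

variable (L) in
/-- the torsion cycles -/
def torGroup : AddSubgroup ((∀ i, Place k (L i)) →₀ ℤ) where
  carrier := {z | RatTor L z}
  zero_mem' := ⟨1, one_pos, by rw [smul_zero]; exact zero_mem _⟩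
  add_mem' := by
    rintro x y ⟨m, hm, hx⟩ ⟨n, hn, hy⟩
    refine ⟨m * n, Nat.mul_pos hm hn, ?_⟩
    have h1 := (RatEq L).nsmul_mem hx n
    have h2 := (RatEq L).nsmul_mem hy m
    have h3 := add_mem h1 h2
    rw [← mul_smul, ← mul_smul, mul_comm n m, ← smul_add] at h3
    exact h3
  neg_mem' := by
    rintro x ⟨m, hm, hx⟩
    refine ⟨m, hm, ?_⟩
    rw [smul_neg]
    exact neg_mem hx

theorem mem_torGroup {z : (∀ i, Place k (L i)) →₀ ℤ} : z ∈ torGroup L ↔ RatTor L z := Iff.rfl

theorem ratEq_le_torGroup : RatEq L ≤ torGroup (k := k) L := fun z hz =>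
  ⟨1, one_pos, by rwa [one_smul]⟩

/-- the subgroup contains all mixed differences -/
def HasSymbols (T : AddSubgroup ((∀ i, Place k (L i)) →₀ ℤ)) : Prop :=
  ∀ (i j : ι), i ≠ j → ∀ (a : ∀ l, Place k (L l)) (p : Place k (L i)) (q : Place k (L j)),
      Finsupp.single a (1 : ℤ) - Finsupp.single (Function.update a i p) 1 -
        Finsupp.single (Function.update a j q) 1 +
        Finsupp.single (Function.update (Function.update a i p) j q) 1 ∈ T

theorem symbols_diff {T : AddSubgroup ((∀ i, Place k (L i)) →₀ ℤ)} (h : HasSymbols T)
    (a a₀ : ∀ l, Place k (L l)) (j : ι) (q : Place k (L j)) (s : Finset ι) (hj : j ∉ s) :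
    Finsupp.single (Function.update (s.piecewise a a₀) j q) (1 : ℤ) -
      Finsupp.single (s.piecewise a a₀) 1 -
      (Finsupp.single (Function.update a₀ j q) 1 - Finsupp.single a₀ 1) ∈ T := by
  induction s using Finset.induction_on with
  | empty =>
    rw [Finset.piecewise_empty, sub_self]
    exact zero_mem _
  | insert i s hi ih =>
    have hij : i ≠ j := by
      rintro rfl
      exact hj (Finset.mem_insert_self _ _)
    have h1 := ih fun hjs => hj (Finset.mem_insert_of_mem hjs)
    have h2 := h i j hij (s.piecewise a a₀) (a i) q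
    have h3 := add_mem h1 h2
    rw [Finset.piecewise_insert]
    convert h3 using 1
    abel

theorem symbols_point {T : AddSubgroup ((∀ i, Place k (L i)) →₀ ℤ)} (h : HasSymbols T)
    (a a₀ : ∀ l, Place k (L l)) (s : Finset ι) :
    Finsupp.single (s.piecewise a a₀) (1 : ℤ) - Finsupp.single a₀ 1 -
      ∑ i ∈ s, (Finsupp.single (Function.update a₀ i (a i)) 1 - Finsupp.single a₀ 1) ∈ T := by
  induction s using Finset.induction_on with
  | empty =>
    rw [Finset.piecewise_empty, sub_self, Finset.sum_empty, sub_zero]
    exact zero_mem _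
  | insert i s hi ih =>
    have h1 := symbols_diff h a a₀ i (a i) s hi
    have h2 := add_mem h1 ih
    rw [Finset.piecewise_insert, Finset.sum_insert hi]
    convert h2 using 1
    abel

/-- the kernel of the Albanese map is generated by the mixed differences -/
theorem of_symbols [Fintype ι] {T : AddSubgroup ((∀ i, Place k (L i)) →₀ ℤ)}
    (hT : RatEq L ≤ T) (h : HasSymbols T) {z : (∀ i, Place k (L i)) →₀ ℤ}
    (hz : AlbKer L z) : z ∈ T := by
  obtain ⟨hd, hz⟩ := hz
  by_cases hne : Nonempty (∀ i, Place k (L i))
  · obtain ⟨a₀⟩ := hne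
    let deg : ((∀ i, Place k (L i)) →₀ ℤ) →+ ℤ :=
      Finsupp.liftAddHom (fun _ => AddMonoidHom.id ℤ)
    have hdeg : deg z = 0 := by
      rw [← hd]
      simp only [deg, Finsupp.liftAddHom_apply]
      rfl
    let ins : ∀ i, (∀ i, Place k (L i)) → ∀ i, Place k (L i) := fun i a =>
      Function.update a₀ i (a i)
    have key : ∀ z : (∀ i, Place k (L i)) →₀ ℤ, z - deg z • Finsupp.single a₀ 1 -
        ∑ i, (z.mapDomain (ins i) - deg z • Finsupp.single a₀ 1) ∈ T := by
      intro z
      induction z using Finsupp.induction_linear with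
      | zero => simp
      | add f g hf hg =>
        have h1 := add_mem hf hg
        convert h1 using 1
        simp only [map_add, Finsupp.mapDomain_add, Finset.sum_sub_distrib, Finset.sum_add_distrib,
          add_smul]
        abel
      | single a n =>
        have h1 := symbols_point h a a₀ Finset.univ
        rw [Finset.piecewise_univ] at h1
        have h2 := T.zsmul_mem h1 n
        convert h2 using 1
        have h3 : deg (Finsupp.single a n) = n := by
          simp [deg]
        rw [h3, smul_sub, smul_sub, Finset.smul_sum]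
        simp only [smul_sub, Finsupp.smul_single, smul_eq_mul, mul_one, Finsupp.mapDomain_single,
          ins]
    have h1 := key z
    rw [hdeg, zero_smul, sub_zero] at h1
    have h2 : ∑ i, (z.mapDomain (ins i) - 0) ∈ T := by
      apply sum_mem
      intro i _
      rw [sub_zero]
      have h3 : z.mapDomain (ins i) = (z.mapDomain fun p (_ : Unit) => p i).mapDomain
          (fun p : Unit → Place k (L i) => Function.update a₀ i (p ())) := by
        rw [← Finsupp.mapDomain_comp]
        rfl
      rw [h3]
      apply hT
      refine map_mem _ ?_ (hz i)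
      intro j
      by_cases hij : j = i
      · subst hij
        right
        refine ⟨(), AlgHom.id k _, fun a => ?_⟩
        simp only [Function.update_self]
        rfl
      · left
        exact ⟨a₀ j, fun a => Function.update_of_ne hij _ _⟩
    have h3 := add_mem h1 h2
    rw [sub_add_cancel] at h3
    exact h3
  · have h0 : z = 0 := by
      ext a
      exact absurd ⟨a⟩ hne
    rw [h0]
    exact zero_mem _

end

end Pool.Agent.Dess
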