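import Pool.Agent.Dess.Joint
import Pool.Agent.Dess.Belyi
import Pool.Agent.Dess.Symbols

/-!
# The kernel of the Albanese map is generated by the cycles `(P - O) × (P - O)`
-/

set_option autoImplicit false

noncomputable section

namespace Pool.Agent.Dess

open Pool.Agent.ZCyc
open scoped Classical

private theorem deg_sym {k : Type} [Field k] {L : Bool → Type} [∀ i, Field (L i)]
    [∀ i, Algebra k (L i)] (P P' : Place k (L false)) (Q Q' : Place k (L true)) :
    ((sym P P' Q Q').sum fun _ n => n) = 0 := by
  have h : ∀ z : (∀ i, Place k (L i)) →₀ ℤ, (z.sum fun _ n => n) =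
      Finsupp.liftAddHom (fun _ => AddMonoidHom.id ℤ) z := by
    intro z
    rw [Finsupp.liftAddHom_apply]
    rfl
  rw [h, sym, map_add, map_sub, map_sub]
  simp

private theorem push_square {k F : Type} [Field k] [Field F] [Algebra k F] (P O : Place k F)
    (i : Bool) : ((square P O).mapDomain fun p (_ : Unit) => p i) = 0 := by
  rw [square, sym]
  cases i <;> simp only [Finsupp.mapDomain_add, sub_eq_add_neg, ← Finsupp.single_neg,
    Finsupp.mapDomain_single, pair] <;> simp only [Finsupp.single_neg] <;> abel

theorem albKer_square {k F : Type} [Field k] [Field F] [Algebra k F] (P O : Place k F) :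
    AlbKer (fun _ : Bool => F) (square P O) := by
  refine ⟨deg_sym _ _ _ _, fun i => ?_⟩
  rw [push_square]
  exact zero_mem _

/-- the image of `(P - O) × (P - O)` -/
theorem map_square {k F : Type} [Field k] [Field F] [Algebra k F] (P O : Place k F) {ι : Type}
    {L : ι → Type} [∀ i, Field (L i)] [∀ i, Algebra k (L i)]
    (Φ : (Bool → Place k F) → ∀ i, Place k (L i)) :
    (square P O).mapDomain Φ = Finsupp.single (Φ (pair (L := fun _ => F) P P)) 1 -
      Finsupp.single (Φ (pair (L := fun _ => F) P O)) 1 -
      Finsupp.single (Φ (pair (L := fun _ => F) O P)) 1 +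
      Finsupp.single (Φ (pair (L := fun _ => F) O O)) 1 := by
  rw [square, sym]
  simp only [Finsupp.mapDomain_add, sub_eq_add_neg, ← Finsupp.single_neg,
    Finsupp.mapDomain_single]

/-- every mixed difference is the image of a cycle `(P - O) × (P - O)` -/
theorem symbol_dessin {ι : Type} {L : ι → Type} [∀ i, Field (L i)] [∀ i, Algebra QQ (L i)]
    (hL : ∀ i, IsCurve QQ (L i)) {i j : ι} (hij : i ≠ j) (a : ∀ l, Place QQ (L l))
    {p : Place QQ (L i)} {q : Place QQ (L j)} (hp : a i ≠ p) (hq : a j ≠ q) :
    DessinCycle L (Finsupp.single a (1 : ℤ) - Finsupp.single (Function.update a i p) 1 -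
        Finsupp.single (Function.update a j q) 1 +
        Finsupp.single (Function.update (Function.update a i p) j q) 1) := by
  let s : Bool → ι := fun b => cond b j i
  let A : ∀ b, Place QQ (L (s b)) := fun b => a (s b)
  let B : ∀ b, Place QQ (L (s b)) := fun b => match b with
    | true => q
    | false => p
  obtain ⟨F, _, _, F₀, P, O, f, hF, hgen, hact, hP, hO⟩ := joint (fun b => L (s b))
    (fun b => hL (s b)) A B (by rintro (_ | _); exacts [hp, hq])
  have hPO : P ≠ O := by
    intro hPO
    apply hp
    apply Place.ext
    have h1 := hP false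
    have h2 := hO false
    rw [hPO, h2] at h1
    exact h1.symm
  obtain ⟨β, hβ⟩ := exists_belyi hF hgen hPO hact
  have hpull : ∀ (b : Bool) (v : Place QQ F), ∃ w : Place QQ (L (s b)),
      v.ring.comap (f b : L (s b) →+* F) = w.ring := fun b v =>
    exists_pull (hL (s b)) hF (RingEquiv.refl QQ) (f b : L (s b) →+* F)
      (fun c => (f b).commutes c) v
  choose g hg using hpull
  let Φ : (Bool → Place QQ F) → ∀ l, Place QQ (L l) := fun b =>
    Function.update (Function.update a i (g false (b false))) j (g true (b true))
  have hΦ : IsMor Φ := by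
    intro l
    by_cases hl : l = j
    · subst hl
      right
      refine ⟨true, f true, fun b => ?_⟩
      simp only [Φ, Function.update_self]
      exact (hg true (b true)).symm
    · by_cases hl' : l = i
      · subst hl'
        right
        refine ⟨false, f false, fun b => ?_⟩
        simp only [Φ, Function.update_self, Function.update_of_ne hl]
        exact (hg false (b false)).symm
      · left
        refine ⟨a l, fun b => ?_⟩
        simp only [Φ, Function.update_of_ne hl, Function.update_of_ne hl']
  have hgP0 : g false P = a i := Place.ext ((hg false P).symm.trans (hP false))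
  have hgP1 : g true P = a j := Place.ext ((hg true P).symm.trans (hP true))
  have hgO0 : g false O = p := Place.ext ((hg false O).symm.trans (hO false))
  have hgO1 : g true O = q := Place.ext ((hg true O).symm.trans (hO true))
  refine ⟨F, _, _, F₀, β, P, O, Φ, hβ, hΦ, ?_⟩
  have h1 : Φ (pair (L := fun _ => F) P P) = a := by
    simp only [Φ, pair, hgP0, hgP1, Function.update_eq_self]
  have h2 : Φ (pair (L := fun _ => F) P O) = Function.update a j q := by
    simp only [Φ, pair, hgP0, hgO1, Function.update_eq_self]
  have h3 : Φ (pair (L := fun _ => F) O P) = Function.update a i p := by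
    simp only [Φ, pair, hgO0, hgP1]
    rw [Function.update_comm hij, Function.update_eq_self]
  have h4 : Φ (pair (L := fun _ => F) O O) =
      Function.update (Function.update a i p) j q := by
    simp only [Φ, pair, hgO0, hgO1]
  rw [map_square, h1, h2, h3, h4]
  abel

/-- a subgroup which contains the cycles rationally equivalent to zero and the images of all
cycles `(P - O) × (P - O)` contains the kernel of the Albanese map -/
theorem generation {ι : Type} [Fintype ι] {L : ι → Type} [∀ i, Field (L i)]
    [∀ i, Algebra QQ (L i)] (hL : ∀ i, IsCurve QQ (L i))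
    {T : AddSubgroup ((∀ i, Place QQ (L i)) →₀ ℤ)} (hT : RatEq L ≤ T)
    (h : ∀ w, DessinCycle L w → w ∈ T) {z : (∀ i, Place QQ (L i)) →₀ ℤ} (hz : AlbKer L z) :
    z ∈ T := by
  refine of_symbols hT ?_ hz
  intro i j hij a p q
  by_cases hp : a i = p
  · have h0 : Finsupp.single a (1 : ℤ) - Finsupp.single (Function.update a i p) 1 -
        Finsupp.single (Function.update a j q) 1 +
        Finsupp.single (Function.update (Function.update a i p) j q) 1 = 0 := by
      rw [← hp, Function.update_eq_self]
      abel
    rw [h0]
    exact zero_mem _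
  by_cases hq : a j = q
  · have h0 : Finsupp.single a (1 : ℤ) - Finsupp.single (Function.update a i p) 1 -
        Finsupp.single (Function.update a j q) 1 +
        Finsupp.single (Function.update (Function.update a i p) j q) 1 = 0 := by
      rw [← hq, Function.update_eq_self, Function.update_comm hij, Function.update_eq_self]
      abel
    rw [h0]
    exact zero_mem _
  exact h _ (symbol_dessin hL hij a hp hq)

/-- the kernel of the Albanese map is generated by the images of the cycles
`(P - O) × (P - O)` -/
theorem generation_dessin {ι : Type} [Fintype ι] {L : ι → Type} [∀ i, Field (L i)]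
    [∀ i, Algebra QQ (L i)] (hL : ∀ i, IsCurve QQ (L i)) {z : (∀ i, Place QQ (L i)) →₀ ℤ}
    (hz : AlbKer L z) : z ∈ RatEq L ⊔ AddSubgroup.closure {w | DessinCycle L w} :=
  generation hL le_sup_left
    (fun _ hw => (le_sup_right : _ ≤ RatEq L ⊔ _) (AddSubgroup.subset_closure hw)) hz

theorem main : ZeroCyclesConj ↔ DessinConj := by
  constructor
  · intro h F _ _ F₀ β P O hd
    exact h Bool (fun _ => F) (fun _ => hd.curve) (square P O) (albKer_square P O)
  · intro h ι _ L _ _ hL z hz
    refine generation (T := torGroup L) hL ratEq_le_torGroup ?_ hz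
    rintro w ⟨F, _, _, F₀, β, P, O, Φ, hβ, hΦ, rfl⟩
    exact map_tor Φ hΦ (h F F₀ β P O hβ)

end Pool.Agent.Dess
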