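import Pool.Agent.Dess.Defs

/-!
# The field of algebraic numbers

The instance `Algebra ℚ QQ` is found as `DivisionRing.toRatAlgebra`; here are the instances for it.
-/

set_option autoImplicit false

namespace Pool.Agent.Dess

instance alg_isAlgClosure : IsAlgClosure ℚ QQ := by
  have h : (DivisionRing.toRatAlgebra : Algebra ℚ QQ) = AlgebraicClosure.instAlgebra ℚ :=
    Subsingleton.elim _ _
  rw [h]
  infer_instance

instance alg_isAlgebraic : Algebra.IsAlgebraic ℚ QQ := IsAlgClosure.isAlgebraic

instance alg_isGalois : IsGalois ℚ QQ := IsAlgClosure.isGalois ℚ QQ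

theorem alg_fixed {c : QQ} (h : ∀ τ : Gam, τ c = c) : c ∈ Set.range (algebraMap ℚ QQ) :=
  (InfiniteGalois.mem_range_algebraMap_iff_fixed c).2 h

end Pool.Agent.Dess
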