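import Pool.Agent.Dess.Unram

/-!
# Ramification indices and the lemma of Abhyankar (package D24)
-/

set_option autoImplicit false

noncomputable section

namespace Pool.Agent.Dess

open Pool.Agent.ZCyc Polynomial IntermediateField
open scoped Classical

section

variable {k M N : Type} [Field k] [IsAlgClosed k] [CharZero k] [Field M] [Algebra k M] [Field N]
  [Algebra k N]

omit [IsAlgClosed k] [CharZero k] in
private lemma abhy_map_mem (v : Place k N) (g : N ≃ₐ[k] N) (x : N) :
    g x ∈ (v.map g).ring ↔ x ∈ v.ring := by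
  rw [Place.mem_map, AlgEquiv.symm_apply_apply]

omit [IsAlgClosed k] [CharZero k] in
private lemma abhy_map_unif {v : Place k N} {π : N} (h : IsUnif v π) (g : N ≃ₐ[k] N) :
    IsUnif (v.map g) (g π) := by
  refine ⟨(map_ne_zero_iff g g.injective).2 h.1, ?_, fun f hf => ?_⟩
  · rw [Place.vanishes_map, AlgEquiv.symm_apply_apply]
    exact h.2.1
  · rw [Place.vanishes_map] at hf
    have h1 := h.2.2 _ hf
    rw [← abhy_map_mem v g, map_div₀, AlgEquiv.apply_symm_apply] at h1
    exact h1

omit [IsAlgClosed k] [CharZero k] in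
/-- if `w` vanishes and is not a uniformizer, it is divisible by the square of a uniformizer -/
private lemma abhy_sq {v : Place k N} {w π : N} (hw0 : w ≠ 0)
    (hw : v.Vanishes w) (hn : ¬ IsUnif v w) (hπ : IsUnif v π) : w / π ^ 2 ∈ v.ring := by
  have h1 := hπ.2.2 w hw
  have h2 : v.Vanishes (w / π) := by
    rw [v.vanishes_iff_or]
    right
    intro h3
    apply hn
    refine ⟨hw0, hw, fun g hg => ?_⟩
    have h4 := mul_mem (hπ.2.2 g hg) h3
    rw [inv_div] at h4
    have h5 : g / π * (π / w) = g / w := by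
      have := hπ.1
      field_simp
    rwa [h5] at h4
  have h3 := hπ.2.2 _ h2
  rw [div_div, ← sq] at h3
  exact h3

/-- the action of the Galois group on the points -/
@[reducible] private def abhy_act {s : N} : MulAction (N ≃ₐ[adjoin k {s}] N) (Place k N) where
  smul σ v := v.map (σ.restrictScalars k)
  one_smul v := v.map_one
  mul_smul σ τ v := by
    show v.map ((σ * τ).restrictScalars k) =
      (v.map (τ.restrictScalars k)).map (σ.restrictScalars k)
    rw [Place.map_map]
    rfl

/-- the ramification index is at most the order of the stabilizer -/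
theorem ram_le {s : N} (hs : Transcendental k s) [FiniteDimensional (adjoin k {s}) N]
    [IsGalois (adjoin k {s}) N] (V : Place k N) (hV : V.Vanishes s) {π : N} (hπ : IsUnif V π)
    {e : ℕ} (he : s / π ^ e ∈ V.ring) :
    e ≤ Nat.card {σ : N ≃ₐ[adjoin k {s}] N // V.map (σ.restrictScalars k) = V} := by
  have hN : IsCurve k N := ⟨s, hs, inferInstance⟩
  let E := adjoin k {s}
  have hsE : s ∈ E := mem_adjoin_simple_self k s
  have hs0 : s ≠ 0 := by
    intro h
    rw [h] at hs
    exact hs isAlgebraic_zero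
  have hfix : ∀ σ : N ≃ₐ[E] N, σ.restrictScalars k s = s := fun σ => σ.commutes ⟨s, hsE⟩
  let act : MulAction (N ≃ₐ[E] N) (Place k N) := abhy_act
  have hsm : ∀ (σ : N ≃ₐ[E] N) (v : Place k N), σ • v = v.map (σ.restrictScalars k) :=
    fun _ _ => rfl
  have hfin : (MulAction.orbit (N ≃ₐ[E] N) V).Finite := Set.finite_range _
  set S : Finset (Place k N) := hfin.toFinset with hS
  have hcard : S.card * Nat.card (MulAction.stabilizer (N ≃ₐ[E] N) V) =
      Nat.card (N ≃ₐ[E] N) := by
    rw [← Nat.card_congr (MulAction.orbitProdStabilizerEquivGroup (N ≃ₐ[E] N) V), Nat.card_prod,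
      Nat.card_coe_set_eq, Set.ncard_eq_toFinset_card _ hfin]
  have hmem : ∀ v ∈ S, ∃ σ : N ≃ₐ[E] N, V.map (σ.restrictScalars k) = v := by
    intro v hv
    obtain ⟨σ, hσ⟩ := hfin.mem_toFinset.1 hv
    exact ⟨σ, hσ⟩
  have hVS : V ∈ S := hfin.mem_toFinset.2 (MulAction.mem_orbit_self V)
  choose ϖ hϖ using fun v : Place k N => exists_unif hN v
  have hst : Transcendental k s⁻¹ := fun h => hs (by simpa using h.inv)
  have key := pole_fund hN (w := s) (x := s⁻¹) rfl hs0 hs hst S (by
    intro v hv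
    obtain ⟨σ, rfl⟩ := hmem v hv
    rw [Place.vanishes_map]
    have h1 : (σ.restrictScalars k).symm s = s := by
      rw [AlgEquiv.symm_apply_eq, hfix]
    rw [h1]
    exact hV) hϖ (fun _ => e) (by
    intro v hv
    obtain ⟨σ, rfl⟩ := hmem v hv
    have h1 := he
    rw [← abhy_map_mem V (σ.restrictScalars k), map_div₀, map_pow, hfix] at h1
    have h2 : (σ.restrictScalars k) π / ϖ (V.map (σ.restrictScalars k)) ∈
        (V.map (σ.restrictScalars k)).ring :=
      (hϖ _).2.2 _ (abhy_map_unif hπ (σ.restrictScalars k)).2.1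
    have h3 := mul_mem h1 (pow_mem h2 e)
    have h4 : (σ.restrictScalars k) π ≠ 0 := (abhy_map_unif hπ (σ.restrictScalars k)).1
    have h5 : s / (σ.restrictScalars k) π ^ e *
        ((σ.restrictScalars k) π / ϖ (V.map (σ.restrictScalars k))) ^ e =
        s / ϖ (V.map (σ.restrictScalars k)) ^ e := by
      rw [div_pow, div_mul_div_comm, mul_comm s, mul_div_mul_left _ _ (pow_ne_zero e h4)]
    rw [h5] at h3
    exact h3)
  rw [Finset.sum_const, smul_eq_mul] at key
  have hE : adjoin k {s⁻¹} = E := by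
    apply le_antisymm
    · rw [adjoin_simple_le_iff]
      exact inv_mem hsE
    · change adjoin k {s} ≤ _
      rw [adjoin_simple_le_iff]
      have h1 : s⁻¹ ∈ adjoin k {s⁻¹} := mem_adjoin_simple_self k _
      have h2 := inv_mem h1
      rwa [inv_inv] at h2
  rw [hE, ← IsGalois.card_aut_eq_finrank, ← hcard] at key
  have hpos : 0 < S.card := Finset.card_pos.2 ⟨V, hVS⟩
  exact Nat.le_of_mul_le_mul_left key hpos

omit [IsAlgClosed k] [CharZero k] in
private lemma abhy_at {V : Place k N} {g : N ≃ₐ[k] N} (hg : V.map g = V) {f : N} {c : k}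
    (h : V.At f c) : V.At (g f) c := by
  unfold Place.At at h ⊢
  rw [← hg, Place.vanishes_map, map_sub, AlgEquiv.symm_apply_apply, AlgEquiv.commutes]
  exact h

/-- an element of the stabilizer which fixes a uniformizer modulo squares is trivial on the
subfield -/
theorem tame {s : N} (hs : Transcendental k s) [FiniteDimensional (adjoin k {s}) N]
    [IsGalois (adjoin k {s}) N] (hM : IsCurve k M) (φ : M →ₐ[k] N) (σ : N ≃ₐ[adjoin k {s}] N)
    (hstab : ∀ f, ∃ f', σ (φ f) = φ f') (V : Place k N)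
    (hσ : V.map (σ.restrictScalars k) = V) {v : Place k M}
    (hv : V.ring.comap (φ : M →+* N) = v.ring) {π : M} (hπ : IsUnif v π)
    (h : V.At (σ (φ π) / φ π) 1) (f : M) : σ (φ f) = φ f := by
  have hN : IsCurve k N := ⟨s, hs, inferInstance⟩
  have hφπ : φ π ≠ 0 := (map_ne_zero φ).2 hπ.1
  have hAt : ∀ {f : N} {c : k}, V.At f c → V.At (σ f) c := fun hf => abhy_at hσ hf
  -- the iterates
  have hit : ∀ i : ℕ, ∃ f', (σ ^ i) (φ π) = φ f' := by
    intro i
    induction i with
    | zero => exact ⟨π, rfl⟩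
    | succ i ih =>
      obtain ⟨f', hf'⟩ := ih
      obtain ⟨f'', hf''⟩ := hstab f'
      refine ⟨f'', ?_⟩
      rw [pow_succ', AlgEquiv.mul_apply, hf', hf'']
  have hval : ∀ i : ℕ, V.At ((σ ^ i) (φ π) / φ π) 1 := by
    intro i
    induction i with
    | zero =>
      have h1 : ((σ ^ 0) (φ π) / φ π) = algebraMap k N 1 := by
        rw [pow_zero, AlgEquiv.one_apply, div_self hφπ, map_one]
      rw [h1]
      exact Place.at_const 1
    | succ i ih =>
      have h1 := (hAt ih).mul h
      rw [one_mul] at h1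
      have h2 : σ ((σ ^ i) (φ π) / φ π) * (σ (φ π) / φ π) = (σ ^ (i + 1)) (φ π) / φ π := by
        have h3 : σ (φ π) ≠ 0 := (map_ne_zero_iff σ σ.injective).2 hφπ
        rw [pow_succ', AlgEquiv.mul_apply, map_div₀]
        field_simp
      rwa [h2] at h1
  choose F hF using hit
  set r := orderOf σ with hr
  have hrpos : 0 < r := orderOf_pos σ
  have hr0 : (r : k) ≠ 0 := by exact_mod_cast hrpos.ne'
  set π' : M := algebraMap k M (r : k)⁻¹ * ∑ i ∈ Finset.range r, F i with hπ'
  have hφπ' : φ π' = algebraMap k N (r : k)⁻¹ * ∑ i ∈ Finset.range r, (σ ^ i) (φ π) := by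
    rw [hπ', map_mul, map_sum, AlgHom.commutes]
    congr 1
    exact Finset.sum_congr rfl fun i _ => (hF i).symm
  have hfix : σ (φ π') = φ π' := by
    have h1 : σ (algebraMap k N (r : k)⁻¹) = algebraMap k N (r : k)⁻¹ :=
      (σ.restrictScalars k).commutes _
    rw [hφπ', map_mul, h1, map_sum]
    congr 1
    have h2 : ∀ i, σ ((σ ^ i) (φ π)) = (σ ^ (i + 1)) (φ π) := fun i => by
      rw [pow_succ', AlgEquiv.mul_apply]
    rw [Finset.sum_congr rfl fun i _ => h2 i]
    have h3 := Finset.sum_range_succ (fun i => (σ ^ i) (φ π)) r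
    have h4 := Finset.sum_range_succ' (fun i => (σ ^ i) (φ π)) r
    rw [h4] at h3
    have h5 : (σ ^ r) (φ π) = (σ ^ 0) (φ π) := by
      rw [hr, pow_orderOf_eq_one, pow_zero]
    rw [h5] at h3
    exact add_right_cancel h3
  have hAt1 : V.At (φ π' / φ π) 1 := by
    have h1 : V.At (∑ i ∈ Finset.range r, (σ ^ i) (φ π) / φ π) (∑ _i ∈ Finset.range r, (1 : k)) :=
      Place.At.sum fun i _ => hval i
    have h2 := (Place.at_const (v := V) (r : k)⁻¹).mul h1
    rw [Finset.sum_const, Finset.card_range, nsmul_eq_mul, mul_one, inv_mul_cancel₀ hr0] at h2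
    have h3 : φ π' / φ π = algebraMap k N (r : k)⁻¹ *
        ∑ i ∈ Finset.range r, (σ ^ i) (φ π) / φ π := by
      rw [hφπ', ← Finset.sum_div, mul_div_assoc]
    rw [h3]
    exact h2
  have hmem : ∀ f : M, f ∈ v.ring ↔ φ f ∈ V.ring := by
    intro f
    rw [← hv, ValuationSubring.mem_comap]
    rfl
  have hvan : ∀ f : M, V.Vanishes (φ f) → v.Vanishes f := by
    intro f hf
    rw [Place.vanishes_iff_or] at hf ⊢
    rcases hf with hf | hf
    · exact Or.inl ((map_eq_zero φ).1 hf)
    · right
      rw [hmem, map_inv₀]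
      exact hf
  have hAt2 : v.At (π' / π) 1 := by
    apply hvan
    rw [map_sub, map_div₀, AlgHom.commutes]
    exact hAt1
  have hπ'0 : π' ≠ 0 := by
    intro h0
    rw [h0, zero_div] at hAt2
    have h1 : v.At (0 : M) 0 := by
      have := Place.at_const (v := v) (0 : k)
      rwa [map_zero] at this
    exact one_ne_zero (hAt2.unique h1)
  have hunif : IsUnif v π' := by
    refine ⟨hπ'0, ?_, fun g hg => ?_⟩
    · have h1 := hπ.2.1.mul v hAt2.mem
      have h2 : π * (π' / π) = π' := mul_div_cancel₀ _ hπ.1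
      rwa [h2] at h1
    · have h1 := mul_mem (hπ.2.2 g hg) (hAt2.inv one_ne_zero).mem
      have h2 : g / π * (π' / π)⁻¹ = g / π' := by
        have h3 := hπ.1
        field_simp
      rwa [h2] at h1
  have h1 : ∀ c, (φ : M →+* N) (algebraMap k M c) = algebraMap k N (RingEquiv.refl k c) :=
    fun c => φ.commutes c
  have h2 : ∀ c, ((σ.restrictScalars k : N →+* N).comp (φ : M →+* N)) (algebraMap k M c) =
      algebraMap k N (RingEquiv.refl k c) := by
    intro c
    rw [RingHom.comp_apply, h1]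
    exact (σ.restrictScalars k).commutes c
  have hv' : V.ring.comap ((σ.restrictScalars k : N →+* N).comp (φ : M →+* N)) = v.ring := by
    rw [← hv]
    ext y
    rw [ValuationSubring.mem_comap, ValuationSubring.mem_comap]
    conv_lhs => rw [← hσ]
    exact abhy_map_mem V (σ.restrictScalars k) (φ y)
  have h3 := taylor hM hN (RingEquiv.refl k) h1 h2 hv hv' (x := π') (c := 0) (by
    rw [map_zero, sub_zero]
    exact hunif) (by
    rw [RingHom.comp_apply]
    exact hfix.symm)
  have h4 := congrArg (fun ψ : M →+* N => ψ f) h3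
  exact h4.symm

omit [CharZero k] in
/-- a root of unity is a constant -/
private lemma abhy_const {z : N} {n : ℕ} (hn : 0 < n) (hz : z ^ n = 1) :
    ∃ c : k, algebraMap k N c = z := by
  have hint : IsIntegral k z := by
    refine ⟨X ^ n - C 1, monic_X_pow_sub_C 1 hn.ne', ?_⟩
    simp [hz]
  obtain ⟨c, hc⟩ := minpoly.mem_range_of_degree_eq_one k z
    (IsAlgClosed.degree_eq_one_of_irreducible k (minpoly.irreducible hint))
  exact ⟨c, hc⟩

/-- the lemma of Abhyankar -/
theorem abhyankar {s : N} (hs : Transcendental k s) [FiniteDimensional (adjoin k {s}) N]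
    [IsGalois (adjoin k {s}) N] (hM : IsCurve k M) (φ : M →ₐ[k] N) {sM : M} (hφ : φ sM = s)
    (hstab : ∀ (σ : N ≃ₐ[adjoin k {s}] N) (f : M), ∃ f', σ (φ f) = φ f')
    {X Y : N} {n : ℕ} (hn : 0 < n) (hX : X ^ n = s) (hY : Y ^ n ∈ adjoin k {s})
    (hgen : ∀ σ : N ≃ₐ[adjoin k {s}] N, (∀ f, σ (φ f) = φ f) → σ X = X → σ Y = Y → σ = 1)
    (V : Place k N) (hV : V.Vanishes s) {c : k} (hc : c ≠ 0) (hYV : V.At Y c)
    {v : Place k M} (hv : V.ring.comap (φ : M →+* N) = v.ring) {π : M} (hπ : IsUnif v π)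
    {e : ℕ} (he : e ∣ n) (hord : sM / π ^ e ∈ v.ring) (hord' : (sM / π ^ e)⁻¹ ∈ v.ring) :
    IsUnif V X := by
  have hN : IsCurve k N := ⟨s, hs, inferInstance⟩
  have hs0 : s ≠ 0 := by
    intro h
    rw [h] at hs
    exact hs isAlgebraic_zero
  have hsE : s ∈ adjoin k {s} := mem_adjoin_simple_self k s
  have hX0 : X ≠ 0 := by
    intro h
    rw [h, zero_pow hn.ne'] at hX
    exact hs0 hX.symm
  have hY0 : Y ≠ 0 := by
    intro h
    rw [h] at hYV
    have h1 : V.At (0 : N) 0 := by
      have := Place.at_const (v := V) (0 : k)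
      rwa [map_zero] at this
    exact hc (hYV.unique h1)
  have hφπ : φ π ≠ 0 := (map_ne_zero φ).2 hπ.1
  have he0 : 0 < e := Nat.pos_of_dvd_of_pos he hn
  obtain ⟨m, hm⟩ := he
  have hfixs : ∀ σ : N ≃ₐ[adjoin k {s}] N, σ s = s := fun σ => σ.commutes ⟨s, hsE⟩
  have hfixY : ∀ σ : N ≃ₐ[adjoin k {s}] N, σ (Y ^ n) = Y ^ n := fun σ => σ.commutes ⟨_, hY⟩
  have hmem : ∀ f : M, f ∈ v.ring ↔ φ f ∈ V.ring := by
    intro f
    rw [← hv, ValuationSubring.mem_comap]
    rfl
  -- the unit `z`
  set z : N := X ^ m / φ π with hz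
  have hz0 : z ≠ 0 := div_ne_zero (pow_ne_zero m hX0) hφπ
  have hze : z ^ e = φ (sM / π ^ e) := by
    rw [hz, div_pow, ← pow_mul, mul_comm m e, ← hm, hX, map_div₀, map_pow, hφ]
  have hze1 : z ^ e ∈ V.ring := by
    rw [hze]
    exact (hmem _).1 hord
  have hze2 : (z ^ e)⁻¹ ∈ V.ring := by
    rw [hze, ← map_inv₀]
    exact (hmem _).1 hord'
  have hzmem : z ∈ V.ring := by
    rcases V.ring.mem_or_inv_mem z with h | h
    · exact h
    · by_contra h1
      have h2 : V.Vanishes z⁻¹ := (V.vanishes_iff_or _).2 (Or.inr (by rwa [inv_inv]))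
      have h3 := h2.pow V he0.ne'
      rw [inv_pow] at h3
      rw [V.vanishes_iff_or, inv_inv] at h3
      rcases h3 with h3 | h3
      · exact (inv_ne_zero (pow_ne_zero e hz0)) h3
      · exact h3 hze1
  obtain ⟨d, hd⟩ := exists_at hN V hzmem
  have hd0 : d ≠ 0 := by
    rintro rfl
    rw [Place.at_zero_iff] at hd
    have h3 := hd.pow V he0.ne'
    rw [V.vanishes_iff_or] at h3
    rcases h3 with h3 | h3
    · exact pow_ne_zero e hz0 h3
    · exact h3 hze2
  -- the stabilizer acts faithfully on `X`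
  have hinj : ∀ τ : N ≃ₐ[adjoin k {s}] N, V.map (τ.restrictScalars k) = V → τ X = X → τ = 1 := by
    intro τ hτ hτX
    have hAt : ∀ {f : N} {c : k}, V.At f c → V.At (τ f) c := fun hf => abhy_at hτ hf
    have hτY : τ Y = Y := by
      have h1 : (τ Y / Y) ^ n = 1 := by
        rw [div_pow, ← map_pow, hfixY, div_self (pow_ne_zero n hY0)]
      obtain ⟨ξ, hξ⟩ := abhy_const (k := k) hn h1
      have h2 : V.At (τ Y / Y) 1 := by
        have := (hAt hYV).div hYV hc
        rwa [div_self hc] at this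
      rw [← hξ] at h2
      have h3 : ξ = 1 := (Place.at_const (v := V) ξ).unique h2
      rw [h3, map_one] at hξ
      exact (div_eq_one_iff_eq hY0).1 hξ.symm
    refine hgen τ (fun f => ?_) hτX hτY
    refine tame hs hM φ τ (hstab τ) V hτ hv hπ ?_ f
    have h1 := hd.div (hAt hd) hd0
    rw [div_self hd0] at h1
    have h2 : z / τ z = τ (φ π) / φ π := by
      have h3 : τ (φ π) ≠ 0 := (map_ne_zero_iff τ τ.injective).2 hφπ
      rw [hz, map_div₀, map_pow, hτX]
      field_simp
    rwa [h2] at h1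
  have hcard : Nat.card {σ : N ≃ₐ[adjoin k {s}] N // V.map (σ.restrictScalars k) = V} ≤ n := by
    have h1 : ∀ σ : {σ : N ≃ₐ[adjoin k {s}] N // V.map (σ.restrictScalars k) = V},
        (σ.1 X / X) ∈ nthRootsFinset n (1 : N) := by
      intro σ
      rw [mem_nthRootsFinset hn, div_pow, ← map_pow, hX, hfixs, div_self hs0]
    have h2 : Function.Injective (fun σ : {σ : N ≃ₐ[adjoin k {s}] N //
        V.map (σ.restrictScalars k) = V} => (⟨σ.1 X / X, h1 σ⟩ : nthRootsFinset n (1 : N))) := by
      rintro ⟨σ, hσ⟩ ⟨τ, hτ⟩ hστ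
      have h3 : σ X / X = τ X / X := congrArg Subtype.val hστ
      have h4 : σ X = τ X := (div_left_inj' hX0).1 h3
      have h5 : (τ⁻¹ * σ) X = X := by
        rw [AlgEquiv.mul_apply, h4]
        exact τ.symm_apply_apply X
      have h6 : V.map ((τ⁻¹ * σ).restrictScalars k) = V := by
        have h7 : (V.map (σ.restrictScalars k)).map (τ⁻¹.restrictScalars k) = V := by
          rw [hσ]
          conv_lhs => rw [← hτ]
          rw [Place.map_map]
          have h8 : (τ.restrictScalars k).trans (τ⁻¹.restrictScalars k) = 1 := by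
            ext y
            exact τ.symm_apply_apply y
          rw [h8, Place.map_one]
        rw [Place.map_map] at h7
        exact h7
      have h9 := hinj _ h6 h5
      exact Subtype.ext (inv_mul_eq_one.1 h9).symm
    have h3 := Nat.card_le_card_of_injective _ h2
    refine h3.trans ?_
    rw [Nat.card_eq_fintype_card, Fintype.card_coe]
    exact (Multiset.toFinset_card_le _).trans (card_nthRoots n 1)
  have hXV : V.Vanishes X := by
    apply V.vanishes_of_pow (n := n)
    rw [hX]
    exact hV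
  by_contra hnu
  obtain ⟨ϖ, hϖ⟩ := exists_unif hN V
  have h1 := abhy_sq hX0 hXV hnu hϖ
  have h2 : s / ϖ ^ (2 * n) ∈ V.ring := by
    have h3 := pow_mem h1 n
    rwa [div_pow, hX, ← pow_mul] at h3
  have h3 := ram_le hs V hV hϖ h2
  omega

end

end Pool.Agent.Dess
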