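import Pool.Agent.Dess.Dede
import Pool.Agent.Dess.Alg

/-!
# The coordinate change (package D14)
-/

set_option autoImplicit false

noncomputable section

namespace Pool.Agent.Dess

open Pool.Agent.ZCyc Polynomial
open scoped Classical

section

variable {L : Type} [Field L] [Algebra QQ L]

/-- the function `x` on the curve: it has the simple value `0` at `a` and `1` at `o`, it is
totally ramified over `e`, and unramified over all points outside `C` -/
structure Chart (x : L) (a o : Place QQ L) (e : QQ) (C : Set QQ) : Prop where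
  transc : Transcendental QQ x
  a_unif : IsUnif a x
  o_unif : IsUnif o (x - 1)
  total : ∀ v w : Place QQ L, v.At x e → w.At x e → v = w
  unram : ∀ (v : Place QQ L) (c : QQ), v.At x c → c ∉ C → IsUnif v (x - algebraMap QQ L c)

/-- the branch points of `e y / (y + e - 1)` -/
def branch (B : Finset QQ) (e : QQ) : Set QQ :=
  {e} ∪ {c | ∃ b ∈ B, c * (b + e - 1) = e * b}

/-- a uniformizer times a unit -/
private theorem unif_mul {v : Place QQ L} {π r : L} {c : QQ} (h : IsUnif v π) (hr : v.At r c)
    (hc : c ≠ 0) : IsUnif v (π * r) := by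
  have hr0 : r ≠ 0 := by
    rintro rfl
    exact hc (hr.unique (by simpa using Place.at_const (v := v) (0 : QQ)))
  refine ⟨mul_ne_zero h.1 hr0, Place.Vanishes.mul v h.2.1 hr.mem, fun g hg => ?_⟩
  have h1 := mul_mem (h.2.2 g hg) (hr.inv hc).mem
  have h2 : g / π * r⁻¹ = g / (π * r) := by
    rw [← div_eq_mul_inv, div_div]
  rwa [h2] at h1

private theorem unif_ne_const {v : Place QQ L} {y : L} (h : IsUnif v y) (c : QQ) :
    y ≠ algebraMap QQ L c := by
  intro hy
  rcases eq_or_ne c 0 with h0 | h0
  · rw [h0, map_zero] at hy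
    exact h.1 hy
  · have h1 := h.2.1
    rw [hy] at h1
    exact v.const_unit h0 h1

/-- over an algebraically closed field the algebraic elements are the constants -/
private theorem transc_of {y : L} (h : ∀ c : QQ, y ≠ algebraMap QQ L c) :
    Transcendental QQ y := by
  intro hy
  have h1 : IsIntegral QQ y := hy.isIntegral
  have h2 := IsAlgClosed.degree_eq_one_of_irreducible QQ (minpoly.irreducible h1)
  obtain ⟨c, hc⟩ := minpoly.mem_range_of_degree_eq_one QQ y h2
  exact h c hc.symm

theorem moebius (hL : IsCurve QQ L) {y : L} {q a o : Place QQ L} {B : Finset QQ}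
    (hy : ∀ v, v ≠ q → y ∈ v.ring) (ha : IsUnif a y) (ho : IsUnif o (y - 1))
    (hB : ∀ (v : Place QQ L) (c : QQ), v.At y c → c ∉ B → IsUnif v (y - algebraMap QQ L c))
    {e : QQ} (he0 : e ≠ 0) (he1 : e ≠ 1) :
    Chart (algebraMap QQ L e * y / (y + algebraMap QQ L (e - 1))) a o e (branch B e) := by
  have hyc : ∀ c, y ≠ algebraMap QQ L c := unif_ne_const ha
  set E := algebraMap QQ L e with hE
  set u := y + algebraMap QQ L (e - 1) with hu
  have hE0 : E ≠ 0 := by rw [hE]; simpa using he0
  have he1' : e - 1 ≠ 0 := sub_ne_zero.2 he1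
  have hE1 : algebraMap QQ L (e - 1) = E - 1 := by rw [map_sub, map_one]
  have hE1' : E - 1 ≠ 0 := by rw [← hE1]; exact (_root_.map_ne_zero _).2 he1'
  have hu0 : u ≠ 0 := by
    intro h
    apply hyc (-(e - 1))
    rw [map_neg]
    exact eq_neg_of_add_eq_zero_left h
  set x := E * y / u with hx
  have hxu : x * u = E * y := by
    rw [hx, div_mul_cancel₀ _ hu0]
  -- values of `u`
  have huat : ∀ (v : Place QQ L) (b : QQ), v.At y b → v.At u (b + (e - 1)) := fun v b hb =>
    hb.add (Place.at_const _)
  -- the value of `x` where `y` is finite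
  have hfin : ∀ (v : Place QQ L) (b c : QQ), v.At y b → v.At x c → b + (e - 1) ≠ 0 ∧
      c * (b + (e - 1)) = e * b := by
    intro v b c hb hc
    have h1 := hc.mul (huat v b hb)
    rw [hxu] at h1
    have h2 : v.At (E * y) (e * b) := (Place.at_const e).mul hb
    have h3 := h1.unique h2
    refine ⟨fun h4 => ?_, h3⟩
    rw [h4, mul_zero] at h3
    rcases mul_eq_zero.1 h3.symm with h5 | h5
    · exact he0 h5
    · rw [h5, zero_add] at h4
      exact he1' h4
  -- the value of `x` where `y` has a pole
  have hinf : ∀ (v : Place QQ L), y ∉ v.ring → v.At x e := by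
    intro v hv
    have hy0 : y ≠ 0 := by
      have := hyc 0
      rwa [map_zero] at this
    have h1 : v.Vanishes y⁻¹ := by
      rw [Place.vanishes_iff_or]
      right
      rwa [inv_inv]
    have h2 : v.At (1 + algebraMap QQ L (e - 1) * y⁻¹) ((1 : QQ) + (e - 1) * 0) := by
      refine Place.At.add ?_ ((Place.at_const _).mul (Place.at_zero_iff.2 h1))
      have := Place.at_const (v := v) (1 : QQ)
      rwa [map_one] at this
    rw [mul_zero, add_zero] at h2
    have h3 := (Place.at_const (v := v) e).div h2 one_ne_zero
    rw [div_one] at h3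
    convert h3 using 1
    rw [hx, hu, ← hE]
    have h4 : y + algebraMap QQ L (e - 1) = y * (1 + algebraMap QQ L (e - 1) * y⁻¹) := by
      field_simp
    rw [h4, mul_comm y (1 + _), mul_div_mul_right _ _ hy0]
  refine ⟨?_, ?_, ?_, ?_, ?_⟩
  · -- transcendental
    apply transc_of
    intro c hc
    have h1 : E * y = algebraMap QQ L c * u := by rw [← hxu, hc]
    have h2 : (E - algebraMap QQ L c) * y = algebraMap QQ L (c * (e - 1)) := by
      rw [hu] at h1
      rw [map_mul]
      linear_combination h1
    by_cases hec : e = c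
    · rw [hE, hec, sub_self, zero_mul, ← hec] at h2
      have h3 : e * (e - 1) = 0 := by
        have h4 : algebraMap QQ L (e * (e - 1)) = algebraMap QQ L 0 := by
          rw [← h2, map_zero]
        exact (algebraMap QQ L).injective h4
      rcases mul_eq_zero.1 h3 with h4 | h4
      · exact he0 h4
      · exact he1' h4
    · apply hyc (c * (e - 1) / (e - c))
      have h3 : E - algebraMap QQ L c ≠ 0 := by
        rw [hE, ← map_sub]
        exact (_root_.map_ne_zero _).2 (sub_ne_zero.2 hec)
      rw [map_div₀, map_sub, ← h2, ← hE, mul_div_cancel_left₀ _ h3]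
  · -- `a`
    have h1 : a.At y 0 := Place.at_zero_iff.2 ha.2.1
    have h2 := huat a 0 h1
    rw [zero_add] at h2
    have h3 := (Place.at_const (v := a) e).div h2 he1'
    have h4 := unif_mul ha h3 (div_ne_zero he0 he1')
    convert h4 using 1
    rw [hx, hE]
    ring
  · -- `o`
    have h1 : o.At y 1 := by
      have := ho.2.1
      unfold Place.At
      rwa [map_one]
    have h2 := huat o 1 h1
    have h22 : (1 : QQ) + (e - 1) = e := by ring
    rw [h22] at h2
    have h3 := (Place.at_const (v := o) (e - 1)).div h2 he0
    have h4 := unif_mul ho h3 (div_ne_zero he1' he0)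
    convert h4 using 1
    rw [hx, hE1]
    field_simp
    rw [hu, hE1]
    ring
  · -- total ramification
    have h1 : ∀ v : Place QQ L, v.At x e → v = q := by
      intro v hv
      by_contra hne
      obtain ⟨b, hb⟩ := exists_at hL v (hy v hne)
      obtain ⟨h2, h3⟩ := hfin v b e hb hv
      have h4 : e * (e - 1) = 0 := by linear_combination h3
      rcases mul_eq_zero.1 h4 with h5 | h5
      · exact he0 h5
      · exact he1' h5
    intro v w hv hw
    rw [h1 v hv, h1 w hw]
  · -- unramified
    intro v c hc hcB
    have hce : c ≠ e := by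
      rintro rfl
      exact hcB (Or.inl rfl)
    have hyv : y ∈ v.ring := by
      by_contra h
      exact hce (hc.unique (hinf v h))
    obtain ⟨b, hb⟩ := exists_at hL v hyv
    obtain ⟨h2, h3⟩ := hfin v b c hb hc
    have hbB : b ∉ B := by
      intro h
      apply hcB
      right
      refine ⟨b, h, ?_⟩
      rw [← h3]
      ring
    have h4 := hB v b hb hbB
    have h5 := huat v b hb
    have h6 : v.At (algebraMap QQ L (e * (e - 1) / (b + (e - 1))) / u)
        (e * (e - 1) / (b + (e - 1)) / (b + (e - 1))) := (Place.at_const _).div h5 h2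
    have h7 : e * (e - 1) / (b + (e - 1)) / (b + (e - 1)) ≠ 0 :=
      div_ne_zero (div_ne_zero (mul_ne_zero he0 he1') h2) h2
    have h8 := unif_mul h4 h6 h7
    convert h8 using 1
    have h9 : algebraMap QQ L c = E * algebraMap QQ L b / (algebraMap QQ L b + (E - 1)) := by
      have h10 : c = e * b / (b + (e - 1)) := by
        rw [eq_div_iff h2, h3]
      rw [h10, map_div₀, map_mul, map_add, hE1]
    have h11 : algebraMap QQ L b + (E - 1) ≠ 0 := by
      rw [← hE1, ← map_add]
      exact (_root_.map_ne_zero _).2 h2
    rw [h9, hx, map_div₀, map_mul, map_add, hE1]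
    have h12 : u = y + (E - 1) := by rw [hu, hE1]
    field_simp
    rw [h12]
    ring

end

end Pool.Agent.Dess
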