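import Pool.Agent.Dess.Unram
import Pool.Agent.Dess.Alg
import Pool.Agent.Dess.Func

/-!
# Galois coverings of the projective line which are unramified outside three points
-/

set_option autoImplicit false

noncomputable section

namespace Pool.Agent.Dess

open Pool.Agent.ZCyc Polynomial IntermediateField
open scoped Classical

variable {Om : Type} [Field Om] [Algebra QQ Om] {tt : Om}

/-- the subfield generated by an element of an intermediate field -/
private def closure_equiv (F : IntermediateField QQ Om) (h : tt ∈ F) :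
    adjoin QQ {(⟨tt, h⟩ : F)} ≃ₐ[QQ] adjoin QQ {tt} :=
  (liftAlgEquiv _).trans (equivOfEq (lift_adjoin_simple QQ F (⟨tt, h⟩ : F)))

private lemma closure_equiv_coe (F : IntermediateField QQ Om) (h : tt ∈ F)
    (y : adjoin QQ {(⟨tt, h⟩ : F)}) :
    ((closure_equiv F h y : adjoin QQ {tt}) : Om) = ((y : F) : Om) := rfl

theorem exists_closure (hΩ : IsAlgFun tt) (F : IntermediateField QQ Om) (hF : Belyi tt F) :
    ∃ F' : IntermediateField QQ Om, F ≤ F' ∧ Belyi tt F' ∧
      ∀ g : Om ≃ₐ[QQ] Om, g tt = tt → ∀ f ∈ F', g f ∈ F' := by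
  have hclosed := hΩ.closed
  let E : IntermediateField QQ Om := adjoin QQ {tt}
  have hEF : E ≤ F := adjoin_simple_le_iff.2 hF.mem
  let F₁ : IntermediateField E Om := extendScalars hEF
  have ht : Transcendental QQ (⟨tt, hF.mem⟩ : F) := by
    intro h
    apply hΩ.transc
    exact (isAlgebraic_algebraMap_iff (algebraMap F Om).injective).2 h
  have hfin := fin_adjoin hF.curve ht
  have hF₁ : FiniteDimensional E F₁ := by
    refine Module.Finite.of_equiv_equiv (A₁ := adjoin QQ {(⟨tt, hF.mem⟩ : F)}) (B₁ := F)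
      (closure_equiv F hF.mem).toRingEquiv (B₂ := F₁) (RingEquiv.refl F) ?_
    rfl
  have hEalg : Algebra.IsAlgebraic E Om := hΩ.alg
  have hEn : Normal E Om := by
    have : IsAlgClosure E Om := ⟨inferInstance, hEalg⟩
    exact IsAlgClosure.normal E Om
  let N : IntermediateField E Om := normalClosure E F₁ Om
  have hNn : Normal E N := inferInstance
  have hNf : FiniteDimensional E N := inferInstance
  have hNg : IsGalois E N := ⟨⟩
  let M : IntermediateField QQ Om := N.restrictScalars QQ
  have hEM : E ≤ M := by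
    intro y hy
    exact N.algebraMap_mem ⟨y, hy⟩
  have htM : tt ∈ M := hEM (mem_adjoin_simple_self QQ tt)
  have hφN : ∀ (φ : F₁ →ₐ[E] Om) (y : F₁), φ y ∈ N := fun φ y =>
    φ.fieldRange_le_normalClosure ⟨y, rfl⟩
  have hFM : F ≤ M := by
    intro y hy
    exact hφN F₁.val ⟨y, hy⟩
  let t : M := ⟨tt, htM⟩
  have htM' : Transcendental QQ t := by
    intro h
    apply hΩ.transc
    exact (isAlgebraic_algebraMap_iff (algebraMap M Om).injective).2 h
  have hMf : FiniteDimensional (adjoin QQ {t}) M := by
    refine Module.Finite.of_equiv_equiv (A₁ := E) (B₁ := N)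
      (closure_equiv M htM).symm.toRingEquiv (B₂ := M) (RingEquiv.refl N) ?_
    ext y
    have h1 := closure_equiv_coe M htM ((closure_equiv M htM).symm y)
    rw [AlgEquiv.apply_symm_apply] at h1
    exact h1.symm
  have hMg : IsGalois (adjoin QQ {t}) M := by
    refine IsGalois.of_equiv_equiv (F := E) (E := N)
      (f := (closure_equiv M htM).symm.toRingEquiv) (g := RingEquiv.refl N) ?_
    ext y
    have h1 := closure_equiv_coe M htM ((closure_equiv M htM).symm y)
    rw [AlgEquiv.apply_symm_apply] at h1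
    exact h1.symm
  refine ⟨M, hFM, ⟨⟨t, htM', hMf⟩, htM, ?_⟩, ?_⟩
  · intro v c hv hc0 hc1
    refine unram_closure htM' hF.curve (x := (⟨tt, hF.mem⟩ : F))
      (fun u hu => hF.unram u c hu hc0 hc1) ?_ v hv
    intro σ hσ
    -- the fixed field
    let T₀ : IntermediateField QQ M :=
      { carrier := {y | σ y = y}
        mul_mem' := by
          intro a b ha hb
          rw [Set.mem_ofPred_eq] at *
          rw [map_mul, ha, hb]
        add_mem' := by
          intro a b ha hb
          rw [Set.mem_ofPred_eq] at *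
          rw [map_add, ha, hb]
        algebraMap_mem' := fun c => σ.commutes c
        inv_mem' := by
          intro a ha
          change σ a = a at ha
          change σ a⁻¹ = a⁻¹
          rw [map_inv₀, ha] }
    have hφ : ∀ φ : F₁ →ₐ[E] Om, ∀ y : F₁, (⟨φ y, hφN φ y⟩ : M) ∈ T₀ := by
      intro φ y
      let φM : F →ₐ[QQ] M :=
        { toFun := fun y => ⟨φ ⟨y.1, y.2⟩, hφN φ _⟩
          map_one' := Subtype.ext (map_one φ)
          map_mul' := fun a b => Subtype.ext (map_mul φ ⟨a.1, a.2⟩ ⟨b.1, b.2⟩)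
          map_zero' := Subtype.ext (map_zero φ)
          map_add' := fun a b => Subtype.ext (map_add φ ⟨a.1, a.2⟩ ⟨b.1, b.2⟩)
          commutes' := fun c => Subtype.ext (φ.commutes (algebraMap QQ E c)) }
      refine hσ φM ?_ ⟨y.1, y.2⟩
      apply Subtype.ext
      exact φ.commutes ⟨tt, mem_adjoin_simple_self QQ tt⟩
    have htT : t ∈ T₀ := hφ F₁.val ⟨tt, hF.mem⟩
    have hET : E ≤ lift T₀ := by
      change adjoin QQ {tt} ≤ _
      rw [adjoin_simple_le_iff]
      exact (mem_lift t).2 htT
    have hNT : N ≤ extendScalars hET := by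
      refine normalClosure_le_iff.2 fun φ => ?_
      rintro _ ⟨y, rfl⟩
      exact (mem_lift (⟨φ y, hφN φ y⟩ : M)).2 (hφ φ y)
    intro f
    exact (mem_lift f).1 (hNT f.2)
  · intro g hg f hf
    have hgE : ∀ y : E, g (y : Om) = y := by
      rintro ⟨y, hy⟩
      obtain ⟨r, s, rfl⟩ := (mem_adjoin_simple_iff QQ y).1 hy
      change g (aeval tt r / aeval tt s) = aeval tt r / aeval tt s
      rw [map_div₀, ← aeval_algHom_apply g, ← aeval_algHom_apply g, hg]
    let g' : Om ≃ₐ[E] Om := AlgEquiv.ofRingEquiv (f := g.toRingEquiv) hgE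
    have h1 := (normal_iff_forall_map_le' (K := N)).1 hNn g'
    exact h1 ⟨f, hf, rfl⟩

end Pool.Agent.Dess
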