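import Pool.Agent.Dess.Defs

/-!
# Places of a function field of one variable and primes of a Dedekind ring
-/

set_option autoImplicit false

noncomputable section

namespace Pool.Agent.Dess

open Pool.Agent.ZCyc Polynomial
open scoped Classical

section Places

variable {k F : Type} [Field k] [IsAlgClosed k] [CharZero k] [Field F] [Algebra k F]

theorem fin_adjoin (hF : IsCurve k F) {x : F} (hx : Transcendental k x) :
    FiniteDimensional (IntermediateField.adjoin k {x}) F := by
  obtain ⟨t, ht, hfin⟩ := hF
  have hbasis : ∀ y : F, Transcendental k y → AlgebraicIndependent k (fun _ : Unit => y) := by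
    intro y hy
    rw [algebraicIndependent_unique_type_iff]
    exact hy
  have h2 : IsTranscendenceBasis k (fun _ : Unit => t) := by
    rw [(hbasis t ht).isTranscendenceBasis_iff_isAlgebraic, Set.range_const,
      ← IntermediateField.isAlgebraic_adjoin_iff_top]
    infer_instance
  have h3 : Algebra.trdeg k F = 1 := by
    rw [← h2.cardinalMk_eq_trdeg]
    simp
  have h5 : IsTranscendenceBasis k (fun _ : Unit => x) :=
    (hbasis x hx).isTranscendenceBasis_of_trdeg_le_of_finite (by rw [h3]; simp)
  have h6 : Algebra.IsAlgebraic (IntermediateField.adjoin k {x}) F := by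
    rw [(hbasis x hx).isTranscendenceBasis_iff_isAlgebraic, Set.range_const,
      ← IntermediateField.isAlgebraic_adjoin_iff_top] at h5
    exact h5
  have h7 : Algebra.EssFiniteType k (IntermediateField.adjoin k {t}) := by
    rw [IntermediateField.essFiniteType_iff]
    exact ⟨{t}, by simp⟩
  have h8 : Algebra.EssFiniteType k F :=
    Algebra.EssFiniteType.comp k (IntermediateField.adjoin k {t}) F
  have h9 : Algebra.EssFiniteType (IntermediateField.adjoin k {x}) F :=
    Algebra.EssFiniteType.of_comp k (IntermediateField.adjoin k {x}) F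
  exact Algebra.finite_of_essFiniteType_of_isAlgebraic

theorem exists_at (hF : IsCurve k F) (v : Place k F) {f : F} (hf : f ∈ v.ring) :
    ∃ c, v.At f c := by
  by_cases halg : IsAlgebraic k f
  · obtain ⟨c, hc⟩ := minpoly.mem_range_of_degree_eq_one k f
      (IsAlgClosed.degree_eq_one_of_irreducible k (minpoly.irreducible halg.isIntegral))
    exact ⟨c, by rw [← hc]; exact Place.at_const c⟩
  by_contra hcon
  push Not at hcon
  have hfin := fin_adjoin hF halg
  -- nonzero polynomials in `f` do not vanish at `v`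
  have h1 : ∀ p : k[X], p ≠ 0 → ¬ v.Vanishes (aeval f p) := by
    intro p hp hv
    have hs := (IsAlgClosed.splits p).eq_prod_roots
    rw [hs, _root_.map_mul, aeval_C] at hv
    have h2 : v.Vanishes (aeval f (Multiset.map (fun α => X - C α) p.roots).prod) := by
      have h3 := Place.Vanishes.mul' v hv (v.const_mem (p.leadingCoeff)⁻¹)
      rw [map_inv₀, inv_mul_cancel_left₀ (by simpa using hp)] at h3
      exact h3
    have h4 : ∀ s : Multiset k, ¬ v.Vanishes (aeval f (Multiset.map (fun α => X - C α) s).prod) := by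
      intro s
      induction s using Multiset.induction_on with
      | empty =>
        intro h5
        have := v.const_unit (one_ne_zero (α := k))
        apply this
        simpa using h5
      | cons b s ih =>
        intro h5
        rw [Multiset.map_cons, Multiset.prod_cons, _root_.map_mul, v.vanishes_iff,
          _root_.map_mul] at h5
        have h6 := hcon b
        rw [Place.At, v.vanishes_iff, not_lt] at h6
        rw [v.vanishes_iff, not_lt] at ih
        have h7 : aeval f (X - C b) = f - algebraMap k F b := by simp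
        rw [h7] at h5
        exact absurd h5 (not_lt.2 (one_le_mul h6 ih))
    exact h4 _ h2
  -- `k(f)` is contained in the ring
  have h2 : ∀ z ∈ IntermediateField.adjoin k {f}, z ∈ v.ring := by
    intro z hz
    rw [IntermediateField.mem_adjoin_simple_iff] at hz
    obtain ⟨r, s, rfl⟩ := hz
    have hr : ∀ p : k[X], aeval f p ∈ v.ring := by
      intro p
      rw [aeval_eq_sum_range]
      apply sum_mem
      intro i _
      rw [Algebra.smul_def]
      exact mul_mem (v.const_mem _) (pow_mem hf i)
    rw [div_eq_mul_inv]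
    apply mul_mem (hr r)
    by_cases hs : s = 0
    · rw [hs, map_zero, inv_zero]
      exact zero_mem _
    · have h3 := h1 s hs
      rw [v.vanishes_iff_or] at h3
      push Not at h3
      exact h3.2
  -- the ring is integrally closed
  apply v.ne_top
  rw [eq_top_iff]
  intro z _
  have hz : IsIntegral (IntermediateField.adjoin k {f}) z := Algebra.IsIntegral.isIntegral z
  obtain ⟨p, hp, hp'⟩ := hz
  let j : IntermediateField.adjoin k {f} →+* v.ring :=
    { toFun := fun w => ⟨w.1, h2 w.1 w.2⟩
      map_one' := rfl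
      map_mul' := fun _ _ => rfl
      map_zero' := rfl
      map_add' := fun _ _ => rfl }
  have hz' : IsIntegral v.ring z := by
    refine ⟨p.map j, hp.map j, ?_⟩
    rw [eval₂_map]
    exact hp'
  obtain ⟨w, hw⟩ := (IsIntegrallyClosed.isIntegral_iff (R := v.ring) (K := F)).1 hz'
  rw [← hw]
  exact w.2

/-- an integral element is regular wherever `w` is -/
theorem int_mem {w b : F} (v : Place k F) (hw : w ∈ v.ring)
    (hb : IsIntegral (Algebra.adjoin k {w}) b) : b ∈ v.ring := by
  have h1 : ∀ a ∈ Algebra.adjoin k {w}, a ∈ v.ring := by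
    intro a ha
    rw [Algebra.adjoin_singleton_eq_range_aeval] at ha
    obtain ⟨p, rfl⟩ := ha
    change aeval w p ∈ v.ring
    rw [aeval_eq_sum_range]
    apply sum_mem
    intro i _
    rw [Algebra.smul_def]
    exact mul_mem (v.const_mem _) (pow_mem hw i)
  let j : Algebra.adjoin k {w} →+* v.ring :=
    { toFun := fun a => ⟨a.1, h1 a.1 a.2⟩
      map_one' := rfl
      map_mul' := fun _ _ => rfl
      map_zero' := rfl
      map_add' := fun _ _ => rfl }
  obtain ⟨p, hp, hp'⟩ := hb
  have hz' : IsIntegral v.ring b := by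
    refine ⟨p.map j, hp.map j, ?_⟩
    rw [eval₂_map]
    exact hp'
  obtain ⟨y, hy⟩ := (IsIntegrallyClosed.isIntegral_iff (R := v.ring) (K := F)).1 hz'
  rw [← hy]
  exact y.2

section Dede

open scoped IntermediateField.algebraAdjoinAdjoin
open IsDedekindDomain

private theorem dede_pid (w : F) : IsPrincipalIdealRing (Algebra.adjoin k {w}) := by
  let f : k[X] →ₐ[k] Algebra.adjoin k {w} :=
    aeval (⟨w, Algebra.self_mem_adjoin_singleton k w⟩ : Algebra.adjoin k {w})
  apply IsPrincipalIdealRing.of_surjective f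
  rintro ⟨g, hg⟩
  have hg' := hg
  rw [Algebra.adjoin_singleton_eq_range_aeval] at hg'
  obtain ⟨p, hp⟩ := hg'
  refine ⟨p, Subtype.ext ?_⟩
  change (Algebra.adjoin k {w}).val (aeval _ p) = g
  rw [← aeval_algHom_apply]
  exact hp

private theorem dede_dom (hF : IsCurve k F) {w : F} (hw : Transcendental k w) :
    IsDedekindDomain (integralClosure (Algebra.adjoin k {w}) F) ∧
      IsFractionRing (integralClosure (Algebra.adjoin k {w}) F) F := by
  have h1 := fin_adjoin hF hw
  have h2 := dede_pid (k := k) w
  have h3 : CharZero (IntermediateField.adjoin k {w}) :=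
    charZero_of_injective_algebraMap (algebraMap k (IntermediateField.adjoin k {w})).injective
  exact ⟨integralClosure.isDedekindDomain (Algebra.adjoin k {w})
      (IntermediateField.adjoin k {w}) F,
    integralClosure.isFractionRing_of_finite_extension (IntermediateField.adjoin k {w}) F⟩

/-- the center of a place -/
private theorem dede_center {w : F} (v : Place k F)
    (hv : w ∈ v.ring) [IsDedekindDomain (integralClosure (Algebra.adjoin k {w}) F)]
    [IsFractionRing (integralClosure (Algebra.adjoin k {w}) F) F] :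
    ∃ P : HeightOneSpectrum (integralClosure (Algebra.adjoin k {w}) F),
      (∀ b, b ∈ P.asIdeal ↔ v.Vanishes (b : F)) ∧
        HeightOneSpectrum.valuationSubringAtPrime F P = v.ring := by
  let j : integralClosure (Algebra.adjoin k {w}) F →+* v.ring :=
    { toFun := fun a => ⟨a.1, int_mem v hv a.2⟩
      map_one' := rfl
      map_mul' := fun _ _ => rfl
      map_zero' := rfl
      map_add' := fun _ _ => rfl }
  let I : Ideal (integralClosure (Algebra.adjoin k {w}) F) :=
    (IsLocalRing.maximalIdeal v.ring).comap j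
  have hI : ∀ b, b ∈ I ↔ v.Vanishes (b : F) := by
    intro b
    rw [Ideal.mem_comap, ← ValuationSubring.coe_mem_nonunits_iff]
    rfl
  have hprime : I.IsPrime := Ideal.IsPrime.comap j
  have hne : I ≠ ⊥ := by
    intro h
    apply v.ne_top
    rw [eq_top_iff]
    intro z _
    obtain ⟨⟨a, b⟩, hab⟩ := IsLocalization.surj
      (nonZeroDivisors (integralClosure (Algebra.adjoin k {w}) F)) z
    have hb : (b : integralClosure (Algebra.adjoin k {w}) F) ≠ 0 := nonZeroDivisors.coe_ne_zero b
    have hb1 : ¬ v.Vanishes ((b : integralClosure (Algebra.adjoin k {w}) F) : F) := by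
      rw [← hI, h, Ideal.mem_bot]
      exact hb
    rw [v.vanishes_iff_or] at hb1
    push Not at hb1
    have h1 : z = (a : F) * ((b : integralClosure (Algebra.adjoin k {w}) F) : F)⁻¹ := by
      rw [eq_mul_inv_iff_mul_eq₀ hb1.1]
      exact hab
    rw [h1]
    exact mul_mem (int_mem v hv a.2) hb1.2
  refine ⟨⟨I, hprime, hne⟩, hI, ?_⟩
  apply ValuationSubring.eq_of_le_of_ne_top _ _ v.ne_top
  rintro x ⟨a, s, hs, rfl⟩
  have hs1 : ¬ v.Vanishes (s : F) := by
    rw [← hI]
    exact hs
  rw [v.vanishes_iff_or] at hs1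
  push Not at hs1
  exact mul_mem (int_mem v hv a.2) hs1.2

/-- the valuation of a place -/
private theorem dede_val {w : F} (v : Place k F)
    (hv : w ∈ v.ring) [IsDedekindDomain (integralClosure (Algebra.adjoin k {w}) F)]
    [IsFractionRing (integralClosure (Algebra.adjoin k {w}) F) F] :
    ∃ P : HeightOneSpectrum (integralClosure (Algebra.adjoin k {w}) F),
      (∀ b, b ∈ P.asIdeal ↔ v.Vanishes (b : F)) ∧ (∀ f, f ∈ v.ring ↔ P.valuation F f ≤ 1) ∧
      ∀ f, v.Vanishes f ↔ P.valuation F f < 1 := by
  obtain ⟨P, hP, hv'⟩ := dede_center v hv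
  rw [HeightOneSpectrum.valuationSubringAtPrime_eq_valuationSubring] at hv'
  have h1 : ∀ f, f ∈ v.ring ↔ P.valuation F f ≤ 1 := by
    intro f
    rw [← hv', Valuation.mem_valuationSubring_iff]
  refine ⟨P, hP, h1, fun f => ?_⟩
  rw [v.vanishes_iff_or, h1]
  by_cases hf : f = 0
  · simp [hf]
  · have h2 : P.valuation F f ≠ 0 := (Valuation.ne_zero_iff _).2 hf
    rw [map_inv₀, not_le, or_iff_right hf, one_lt_inv₀ (zero_lt_iff.2 h2)]

end Dede

/-- a transcendental function which is regular at `v` -/
private theorem dede_exists_regular (hF : IsCurve k F) (v : Place k F) :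
    ∃ w : F, Transcendental k w ∧ w ∈ v.ring := by
  obtain ⟨t, ht, -⟩ := hF
  rcases v.ring.mem_or_inv_mem t with h | h
  · exact ⟨t, ht, h⟩
  · refine ⟨t⁻¹, ?_, h⟩
    intro h1
    apply ht
    simpa using h1.inv

/-- the local ring of a place is the localization of the integral closure -/
theorem exists_frac (hF : IsCurve k F) {w : F} (hw : Transcendental k w) (v : Place k F)
    (hv : w ∈ v.ring) {f : F} (hf : f ∈ v.ring) :
    ∃ b s : F, IsIntegral (Algebra.adjoin k {w}) b ∧ IsIntegral (Algebra.adjoin k {w}) s ∧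
      ¬ v.Vanishes s ∧ f = b / s := by
  obtain ⟨_, _⟩ := dede_dom hF hw
  obtain ⟨P, hP, h1, h2⟩ := dede_val v hv
  obtain ⟨n, d, h3⟩ := P.exists_primeCompl_mul_eq_of_integer f ((h1 f).1 hf)
  have h4 : ¬ v.Vanishes ((d : integralClosure (Algebra.adjoin k {w}) F) : F) := by
    rw [← hP]
    exact d.2
  have h5 : ((d : integralClosure (Algebra.adjoin k {w}) F) : F) ≠ 0 := by
    intro h
    rw [h] at h4
    exact h4 v.vanishes_zero
  refine ⟨n, (d : integralClosure (Algebra.adjoin k {w}) F), n.2, Subtype.prop _, h4, ?_⟩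
  rw [eq_div_iff h5]
  exact h3

private theorem dede_le_exp {x : WithZero (Multiplicative ℤ)} (hx : x < 1) :
    x ≤ WithZero.exp (-1 : ℤ) := by
  by_cases h0 : x = 0
  · rw [h0]
    exact zero_le
  · apply WithZero.le_exp_of_log_le
    have h1 : WithZero.log x < 0 := by
      rw [WithZero.log_lt_iff_lt_exp h0, WithZero.exp_zero]
      exact hx
    omega

private theorem dede_unif {v : Place k F} {Γ : Valuation F (WithZero (Multiplicative ℤ))}
    (h1 : ∀ f, f ∈ v.ring ↔ Γ f ≤ 1) (h2 : ∀ f, v.Vanishes f ↔ Γ f < 1) {π : F}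
    (hπ : Γ π = WithZero.exp (-1 : ℤ)) : IsUnif v π := by
  refine ⟨?_, ?_, ?_⟩
  · rintro rfl
    rw [map_zero] at hπ
    exact WithZero.exp_ne_zero hπ.symm
  · rw [h2, hπ, ← WithZero.exp_zero, WithZero.exp_lt_exp]
    norm_num
  · intro g hg
    rw [h2] at hg
    rw [h1, map_div₀, hπ]
    exact div_le_one_of_le₀ (dede_le_exp hg) zero_le

private theorem dede_unif_iff {v : Place k F} {Γ : Valuation F (WithZero (Multiplicative ℤ))}
    (h1 : ∀ f, f ∈ v.ring ↔ Γ f ≤ 1) (h2 : ∀ f, v.Vanishes f ↔ Γ f < 1)
    (h3 : ∃ ϖ, Γ ϖ = WithZero.exp (-1 : ℤ)) {π : F} (hπ : IsUnif v π) :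
    Γ π = WithZero.exp (-1 : ℤ) := by
  obtain ⟨ϖ, hϖ⟩ := h3
  apply le_antisymm (dede_le_exp ((h2 π).1 hπ.2.1))
  have h4 := (h1 _).1 (hπ.2.2 ϖ (dede_unif h1 h2 hϖ).2.1)
  have h5 : Γ π ≠ 0 := (Valuation.ne_zero_iff _).2 hπ.1
  rw [map_div₀, hϖ] at h4
  exact (div_le_one₀ (zero_lt_iff.2 h5)).1 h4

theorem exists_unif (hF : IsCurve k F) (v : Place k F) : ∃ π, IsUnif v π := by
  obtain ⟨w, hw, hv⟩ := dede_exists_regular hF v
  obtain ⟨_, _⟩ := dede_dom hF hw
  obtain ⟨P, hP, h1, h2⟩ := dede_val v hv
  obtain ⟨π, hπ⟩ := P.valuation_exists_uniformizer F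
  exact ⟨π, dede_unif h1 h2 hπ⟩

theorem exists_ord (hF : IsCurve k F) (v : Place k F) {π : F} (hπ : IsUnif v π) {f : F}
    (hf : f ≠ 0) : ∃ n : ℤ, f / π ^ n ∈ v.ring ∧ (f / π ^ n)⁻¹ ∈ v.ring := by
  obtain ⟨w, hw, hv⟩ := dede_exists_regular hF v
  obtain ⟨_, _⟩ := dede_dom hF hw
  obtain ⟨P, hP, h1, h2⟩ := dede_val v hv
  have h3 := dede_unif_iff h1 h2 (P.valuation_exists_uniformizer F) hπ
  have h4 : P.valuation F f ≠ 0 := (Valuation.ne_zero_iff _).2 hf
  refine ⟨-WithZero.log (P.valuation F f), ?_⟩
  have h5 : P.valuation F (f / π ^ (-WithZero.log (P.valuation F f))) = 1 := by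
    rw [map_div₀, map_zpow₀, h3, ← WithZero.exp_zsmul]
    simp only [smul_eq_mul, mul_neg, mul_one, neg_neg]
    rw [WithZero.exp_log h4, div_self h4]
  rw [h1, h1, map_inv₀, h5]
  simp

theorem place_le (hF : IsCurve k F) {v w : Place k F} (h : v.ring ≤ w.ring) : v = w := by
  obtain ⟨x, hx, hv⟩ := dede_exists_regular hF v
  obtain ⟨_, _⟩ := dede_dom hF hx
  obtain ⟨P, hP, hv'⟩ := dede_center v hv
  rw [← hv'] at h
  apply Place.ext
  rw [← hv']
  exact ValuationSubring.eq_of_le_of_ne_top _ h w.ne_top

theorem finite_at (hF : IsCurve k F) {x : F} (hx : Transcendental k x) (c : k) :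
    {v : Place k F | v.At x c}.Finite := by
  obtain ⟨_, _⟩ := dede_dom hF hx
  have hmem : ∀ v : Place k F, v.At x c → x ∈ v.ring := fun v hv => hv.mem
  have hxc : IsIntegral (Algebra.adjoin k {x}) (x - algebraMap k F c) := by
    have h1 : x - algebraMap k F c ∈ Algebra.adjoin k {x} :=
      sub_mem (Algebra.self_mem_adjoin_singleton k x) (Subalgebra.algebraMap_mem _ c)
    exact isIntegral_algebraMap (R := Algebra.adjoin k {x}) (A := F) (x := ⟨_, h1⟩)
  let b : integralClosure (Algebra.adjoin k {x}) F := ⟨x - algebraMap k F c, hxc⟩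
  have hb : b ≠ 0 := by
    intro h
    have h1 : x - algebraMap k F c = 0 := congrArg Subtype.val h
    apply hx
    rw [sub_eq_zero.1 h1]
    exact isAlgebraic_algebraMap c
  have hfin := Ideal.finite_factors (R := integralClosure (Algebra.adjoin k {x}) F)
    (I := Ideal.span {b}) (by simpa using hb)
  -- the center determines the place
  let Φ : Place k F → Option (IsDedekindDomain.HeightOneSpectrum
      (integralClosure (Algebra.adjoin k {x}) F)) := fun v =>
    if hv : v.At x c then some (dede_center v hv.mem).choose else none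
  have hΦ : ∀ v (hv : v.At x c), Φ v = some (dede_center v hv.mem).choose := by
    intro v hv
    exact dif_pos hv
  apply Set.Finite.of_finite_image (f := Φ)
  · apply (hfin.image some).subset
    rintro _ ⟨v, hv, rfl⟩
    have hv' : v.At x c := hv
    rw [hΦ v hv']
    exact ⟨_, Ideal.dvd_span_singleton.2 (((dede_center v hv'.mem).choose_spec.1 b).2 hv'), rfl⟩
  · intro v hv w hw hvw
    have hv' : v.At x c := hv
    have hw' : w.At x c := hw
    rw [hΦ v hv', hΦ w hw', Option.some_inj] at hvw
    apply Place.ext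
    rw [← (dede_center v hv'.mem).choose_spec.2, ← (dede_center w hw'.mem).choose_spec.2, hvw]

theorem finite_pole (hF : IsCurve k F) {x : F} (hx : Transcendental k x) :
    {v : Place k F | x ∉ v.ring}.Finite := by
  have hx' : Transcendental k x⁻¹ := by
    intro h
    apply hx
    simpa using h.inv
  apply (finite_at hF hx' 0).subset
  intro v hv
  have hv' : x ∉ v.ring := hv
  change v.At x⁻¹ 0
  rw [Place.at_zero_iff, v.vanishes_iff_or, inv_inv]
  exact Or.inr hv'

/-- every place where `w` is regular comes from a maximal ideal of the integral closure of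
`k[w]`, and conversely; here: a function which is regular at all places where `w` is regular is
integral over `k[w]` -/
theorem int_of_regular (hF : IsCurve k F) {w : F} (hw : Transcendental k w) {f : F}
    (hf : ∀ v : Place k F, w ∈ v.ring → f ∈ v.ring) : IsIntegral (Algebra.adjoin k {w}) f := by
  obtain ⟨_, _⟩ := dede_dom hF hw
  have hint : ∀ a ∈ Algebra.adjoin k {w}, IsIntegral (Algebra.adjoin k {w}) a := fun a ha =>
    isIntegral_algebraMap (R := Algebra.adjoin k {w}) (A := F) (x := ⟨a, ha⟩)
  have h1 : ∀ P : IsDedekindDomain.HeightOneSpectrum (integralClosure (Algebra.adjoin k {w}) F),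
      P.valuation F f ≤ 1 := by
    intro P
    have h2 : ∀ a ∈ Algebra.adjoin k {w}, P.valuation F a ≤ 1 := fun a ha =>
      P.valuation_le_one (K := F) (⟨a, hint a ha⟩ : integralClosure (Algebra.adjoin k {w}) F)
    have h3 := hf ⟨(P.valuation F).valuationSubring, fun c => by
      rw [Valuation.mem_valuationSubring_iff]
      exact h2 _ (Subalgebra.algebraMap_mem _ c), by
      rw [ne_eq, Valuation.valuationSubring_eq_top_iff, not_not]
      infer_instance⟩ (by
      rw [Valuation.mem_valuationSubring_iff]
      exact h2 _ (Algebra.self_mem_adjoin_singleton k w))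
    rwa [Valuation.mem_valuationSubring_iff] at h3
  obtain ⟨b, hb⟩ := IsDedekindDomain.HeightOneSpectrum.mem_integers_of_valuation_le_one F f h1
  rw [← hb]
  exact b.2

end Places

end Pool.Agent.Dess
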