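import Pool.Agent.Dess.Abhy
import Pool.Agent.Dess.Closure

/-!
# Every covering of the projective line unramified outside three points is dominated by an étale
covering of a Fermat curve
-/

set_option autoImplicit false

noncomputable section

namespace Pool.Agent.Dess

open Pool.Agent.ZCyc Polynomial IntermediateField
open scoped Classical

section aux

variable {k K : Type} [Field k] [IsAlgClosed k] [CharZero k] [Field K] [Algebra k K]

omit [CharZero k] in
/-- Roots of unity are constants. -/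
private lemma fermat_const {z : K} {n : ℕ} (hn : 0 < n) (hz : z ^ n = 1) :
    ∃ ζ : k, z = algebraMap k K ζ := by
  have hint : IsIntegral k z := by
    refine IsIntegral.of_pow hn ?_
    rw [hz]
    exact isIntegral_one
  obtain ⟨c, hc⟩ := minpoly.mem_range_of_degree_eq_one k z
    (IsAlgClosed.degree_eq_one_of_irreducible k (minpoly.irreducible hint))
  exact ⟨c, hc.symm⟩

/-- The values of roots. -/
private lemma fermat_root (hK : IsCurve k K) (V : Place k K) {f : K} {n : ℕ} (hn : 0 < n) {b : k}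
    (h : V.At (f ^ n) b) : ∃ c, V.At f c ∧ c ^ n = b := by
  have hf : f ∈ V.ring := by
    by_contra hcon
    have h1 : V.Vanishes f⁻¹ := by
      rw [V.vanishes_iff_or, inv_inv]
      exact Or.inr hcon
    have h2 : V.Vanishes (f⁻¹ ^ n) := Place.Vanishes.pow V h1 hn.ne'
    have h3 := Place.Vanishes.mul V h2 h.mem
    have hf0 : f ≠ 0 := by
      rintro rfl
      exact hcon (zero_mem _)
    have h4 : f⁻¹ ^ n * f ^ n = algebraMap k K 1 := by
      rw [map_one, ← mul_pow, inv_mul_cancel₀ hf0, one_pow]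
    rw [h4] at h3
    exact V.const_unit one_ne_zero h3
  obtain ⟨c, hc⟩ := exists_at hK V hf
  exact ⟨c, hc, (hc.pow n).unique h⟩

/-- The orders of a function at its zeros. -/
private lemma fermat_ord (hK : IsCurve k K) {s : K} (hs : Transcendental k s) :
    ∃ n : ℕ, 0 < n ∧ ∀ v : Place k K, v.Vanishes s → ∃ (π : K) (e : ℕ), IsUnif v π ∧ e ∣ n ∧
      s / π ^ e ∈ v.ring ∧ (s / π ^ e)⁻¹ ∈ v.ring := by
  have hs0 : s ≠ 0 := by
    rintro rfl
    exact hs isAlgebraic_zero
  have hfin : {v : Place k K | v.At s 0}.Finite := finite_at hK hs 0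
  have key : ∀ v : Place k K, v.Vanishes s → ∃ (π : K) (e : ℕ), 0 < e ∧ IsUnif v π ∧
      s / π ^ e ∈ v.ring ∧ (s / π ^ e)⁻¹ ∈ v.ring := by
    intro v hv
    obtain ⟨π, hπ⟩ := exists_unif hK v
    obtain ⟨m, h1, h2⟩ := exists_ord hK v hπ hs0
    have hm : 0 < m := by
      by_contra hcon
      push Not at hcon
      have h3 : s / π ^ m = s * π ^ (-m).toNat := by
        rw [← zpow_natCast, Int.toNat_of_nonneg (by omega), zpow_neg, div_eq_mul_inv]
      have h4 : v.Vanishes (s / π ^ m) := by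
        rw [h3]
        exact Place.Vanishes.mul v hv (pow_mem (Place.Vanishes.mem v hπ.2.1) _)
      have h5 := Place.Vanishes.mul v h4 h2
      rw [mul_inv_cancel₀ (div_ne_zero hs0 (zpow_ne_zero _ hπ.1))] at h5
      exact v.const_unit (one_ne_zero (α := k)) (by rwa [map_one])
    have h3 : π ^ m.toNat = π ^ m := by
      rw [← zpow_natCast, Int.toNat_of_nonneg hm.le]
    refine ⟨π, m.toNat, by omega, hπ, ?_, ?_⟩
    · rwa [h3]
    · rwa [h3]
  choose! π e he hπ h1 h2 using key
  exact ⟨∏ v ∈ hfin.toFinset, e v,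
    Finset.prod_pos fun v hv => he v (Place.at_zero_iff.1 (hfin.mem_toFinset.1 hv)),
    fun v hv => ⟨π v, e v, hπ v hv,
      Finset.dvd_prod_of_mem _ (hfin.mem_toFinset.2 (Place.at_zero_iff.2 hv)), h1 v hv, h2 v hv⟩⟩

omit [IsAlgClosed k] [CharZero k] in
private lemma fermat_map_mem (v : Place k K) (g : K ≃ₐ[k] K) (x : K) :
    g x ∈ (v.map g).ring ↔ x ∈ v.ring := by
  rw [Place.mem_map, AlgEquiv.symm_apply_apply]

omit [IsAlgClosed k] [CharZero k] in
/-- if `w` vanishes and is not a uniformizer, it is divisible by the square of a uniformizer -/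
private lemma fermat_sq {v : Place k K} {w π : K} (hw0 : w ≠ 0)
    (hw : v.Vanishes w) (hn : ¬ IsUnif v w) (hπ : IsUnif v π) : w / π ^ 2 ∈ v.ring := by
  have h1 := hπ.2.2 w hw
  have h2 : v.Vanishes (w / π) := by
    rw [v.vanishes_iff_or]
    right
    intro h3
    apply hn
    refine ⟨hw0, hw, fun g hg => ?_⟩
    have h4 := mul_mem (hπ.2.2 g hg) h3
    rw [inv_div] at h4
    have h5 : g / π * (π / w) = g / w := by
      have := hπ.1
      field_simp
    rwa [h5] at h4
  have h3 := hπ.2.2 _ h2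
  rw [div_div, ← sq] at h3
  exact h3

omit [IsAlgClosed k] [CharZero k] in
/-- Values are preserved by the stabilizer. -/
private lemma fermat_at {V : Place k K} {σ : K ≃ₐ[k] K} (hσ : V.map σ = V) {f : K} {c : k}
    (h : V.At f c) : V.At (σ f) c := by
  rw [← hσ, Place.at_map, AlgEquiv.symm_apply_apply]
  exact h

/-- An element of the stabilizer fixes the roots which are units. -/
private lemma fermat_stab (hK : IsCurve k K) {V : Place k K} {σ : K ≃ₐ[k] K}
    (hσ : V.map σ = V) {Z : K} {n : ℕ} (hn : 0 < n) (hZ : σ (Z ^ n) = Z ^ n) {b : k}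
    (h : V.At (Z ^ n) b) (hb : b ≠ 0) : σ Z = Z := by
  obtain ⟨c, hc, hcb⟩ := fermat_root hK V hn h
  have hc0 : c ≠ 0 := by
    rintro rfl
    rw [zero_pow hn.ne'] at hcb
    exact hb hcb.symm
  have hZ0 : Z ≠ 0 := by
    rintro rfl
    exact hc0 (hc.unique (by simpa using Place.at_const (v := V) (0 : k)))
  obtain ⟨ζ, hζ⟩ := fermat_const (k := k) (z := σ Z / Z) hn (by
    rw [div_pow, ← map_pow, hZ, div_self (pow_ne_zero _ hZ0)])
  have h1 : σ Z = algebraMap k K ζ * Z := by
    rw [← hζ, div_mul_cancel₀ _ hZ0]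
  have h2 := fermat_at hσ hc
  rw [h1] at h2
  have h3 : ζ * c = c := ((Place.at_const (v := V) ζ).mul hc).unique h2
  have h4 : ζ = 1 := mul_right_cancel₀ hc0 (by rw [h3, one_mul])
  rw [h1, h4, map_one, one_mul]

end aux

variable {Om : Type} [Field Om] [Algebra QQ Om] {tt : Om}

/-- the subfield generated by an element of an intermediate field -/
private def fermat_equiv (F : IntermediateField QQ Om) (h : tt ∈ F) :
    adjoin QQ {(⟨tt, h⟩ : F)} ≃ₐ[QQ] adjoin QQ {tt} :=
  (liftAlgEquiv _).trans (equivOfEq (lift_adjoin_simple QQ F (⟨tt, h⟩ : F)))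

private lemma fermat_equiv_coe (F : IntermediateField QQ Om) (h : tt ∈ F)
    (y : adjoin QQ {(⟨tt, h⟩ : F)}) :
    ((fermat_equiv F h y : adjoin QQ {tt}) : Om) = ((y : F) : Om) := rfl

/-- The rational functions are fixed. -/
private lemma fermat_fix {N : IntermediateField QQ Om} (htN : tt ∈ N) (τ : N →ₐ[QQ] Om)
    (hτ : τ ⟨tt, htN⟩ = tt) {e : Om} (he : e ∈ adjoin QQ {tt}) (heN : e ∈ N) :
    τ ⟨e, heN⟩ = e := by
  obtain ⟨r, s, rfl⟩ := (mem_adjoin_simple_iff QQ e).1 he
  have h1 : (⟨aeval tt r / aeval tt s, heN⟩ : N) =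
      aeval (⟨tt, htN⟩ : N) r / aeval (⟨tt, htN⟩ : N) s := by
    apply Subtype.ext
    change _ = N.val (aeval (⟨tt, htN⟩ : N) r / aeval (⟨tt, htN⟩ : N) s)
    rw [map_div₀, ← aeval_algHom_apply, ← aeval_algHom_apply]
    rfl
  rw [h1, map_div₀, ← aeval_algHom_apply, ← aeval_algHom_apply, hτ]

/-- A stable field is mapped into itself by its embeddings. -/
private lemma fermat_image (hΩ : IsAlgFun tt) {M : IntermediateField QQ Om} (htM : tt ∈ M)
    (hMg : ∀ g : Om ≃ₐ[QQ] Om, g tt = tt → ∀ f ∈ M, g f ∈ M) (ψ : M →ₐ[QQ] Om)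
    (hψ : ψ ⟨tt, htM⟩ = tt) (m : M) : ψ m ∈ M := by
  have hclosed := hΩ.closed
  let E : IntermediateField QQ Om := adjoin QQ {tt}
  have hEM : E ≤ M := adjoin_simple_le_iff.2 htM
  let M₁ : IntermediateField E Om := extendScalars hEM
  have hEalg : Algebra.IsAlgebraic E Om := hΩ.alg
  have hEn : Normal E Om := by
    have : IsAlgClosure E Om := ⟨inferInstance, hEalg⟩
    exact IsAlgClosure.normal E Om
  have hM₁n : Normal E M₁ := by
    rw [normal_iff_forall_map_le']
    rintro g _ ⟨f, hf, rfl⟩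
    exact hMg (g.restrictScalars QQ) (g.commutes ⟨tt, mem_adjoin_simple_self QQ tt⟩) f hf
  let ψ₁ : M₁ →ₐ[E] Om :=
    { toFun := fun y => ψ ⟨y.1, y.2⟩
      map_one' := map_one ψ
      map_mul' := fun a b => map_mul ψ ⟨a.1, a.2⟩ ⟨b.1, b.2⟩
      map_zero' := map_zero ψ
      map_add' := fun a b => map_add ψ ⟨a.1, a.2⟩ ⟨b.1, b.2⟩
      commutes' := fun c => fermat_fix htM ψ hψ c.2 (hEM c.2) }
  have h1 : ψ₁.fieldRange = M₁ := AlgHom.fieldRange_of_normal ψ₁
  have h2 : ψ₁ ⟨m.1, m.2⟩ ∈ ψ₁.fieldRange := ⟨_, rfl⟩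
  rw [h1] at h2
  exact h2

/-- Adjoining the roots. -/
private lemma fermat_field (hΩ : IsAlgFun tt) {M : IntermediateField QQ Om} (hM : Belyi tt M)
    (hMg : ∀ g : Om ≃ₐ[QQ] Om, g tt = tt → ∀ f ∈ M, g f ∈ M) {n : ℕ} (hn : 0 < n) {x y : Om}
    (hx : x ^ n = tt) (hy : y ^ n = 1 - tt) :
    ∃ N : IntermediateField QQ Om, M ≤ N ∧ x ∈ N ∧ y ∈ N ∧
      (∀ g : Om ≃ₐ[QQ] Om, g tt = tt → ∀ f ∈ N, g f ∈ N) ∧
      (∀ htN : tt ∈ N, FiniteDimensional (adjoin QQ {(⟨tt, htN⟩ : N)}) N ∧
        IsGalois (adjoin QQ {(⟨tt, htN⟩ : N)}) N) ∧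
      ∀ T : IntermediateField QQ Om, M ≤ T → x ∈ T → y ∈ T → N ≤ T := by
  have hclosed := hΩ.closed
  let E : IntermediateField QQ Om := adjoin QQ {tt}
  have hEM : E ≤ M := adjoin_simple_le_iff.2 hM.mem
  let M₁ : IntermediateField E Om := extendScalars hEM
  have ht : Transcendental QQ (⟨tt, hM.mem⟩ : M) := by
    intro h
    apply hΩ.transc
    exact (isAlgebraic_algebraMap_iff (algebraMap M Om).injective).2 h
  have hfin := fin_adjoin hM.curve ht
  have hM₁ : FiniteDimensional E M₁ := by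
    refine Module.Finite.of_equiv_equiv (A₁ := adjoin QQ {(⟨tt, hM.mem⟩ : M)}) (B₁ := M)
      (fermat_equiv M hM.mem).toRingEquiv (B₂ := M₁) (RingEquiv.refl M) ?_
    rfl
  have hEalg : Algebra.IsAlgebraic E Om := hΩ.alg
  have hEn : Normal E Om := by
    have : IsAlgClosure E Om := ⟨inferInstance, hEalg⟩
    exact IsAlgClosure.normal E Om
  let R₁ : IntermediateField E Om := adjoin E {x, y}
  have hR₁ : FiniteDimensional E R₁ :=
    finiteDimensional_adjoin fun z _ => (hEalg.isAlgebraic z).isIntegral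
  let N₁ : IntermediateField E Om := M₁ ⊔ R₁
  have hN₁ : FiniteDimensional E N₁ := finiteDimensional_sup M₁ R₁
  have hxN : x ∈ N₁ := (le_sup_right : R₁ ≤ N₁) (subset_adjoin E _ (by simp))
  have hyN : y ∈ N₁ := (le_sup_right : R₁ ≤ N₁) (subset_adjoin E _ (by simp))
  have hconst : ∀ (g : Om ≃ₐ[E] Om) (z : Om), g (z ^ n) = z ^ n → z ∈ N₁ → g z ∈ N₁ := by
    intro g z hz hzN
    by_cases hz0 : z = 0
    · rw [hz0, map_zero]
      exact zero_mem _
    · obtain ⟨ζ, hζ⟩ := fermat_const (k := QQ) (z := g z / z) hn (by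
        rw [div_pow, ← map_pow, hz, div_self (pow_ne_zero _ hz0)])
      have h1 : g z = algebraMap QQ Om ζ * z := by
        rw [← hζ, div_mul_cancel₀ _ hz0]
      rw [h1]
      refine mul_mem ?_ hzN
      exact N₁.algebraMap_mem (algebraMap QQ E ζ)
  have hgt : ∀ g : Om ≃ₐ[E] Om, g tt = tt := fun g =>
    g.commutes ⟨tt, mem_adjoin_simple_self QQ tt⟩
  have hstable : ∀ g : Om ≃ₐ[E] Om, N₁.map (g : Om →ₐ[E] Om) ≤ N₁ := by
    intro g
    rw [IntermediateField.map_sup, sup_le_iff]
    constructor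
    · rintro _ ⟨f, hf, rfl⟩
      exact (le_sup_left : M₁ ≤ N₁) (hMg (g.restrictScalars QQ) (hgt g) f hf)
    · rw [adjoin_map, adjoin_le_iff]
      rintro _ ⟨z, hz, rfl⟩
      rcases hz with rfl | hz
      · refine hconst g z ?_ hxN
        rw [hx, hgt]
      · rw [Set.mem_singleton_iff] at hz
        subst hz
        refine hconst g z ?_ hyN
        rw [hy, map_sub, map_one, hgt]
  have hNn : Normal E N₁ := by
    rw [normal_iff_forall_map_le']
    exact hstable
  have hNg : IsGalois E N₁ := ⟨⟩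
  refine ⟨N₁.restrictScalars QQ, (le_sup_left : M₁ ≤ N₁), hxN, hyN, ?_, ?_, ?_⟩
  · intro g hg f hf
    have hgE : ∀ y : E, g (y : Om) = y := by
      rintro ⟨y, hy⟩
      obtain ⟨r, s, rfl⟩ := (mem_adjoin_simple_iff QQ y).1 hy
      change g (aeval tt r / aeval tt s) = aeval tt r / aeval tt s
      rw [map_div₀, ← aeval_algHom_apply g, ← aeval_algHom_apply g, hg]
    let g' : Om ≃ₐ[E] Om := AlgEquiv.ofRingEquiv (f := g.toRingEquiv) hgE
    exact hstable g' ⟨f, hf, rfl⟩
  · intro htN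
    constructor
    · refine Module.Finite.of_equiv_equiv (A₁ := E) (B₁ := N₁)
        (fermat_equiv (N₁.restrictScalars QQ) htN).symm.toRingEquiv (B₂ := N₁.restrictScalars QQ)
        (RingEquiv.refl N₁) ?_
      ext y
      have h1 := fermat_equiv_coe (N₁.restrictScalars QQ) htN
        ((fermat_equiv (N₁.restrictScalars QQ) htN).symm y)
      rw [AlgEquiv.apply_symm_apply] at h1
      exact h1.symm
    · refine IsGalois.of_equiv_equiv (F := E) (E := N₁)
        (f := (fermat_equiv (N₁.restrictScalars QQ) htN).symm.toRingEquiv)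
        (g := RingEquiv.refl N₁) ?_
      ext y
      have h1 := fermat_equiv_coe (N₁.restrictScalars QQ) htN
        ((fermat_equiv (N₁.restrictScalars QQ) htN).symm y)
      rw [AlgEquiv.apply_symm_apply] at h1
      exact h1.symm
  · intro T hT hxT hyT
    have hET : E ≤ T := hEM.trans hT
    have h1 : N₁ ≤ extendScalars hET := by
      refine sup_le hT ?_
      rw [adjoin_le_iff]
      rintro z hz
      rcases hz with rfl | hz
      · exact hxT
      · rw [Set.mem_singleton_iff] at hz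
        subst hz
        exact hyT
    exact h1

/-- The claim on the uniformizers. -/
private lemma fermat_claim {M N : Type} [Field M] [Algebra QQ M] [Field N] [Algebra QQ N]
    (hM : IsCurve QQ M) (φ : M →ₐ[QQ] N) {t : N} (ht : Transcendental QQ t)
    [FiniteDimensional (adjoin QQ {t}) N] [IsGalois (adjoin QQ {t}) N]
    (hstab : ∀ σ : N ≃ₐ[QQ] N, σ t = t → ∀ f : M, ∃ f', σ (φ f) = φ f') {sM : M} {s : N}
    (hs : φ sM = s) (hst : adjoin QQ {s} = adjoin QQ {t}) {n : ℕ} (hn : 0 < n)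
    (hord : ∀ v : Place QQ M, v.Vanishes sM → ∃ (π : M) (e : ℕ), IsUnif v π ∧ e ∣ n ∧
      sM / π ^ e ∈ v.ring ∧ (sM / π ^ e)⁻¹ ∈ v.ring) {X' Y' : N} (hX : X' ^ n = s)
    (hY : Y' ^ n ∈ adjoin QQ {s}) {b : QQ} (hb : b ≠ 0)
    (hYb : ∀ V : Place QQ N, V.Vanishes s → V.At (Y' ^ n) b)
    (hgen : ∀ σ : N ≃ₐ[QQ] N, σ t = t → (∀ f, σ (φ f) = φ f) → σ X' = X' → σ Y' = Y' →
      ∀ f, σ f = f) (V : Place QQ N) (hV : V.Vanishes X') : IsUnif V X' := by
  have hN : IsCurve QQ N := ⟨t, ht, inferInstance⟩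
  have hfin : FiniteDimensional (adjoin QQ {s}) N := by
    rw [hst]
    infer_instance
  have hgal : IsGalois (adjoin QQ {s}) N := by
    rw [hst]
    infer_instance
  have htS : t ∈ adjoin QQ {s} := by
    rw [hst]
    exact mem_adjoin_simple_self QQ t
  have hsT : Transcendental QQ s := by
    intro hal
    apply ht
    have h1 : adjoin QQ {s} ≤ algebraicClosure QQ N := by
      rw [adjoin_simple_le_iff, mem_algebraicClosure_iff]
      exact hal
    exact mem_algebraicClosure_iff.1 (h1 htS)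
  have hfix : ∀ σ : N ≃ₐ[adjoin QQ {s}] N, σ.restrictScalars QQ t = t := fun σ =>
    σ.commutes ⟨t, htS⟩
  have hVs : V.Vanishes s := by
    rw [← hX]
    exact Place.Vanishes.pow V hV hn.ne'
  obtain ⟨c, hc, hcb⟩ := fermat_root hN V hn (hYb V hVs)
  have hc0 : c ≠ 0 := by
    rintro rfl
    rw [zero_pow hn.ne'] at hcb
    exact hb hcb.symm
  have h1 : ∀ c, (φ : M →+* N) (algebraMap QQ M c) = algebraMap QQ N (RingEquiv.refl QQ c) :=
    fun c => φ.commutes c
  obtain ⟨v, hv⟩ := exists_pull hM hN (RingEquiv.refl QQ) (φ : M →+* N) h1 V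
  have hvs : v.Vanishes sM := by
    rw [v.vanishes_iff_or, ← hv, ValuationSubring.mem_comap, map_inv₀]
    change sM = 0 ∨ (φ sM)⁻¹ ∉ V.ring
    rw [hs]
    rw [V.vanishes_iff_or] at hVs
    rcases hVs with h2 | h2
    · left
      rw [← hs, map_eq_zero] at h2
      exact h2
    · exact Or.inr h2
  obtain ⟨π, e, hπ, he, ho, ho'⟩ := hord v hvs
  exact abhyankar hsT hM φ hs (fun σ f => hstab (σ.restrictScalars QQ) (hfix σ) f) hn hX hY
    (fun σ h2 h3 h4 => AlgEquiv.ext fun f => hgen (σ.restrictScalars QQ) (hfix σ) h2 h3 h4 f)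
    V hVs hc0 hc hv hπ he ho ho'

/-- Unramified points. -/
private lemma fermat_unram {M N : Type} [Field M] [Algebra QQ M] [Field N] [Algebra QQ N]
    (hM : IsCurve QQ M) (φ : M →ₐ[QQ] N) {t : N} (ht : Transcendental QQ t)
    [FiniteDimensional (adjoin QQ {t}) N] [IsGalois (adjoin QQ {t}) N] {tM : M} (hφt : φ tM = t)
    {n : ℕ} (hn : 0 < n) {X' Y' : N} (hX : X' ^ n = t) (hY : Y' ^ n = 1 - t)
    (hgen : ∀ σ : N ≃ₐ[QQ] N, σ t = t → (∀ f, σ (φ f) = φ f) → σ X' = X' → σ Y' = Y' →
      ∀ f, σ f = f) {c : QQ} (hc0 : c ≠ 0) (hc1 : c ≠ 1)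
    (hun : ∀ v : Place QQ M, v.At tM c → IsUnif v (tM - algebraMap QQ M c))
    (V : Place QQ N) (hV : V.At t c) : IsUnif V (t - algebraMap QQ N c) := by
  have hN : IsCurve QQ N := ⟨t, ht, inferInstance⟩
  set s : N := t - algebraMap QQ N c with hs
  have hst : adjoin QQ {s} = adjoin QQ {t} := by
    apply le_antisymm
    · rw [adjoin_simple_le_iff, hs]
      exact sub_mem (mem_adjoin_simple_self QQ t) (IntermediateField.algebraMap_mem _ c)
    · rw [adjoin_simple_le_iff]
      have h1 : t = s + algebraMap QQ N c := by rw [hs, sub_add_cancel]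
      rw [h1]
      exact add_mem (mem_adjoin_simple_self QQ s) (IntermediateField.algebraMap_mem _ c)
  have hfin : FiniteDimensional (adjoin QQ {s}) N := by
    rw [hst]
    infer_instance
  have hgal : IsGalois (adjoin QQ {s}) N := by
    rw [hst]
    infer_instance
  have htS : t ∈ adjoin QQ {s} := by
    rw [hst]
    exact mem_adjoin_simple_self QQ t
  have hsT : Transcendental QQ s := by
    intro hal
    apply ht
    have h1 : adjoin QQ {s} ≤ algebraicClosure QQ N := by
      rw [adjoin_simple_le_iff, mem_algebraicClosure_iff]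
      exact hal
    exact mem_algebraicClosure_iff.1 (h1 htS)
  have hs0 : s ≠ 0 := by
    rintro h
    rw [h] at hsT
    exact hsT isAlgebraic_zero
  by_contra hcon
  obtain ⟨π, hπ⟩ := exists_unif hN V
  have h2 := ram_le hsT V hV hπ (fermat_sq hs0 hV hcon hπ)
  have h3 : Nat.card {σ : N ≃ₐ[adjoin QQ {s}] N // V.map (σ.restrictScalars QQ) = V} ≤ 1 := by
    have h4 : ∀ σ : N ≃ₐ[adjoin QQ {s}] N, V.map (σ.restrictScalars QQ) = V → σ = 1 := by
      intro σ hσ
      have hσt : σ.restrictScalars QQ t = t := σ.commutes ⟨t, htS⟩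
      have e1 : ∀ c, (φ : M →+* N) (algebraMap QQ M c) = algebraMap QQ N (RingEquiv.refl QQ c) :=
        fun c => φ.commutes c
      have e2 : ∀ c, ((σ.restrictScalars QQ : N →+* N).comp (φ : M →+* N)) (algebraMap QQ M c) =
          algebraMap QQ N (RingEquiv.refl QQ c) := by
        intro c
        rw [RingHom.comp_apply, e1]
        exact (σ.restrictScalars QQ).commutes c
      obtain ⟨u, hu⟩ := exists_pull hM hN (RingEquiv.refl QQ) (φ : M →+* N) e1 V
      have hu' : V.ring.comap ((σ.restrictScalars QQ : N →+* N).comp (φ : M →+* N)) = u.ring := by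
        rw [← hu]
        ext y
        rw [ValuationSubring.mem_comap, ValuationSubring.mem_comap]
        conv_lhs => rw [← hσ]
        exact fermat_map_mem V (σ.restrictScalars QQ) (φ y)
      have hux : u.At tM c := by
        rw [Place.At, u.vanishes_iff_or, ← hu, ValuationSubring.mem_comap]
        rw [Place.At, V.vanishes_iff_or] at hV
        rcases hV with hV | hV
        · left
          apply (φ : M →+* N).injective
          rw [map_sub, map_zero, e1]
          change φ tM - _ = 0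
          rw [hφt]
          exact hV
        · right
          rw [map_inv₀, map_sub, e1]
          change (φ tM - _)⁻¹ ∉ _
          rw [hφt]
          exact hV
      have e3 := taylor hM hN (RingEquiv.refl QQ) e1 e2 hu hu' (hun u hux) (by
        rw [RingHom.comp_apply]
        change φ tM = σ.restrictScalars QQ (φ tM)
        rw [hφt, hσt])
      have hσM : ∀ f, σ.restrictScalars QQ (φ f) = φ f := fun f =>
        (congrArg (fun ψ : M →+* N => ψ f) e3).symm
      have hσX : σ.restrictScalars QQ X' = X' :=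
        fermat_stab hN hσ hn (by rw [hX, hσt]) (b := c) (by rw [hX]; exact hV) hc0
      have hσY : σ.restrictScalars QQ Y' = Y' := by
        refine fermat_stab hN hσ hn (by rw [hY, map_sub, map_one, hσt]) (b := 1 - c) ?_
          (sub_ne_zero.2 hc1.symm)
        rw [hY]
        have h5 := (Place.at_const (v := V) (1 : QQ)).sub hV
        rwa [map_one] at h5
      exact AlgEquiv.ext fun f => hgen (σ.restrictScalars QQ) hσt hσM hσX hσY f
    have h5 : Subsingleton {σ : N ≃ₐ[adjoin QQ {s}] N // V.map (σ.restrictScalars QQ) = V} :=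
      ⟨fun a b => Subtype.ext (by rw [h4 a.1 a.2, h4 b.1 b.2])⟩
    exact Finite.card_le_one_iff_subsingleton.2 h5
  omega

/-- every covering which is unramified outside `0`, `1`, `∞` is dominated by a Galois covering
which is an étale covering of a Fermat curve `x ^ n + y ^ n = 1` -/
theorem exists_fermat (hΩ : IsAlgFun tt) (F : IntermediateField QQ Om) (hF : Belyi tt F) :
    ∃ F' : IntermediateField QQ Om, F ≤ F' ∧ Belyi tt F' ∧
      (∀ g : Om ≃ₐ[QQ] Om, g tt = tt → ∀ f ∈ F', g f ∈ F') ∧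
      ∃ (n : ℕ) (x y : F'), 0 < n ∧ (x : Om) ^ n = tt ∧ x ^ n + y ^ n = 1 ∧
        (∀ v : Place QQ F', v.Vanishes x → IsUnif v x) ∧
        (∀ v : Place QQ F', v.Vanishes y → IsUnif v y) ∧
        ∀ v : Place QQ F', v.Vanishes x⁻¹ → IsUnif v x⁻¹ := by
  have hclosed := hΩ.closed
  obtain ⟨M, hFM, hM, hMg⟩ := exists_closure hΩ F hF
  let tM : M := ⟨tt, hM.mem⟩
  have htM : Transcendental QQ tM := by
    intro h
    apply hΩ.transc
    exact (isAlgebraic_algebraMap_iff (algebraMap M Om).injective).2 h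
  have htM1 : Transcendental QQ (1 - tM) := by
    intro h
    apply htM
    have h1 := (isAlgebraic_one (R := QQ) (A := M)).sub h
    rwa [sub_sub_cancel] at h1
  have htM2 : Transcendental QQ tM⁻¹ := fun h => htM (by simpa using h.inv)
  obtain ⟨n1, hn1, o1⟩ := fermat_ord hM.curve htM
  obtain ⟨n2, hn2, o2⟩ := fermat_ord hM.curve htM1
  obtain ⟨n3, hn3, o3⟩ := fermat_ord hM.curve htM2
  set n : ℕ := n1 * n2 * n3 with hndef
  have hn : 0 < n := by positivity
  obtain ⟨x, hx⟩ := IsAlgClosed.exists_pow_nat_eq tt hn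
  obtain ⟨y, hy⟩ := IsAlgClosed.exists_pow_nat_eq (1 - tt) hn
  obtain ⟨N, hMN, hxN, hyN, hNg, hNt, hNmin⟩ := fermat_field hΩ hM hMg hn hx hy
  have htN : tt ∈ N := hMN hM.mem
  let t : N := ⟨tt, htN⟩
  let X' : N := ⟨x, hxN⟩
  let Y' : N := ⟨y, hyN⟩
  let φ : M →ₐ[QQ] N := inclusion hMN
  obtain ⟨hfin, hgal⟩ := hNt htN
  have ht : Transcendental QQ t := by
    intro h
    apply hΩ.transc
    exact (isAlgebraic_algebraMap_iff (algebraMap N Om).injective).2 h
  have hφt : φ tM = t := rfl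
  have hX : X' ^ n = t := Subtype.ext hx
  have hY : Y' ^ n = 1 - t := Subtype.ext hy
  have hX0 : X' ≠ 0 := by
    intro h
    rw [h, zero_pow hn.ne'] at hX
    rw [← hX] at ht
    exact ht isAlgebraic_zero
  have hstab : ∀ σ : N ≃ₐ[QQ] N, σ t = t → ∀ f : M, ∃ f', σ (φ f) = φ f' := by
    intro σ hσ f
    have h1 := fermat_image hΩ hM.mem hMg (N.val.comp ((σ : N →ₐ[QQ] N).comp φ)) (by
      change ((σ (φ tM) : N) : Om) = tt
      rw [hφt, hσ]) f
    exact ⟨⟨_, h1⟩, Subtype.ext rfl⟩
  have hgen : ∀ σ : N ≃ₐ[QQ] N, (∀ f, σ (φ f) = φ f) → σ X' = X' → σ Y' = Y' →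
      ∀ f, σ f = f := by
    intro σ hσM hσX hσY f
    let T₀ : IntermediateField QQ N :=
      { carrier := {y | σ y = y}
        mul_mem' := by
          intro a b ha hb
          rw [Set.mem_ofPred_eq] at *
          rw [map_mul, ha, hb]
        add_mem' := by
          intro a b ha hb
          rw [Set.mem_ofPred_eq] at *
          rw [map_add, ha, hb]
        algebraMap_mem' := fun c => σ.commutes c
        inv_mem' := by
          intro a ha
          change σ a = a at ha
          change σ a⁻¹ = a⁻¹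
          rw [map_inv₀, ha] }
    have h1 : N ≤ lift T₀ := by
      refine hNmin _ (fun m hm => ?_) ?_ ?_
      · exact (mem_lift (φ ⟨m, hm⟩)).2 (hσM ⟨m, hm⟩)
      · exact (mem_lift X').2 hσX
      · exact (mem_lift Y').2 hσY
    exact (mem_lift f).1 (h1 f.2)
  refine ⟨N, hFM.trans hMN, ⟨⟨t, ht, hfin⟩, htN, ?_⟩, hNg, n, X', Y', hn, hx, ?_, ?_, ?_, ?_⟩
  · intro V c hV hc0 hc1
    exact fermat_unram hM.curve φ ht hφt hn hX hY (fun σ _ => hgen σ) hc0 hc1
      (fun v hv => hM.unram v c hv hc0 hc1) V hV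
  · rw [hX, hY]
    ring
  · -- the zeros of `x`
    refine fermat_claim hM.curve φ ht hstab (sM := tM) (s := t) hφt rfl hn (fun v hv => ?_) hX
      (Y' := Y') ?_ (b := 1) one_ne_zero (fun V hV => ?_) (fun σ _ => hgen σ)
    · obtain ⟨π, e, h1, h2, h3, h4⟩ := o1 v hv
      exact ⟨π, e, h1, h2.trans ⟨n2 * n3, by rw [hndef]; ring⟩, h3, h4⟩
    · rw [hY]
      exact sub_mem (one_mem _) (mem_adjoin_simple_self QQ t)
    · rw [hY]
      have h1 := (Place.at_const (v := V) (1 : QQ)).sub (Place.at_zero_iff.2 hV)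
      rwa [map_one, sub_zero] at h1
  · -- the zeros of `y`
    have hst : adjoin QQ {(1 - t : N)} = adjoin QQ {t} := by
      apply le_antisymm
      · rw [adjoin_simple_le_iff]
        exact sub_mem (one_mem _) (mem_adjoin_simple_self QQ t)
      · rw [adjoin_simple_le_iff]
        have h1 : t = 1 - (1 - t) := by ring
        have h2 : (1 : N) - (1 - t) ∈ adjoin QQ {(1 - t : N)} :=
          sub_mem (one_mem _) (mem_adjoin_simple_self QQ _)
        rwa [← h1] at h2
    refine fermat_claim hM.curve φ ht hstab (sM := 1 - tM) (s := 1 - t)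
      (by rw [map_sub, map_one, hφt]) hst hn (fun v hv => ?_) hY
      (Y' := X') ?_ (b := 1) one_ne_zero (fun V hV => ?_) (fun σ _ h1 h2 h3 => hgen σ h1 h3 h2)
    · obtain ⟨π, e, h1, h2, h3, h4⟩ := o2 v hv
      exact ⟨π, e, h1, h2.trans ⟨n1 * n3, by rw [hndef]; ring⟩, h3, h4⟩
    · rw [hX, hst]
      exact mem_adjoin_simple_self QQ t
    · rw [hX]
      have h1 := (Place.at_const (v := V) (1 : QQ)).sub (Place.at_zero_iff.2 hV)
      rwa [map_one, sub_zero, sub_sub_cancel] at h1
  · -- the poles of `x`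
    have hst : adjoin QQ {(t⁻¹ : N)} = adjoin QQ {t} := by
      apply le_antisymm
      · rw [adjoin_simple_le_iff]
        exact inv_mem (mem_adjoin_simple_self QQ t)
      · rw [adjoin_simple_le_iff]
        have h2 : (t⁻¹)⁻¹ ∈ adjoin QQ {(t⁻¹ : N)} := inv_mem (mem_adjoin_simple_self QQ _)
        rwa [inv_inv] at h2
    have hYn : (Y' / X') ^ n = t⁻¹ - 1 := by
      have ht0 : t ≠ 0 := by
        rw [← hX]
        exact pow_ne_zero _ hX0
      rw [div_pow, hX, hY]
      field_simp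
    refine fermat_claim hM.curve φ ht hstab (sM := tM⁻¹) (s := t⁻¹)
      (by rw [map_inv₀, hφt]) hst hn (fun v hv => ?_) (by rw [inv_pow, hX])
      (Y' := Y' / X') ?_ (b := -1) (neg_ne_zero.2 one_ne_zero) (fun V hV => ?_)
      (fun σ _ h1 h2 h3 => ?_)
    · obtain ⟨π, e, h1, h2, h3, h4⟩ := o3 v hv
      exact ⟨π, e, h1, h2.trans ⟨n1 * n2, by rw [hndef]; ring⟩, h3, h4⟩
    · rw [hYn]
      exact sub_mem (mem_adjoin_simple_self QQ _) (one_mem _)
    · rw [hYn]
      have h1 := (Place.at_zero_iff.2 hV).sub (Place.at_const (v := V) (1 : QQ))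
      rwa [map_one, zero_sub] at h1
    · have h4 : σ X' = X' := by
        rw [map_inv₀] at h2
        exact inv_injective h2
      refine hgen σ h1 h4 ?_
      rw [map_div₀, h4] at h3
      exact (div_left_inj' hX0).1 h3

end Pool.Agent.Dess
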