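import Pool.Agent.Dess.Alg

/-!
# Frames: finite Galois extensions of `QQ(t)` with an action of the Galois group of `ℚ`
-/

set_option autoImplicit false

noncomputable section

namespace Pool.Agent.Dess

open Pool.Agent.ZCyc Polynomial
open scoped Classical

/-- `M` is a finite Galois extension of `QQ(t)` to which all automorphisms of `QQ` extend, with
`t` fixed. -/
structure Frame {M : Type} [Field M] [Algebra QQ M] (t : M) : Prop where
  transc : Transcendental QQ t
  fin : FiniteDimensional (IntermediateField.adjoin QQ {t}) M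
  gal : IsGalois (IntermediateField.adjoin QQ {t}) M
  lift : ∀ τ : Gam, ∃ g : M ≃+* M, g t = t ∧
    ∀ c, g (algebraMap QQ M c) = algebraMap QQ M (τ c)

section

variable {Ω : Type} [Field Ω] [Algebra QQ Ω] [Algebra (RatFunc QQ) Ω]
  [IsScalarTower QQ (RatFunc QQ) Ω] [IsAlgClosure (RatFunc QQ) Ω]

/-- every automorphism of `QQ` extends to `Ω`, with `t` fixed -/
private theorem frame_ext (τ : Gam) : ∃ g : Ω ≃+* Ω,
    g (algebraMap (RatFunc QQ) Ω RatFunc.X) = algebraMap (RatFunc QQ) Ω RatFunc.X ∧
      ∀ c : QQ, g (algebraMap QQ Ω c) = algebraMap QQ Ω (τ c) := by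
  let e : RatFunc QQ ≃+* RatFunc QQ :=
    IsFractionRing.ringEquivOfRingEquiv (Polynomial.mapEquiv (τ : QQ ≃+* QQ))
  have he : ∀ p : QQ[X], e (algebraMap QQ[X] (RatFunc QQ) p) =
      algebraMap QQ[X] (RatFunc QQ) (p.map ((τ : QQ ≃+* QQ) : QQ →+* QQ)) := fun p =>
    IsFractionRing.ringEquivOfRingEquiv_algebraMap (Polynomial.mapEquiv (τ : QQ ≃+* QQ)) p
  refine ⟨IsAlgClosure.equivOfEquiv Ω Ω e, ?_, fun c => ?_⟩
  · rw [IsAlgClosure.equivOfEquiv_algebraMap]
    congr 1
    have := he X
    rw [map_X, RatFunc.algebraMap_X] at this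
    exact this
  · rw [IsScalarTower.algebraMap_apply QQ (RatFunc QQ) Ω,
      IsAlgClosure.equivOfEquiv_algebraMap, IsScalarTower.algebraMap_apply QQ (RatFunc QQ) Ω]
    congr 1
    have := he (C c)
    rw [map_C] at this
    exact this

omit [IsAlgClosure (RatFunc QQ) Ω] in
/-- a subfield which contains the constants and `t` contains the rational functions -/
private theorem frame_rat (A : Subfield Ω) (hA : ∀ c : QQ, algebraMap QQ Ω c ∈ A)
    (htA : algebraMap (RatFunc QQ) Ω RatFunc.X ∈ A) (r : RatFunc QQ) :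
    algebraMap (RatFunc QQ) Ω r ∈ A := by
  have hp : ∀ p : QQ[X], algebraMap (RatFunc QQ) Ω (algebraMap QQ[X] (RatFunc QQ) p) ∈ A := by
    intro p
    induction p using Polynomial.induction_on' with
    | add p q hp hq =>
      rw [map_add, map_add]
      exact A.add_mem hp hq
    | monomial n c =>
      rw [← C_mul_X_pow_eq_monomial, map_mul, map_mul, map_pow, map_pow]
      refine A.mul_mem ?_ (pow_mem ?_ n)
      · have h1 : algebraMap (RatFunc QQ) Ω (algebraMap QQ[X] (RatFunc QQ) (C c)) =
            algebraMap QQ Ω c := by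
          rw [IsScalarTower.algebraMap_apply QQ (RatFunc QQ) Ω]
          rfl
        rw [h1]
        exact hA c
      · rw [RatFunc.algebraMap_X]
        exact htA
  obtain ⟨p, q, hq, rfl⟩ := IsFractionRing.div_surjective (A := QQ[X]) r
  rw [map_div₀]
  exact A.div_mem (hp p) (hp q)

variable (Ω) in
private theorem frame_alg (z : Ω) :
    IsAlgebraic (Subfield.closure {algebraMap (RatFunc QQ) Ω RatFunc.X}) z := by
  haveI : CharZero Ω := charZero_of_injective_algebraMap (algebraMap QQ Ω).injective
  set t := algebraMap (RatFunc QQ) Ω RatFunc.X with ht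
  set K := Subfield.closure {t} with hK
  let A : IntermediateField K Ω := algebraicClosure K Ω
  have hA : ∀ c : QQ, algebraMap QQ Ω c ∈ A := by
    intro c
    have h1 : IsAlgebraic ℚ (algebraMap QQ Ω c) :=
      (Algebra.IsAlgebraic.isAlgebraic (R := ℚ) c).algebraMap
    exact mem_algebraicClosure_iff.2 (h1.tower_top K)
  have htA : t ∈ A := by
    have h1 : t ∈ K := Subfield.subset_closure rfl
    have h2 : algebraMap K Ω ⟨t, h1⟩ ∈ A := A.algebraMap_mem _
    exact h2
  have hR : ∀ r : RatFunc QQ, algebraMap (RatFunc QQ) Ω r ∈ A := frame_rat A.toSubfield hA htA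
  have h1 : IsAlgebraic (RatFunc QQ) z := (IsAlgClosure.isAlgebraic (R := RatFunc QQ)
    (K := Ω)).isAlgebraic z
  have h2 : IsAlgebraic A z := by
    let f : RatFunc QQ →+* A := (algebraMap (RatFunc QQ) Ω).codRestrict A.toSubfield.toSubring hR
    exact h1.ringHom_of_comp_eq f (RingHom.id Ω) f.injective rfl
  haveI : Algebra.IsAlgebraic K A := algebraicClosure.isAlgebraic K Ω
  exact h2.restrictScalars K

private theorem frame_embed {L : Type} [Field L] [Algebra QQ L] {x : L}
    (hx : Transcendental QQ x) (hf : FiniteDimensional (IntermediateField.adjoin QQ {x}) L) :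
    ∃ φ : L →ₐ[QQ] Ω, φ x = algebraMap (RatFunc QQ) Ω RatFunc.X := by
  haveI : IsAlgClosed Ω := IsAlgClosure.isAlgClosed (RatFunc QQ)
  let E := IntermediateField.adjoin QQ {x}
  let e : RatFunc QQ ≃ₐ[QQ] E := RatFunc.algEquivOfTranscendental x hx
  let j : E →+* Ω := (algebraMap (RatFunc QQ) Ω).comp (e.symm : E →+* RatFunc QQ)
  letI : Algebra E Ω := j.toAlgebra
  haveI : Algebra.IsAlgebraic E L := Algebra.IsAlgebraic.of_finite E L
  let φ : L →ₐ[E] Ω := IsAlgClosed.lift
  have hφ : ∀ y : E, φ (algebraMap E L y) = algebraMap (RatFunc QQ) Ω (e.symm y) := fun y =>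
    φ.commutes y
  refine ⟨{ (φ : L →+* Ω) with commutes' := fun c => ?_ }, ?_⟩
  · have h1 := hφ (algebraMap QQ E c)
    rw [e.symm.commutes, ← IsScalarTower.algebraMap_apply QQ (RatFunc QQ) Ω] at h1
    exact h1
  · have h1 := hφ (e RatFunc.X)
    rw [AlgEquiv.symm_apply_apply] at h1
    have h2 : algebraMap E L (e RatFunc.X) = x := by
      exact RatFunc.algEquivOfTranscendental_X x hx
    rw [h2] at h1
    exact h1

end

section

variable {Ω : Type} [Field Ω]

private theorem frame_fix {t : Ω} {g : Ω ≃+* Ω} (hg : g t = t) :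
    ∀ y ∈ Subfield.closure {t}, g y = y := by
  have h : Subfield.closure {t} ≤ RingHom.eqLocusField (g : Ω →+* Ω) (RingHom.id Ω) :=
    Subfield.closure_le.2 (by
      rintro _ rfl
      exact hg)
  intro y hy
  exact h hy

private theorem frame_root {t : Ω} {g : Ω ≃+* Ω} (hg : g t = t)
    (p : (Subfield.closure {t})[X]) {y : Ω} (hy : y ∈ p.rootSet Ω) : g y ∈ p.rootSet Ω := by
  let G : Ω →ₐ[Subfield.closure {t}] Ω :=
    { (g : Ω →+* Ω) with commutes' := fun c => frame_fix hg c c.2 }
  rw [mem_rootSet] at hy ⊢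
  refine ⟨hy.1, ?_⟩
  have h1 := Polynomial.aeval_algHom_apply G y p
  rw [hy.2, map_zero] at h1
  exact h1

private theorem frame_adjoin [Algebra QQ Ω] {t : Ω} {g : Ω ≃+* Ω} {τ : Gam} (hg : g t = t)
    (hc : ∀ c : QQ, g (algebraMap QQ Ω c) = algebraMap QQ Ω (τ c)) {S : Set Ω}
    (hS : ∀ y ∈ S, g y ∈ S) (y : Ω) (hy : y ∈ IntermediateField.adjoin QQ ({t} ∪ S)) :
    g y ∈ IntermediateField.adjoin QQ ({t} ∪ S) := by
  induction hy using IntermediateField.adjoin_induction with
  | mem x hx =>
    rcases hx with hx | hx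
    · rw [Set.mem_singleton_iff.1 hx, hg]
      exact IntermediateField.subset_adjoin _ _ (Or.inl rfl)
    · exact IntermediateField.subset_adjoin _ _ (Or.inr (hS x hx))
  | algebraMap c =>
    rw [hc]
    exact IntermediateField.algebraMap_mem _ _
  | add x y hx hy h1 h2 =>
    rw [map_add]
    exact add_mem h1 h2
  | inv x hx h =>
    rw [map_inv₀]
    exact inv_mem h
  | mul x y hx hy h1 h2 =>
    rw [map_mul]
    exact mul_mem h1 h2

private theorem frame_restrict [Algebra QQ Ω] {t : Ω} {g : Ω ≃+* Ω} {τ : Gam} (hg : g t = t)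
    (hc : ∀ c : QQ, g (algebraMap QQ Ω c) = algebraMap QQ Ω (τ c)) {S : Set Ω}
    (hS : ∀ (h : Ω ≃+* Ω), h t = t → ∀ y ∈ S, h y ∈ S) :
    ∃ G : IntermediateField.adjoin QQ ({t} ∪ S) ≃+* IntermediateField.adjoin QQ ({t} ∪ S),
      ∀ m, (G m : Ω) = g m := by
  have hg' : g.symm t = t := by rw [RingEquiv.symm_apply_eq, hg]
  have hc' : ∀ c : QQ, g.symm (algebraMap QQ Ω c) = algebraMap QQ Ω (τ.symm c) := by
    intro c
    rw [RingEquiv.symm_apply_eq, hc, AlgEquiv.apply_symm_apply]
  refine ⟨{
    toFun := fun m => ⟨g m, frame_adjoin hg hc (hS g hg) m m.2⟩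
    invFun := fun m => ⟨g.symm m, frame_adjoin hg' hc' (hS g.symm hg') m m.2⟩
    left_inv := fun m => Subtype.ext (g.symm_apply_apply m)
    right_inv := fun m => Subtype.ext (g.apply_symm_apply m)
    map_mul' := fun a b => Subtype.ext (map_mul g (a : Ω) b)
    map_add' := fun a b => Subtype.ext (map_add g (a : Ω) b) }, fun m => rfl⟩

end

section

variable {Ω : Type} [Field Ω] [Algebra QQ Ω] [Algebra (RatFunc QQ) Ω]
  [IsScalarTower QQ (RatFunc QQ) Ω] [IsAlgClosure (RatFunc QQ) Ω]

/-- the field generated by the roots of finitely many polynomials over `ℚ(t)` is a frame -/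
private theorem frame_of_finite {S : Set Ω} (hfin : S.Finite)
    (hS : ∀ (h : Ω ≃+* Ω), h (algebraMap (RatFunc QQ) Ω RatFunc.X) =
      algebraMap (RatFunc QQ) Ω RatFunc.X → ∀ y ∈ S, h y ∈ S) :
    Frame (⟨algebraMap (RatFunc QQ) Ω RatFunc.X,
      IntermediateField.subset_adjoin QQ _ (Or.inl rfl)⟩ :
        IntermediateField.adjoin QQ ({algebraMap (RatFunc QQ) Ω RatFunc.X} ∪ S)) := by
  set t : Ω := algebraMap (RatFunc QQ) Ω RatFunc.X with ht
  set M := IntermediateField.adjoin QQ ({t} ∪ S) with hM
  have htM : t ∈ M := IntermediateField.subset_adjoin QQ _ (Or.inl rfl)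
  set tM : M := ⟨t, htM⟩ with htM'
  let E := IntermediateField.adjoin QQ {tM}
  have htE : tM ∈ E := IntermediateField.subset_adjoin QQ _ rfl
  have htr : Transcendental QQ tM := by
    have h1 : Transcendental QQ t :=
      (transcendental_algebraMap_iff (algebraMap (RatFunc QQ) Ω).injective).2
        RatFunc.transcendental_X
    exact (transcendental_algebraMap_iff (algebraMap M Ω).injective).1 h1
  -- the image of `E` in `Ω`
  let E' : Subfield Ω := E.toSubfield.map (algebraMap M Ω)
  have hcE' : ∀ c : QQ, algebraMap QQ Ω c ∈ E' := fun c =>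
    ⟨algebraMap QQ M c, E.algebraMap_mem c, rfl⟩
  have htE' : t ∈ E' := ⟨tM, htE, rfl⟩
  -- every element of `M` is algebraic over `E`
  have hint : ∀ y : M, IsAlgebraic E y := by
    intro y
    have h1 := frame_alg Ω (y : Ω)
    have hle : Subfield.closure {t} ≤ E' := Subfield.closure_le.2 (by
      rintro _ rfl
      exact htE')
    have h2 : IsAlgebraic E' (y : Ω) :=
      h1.ringHom_of_comp_eq (Subfield.inclusion hle) (RingHom.id Ω)
        (Subfield.inclusion hle).injective rfl
    let f : E →+* E' := ((algebraMap M Ω).comp (algebraMap E M)).codRestrict E'.toSubring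
      (fun e => ⟨e, e.2, rfl⟩)
    refine IsAlgebraic.of_ringHom_of_comp_eq f (algebraMap M Ω) h2 ?_
      (algebraMap M Ω).injective rfl
    rintro ⟨_, e, he, rfl⟩
    exact ⟨⟨e, he⟩, rfl⟩
  have hfd : FiniteDimensional E M := by
    let S' : Set M := (Subtype.val : M → Ω) ⁻¹' S
    haveI : Finite S' := (hfin.preimage Subtype.val_injective.injOn)
    have h1 : FiniteDimensional E (IntermediateField.adjoin E S') :=
      IntermediateField.finiteDimensional_adjoin fun y _ => (hint y).isIntegral
    have h2 : IntermediateField.adjoin E S' = ⊤ := by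
      rw [eq_top_iff]
      rintro ⟨m, hm⟩ -
      induction hm using IntermediateField.adjoin_induction with
      | mem x hx =>
        rcases hx with hx | hx
        · obtain rfl := Set.mem_singleton_iff.1 hx
          exact (IntermediateField.adjoin E S').algebraMap_mem ⟨tM, htE⟩
        · exact IntermediateField.subset_adjoin _ _ hx
      | algebraMap c =>
        exact (IntermediateField.adjoin E S').algebraMap_mem (algebraMap QQ E c)
      | add x y hx hy h1 h2 => exact add_mem h1 h2
      | inv x hx h => exact inv_mem h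
      | mul x y hx hy h1 h2 => exact mul_mem h1 h2
    rw [h2] at h1
    exact (IntermediateField.topEquiv (F := E) (E := M)).toLinearEquiv.finiteDimensional
  refine ⟨htr, hfd, ?_, fun τ => ?_⟩
  · haveI := hfd
    apply IsGalois.of_fixedField_eq_bot
    rw [eq_bot_iff]
    intro m hm
    haveI : IsGalois (RatFunc QQ) Ω := IsAlgClosure.isGalois (RatFunc QQ) Ω
    have h1 : ∀ f : Ω ≃ₐ[RatFunc QQ] Ω, f (m : Ω) = m := by
      intro f
      have hft : (f : Ω ≃+* Ω) t = t := f.commutes _
      have hfc : ∀ c : QQ, (f : Ω ≃+* Ω) (algebraMap QQ Ω c) =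
          algebraMap QQ Ω ((1 : Gam) c) := by
        intro c
        rw [IsScalarTower.algebraMap_apply QQ (RatFunc QQ) Ω]
        rw [AlgEquiv.one_apply, IsScalarTower.algebraMap_apply QQ (RatFunc QQ) Ω]
        exact f.commutes _
      obtain ⟨G, hG⟩ := frame_restrict hft hfc hS
      have hGE : ∀ e ∈ E, G e = e := by
        intro e he
        induction he using IntermediateField.adjoin_induction with
        | mem x hx =>
          rw [Set.mem_singleton_iff.1 hx]
          apply Subtype.ext
          rw [hG]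
          exact hft
        | algebraMap c =>
          apply Subtype.ext
          rw [hG]
          exact hfc c
        | add x y hx hy h1 h2 => rw [map_add, h1, h2]
        | inv x hx h => rw [map_inv₀, h]
        | mul x y hx hy h1 h2 => rw [map_mul, h1, h2]
      let G' : M ≃ₐ[E] M := AlgEquiv.ofRingEquiv (f := G) (fun e => hGE e e.2)
      have h2 : G' m = m := (IntermediateField.mem_fixedField_iff _ _).1 hm G' trivial
      have h3 := hG m
      have h4 : G m = m := h2
      rw [h4] at h3
      exact h3.symm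
    obtain ⟨r, hr⟩ := (InfiniteGalois.mem_range_algebraMap_iff_fixed (k := RatFunc QQ) (m : Ω)).2 h1
    have h2 : (m : Ω) ∈ E' := by
      rw [← hr]
      exact frame_rat E' hcE' htE' r
    obtain ⟨e, he, h3⟩ := h2
    have h4 : e = m := Subtype.ext h3
    rw [← h4]
    exact IntermediateField.mem_bot.2 ⟨⟨e, he⟩, rfl⟩
  · obtain ⟨g, hg, hc⟩ := frame_ext (Ω := Ω) τ
    obtain ⟨G, hG⟩ := frame_restrict hg hc hS
    refine ⟨G, Subtype.ext ?_, fun c => Subtype.ext ?_⟩
    · rw [hG]
      exact hg
    · rw [hG]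
      exact hc c

end

/-- an algebraic closure of the field of rational functions -/
abbrev FrameOm : Type := AlgebraicClosure (RatFunc QQ)

theorem exists_frame {ι : Type} [Finite ι] (L : ι → Type) [∀ i, Field (L i)]
    [∀ i, Algebra QQ (L i)] (x : ∀ i, L i) (hx : ∀ i, Transcendental QQ (x i))
    (hf : ∀ i, FiniteDimensional (IntermediateField.adjoin QQ {x i}) (L i)) :
    ∃ (M : Type) (_ : Field M) (_ : Algebra QQ M) (t : M), Frame t ∧
      ∀ i, ∃ φ : L i →ₐ[QQ] M, φ (x i) = t := by
  choose φ hφ using fun i => frame_embed (Ω := FrameOm) (hx i) (hf i)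
  have hfg : ∀ i, ∃ s : Finset (L i),
      Submodule.span (IntermediateField.adjoin QQ {x i}) (s : Set (L i)) = ⊤ := fun i =>
    (hf i).fg_top
  choose s hs using hfg
  set t : FrameOm := algebraMap (RatFunc QQ) FrameOm RatFunc.X with ht
  let S : Set FrameOm := ⋃ i, ⋃ z ∈ s i, (minpoly (Subfield.closure {t}) (φ i z)).rootSet FrameOm
  have hfin : S.Finite := Set.finite_iUnion fun i =>
    Set.Finite.biUnion (s i).finite_toSet fun z _ => rootSet_finite _ _
  have hS : ∀ (h : FrameOm ≃+* FrameOm), h t = t → ∀ y ∈ S, h y ∈ S := by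
    intro h hh y hy
    rw [Set.mem_iUnion] at hy ⊢
    obtain ⟨i, hy⟩ := hy
    refine ⟨i, ?_⟩
    rw [Set.mem_iUnion₂] at hy ⊢
    obtain ⟨z, hz, hy⟩ := hy
    exact ⟨z, hz, frame_root hh _ hy⟩
  let M := IntermediateField.adjoin QQ ({t} ∪ S)
  have htM : t ∈ M := IntermediateField.subset_adjoin QQ _ (Or.inl rfl)
  refine ⟨M, inferInstance, inferInstance, ⟨t, htM⟩, frame_of_finite hfin hS, fun i => ?_⟩
  have hmem : ∀ l : L i, φ i l ∈ M := by
    intro l
    have hl : l ∈ Submodule.span (IntermediateField.adjoin QQ {x i}) (s i : Set (L i)) := by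
      rw [hs i]
      trivial
    induction hl using Submodule.span_induction with
    | mem z hz =>
      apply IntermediateField.subset_adjoin
      right
      rw [Set.mem_iUnion]
      refine ⟨i, ?_⟩
      rw [Set.mem_iUnion₂]
      refine ⟨z, hz, ?_⟩
      rw [mem_rootSet]
      exact ⟨minpoly.ne_zero (frame_alg FrameOm (φ i z)).isIntegral, minpoly.aeval _ _⟩
    | zero =>
      rw [map_zero]
      exact M.zero_mem
    | add a b _ _ ha hb =>
      rw [map_add]
      exact M.add_mem ha hb
    | smul e a _ ha =>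
      have h1 : IntermediateField.adjoin QQ {x i} ≤ M.comap (φ i) := by
        rw [IntermediateField.adjoin_le_iff]
        rintro _ rfl
        change φ i (x i) ∈ M
        rw [hφ i]
        exact htM
      rw [IntermediateField.smul_def, smul_eq_mul, map_mul]
      exact M.mul_mem (h1 e.2) ha
  refine ⟨(φ i).codRestrict M.toSubalgebra hmem, Subtype.ext ?_⟩
  exact hφ i

end Pool.Agent.Dess
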