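import Pool.Agent.Dess.Pair
import Pool.Agent.Dess.Fermat

/-!
# One compatible system of zero-cycles
-/

set_option autoImplicit false

noncomputable section

namespace Pool.Agent.Dess

open Pool.Agent.ZCyc
open scoped Classical

variable {Om : Type} [Field Om] [Algebra QQ Om] {tt : Om}

theorem exists_fermat' (hΩ : IsAlgFun tt) (F : IntermediateField QQ Om) (hF : Belyi tt F) :
    ∃ F' : IntermediateField QQ Om, F ≤ F' ∧ Fermat tt F' := by
  obtain ⟨F', h1, h2, h3, h4⟩ := exists_fermat hΩ F hF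
  exact ⟨F', h1, h2, h3, h4⟩

/-- images of dessin cycles are images of the cycles of any cofinal system -/
theorem dessin_image (hΩ : IsAlgFun tt) {P O : Place QQ Om} (hP : P.Vanishes tt) (hO : tt ∉ O.ring) {ι : Type}
    {L : ι → Type} [∀ i, Field (L i)] [∀ i, Algebra QQ (L i)]
    (C : IntermediateField QQ Om → Prop)
    (hC : ∀ F : IntermediateField QQ Om, Belyi tt F → ∃ F', F ≤ F' ∧ Fermat tt F' ∧ C F')
    {w : (∀ i, Place QQ (L i)) →₀ ℤ} (hw : DessinCycle L w) :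
    ∃ (F : IntermediateField QQ Om) (p o : Place QQ F)
      (Φ : (Bool → Place QQ F) → ∀ i, Place QQ (L i)), Fermat tt F ∧ C F ∧ Below p P ∧ Below o O ∧
        IsMor Φ ∧ w = (square p o).mapDomain Φ := by
  obtain ⟨F, _, _, F₀, β, P', O', Φ, d, hΦ, rfl⟩ := hw
  obtain ⟨F', e, hF', hp', ho'⟩ := pair_dessin hΩ hP hO d
  obtain ⟨F'', hle, hF'', hC''⟩ := hC F' hF'
  obtain ⟨p, o, hp, ho⟩ := pair_below hΩ hP hO hF''.belyi.mem
  obtain ⟨Ψ, hΨ, hsq⟩ := pair_cover hle d.curve hF''.belyi.curve e hp' ho' hp ho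
  have : Nonempty (Bool → Place QQ F'') := ⟨fun _ => p⟩
  refine ⟨F'', p, o, Φ ∘ Ψ, hF'', hC'', hp, ho, hΨ.comp hΦ, ?_⟩
  rw [Finsupp.mapDomain_comp, hsq]

theorem generation_pair (hΩ : IsAlgFun tt) {P O : Place QQ Om} (hP : P.Vanishes tt) (hO : tt ∉ O.ring) {ι : Type}
    [Fintype ι] {L : ι → Type} [∀ i, Field (L i)] [∀ i, Algebra QQ (L i)]
    (hL : ∀ i, IsCurve QQ (L i)) {z : (∀ i, Place QQ (L i)) →₀ ℤ} (hz : AlbKer L z) :
    z ∈ RatEq L ⊔ AddSubgroup.closure {w | PairCycle L tt P O w} := by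
  refine generation hL le_sup_left ?_ hz
  intro w hw
  obtain ⟨F, p, o, Φ, h1, -, h2, h3, h4, h5⟩ := dessin_image hΩ hP hO (fun _ => True)
    (fun F hF => by
      obtain ⟨F', h1, h2⟩ := exists_fermat' hΩ F hF
      exact ⟨F', h1, h2, trivial⟩) hw
  exact (le_sup_right : _ ≤ RatEq L ⊔ _)
    (AddSubgroup.subset_closure ⟨F, p, o, Φ, h1, h2, h3, h4, h5⟩)

theorem main_tfae (hΩ : IsAlgFun tt) {P O : Place QQ Om} (hP : P.Vanishes tt) (hO : tt ∉ O.ring) :
    [ZeroCyclesConj, DessinConj, PairConj tt P O, CofinalConj tt P O].TFAE := by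
  tfae_have 1 ↔ 2 := main
  tfae_have 1 → 3 := by
    intro h F hF p o _ _
    exact h Bool (fun _ => F) (fun _ => hF.curve) (square p o) (albKer_square p o)
  tfae_have 3 → 4 := by
    intro h F hF
    obtain ⟨F', h1, h2⟩ := exists_fermat' hΩ F hF
    exact ⟨F', h1, h2, h F' h2.belyi⟩
  tfae_have 4 → 1 := by
    intro h ι _ L _ _ hL z hz
    refine generation (T := torGroup L) hL ratEq_le_torGroup ?_ hz
    intro w hw
    obtain ⟨F, p, o, Φ, h1, h2, h3, h4, h5, rfl⟩ := dessin_image hΩ hP hO (CycleTor P O) h hw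
    exact map_tor Φ h5 (h2 p o h3 h4)
  tfae_finish

end Pool.Agent.Dess
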