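import Pool.Agent.Dess.Final

/-! # Embeddings into the field of algebraic functions -/

set_option autoImplicit false

noncomputable section

namespace Pool.Agent.Dess

open Pool.Agent.ZCyc Polynomial
open scoped Classical

variable {Om : Type} [Field Om] [Algebra QQ Om] {tt : Om}

/-! ### places with a prescribed value of the parameter -/

private lemma pair_reg {M : Type} [Field M] [Algebra QQ M] {t : M} (ht : Transcendental QQ t)
    (v : Place QQ M) (hv : v.Vanishes t) (r : RatFunc QQ) :
    aeval t r.num / aeval t r.denom ∈ v.ring ↔ r.denom.eval 0 ≠ 0 := by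
  have h0 : v.At t 0 := Place.at_zero_iff.mpr hv
  have h1 := h0.aeval r.num
  have h2 := h0.aeval r.denom
  have h3 : aeval t r.denom ≠ 0 := fun h => r.denom_ne_zero ((transcendental_iff.mp ht) _ h)
  constructor
  · intro hf hd
    rw [hd] at h2
    obtain ⟨a, b, hab⟩ := r.isCoprime_num_denom
    have h4 := congrArg (eval 0) hab
    rw [eval_add, eval_mul, eval_mul, hd, mul_zero, add_zero, eval_one] at h4
    have h5 : v.Vanishes (aeval t r.num) := by
      have := Place.Vanishes.mul' v (Place.at_zero_iff.mp h2) hf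
      rwa [div_mul_cancel₀ _ h3] at this
    have h6 := h1.unique (Place.at_zero_iff.mpr h5)
    rw [h6, mul_zero] at h4
    exact zero_ne_one h4
  · intro hd
    exact (h1.div h2 hd).mem

private lemma pair_same {M : Type} [Field M] [Algebra QQ M] {t : M} (ht : Transcendental QQ t)
    (v w : Place QQ M) (hv : v.Vanishes t) (hw : w.Vanishes t) (f : M)
    (hf : f ∈ IntermediateField.adjoin QQ {t}) : f ∈ v.ring ↔ f ∈ w.ring := by
  set e := RatFunc.algEquivOfTranscendental t ht with he
  obtain ⟨r, hr⟩ := e.surjective ⟨f, hf⟩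
  have h1 : f = aeval t r.num / aeval t r.denom := by
    have := RatFunc.algEquivOfTranscendental_apply t ht r
    rw [← this, ← he, hr]
  rw [h1, pair_reg ht v hv, pair_reg ht w hw]

/-! ### embeddings into the field of algebraic functions -/

private lemma pair_embed (hΩ : IsAlgFun tt) {M : Type} [Field M] [Algebra QQ M] {t : M}
    (ht : Transcendental QQ t) (hfin : FiniteDimensional (IntermediateField.adjoin QQ {t}) M) :
    ∃ ψ : M →ₐ[QQ] Om, ψ t = tt := by
  have hclosed := hΩ.closed
  let e := RatFunc.algEquivOfTranscendental t ht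
  let e' := RatFunc.algEquivOfTranscendental tt hΩ.transc
  let j : IntermediateField.adjoin QQ {t} →+* Om :=
    (algebraMap (IntermediateField.adjoin QQ {tt}) Om).comp
      ((e.symm.trans e' : IntermediateField.adjoin QQ {t} ≃ₐ[QQ]
        IntermediateField.adjoin QQ {tt}) : IntermediateField.adjoin QQ {t} →+*
          IntermediateField.adjoin QQ {tt})
  let _ : Algebra (IntermediateField.adjoin QQ {t}) Om := j.toAlgebra
  let ψ : M →ₐ[IntermediateField.adjoin QQ {t}] Om := IsAlgClosed.lift
  have hψ : ∀ x : IntermediateField.adjoin QQ {t}, ψ (x : M) = (e' (e.symm x) : Om) :=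
    fun x => ψ.commutes x
  refine ⟨{ (ψ : M →+* Om) with commutes' := ?_ }, ?_⟩
  · intro c
    have h1 := hψ (algebraMap QQ (IntermediateField.adjoin QQ {t}) c)
    rw [AlgEquiv.commutes, AlgEquiv.commutes] at h1
    exact h1
  · have h1 := hψ (IntermediateField.AdjoinSimple.gen QQ t)
    rw [RatFunc.algEquivOfTranscendental_symm_gen] at h1
    have h2 : ((e' RatFunc.X : IntermediateField.adjoin QQ {tt}) : Om) = tt :=
      RatFunc.algEquivOfTranscendental_X tt hΩ.transc
    rw [h2] at h1
    exact h1

private lemma pair_tt_ne (hΩ : IsAlgFun tt) : tt ≠ 0 := by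
  intro h
  apply hΩ.transc
  rw [h]
  exact isAlgebraic_zero

/-- existence of places -/
private lemma pair_place {F : Type} [Field F] [Algebra QQ F] {t : F}
    (ht : Transcendental QQ t) : ∃ u : Place QQ F, u.Vanishes t := by
  set A : Subring F := (Algebra.adjoin QQ {t}).toSubring with hA
  have htA : t ∈ A := by
    rw [hA, Subalgebra.mem_toSubring]
    exact Algebra.self_mem_adjoin_singleton QQ t
  set I : Ideal A := Ideal.span {⟨t, htA⟩} with hI
  have hItop : I ≠ ⊤ := by
    intro h
    rw [Ideal.eq_top_iff_one, hI, Ideal.mem_span_singleton] at h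
    obtain ⟨⟨g, hg⟩, h1⟩ := h
    rw [hA, Subalgebra.mem_toSubring, Algebra.adjoin_singleton_eq_range_aeval] at hg
    obtain ⟨p, hp⟩ := hg
    have h2 : (1 : F) = t * g := by
      have := congrArg (Subtype.val) h1
      simpa using this
    have h3 : Polynomial.aeval t (Polynomial.X * p - 1) = 0 := by
      rw [map_sub, _root_.map_mul, Polynomial.aeval_X, map_one]
      rw [show Polynomial.aeval t p = g from hp, ← h2, sub_self]
    have h4 := (transcendental_iff.1 ht) _ h3
    have h5 := congrArg (Polynomial.eval 0) h4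
    simp at h5
  obtain ⟨V, hV1, hV2⟩ := Ideal.image_subset_nonunits_valuationSubring I hItop
  have hmem : t ∈ V.nonunits := by
    apply hV2
    exact ⟨⟨t, htA⟩, Ideal.subset_span rfl, rfl⟩
  have hne : t ≠ 0 := by
    rintro rfl
    exact ht isAlgebraic_zero
  refine ⟨⟨V, ?_, ?_⟩, hmem⟩
  · intro a
    apply hV1
    rw [hA, Subalgebra.mem_toSubring]
    exact Subalgebra.algebraMap_mem _ a
  · rintro rfl
    rw [ValuationSubring.mem_nonunits_iff_or] at hmem
    rcases hmem with h | h
    · exact hne h
    · exact h (ValuationSubring.mem_top _)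

theorem exists_pair (hΩ : IsAlgFun tt) : ∃ P O : Place QQ Om, P.Vanishes tt ∧ tt ∉ O.ring := by
  obtain ⟨P, hP⟩ := pair_place hΩ.transc
  have h1 : Transcendental QQ (tt⁻¹) := fun h => hΩ.transc (IsAlgebraic.inv_iff.mp h)
  obtain ⟨O, hO⟩ := pair_place h1
  refine ⟨P, O, hP, ?_⟩
  rw [Place.vanishes_iff_or, inv_inv] at hO
  rcases hO with h | h
  · exact absurd (inv_eq_zero.mp h) (pair_tt_ne hΩ)
  · exact h

/-! ### isomorphisms -/

private lemma pair_unif {F F' : Type} [Field F] [Algebra QQ F] [Field F'] [Algebra QQ F']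
    (e : F ≃ₐ[QQ] F') (v : Place QQ F') (x : F) (h : IsUnif (v.map e.symm) x) :
    IsUnif v (e x) := by
  obtain ⟨h1, h2, h3⟩ := h
  refine ⟨?_, ?_, ?_⟩
  · intro h
    exact h1 (e.injective (by rw [h, map_zero]))
  · rw [Place.vanishes_map] at h2
    exact h2
  · intro g hg
    have h4 := h3 (e.symm g) (by
      rw [Place.vanishes_map]
      have : e.symm.symm (e.symm g) = g := e.apply_symm_apply g
      rw [this]
      exact hg)
    rw [Place.mem_map] at h4
    have h5 : e.symm.symm (e.symm g / x) = g / e x := by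
      have : e (e.symm g / x) = g / e x := by
        rw [map_div₀, e.apply_symm_apply]
      exact this
    rw [h5] at h4
    exact h4

private lemma pair_curve {F F' : Type} [Field F] [Algebra QQ F] [Field F'] [Algebra QQ F']
    (e : F ≃ₐ[QQ] F') (h : IsCurve QQ F) : IsCurve QQ F' := by
  obtain ⟨t, ht, hfin⟩ := h
  refine ⟨e t, ?_, ?_⟩
  · intro h
    exact ht ((isAlgebraic_algHom_iff (e : F →ₐ[QQ] F') e.injective).mp h)
  · let E := IntermediateField.adjoin QQ {t}
    have h1 : E.map (e : F →ₐ[QQ] F') = IntermediateField.adjoin QQ {e t} := by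
      rw [IntermediateField.adjoin_map, Set.image_singleton]
      rfl
    rw [← h1]
    let e₁ : E ≃+* E.map (e : F →ₐ[QQ] F') := (IntermediateField.equivMap E (e : F →ₐ[QQ] F')).toRingEquiv
    exact Module.Finite.of_equiv_equiv e₁ (e : F ≃+* F') (by
      ext x
      rfl)

/-! ### the reduction -/

/-- the pull-back of a place at which something in the image of the embedding vanishes -/
private lemma pair_pull {F : Type} [Field F] [Algebra QQ F] (f : F →ₐ[QQ] Om) (P : Place QQ Om)
    (x : F) (hx : f x ∉ P.ring) : ∃ v : Place QQ F, v.ring = P.ring.comap (f : F →+* Om) := by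
  refine ⟨⟨P.ring.comap (f : F →+* Om), ?_, ?_⟩, rfl⟩
  · intro c
    rw [ValuationSubring.mem_comap]
    have : (f : F →+* Om) (algebraMap QQ F c) = algebraMap QQ Om c := f.commutes c
    rw [this]
    exact P.const_mem c
  · intro h
    have h1 : x ∈ P.ring.comap (f : F →+* Om) := by
      rw [h]
      exact ValuationSubring.mem_top _
    exact hx h1

/-- every dessin has an embedding which is compatible with the place `P` -/
private lemma pair_choice (hΩ : IsAlgFun tt) {F : Type} [Field F] [Algebra QQ F] (hF : IsCurve QQ F) {β : F}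
    (hβ : Transcendental QQ β) (v : Place QQ F) (hv : v.Vanishes β) (P : Place QQ Om)
    (hP : P.Vanishes tt) : ∃ f : F →ₐ[QQ] Om, f β = tt ∧ v.ring = P.ring.comap (f : F →+* Om) := by
  obtain ⟨M, _, _, t, hM, hφ⟩ := exists_frame (fun _ : Unit => F) (fun _ => β) (fun _ => hβ)
    (fun _ => fin_adjoin hF hβ)
  obtain ⟨φ, hφt⟩ := hφ ()
  have hMc : IsCurve QQ M := ⟨t, hM.transc, hM.fin⟩
  obtain ⟨ψ, hψ⟩ := pair_embed hΩ hM.transc hM.fin
  have htt : tt⁻¹ ∉ P.ring := by
    have := (P.vanishes_iff_or tt).mp hP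
    rcases this with h | h
    · exact absurd h (pair_tt_ne hΩ)
    · exact h
  obtain ⟨w, hw⟩ := pair_pull ψ P t⁻¹ (by
    rw [map_inv₀, hψ]
    exact htt)
  obtain ⟨V, hV⟩ := exists_ext hF hMc φ v
  have ht0 : t ≠ 0 := by
    rintro rfl
    exact hM.transc isAlgebraic_zero
  have hVt : V.Vanishes t := by
    rw [Place.vanishes_iff_or]
    right
    intro h
    have h1 : β⁻¹ ∈ v.ring := by
      rw [← hV, ValuationSubring.mem_comap]
      have : (φ : F →+* M) β⁻¹ = t⁻¹ := by
        have h2 : φ β⁻¹ = (φ β)⁻¹ := map_inv₀ φ β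
        rw [hφt] at h2
        exact h2
      rw [this]
      exact h
    rcases (v.vanishes_iff_or β).mp hv with h2 | h2
    · rw [h2] at hβ
      exact hβ isAlgebraic_zero
    · exact h2 h1
  have hwt : w.Vanishes t := by
    rw [Place.vanishes_iff_or]
    right
    intro h
    rw [hw, ValuationSubring.mem_comap] at h
    apply htt
    have h2 : ψ t⁻¹ = (ψ t)⁻¹ := map_inv₀ ψ t
    rw [hψ] at h2
    rw [← h2]
    exact h
  have : FiniteDimensional (IntermediateField.adjoin QQ {t}) M := hM.fin
  have : IsGalois (IntermediateField.adjoin QQ {t}) M := hM.gal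
  obtain ⟨g, hg1, hg2⟩ := galois_trans hMc (IntermediateField.adjoin QQ {t}) V w
    (fun f hf => pair_same hM.transc V w hVt hwt f hf)
  refine ⟨(ψ.comp (g : M →ₐ[QQ] M)).comp φ, ?_, ?_⟩
  · show ψ (g (φ β)) = tt
    rw [hφt, hg1 t (IntermediateField.mem_adjoin_simple_self QQ t), hψ]
  · ext x
    rw [← hV, ValuationSubring.mem_comap, ValuationSubring.mem_comap]
    show φ x ∈ V.ring ↔ ψ (g (φ x)) ∈ P.ring
    have h1 : g (φ x) ∈ w.ring ↔ ψ (g (φ x)) ∈ P.ring := by
      rw [hw, ValuationSubring.mem_comap]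
      rfl
    rw [← h1, ← hg2, Place.mem_map, AlgEquiv.symm_apply_apply]

/-- a function with a pole is transcendental -/
private lemma pair_transc {F : Type} [Field F] [Algebra QQ F] (O : Place QQ F) {β : F}
    (h : β ∉ O.ring) : Transcendental QQ β := by
  intro ha
  apply h
  have h1 : IsIntegral QQ β := ha.isIntegral
  have h2 : β ∈ Set.range (algebraMap QQ F) :=
    minpoly.mem_range_of_degree_eq_one QQ β
      (IsAlgClosed.degree_eq_one_of_irreducible QQ (minpoly.irreducible h1))
  obtain ⟨c, hc⟩ := h2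
  rw [← hc]
  exact O.const_mem c

/-- a dessin can be embedded into the field of algebraic functions, compatibly with `P`; since
there is only one pole of `β`, it is then compatible with `O` -/
theorem pair_dessin (hΩ : IsAlgFun tt) {P O : Place QQ Om} (hP : P.Vanishes tt) (hO : tt ∉ O.ring) {F : Type}
    [Field F] [Algebra QQ F] {F₀ : Subfield F} {β : F} {P' O' : Place QQ F}
    (d : Dessin F₀ β P' O') : ∃ (F' : IntermediateField QQ Om) (e : F ≃ₐ[QQ] F'),
      Belyi tt F' ∧ Below (P'.map e) P ∧ Below (O'.map e) O := by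
  have hβ : Transcendental QQ β := pair_transc O' d.pole
  obtain ⟨f, hf1, hf2⟩ := pair_choice hΩ d.curve hβ P' d.zero P hP
  obtain ⟨o', ho'⟩ := pair_pull f O β (by
    rw [hf1]
    exact hO)
  have hoO : o' = O' := by
    by_contra hne
    have h1 := d.reg o' hne
    rw [ho', ValuationSubring.mem_comap] at h1
    apply hO
    rw [← hf1]
    exact h1
  rw [hoO] at ho'
  -- the image
  let F' : IntermediateField QQ Om := f.fieldRange
  let e : F ≃ₐ[QQ] F' := AlgEquiv.ofInjectiveField f
  have he : ∀ x, ((e x : F') : Om) = f x := fun x => rfl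
  have he' : ∀ y : F', f (e.symm y) = (y : Om) := by
    intro y
    rw [← he, AlgEquiv.apply_symm_apply]
  have hmem : tt ∈ F' := ⟨β, hf1⟩
  have heβ : e β = ⟨tt, hmem⟩ := by
    apply Subtype.ext
    rw [he, hf1]
  refine ⟨F', e, ⟨pair_curve e d.curve, hmem, ?_⟩, ?_, ?_⟩
  · intro v c hv h0 h1
    rw [← heβ] at hv ⊢
    have h2 : (v.map e.symm).At β c := by
      rw [Place.at_map]
      exact hv
    have h3 := pair_unif e v _ (d.unram _ c h2 h0 h1)
    rw [map_sub, AlgEquiv.commutes] at h3
    exact h3
  · unfold Below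
    ext y
    rw [Place.mem_map, hf2, ValuationSubring.mem_comap, ValuationSubring.mem_comap]
    show f (e.symm y) ∈ P.ring ↔ (y : Om) ∈ P.ring
    rw [he']
  · unfold Below
    ext y
    rw [Place.mem_map, ho', ValuationSubring.mem_comap, ValuationSubring.mem_comap]
    show f (e.symm y) ∈ O.ring ↔ (y : Om) ∈ O.ring
    rw [he']

/-- the projection from a larger field -/
theorem pair_cover {P O : Place QQ Om} {F : Type} [Field F] [Algebra QQ F] {P' O' : Place QQ F}
    {F' F'' : IntermediateField QQ Om} (hle : F' ≤ F'') (hF : IsCurve QQ F)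
    (hF'' : IsCurve QQ F'') (e : F ≃ₐ[QQ] F') (hp : Below (P'.map e) P)
    (ho : Below (O'.map e) O) {p o : Place QQ F''} (hp'' : Below p P) (ho'' : Below o O) :
    ∃ Ψ : (Bool → Place QQ F'') → (Bool → Place QQ F),
      IsMor (L := fun _ : Bool => F'') (L' := fun _ : Bool => F) Ψ ∧
        (square p o).mapDomain Ψ = square P' O' := by
  let h : F →ₐ[QQ] F'' := (IntermediateField.inclusion hle).comp (e : F →ₐ[QQ] F')
  have hpull : ∀ v : Place QQ F'', ∃ w : Place QQ F, v.ring.comap (h : F →+* F'') = w.ring :=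
    fun v => exists_pull hF hF'' (RingEquiv.refl QQ) (h : F →+* F'') (fun c => h.commutes c) v
  choose g hg using hpull
  have hgen : ∀ (v : Place QQ F'') (w : Place QQ F) (V : Place QQ Om), Below v V →
      Below (w.map e) V → g v = w := by
    intro v w V hv hw
    apply Place.ext
    rw [← hg]
    ext x
    rw [ValuationSubring.mem_comap, hv, ValuationSubring.mem_comap]
    have h1 : x ∈ w.ring ↔ e x ∈ (w.map e).ring := by
      rw [Place.mem_map, AlgEquiv.symm_apply_apply]
    rw [h1, hw, ValuationSubring.mem_comap]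
    rfl
  refine ⟨fun a b => g (a b), fun b => Or.inr ⟨b, h, fun a => (hg _).symm⟩, ?_⟩
  rw [map_square]
  have hgp := hgen p P' P hp'' hp
  have hgo := hgen o O' O ho'' ho
  have hpair : ∀ u v : Place QQ F'', (fun b => g (pair (L := fun _ => F'') u v b)) =
      pair (L := fun _ => F) (g u) (g v) := by
    intro u v
    funext b
    cases b <;> rfl
  rw [hpair, hpair, hpair, hpair, hgp, hgo]
  rfl

/-- places below `P` and `O` -/
theorem pair_below (hΩ : IsAlgFun tt) {P O : Place QQ Om} (hP : P.Vanishes tt) (hO : tt ∉ O.ring)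
    {F : IntermediateField QQ Om} (hF : tt ∈ F) :
    ∃ p o : Place QQ F, Below p P ∧ Below o O := by
  obtain ⟨p, hp⟩ := pair_pull F.val P (⟨tt, hF⟩⁻¹ : F) (by
    rw [map_inv₀]
    rcases (P.vanishes_iff_or tt).mp hP with h | h
    · exact absurd h (pair_tt_ne hΩ)
    · exact h)
  obtain ⟨o, ho⟩ := pair_pull F.val O (⟨tt, hF⟩ : F) hO
  exact ⟨p, o, hp, ho⟩

end Pool.Agent.Dess
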