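import Pool.Agent.Dess.Tuple
import Pool.Agent.Dess.Model
import Pool.Agent.Dess.Chart

/-!
# Two points of the Galois closure (package D17)
-/

set_option autoImplicit false

noncomputable section

namespace Pool.Agent.Dess

open Pool.Agent.ZCyc Polynomial
open scoped Classical

/-- Existence of points. -/
private theorem points_exists_place {k F : Type} [Field k] [Field F] [Algebra k F] {t : F}
    (ht : Transcendental k t) (c : k) : ∃ u : Place k F, u.At t c := by
  set A : Subring F := (Algebra.adjoin k {t}).toSubring with hA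
  have htA : t - algebraMap k F c ∈ A := by
    rw [hA, Subalgebra.mem_toSubring]
    exact sub_mem (Algebra.self_mem_adjoin_singleton k t) (Subalgebra.algebraMap_mem _ c)
  set I : Ideal A := Ideal.span {⟨t - algebraMap k F c, htA⟩} with hI
  have hItop : I ≠ ⊤ := by
    intro h
    rw [Ideal.eq_top_iff_one, hI, Ideal.mem_span_singleton] at h
    obtain ⟨⟨g, hg⟩, h1⟩ := h
    rw [hA, Subalgebra.mem_toSubring, Algebra.adjoin_singleton_eq_range_aeval] at hg
    obtain ⟨p, hp⟩ := hg
    have h2 : (1 : F) = (t - algebraMap k F c) * g := by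
      have := congrArg (Subtype.val) h1
      simpa using this
    have h3 : Polynomial.aeval t ((Polynomial.X - Polynomial.C c) * p - 1) = 0 := by
      rw [map_sub, _root_.map_mul, map_sub, Polynomial.aeval_X, Polynomial.aeval_C, map_one]
      rw [show Polynomial.aeval t p = g from hp, ← h2, sub_self]
    have h4 := (transcendental_iff.1 ht) _ h3
    have h5 := congrArg (Polynomial.eval c) h4
    simp at h5
  obtain ⟨V, hV1, hV2⟩ := Ideal.image_subset_nonunits_valuationSubring I hItop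
  have hmem : t - algebraMap k F c ∈ V.nonunits := by
    apply hV2
    exact ⟨⟨t - algebraMap k F c, htA⟩, Ideal.subset_span rfl, rfl⟩
  have hne : t - algebraMap k F c ≠ 0 := by
    intro h
    apply ht
    rw [sub_eq_zero.1 h]
    exact isAlgebraic_algebraMap c
  refine ⟨⟨V, ?_, ?_⟩, hmem⟩
  · intro a
    apply hV1
    rw [hA, Subalgebra.mem_toSubring]
    exact Subalgebra.algebraMap_mem _ a
  · rintro rfl
    rw [ValuationSubring.mem_nonunits_iff_or] at hmem
    rcases hmem with h | h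
    · exact hne h
    · exact h (ValuationSubring.mem_top _)

/-- Vanishing and restriction of places. -/
private theorem points_vanishes {k F M : Type} [Field k] [Field F] [Algebra k F] [Field M]
    [Algebra k M] (φ : F →+* M) {v : Place k F} {V : Place k M} (h : V.ring.comap φ = v.ring)
    (f : F) : V.Vanishes (φ f) ↔ v.Vanishes f := by
  rw [Place.vanishes_iff_or, Place.vanishes_iff_or, ← h, ValuationSubring.mem_comap, map_inv₀,
    map_eq_zero]

/-- A place of the rational function field is determined by the value of the variable. -/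
private theorem points_rational {k M : Type} [Field k] [Field M] [Algebra k M] {t : M}
    (ht : Transcendental k t) {c : k} {V P : Place k M} (hV : V.At t c) (hP : P.At t c) {f : M}
    (hf : f ∈ IntermediateField.adjoin k {t}) (h : f ∈ V.ring) : f ∈ P.ring := by
  rw [IntermediateField.mem_adjoin_simple_iff] at hf
  obtain ⟨r, s, rfl⟩ := hf
  by_cases hs : s = 0
  · rw [hs, map_zero, div_zero]
    exact zero_mem _
  have hinj : ∀ p : k[X], p ≠ 0 → aeval t p ≠ 0 := fun p hp h0 =>
    hp ((transcendental_iff.1 ht) p h0)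
  set d := GCDMonoid.gcd r s with hd
  have hd0 : d ≠ 0 := fun h0 => hs ((gcd_eq_zero_iff r s).1 h0).2
  have hr' : d * (r / d) = r := EuclideanDomain.mul_div_cancel' hd0 (gcd_dvd_left r s)
  have hs' : d * (s / d) = s := EuclideanDomain.mul_div_cancel' hd0 (gcd_dvd_right r s)
  have hco : IsCoprime (r / d) (s / d) := isCoprime_div_gcd_div_gcd hs
  set r₁ := r / d
  set s₁ := s / d
  have hs₁ : s₁ ≠ 0 := by
    intro h0
    apply hs
    rw [← hs', h0, mul_zero]
  have e1 : aeval t r / aeval t s = aeval t r₁ / aeval t s₁ := by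
    rw [← hr', ← hs', map_mul, map_mul]
    exact mul_div_mul_left _ _ (hinj d hd0)
  rw [e1] at h ⊢
  by_cases h1 : s₁.eval c = 0
  · exfalso
    have h2 : r₁.eval c ≠ 0 := by
      intro h3
      obtain ⟨u, w, huw⟩ := hco
      have := congrArg (Polynomial.eval c) huw
      simp [h1, h3] at this
    have h3 : V.At (aeval t s₁ / aeval t r₁) (s₁.eval c / r₁.eval c) :=
      (hV.aeval s₁).div (hV.aeval r₁) h2
    rw [h1, zero_div, Place.at_zero_iff] at h3
    have h4 := Place.Vanishes.mul V h3 h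
    have hr₁ : r₁ ≠ 0 := by
      rintro h5
      rw [h5] at h2
      simp at h2
    have h5 : aeval t s₁ / aeval t r₁ * (aeval t r₁ / aeval t s₁) = algebraMap k M 1 := by
      rw [map_one]
      have := hinj r₁ hr₁
      have := hinj s₁ hs₁
      field_simp
    rw [h5] at h4
    exact V.const_unit one_ne_zero h4
  · exact ((hP.aeval r₁).div (hP.aeval s₁) h1).mem

/-- Lemma A, existence. -/
private theorem points_lift {M : Type} [Field M] [Algebra QQ M] {t : M} (hM : Frame t)
    (hMc : IsCurve QQ M) {L : Type} [Field L] [Algebra QQ L] (hL : IsCurve QQ L) {x : L}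
    {a : Place QQ L} {c : QQ} (ha : a.At x c) (φ₀ : L →ₐ[QQ] M)
    (hφ₀ : φ₀ x = t) {P : Place QQ M} (hP : P.At t c) (τ : Gam) (hc : τ c = c) :
    ∃ φ : L →+* M, (∀ d, φ (algebraMap QQ L d) = algebraMap QQ M (τ d)) ∧ φ x = t ∧
      P.ring.comap φ = a.ring := by
  obtain ⟨g, hgt, hgc⟩ := hM.lift τ
  obtain ⟨V₀, hV₀⟩ := exists_ext hL hMc φ₀ a
  have hgs : ∀ d, (g.symm : M →+* M) (algebraMap QQ M d) =
      algebraMap QQ M ((τ.symm : QQ ≃+* QQ) d) := by
    intro d
    have h1 := hgc (τ.symm d)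
    rw [AlgEquiv.apply_symm_apply] at h1
    show g.symm (algebraMap QQ M d) = algebraMap QQ M (τ.symm d)
    rw [← h1, RingEquiv.symm_apply_apply]
  obtain ⟨V, hV⟩ := exists_pull hMc hMc (τ.symm : QQ ≃+* QQ) (g.symm : M →+* M) hgs V₀
  have hts : g.symm t = t := by rw [← hgt, RingEquiv.symm_apply_apply, hgt]
  have hcs : τ.symm c = c := by
    rw [← hc, AlgEquiv.symm_apply_apply, hc]
  have hVt : V.At t c := by
    unfold Place.At
    rw [← points_vanishes (g.symm : M →+* M) hV]
    have h1 : (g.symm : M →+* M) (t - algebraMap QQ M c) = (φ₀ : L →+* M) (x - algebraMap QQ L c) := by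
      rw [map_sub, hgs]
      show g.symm t - algebraMap QQ M (τ.symm c) = φ₀ (x - algebraMap QQ L c)
      rw [hts, hcs, map_sub, hφ₀, AlgHom.commutes]
    rw [h1, points_vanishes (φ₀ : L →+* M) hV₀]
    exact ha
  have := hM.fin
  have := hM.gal
  obtain ⟨q, hq, hqV⟩ := galois_trans hMc (IntermediateField.adjoin QQ {t}) V P fun f hf =>
    ⟨fun h => points_rational hM.transc hVt hP hf h, fun h => points_rational hM.transc hP hVt hf h⟩
  refine ⟨(q : M →+* M).comp ((g : M →+* M).comp (φ₀ : L →+* M)), ?_, ?_, ?_⟩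
  · intro d
    show q (g (φ₀ (algebraMap QQ L d))) = _
    rw [AlgHom.commutes, hgc, AlgEquiv.commutes]
  · show q (g (φ₀ x)) = t
    rw [hφ₀, hgt]
    exact hq t (IntermediateField.mem_adjoin_simple_self QQ t)
  · ext f
    rw [← hqV, ValuationSubring.mem_comap]
    show q (g (φ₀ f)) ∈ (V.map q).ring ↔ _
    rw [Place.mem_map, AlgEquiv.symm_apply_apply, ← hV, ValuationSubring.mem_comap]
    show g.symm (g (φ₀ f)) ∈ V₀.ring ↔ _
    rw [RingEquiv.symm_apply_apply, ← hV₀, ValuationSubring.mem_comap]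
    rfl

/-- Representatives of the embeddings of a number field. -/
private theorem points_rep (K : IntermediateField ℚ QQ) (σ : K →ₐ[ℚ] QQ) :
    ∃ τ : Gam, ∀ c : K, τ c = σ c := by
  have halg : Algebra.IsAlgebraic ℚ QQ := AlgebraicClosure.isAlgebraic ℚ
  have hcl : IsAlgClosure ℚ QQ := ⟨inferInstance, halg⟩
  have : Normal ℚ QQ := IsAlgClosure.normal ℚ QQ
  refine ⟨AlgEquiv.ofBijective (σ.liftNormal QQ) (Algebra.IsAlgebraic.algHom_bijective _),
    fun c => ?_⟩
  exact σ.liftNormal_commutes QQ c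

theorem exists_points {M : Type} [Field M] [Algebra QQ M] {t : M} (hM : Frame t)
    (L : Bool → Type) [∀ i, Field (L i)] [∀ i, Algebra QQ (L i)] (hL : ∀ i, IsCurve QQ (L i))
    (x : ∀ i, L i) (a o : ∀ i, Place QQ (L i)) (e : Bool → QQ) (C : Bool → Set QQ)
    (h : ∀ i, Chart (x i) (a i) (o i) (e i) (C i)) (K : IntermediateField ℚ QQ)
    [FiniteDimensional ℚ K] (L₀ : ∀ i, Subfield (L i))
    (hmod : ∀ i, Model K (x i) (L₀ i) (a i) (o i))
    (hC : ∀ (i j : Bool) (κ : Gam), (i ≠ j ∨ ∃ c ∈ K, κ c ≠ c) → κ (e i) ∉ C j)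
    (φ₀ : ∀ i, L i →ₐ[QQ] M) (hφ₀ : ∀ i, φ₀ i (x i) = t) :
    ∃ (φ : ∀ i, Gam → L i →+* M) (P O : Place QQ M),
      (∀ i τ c, φ i τ (algebraMap QQ (L i) c) = algebraMap QQ M (τ c)) ∧
      (∀ i τ, φ i τ (x i) = t) ∧ (∀ i τ, P.ring.comap (φ i τ) = (a i).ring) ∧
      ∀ i τ, O.ring.comap (φ i τ) = (o i).ring := by
  have hMc : IsCurve QQ M := ⟨t, hM.transc, hM.fin⟩
  obtain ⟨P, hP⟩ := points_exists_place hM.transc 0
  obtain ⟨O₁, hO₁⟩ := points_exists_place hM.transc 1
  have ha : ∀ i, (a i).At (x i) 0 := fun i => Place.at_zero_iff.2 (h i).a_unif.2.1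
  have ho : ∀ i, (o i).At (x i) 1 := fun i => by
    unfold Place.At
    rw [map_one]
    exact (h i).o_unif.2.1
  have hA : ∀ (i : Bool) (τ : Gam), ∃ φ : L i →+* M,
      (∀ d, φ (algebraMap QQ (L i) d) = algebraMap QQ M (τ d)) ∧ φ (x i) = t ∧
      P.ring.comap φ = (a i).ring := fun i τ =>
    points_lift hM hMc (hL i) (ha i) (φ₀ i) (hφ₀ i) hP τ (map_zero τ)
  have hB : ∀ (i : Bool) (τ : Gam), ∃ φ : L i →+* M,
      (∀ d, φ (algebraMap QQ (L i) d) = algebraMap QQ M (τ d)) ∧ φ (x i) = t ∧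
      O₁.ring.comap φ = (o i).ring := fun i τ =>
    points_lift hM hMc (hL i) (ho i) (φ₀ i) (hφ₀ i) hO₁ τ (map_one τ)
  choose φ hφc hφx hφP using hA
  choose φ' hφc' hφx' hφO using hB
  choose rep hrep using points_rep K
  have hun : ∀ i j : Bool × (K →ₐ[ℚ] QQ), i ≠ j → ∀ v : Place QQ (L i.1),
      v.At (x i.1) ((rep i.2).symm (rep j.2 (e j.1))) →
      IsUnif v (x i.1 - algebraMap QQ (L i.1) ((rep i.2).symm (rep j.2 (e j.1)))) := by
    intro i j hij v hv
    refine (h i.1).unram v _ hv ?_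
    refine hC j.1 i.1 ((rep j.2).trans (rep i.2).symm) ?_
    by_contra hcon
    push Not at hcon
    apply hij
    refine Prod.ext hcon.1.symm ?_
    apply AlgHom.ext
    intro c
    have h4 := hcon.2 c c.2
    rw [AlgEquiv.trans_apply, AlgEquiv.symm_apply_eq] at h4
    rw [← hrep, ← hrep]
    exact h4.symm
  obtain ⟨g, hgt, hg⟩ := trans_tuple hM (J := Bool × (K →ₐ[ℚ] QQ)) (fun j => L j.1)
    (fun j => hL j.1) (fun j => x j.1) (fun j => rep j.2) (fun j => e j.1)
    (fun j => (h j.1).transc) (fun j => (h j.1).total) hun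
    (fun j => φ j.1 (rep j.2)) (fun j => φ' j.1 (rep j.2)) (fun j => hφc j.1 (rep j.2))
    (fun j => hφx j.1 (rep j.2)) (fun j => hφc' j.1 (rep j.2)) (fun j => hφx' j.1 (rep j.2))
  obtain ⟨O, hO⟩ := exists_pull hMc hMc (RingEquiv.refl QQ) (g : M →+* M)
    (fun c => g.commutes c) O₁
  refine ⟨φ, P, O, hφc, hφx, hφP, fun i τ => ?_⟩
  set σ : K →ₐ[ℚ] QQ := (τ : QQ →ₐ[ℚ] QQ).comp K.val with hσ
  have h1 : ∀ c ∈ K, rep σ c = τ c := fun c hc => hrep σ ⟨c, hc⟩
  obtain ⟨r, hrc, hr0, hra, hro⟩ := (hmod i).lift (τ.trans (rep σ).symm) fun c hc => by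
    rw [AlgEquiv.trans_apply, ← h1 c hc, AlgEquiv.symm_apply_apply]
  have h2 : φ i τ = (φ i (rep σ)).comp (r : L i →+* L i) := by
    refine taylor (hL i) hMc (τ : QQ ≃+* QQ) (hφc i τ) ?_ (hφP i τ) ?_
      (x := x i) (c := 0) ?_ ?_
    · intro c
      show φ i (rep σ) (r (algebraMap QQ (L i) c)) = algebraMap QQ M (τ c)
      rw [hrc, hφc, AlgEquiv.trans_apply, AlgEquiv.apply_symm_apply]
    · rw [← ValuationSubring.comap_comap, hφP, hra]
    · rw [map_zero, sub_zero]
      exact (h i).a_unif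
    · show _ = φ i (rep σ) (r (x i))
      rw [hr0 _ (hmod i).mem, hφx, hφx]
  ext f
  rw [h2, ← hO, ValuationSubring.mem_comap, ValuationSubring.mem_comap]
  show g (φ i (rep σ) (r f)) ∈ O₁.ring ↔ _
  rw [hg (i, σ) (r f)]
  show φ' i (rep σ) (r f) ∈ O₁.ring ↔ _
  rw [← ValuationSubring.mem_comap, hφO]
  exact Iff.of_eq (congrArg (fun R => f ∈ R) hro)

end Pool.Agent.Dess
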