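import Pool.Agent.Dess.Pole
import Pool.Agent.Dess.Act
import Pool.Agent.Dess.Ext

/-!
# A rational function with a single pole at a rational point
-/

set_option autoImplicit false

noncomputable section

namespace Pool.Agent.Dess

open Pool.Agent.ZCyc
open scoped Classical

/-- every function is a combination of rational functions over `ℚ` -/
theorem single_span {F : Type} [Field F] [Algebra QQ F] {F₀ : Subfield F}
    (gen : IntermediateField.adjoin QQ (F₀ : Set F) = ⊤) (w : F) :
    ∃ c : QQ →₀ F₀, w = ∑ a ∈ c.support, algebraMap QQ F a * (c a : F) := by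
  have hch : CharZero F := charZero_of_injective_algebraMap (algebraMap QQ F).injective
  let S : Set F := Set.range (algebraMap QQ F)
  have hS : ∀ x ∈ S, IsAlgebraic F₀ x := by
    rintro _ ⟨c, rfl⟩
    have h1 : IsAlgebraic ℚ c := Algebra.IsAlgebraic.isAlgebraic c
    have h2 : IsAlgebraic ℚ (algebraMap QQ F c) := h1.algebraMap
    exact h2.tower_top F₀
  have h1 := IntermediateField.adjoin_toSubalgebra_of_isAlgebraic hS
  have h2 : w ∈ IntermediateField.adjoin F₀ S := by
    have h3 : w ∈ IntermediateField.adjoin QQ (F₀ : Set F) := by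
      rw [gen]
      exact IntermediateField.mem_top
    have h4 : w ∈ Subfield.closure (Set.range (algebraMap QQ F) ∪ (F₀ : Set F)) := h3
    have h5 : Subfield.closure (Set.range (algebraMap QQ F) ∪ (F₀ : Set F)) ≤
        (IntermediateField.adjoin F₀ S).toSubfield := by
      rw [Subfield.closure_le]
      rintro x (hx | hx)
      · exact IntermediateField.subset_adjoin F₀ S hx
      · exact (IntermediateField.adjoin F₀ S).algebraMap_mem ⟨x, hx⟩
    exact h5 h4
  rw [← IntermediateField.mem_toSubalgebra, h1, ← Subalgebra.mem_toSubmodule,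
    Algebra.adjoin_eq_span] at h2
  have h6 : (Submonoid.closure S : Set F) = Set.range (algebraMap QQ F) := by
    have h7 : S = (MonoidHom.mrange (algebraMap QQ F : QQ →* F) : Set F) := by
      ext x
      rfl
    rw [h7, Submonoid.closure_eq]
    rfl
  rw [h6, Finsupp.mem_span_range_iff_exists_finsupp] at h2
  obtain ⟨c, hc⟩ := h2
  refine ⟨c, ?_⟩
  rw [← hc, Finsupp.sum]
  apply Finset.sum_congr rfl
  intro a _
  rw [mul_comm]
  rfl

/-- every embedding of a number field extends to an automorphism of `QQ` -/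
theorem single_lift (K : IntermediateField ℚ QQ) (σ : K →ₐ[ℚ] QQ) :
    ∃ τ : Gam, ∀ c : K, τ (c : QQ) = σ c := by
  have hn : Normal ℚ QQ := inferInstance
  let τ : QQ →ₐ[ℚ] QQ := σ.liftNormal QQ
  have hτ : Function.Bijective τ := Algebra.IsAlgebraic.algHom_bijective τ
  refine ⟨AlgEquiv.ofBijective τ hτ, fun c => ?_⟩
  exact σ.liftNormal_commutes QQ c

theorem single_regular {F : Type} [Field F] [Algebra QQ F] (hF : IsCurve QQ F) {O : Place QQ F}
    (τ : Gam) (g : F ≃+* F) (hg : ∀ c, g (algebraMap QQ F c) = algebraMap QQ F (τ c))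
    (hO : O.ring.comap (g : F →+* F) = O.ring) {w : F} (hw : ∀ v, v ≠ O → w ∈ v.ring)
    (v : Place QQ F) (hv : v ≠ O) : g w ∈ v.ring := by
  obtain ⟨v', hv'⟩ := exists_pull hF hF (τ : QQ ≃+* QQ) (g : F →+* F) hg v
  have hne : v' ≠ O := by
    rintro rfl
    apply hv
    apply Place.ext
    have h1 : v.ring.comap (g : F →+* F) = v'.ring.comap (g : F →+* F) := hv'.trans hO.symm
    ext x
    have h2 : g (g.symm x) = x := g.apply_symm_apply x
    have h3 : g.symm x ∈ v.ring.comap (g : F →+* F) ↔
        g.symm x ∈ v'.ring.comap (g : F →+* F) := by rw [h1]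
    rw [ValuationSubring.mem_comap, ValuationSubring.mem_comap] at h3
    rw [← h2]
    exact h3
  have h1 := hw v' hne
  rw [← hv', ValuationSubring.mem_comap] at h1
  exact h1

theorem exists_single₀ {F : Type} [Field F] [Algebra QQ F] (hF : IsCurve QQ F)
    {F₀ : Subfield F} (gen : IntermediateField.adjoin QQ (F₀ : Set F) = ⊤) {P O : Place QQ F}
    (h : Act F₀ P O) : ∃ w ∈ F₀, Transcendental QQ w ∧ ∀ v, v ≠ O → w ∈ v.ring := by
  have hch : CharZero F := charZero_of_injective_algebraMap (algebraMap QQ F).injective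
  obtain ⟨w, hwt, hw⟩ := exists_single_pole hF O
  obtain ⟨c, hc⟩ := single_span gen w
  let K : IntermediateField ℚ QQ := IntermediateField.adjoin ℚ (c.support : Set QQ)
  have hK : FiniteDimensional ℚ K :=
    IntermediateField.finiteDimensional_adjoin fun x _ => Algebra.IsIntegral.isIntegral x
  have hcK : ∀ a ∈ c.support, a ∈ K := fun a ha => IntermediateField.subset_adjoin _ _ ha
  choose τ hτ using single_lift K
  choose g hg1 hg2 hg3 hg4 using h
  -- the traces
  let T : K → F := fun θ => ∑ σ : K →ₐ[ℚ] QQ, algebraMap QQ F (σ θ) * g (τ σ) w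
  let a' : c.support → K := fun a => ⟨a.1, hcK a.1 a.2⟩
  have hgw : ∀ σ : K →ₐ[ℚ] QQ, g (τ σ) w =
      ∑ a : c.support, algebraMap QQ F (σ (a' a)) * (c a : F) := by
    intro σ
    conv_lhs => rw [hc, map_sum]
    rw [← Finset.sum_coe_sort c.support (fun a => g (τ σ) (algebraMap QQ F a * (c a : F)))]
    apply Finset.sum_congr rfl
    intro a _
    rw [map_mul, hg1, hg2 _ _ (c a).2]
    congr 2
    exact hτ σ (a' a)
  have hT : ∀ θ : K, T θ = ∑ a : c.support,
      algebraMap QQ F (algebraMap ℚ QQ (Algebra.trace ℚ K (θ * a' a))) * (c a : F) := by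
    intro θ
    simp only [T]
    calc ∑ σ : K →ₐ[ℚ] QQ, algebraMap QQ F (σ θ) * g (τ σ) w
        = ∑ σ : K →ₐ[ℚ] QQ, ∑ a : c.support,
            algebraMap QQ F (σ (θ * a' a)) * (c a : F) := by
          apply Finset.sum_congr rfl
          intro σ _
          rw [hgw, Finset.mul_sum]
          apply Finset.sum_congr rfl
          intro a _
          rw [map_mul, map_mul, mul_assoc]
      _ = ∑ a : c.support, ∑ σ : K →ₐ[ℚ] QQ,
            algebraMap QQ F (σ (θ * a' a)) * (c a : F) := Finset.sum_comm
      _ = _ := by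
          apply Finset.sum_congr rfl
          intro a _
          rw [← Finset.sum_mul, ← map_sum, trace_eq_sum_embeddings QQ]
  have hT₀ : ∀ θ, T θ ∈ F₀ := by
    intro θ
    rw [hT]
    apply sum_mem
    intro a _
    refine mul_mem ?_ (c a).2
    rw [← RingHom.comp_apply, eq_ratCast]
    exact SubfieldClass.ratCast_mem F₀ _
  have hTreg : ∀ θ v, v ≠ O → T θ ∈ v.ring := by
    intro θ v hv
    apply sum_mem
    intro σ _
    exact mul_mem (v.const_mem _) (single_regular hF (τ σ) (g (τ σ)) (hg1 _) (hg4 _) hw v hv)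
  by_contra hcon
  push Not at hcon
  have hconst : ∀ θ, ∃ d : QQ, algebraMap QQ F d = T θ := by
    intro θ
    by_cases ht : Transcendental QQ (T θ)
    · obtain ⟨v, hv, hv'⟩ := hcon (T θ) (hT₀ θ) ht
      exact absurd (hTreg θ v hv) hv'
    · rw [Transcendental, not_not] at ht
      have h1 := minpoly.irreducible ht.isIntegral
      have h2 := IsAlgClosed.degree_eq_one_of_irreducible QQ h1
      exact minpoly.mem_range_of_degree_eq_one QQ _ h2
  choose d hd using hconst
  let b := Module.finBasis ℚ K
  apply hwt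
  have hw' : w = algebraMap QQ F (∑ i, (b.traceDual i : QQ) * d (b i)) := by
    rw [map_sum]
    have h1 : ∀ i, algebraMap QQ F ((b.traceDual i : QQ) * d (b i)) =
        ∑ a : c.support, algebraMap QQ F ((b.traceDual i : QQ) *
          algebraMap ℚ QQ (Algebra.trace ℚ K (b i * a' a))) * (c a : F) := by
      intro i
      rw [map_mul, hd, hT, Finset.mul_sum]
      apply Finset.sum_congr rfl
      intro a _
      rw [(algebraMap QQ F).map_mul, mul_assoc]
    simp only [h1]
    rw [Finset.sum_comm]
    conv_lhs => rw [hc]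
    rw [← Finset.sum_coe_sort c.support (fun a => algebraMap QQ F a * (c a : F))]
    apply Finset.sum_congr rfl
    intro a _
    rw [← Finset.sum_mul, ← map_sum]
    congr 2
    have h2 := b.traceDual.sum_repr (a' a)
    have h3 := congrArg (fun x : K => (x : QQ)) h2
    simp only [Module.Basis.traceDual_repr_apply, Algebra.traceForm_apply] at h3
    rw [show ((a' a : K) : QQ) = (a : QQ) from rfl] at h3
    rw [← h3, AddSubmonoidClass.coe_finsetSum]
    apply Finset.sum_congr rfl
    intro i _
    rw [mul_comm (b i) (a' a), Algebra.smul_def, mul_comm]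
    rfl
  rw [hw']
  exact isAlgebraic_algebraMap _

end Pool.Agent.Dess
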