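import Pool.Agent.Dess.Pole
import Pool.Agent.Dess.Taylor
import Pool.Agent.Dess.Ext

/-!
# The Galois closure of an unramified covering is unramified
-/

set_option autoImplicit false

noncomputable section

namespace Pool.Agent.Dess

open Pool.Agent.ZCyc Polynomial
open scoped Classical

section

variable {k M F : Type} [Field k] [IsAlgClosed k] [CharZero k] [Field M] [Algebra k M] [Field F]
  [Algebra k F]

omit [IsAlgClosed k] [CharZero k] in
private lemma unram_map_mem (v : Place k M) (g : M ≃ₐ[k] M) (x : M) :
    g x ∈ (v.map g).ring ↔ x ∈ v.ring := by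
  rw [Place.mem_map, AlgEquiv.symm_apply_apply]

omit [IsAlgClosed k] [CharZero k] in
private lemma unram_map_unif {v : Place k M} {π : M} (h : IsUnif v π) (g : M ≃ₐ[k] M) :
    IsUnif (v.map g) (g π) := by
  refine ⟨(map_ne_zero_iff g g.injective).2 h.1, ?_, fun f hf => ?_⟩
  · rw [Place.vanishes_map, AlgEquiv.symm_apply_apply]
    exact h.2.1
  · rw [Place.vanishes_map] at hf
    have h1 := h.2.2 _ hf
    rw [← unram_map_mem v g, map_div₀, AlgEquiv.apply_symm_apply] at h1
    exact h1

omit [IsAlgClosed k] [CharZero k] in
/-- a uniformizer changes by a unit -/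
private lemma unram_unif_div {v : Place k M} {π π' : M} (h : IsUnif v π) (h' : IsUnif v π') :
    π / π' ∈ v.ring := h'.2.2 _ h.2.1

omit [IsAlgClosed k] [CharZero k] in
/-- if `w` vanishes and is not a uniformizer, it is divisible by the square of a uniformizer -/
private lemma unram_sq {v : Place k M} {w π : M} (hw0 : w ≠ 0)
    (hw : v.Vanishes w) (hn : ¬ IsUnif v w) (hπ : IsUnif v π) : w / π ^ 2 ∈ v.ring := by
  have h1 := hπ.2.2 w hw
  have h2 : v.Vanishes (w / π) := by
    rw [v.vanishes_iff_or]
    right
    intro h3
    apply hn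
    refine ⟨hw0, hw, fun g hg => ?_⟩
    have h4 := mul_mem (hπ.2.2 g hg) h3
    rw [inv_div] at h4
    have h5 : g / π * (π / w) = g / w := by
      have := hπ.1
      field_simp
    rwa [h5] at h4
  have h3 := hπ.2.2 _ h2
  rw [div_div, ← sq] at h3
  exact h3

theorem unram_closure {t : M} (ht : Transcendental k t)
    [FiniteDimensional (IntermediateField.adjoin k {t}) M]
    [IsGalois (IntermediateField.adjoin k {t}) M] (hF : IsCurve k F) {x : F} {c : k}
    (hun : ∀ u : Place k F, u.At x c → IsUnif u (x - algebraMap k F c))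
    (hgen : ∀ σ : M ≃ₐ[k] M, (∀ φ : F →ₐ[k] M, φ x = t → ∀ f, σ (φ f) = φ f) → ∀ f, σ f = f)
    (V : Place k M) (hV : V.At t c) : IsUnif V (t - algebraMap k M c) := by
  have hM : IsCurve k M := ⟨t, ht, inferInstance⟩
  by_contra hn
  let E := IntermediateField.adjoin k {t}
  have htE : t ∈ E := IntermediateField.mem_adjoin_simple_self k t
  have hw : Transcendental k (t - algebraMap k M c) := by
    intro h
    apply ht
    simpa using h.add (isAlgebraic_algebraMap (R := k) (A := M) c)
  set w := t - algebraMap k M c with hwdef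
  have hw0 : w ≠ 0 := by
    intro h
    rw [h] at hw
    exact hw isAlgebraic_zero
  have hfix : ∀ σ : M ≃ₐ[E] M, σ.restrictScalars k t = t := fun σ => σ.commutes ⟨t, htE⟩
  have hfixw : ∀ σ : M ≃ₐ[E] M, σ.restrictScalars k w = w := fun σ => by
    rw [hwdef, map_sub, hfix, AlgEquiv.commutes]
  -- the stabilizer of a place over `c` is trivial
  have hstab : ∀ (v : Place k M), v.At t c → ∀ σ : M ≃ₐ[E] M,
      v.map (σ.restrictScalars k) = v → σ = 1 := by
    intro v hv σ hσ
    ext f
    refine hgen (σ.restrictScalars k) ?_ f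
    intro φ hφ f
    have h1 : ∀ c, (φ : F →+* M) (algebraMap k F c) = algebraMap k M (RingEquiv.refl k c) :=
      fun c => φ.commutes c
    have h2 : ∀ c, ((σ.restrictScalars k : M →+* M).comp (φ : F →+* M)) (algebraMap k F c) =
        algebraMap k M (RingEquiv.refl k c) := by
      intro c
      rw [RingHom.comp_apply, h1]
      exact (σ.restrictScalars k).commutes c
    obtain ⟨u, hu⟩ := exists_pull hF hM (RingEquiv.refl k) (φ : F →+* M) h1 v
    have hu' : v.ring.comap ((σ.restrictScalars k : M →+* M).comp (φ : F →+* M)) = u.ring := by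
      rw [← hu]
      ext y
      rw [ValuationSubring.mem_comap, ValuationSubring.mem_comap]
      conv_lhs => rw [← hσ]
      exact unram_map_mem v (σ.restrictScalars k) (φ y)
    have hux : u.At x c := by
      rw [Place.At, u.vanishes_iff_or, ← hu, ValuationSubring.mem_comap]
      rw [Place.At, v.vanishes_iff_or] at hv
      rcases hv with hv | hv
      · left
        apply (φ : F →+* M).injective
        rw [map_sub, map_zero, h1]
        change φ x - _ = 0
        rw [hφ]
        exact hv
      · right
        rw [map_inv₀, map_sub, h1]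
        change (φ x - _)⁻¹ ∉ _
        rw [hφ]
        exact hv
    have h3 := taylor hF hM (RingEquiv.refl k) h1 h2 hu hu' (hun u hux) (by
      rw [RingHom.comp_apply]
      change φ x = σ.restrictScalars k (φ x)
      rw [hφ, hfix])
    have h4 := congrArg (fun ψ : F →+* M => ψ f) h3
    exact h4.symm
  choose π hπ using fun v : Place k M => exists_unif hM v
  let S : Finset (Place k M) :=
    Finset.univ.image (fun σ : M ≃ₐ[E] M => V.map (σ.restrictScalars k))
  have hinj : Function.Injective (fun σ : M ≃ₐ[E] M => V.map (σ.restrictScalars k)) := by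
    intro σ τ h
    have h1 : (V.map (σ.restrictScalars k)).map (τ⁻¹.restrictScalars k) = V := by
      simp only at h
      rw [h, Place.map_map]
      apply Place.ext
      ext y
      rw [Place.mem_map]
      have h2 : ((τ.restrictScalars k).trans (τ⁻¹.restrictScalars k)).symm y = y := by
        rw [AlgEquiv.symm_apply_eq]
        change y = τ⁻¹ (τ y)
        exact (τ.symm_apply_apply y).symm
      rw [h2]
    rw [Place.map_map] at h1
    have h2 : (σ.restrictScalars k).trans (τ⁻¹.restrictScalars k) =
        (τ⁻¹ * σ).restrictScalars k := rfl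
    rw [h2] at h1
    have h3 := hstab V hV _ h1
    exact (inv_mul_eq_one.1 h3).symm
  have hcard : S.card = Module.finrank E M := by
    rw [Finset.card_image_of_injective _ hinj, Finset.card_univ, ← Nat.card_eq_fintype_card,
      IsGalois.card_aut_eq_finrank]
  have hwinv : w⁻¹ ≠ 0 := inv_ne_zero hw0
  have hwt : Transcendental k w⁻¹ := fun h => hw (by simpa using h.inv)
  have key := pole_fund hM (w := w) (x := w⁻¹) rfl hw0 hw hwt S (by
    intro v hv
    obtain ⟨σ, -, rfl⟩ := Finset.mem_image.1 hv
    rw [Place.vanishes_map]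
    have h1 : (σ.restrictScalars k).symm w = w := by
      rw [AlgEquiv.symm_apply_eq, hfixw]
    rw [h1]
    exact hV) hπ (fun _ => 2) (by
    intro v hv
    obtain ⟨σ, -, rfl⟩ := Finset.mem_image.1 hv
    have h1 := unram_sq hw0 hV hn (hπ V)
    rw [← unram_map_mem V (σ.restrictScalars k), map_div₀, map_pow, hfixw] at h1
    have h2 := unram_unif_div (unram_map_unif (hπ V) (σ.restrictScalars k))
      (hπ (V.map (σ.restrictScalars k)))
    have h3 := mul_mem h1 (pow_mem h2 2)
    have h4 : (σ.restrictScalars k) (π V) ≠ 0 :=
      (unram_map_unif (hπ V) (σ.restrictScalars k)).1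
    have h5 : w / (σ.restrictScalars k) (π V) ^ 2 *
        ((σ.restrictScalars k) (π V) / π (V.map (σ.restrictScalars k))) ^ 2 =
        w / π (V.map (σ.restrictScalars k)) ^ 2 := by
      rw [div_pow, div_mul_div_comm, mul_comm w, mul_div_mul_left _ _ (pow_ne_zero 2 h4)]
    rw [h5] at h3
    exact h3)
  rw [Finset.sum_const, hcard, smul_eq_mul] at key
  have hE : IntermediateField.adjoin k {w⁻¹} = E := by
    apply le_antisymm
    · rw [IntermediateField.adjoin_simple_le_iff]
      exact inv_mem (sub_mem htE (E.algebraMap_mem c))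
    · change IntermediateField.adjoin k {t} ≤ _
      rw [IntermediateField.adjoin_simple_le_iff]
      have h1 : w⁻¹ ∈ IntermediateField.adjoin k {w⁻¹} :=
        IntermediateField.mem_adjoin_simple_self k _
      have h2 : t = (w⁻¹)⁻¹ + algebraMap k M c := by
        rw [inv_inv, hwdef, sub_add_cancel]
      rw [h2]
      exact add_mem (inv_mem h1) (IntermediateField.algebraMap_mem _ c)
  rw [hE] at key
  have hpos : 0 < Module.finrank E M := Module.finrank_pos
  omega

end

end Pool.Agent.Dess
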